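import Pool.Agent.Helper32.ZZ.Defs

/-! Module A : horizontal slices -/

open MeasureTheory Set Pointwise
open scoped ENNReal

namespace ZZ

theorem modA_convex_slice {G : Set (ℝ × ℝ)} (hG : Convex ℝ G) {y z₁ z₂ : ℝ} (h1 : (z₁, y) ∈ G)
    (h2 : (z₂, y) ∈ G) : Icc z₁ z₂ ⊆ (fun x => ((x, y) : ℝ × ℝ)) ⁻¹' G := by
  intro x hx
  rcases eq_or_lt_of_le (hx.1.trans hx.2) with h | h
  · have : x = z₁ := le_antisymm (h ▸ hx.2) hx.1
    subst this
    exact h1
  · have hd : 0 < z₂ - z₁ := by linarith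
    have h3 := hG h1 h2 (a := (z₂ - x) / (z₂ - z₁)) (b := (x - z₁) / (z₂ - z₁))
      (div_nonneg (by linarith [hx.2]) hd.le) (div_nonneg (by linarith [hx.1]) hd.le)
      (by field_simp; ring)
    have h4 : ((z₂ - x) / (z₂ - z₁)) • (z₁, y) + ((x - z₁) / (z₂ - z₁)) • (z₂, y) =
        ((x, y) : ℝ × ℝ) := by
      ext
      · simp
        field_simp
        ring
      · simp
        field_simp
        ring
    rw [h4] at h3
    exact h3

theorem modA_vol_abs (r : ℝ) : volume {y : ℝ | |y| ≤ r} = ENNReal.ofReal (2 * r) := by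
  have : {y : ℝ | |y| ≤ r} = Icc (-r) r := by
    ext y; simp [abs_le]
  rw [this, Real.volume_Icc]
  congr 1
  ring

theorem modA_lint (r c : ℝ) :
    ∫⁻ y : ℝ, ENNReal.ofReal (if |y| ≤ r then c else 0) = ENNReal.ofReal c * ENNReal.ofReal (2 * r) := by
  have hm : MeasurableSet {y : ℝ | |y| ≤ r} := measurableSet_le (by fun_prop) measurable_const
  have h1 : (fun y : ℝ => ENNReal.ofReal (if |y| ≤ r then c else 0)) =
      {y : ℝ | |y| ≤ r}.indicator (fun _ => ENNReal.ofReal c) := by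
    funext y
    by_cases h : |y| ≤ r
    · rw [Set.indicator_of_mem (show y ∈ {y : ℝ | |y| ≤ r} from h)]; simp [h]
    · rw [Set.indicator_of_notMem (show y ∉ {y : ℝ | |y| ≤ r} from h)]; simp [h]
  rw [h1, lintegral_indicator_const hm, modA_vol_abs]

theorem vol_le_slices (K E : Set (ℝ × ℝ)) (hK : IsCompact K) (hKc : Convex ℝ K) (hE : IsCompact E)
    (θ w χ : ℝ) (hθ : 0 < θ) (hw : 0 ≤ w) (hχ : 0 ≤ χ) (N : ℕ) (s L : ℕ → ℝ)
    (hs : ∀ k < N, 0 ≤ s k) (hL : ∀ k < N, 0 ≤ L k) (hχs : χ ≤ ∑ k ∈ Finset.range N, s k)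
    (h : ∀ y x₁ x₂, (x₁, y) ∈ E → (x₂, y) ∈ E → ∃ z₁ z₂, (z₁, y) ∈ (1 + θ) • K ∧ (z₂, y) ∈ (1 + θ) • K ∧
      x₂ - x₁ + (if |y| ≤ θ * w then χ else 0) ≤
        (∑ k ∈ Finset.range N, if |y| ≤ θ * w + L k then s k else 0) + (z₂ - z₁)) :
    volume E + ENNReal.ofReal (2 * θ * w * χ) ≤
      ENNReal.ofReal (∑ k ∈ Finset.range N, s k * (2 * θ * w + 2 * L k)) +
        ENNReal.ofReal ((1 + θ) ^ 2) * volume K := by
  have hGc : IsCompact ((1 + θ) • K) := hK.smul _
  have hGconv : Convex ℝ ((1 + θ) • K) := hKc.smul _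
  have hGvol : volume ((1 + θ) • K) = ENNReal.ofReal ((1 + θ) ^ 2) * volume K := by
    rw [Measure.addHaar_smul]
    congr 2
    rw [Module.finrank_prod, Module.finrank_self, abs_of_nonneg (by positivity)]
  rw [← hGvol]
  -- pointwise inequality
  have key : ∀ y : ℝ, volume ((fun x => ((x, y) : ℝ × ℝ)) ⁻¹' E) +
      ENNReal.ofReal (if |y| ≤ θ * w then χ else 0) ≤
      (∑ k ∈ Finset.range N, ENNReal.ofReal (if |y| ≤ θ * w + L k then s k else 0)) +
        volume ((fun x => ((x, y) : ℝ × ℝ)) ⁻¹' ((1 + θ) • K)) := by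
    intro y
    have hsum0 : ∀ k ∈ Finset.range N, 0 ≤ (if |y| ≤ θ * w + L k then s k else 0) := by
      intro k hk
      split_ifs
      · exact hs k (Finset.mem_range.1 hk)
      · exact le_rfl
    have hcont : Continuous (fun x : ℝ => ((x, y) : ℝ × ℝ)) := by fun_prop
    rcases ((fun x : ℝ => ((x, y) : ℝ × ℝ)) ⁻¹' E).eq_empty_or_nonempty with he | hne
    · rw [he, measure_empty, zero_add]
      refine le_trans ?_ le_self_add
      by_cases hy : |y| ≤ θ * w
      · rw [if_pos hy, ← ENNReal.ofReal_sum_of_nonneg hsum0]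
        apply ENNReal.ofReal_le_ofReal
        refine hχs.trans (le_of_eq ?_)
        apply Finset.sum_congr rfl
        intro k hk
        rw [if_pos]
        have := hL k (Finset.mem_range.1 hk)
        linarith
      · rw [if_neg hy]; simp
    · have hcl : IsClosed ((fun x : ℝ => ((x, y) : ℝ × ℝ)) ⁻¹' E) := hE.isClosed.preimage hcont
      have hcomp : IsCompact ((fun x : ℝ => ((x, y) : ℝ × ℝ)) ⁻¹' E) := by
        refine IsCompact.of_isClosed_subset (hE.image continuous_fst) hcl ?_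
        intro x hx
        exact ⟨(x, y), hx, rfl⟩
      obtain ⟨x₁, hx1, hmin⟩ := hcomp.exists_isMinOn hne continuousOn_id
      obtain ⟨x₂, hx2, hmax⟩ := hcomp.exists_isMaxOn hne continuousOn_id
      have hsub : ((fun x : ℝ => ((x, y) : ℝ × ℝ)) ⁻¹' E) ⊆ Icc x₁ x₂ :=
        fun x hx => ⟨hmin hx, hmax hx⟩
      have hle : x₁ ≤ x₂ := hmin hx2
      obtain ⟨z₁, z₂, hz1, hz2, hz⟩ := h y x₁ x₂ hx1 hx2
      have hsubG := modA_convex_slice hGconv hz1 hz2
      have hχ0 : 0 ≤ (if |y| ≤ θ * w then χ else 0) := by split_ifs <;> simp [hχ]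
      calc volume ((fun x => ((x, y) : ℝ × ℝ)) ⁻¹' E) + ENNReal.ofReal (if |y| ≤ θ * w then χ else 0)
          ≤ ENNReal.ofReal (x₂ - x₁) + ENNReal.ofReal (if |y| ≤ θ * w then χ else 0) := by
            gcongr
            rw [← Real.volume_Icc]
            exact measure_mono hsub
        _ = ENNReal.ofReal (x₂ - x₁ + (if |y| ≤ θ * w then χ else 0)) :=
            (ENNReal.ofReal_add (by linarith) hχ0).symm
        _ ≤ ENNReal.ofReal ((∑ k ∈ Finset.range N, if |y| ≤ θ * w + L k then s k else 0) +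
              (z₂ - z₁)) := ENNReal.ofReal_le_ofReal hz
        _ ≤ ENNReal.ofReal (∑ k ∈ Finset.range N, if |y| ≤ θ * w + L k then s k else 0) +
              ENNReal.ofReal (z₂ - z₁) := ENNReal.ofReal_add_le
        _ ≤ _ := by
            rw [ENNReal.ofReal_sum_of_nonneg hsum0]
            gcongr
            rw [← Real.volume_Icc]
            exact measure_mono hsubG
  -- integrate
  have hE1 : volume E = ∫⁻ y : ℝ, volume ((fun x => ((x, y) : ℝ × ℝ)) ⁻¹' E) := by
    rw [Measure.volume_eq_prod, Measure.prod_apply_symm hE.isClosed.measurableSet]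
  have hG1 : volume ((1 + θ) • K) =
      ∫⁻ y : ℝ, volume ((fun x => ((x, y) : ℝ × ℝ)) ⁻¹' ((1 + θ) • K)) := by
    rw [Measure.volume_eq_prod, Measure.prod_apply_symm hGc.isClosed.measurableSet]
  have hmeasE : Measurable (fun y : ℝ => volume ((fun x => ((x, y) : ℝ × ℝ)) ⁻¹' E)) :=
    measurable_measure_prodMk_right hE.isClosed.measurableSet
  have hmeas : ∀ r c : ℝ, Measurable (fun y : ℝ => ENNReal.ofReal (if |y| ≤ r then c else 0)) := by
    intro r c
    apply ENNReal.measurable_ofReal.comp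
    exact Measurable.ite (measurableSet_le (by fun_prop) measurable_const) measurable_const
      measurable_const
  have hint := lintegral_mono (μ := (volume : Measure ℝ)) key
  rw [lintegral_add_left hmeasE, ← hE1, modA_lint, lintegral_add_left, ← hG1] at hint
  · have h5 : ENNReal.ofReal (2 * θ * w * χ) = ENNReal.ofReal χ * ENNReal.ofReal (2 * (θ * w)) := by
      rw [← ENNReal.ofReal_mul hχ]; congr 1; ring
    have h6 : (∫⁻ y : ℝ, ∑ k ∈ Finset.range N,
        ENNReal.ofReal (if |y| ≤ θ * w + L k then s k else 0)) =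
        ENNReal.ofReal (∑ k ∈ Finset.range N, s k * (2 * θ * w + 2 * L k)) := by
      rw [lintegral_finsetSum _ fun k _ => hmeas _ _, ENNReal.ofReal_sum_of_nonneg]
      · apply Finset.sum_congr rfl
        intro k hk
        rw [modA_lint, ← ENNReal.ofReal_mul (hs k (Finset.mem_range.1 hk))]
        congr 1
        ring
      · intro k hk
        have h7 := hs k (Finset.mem_range.1 hk)
        have h8 := hL k (Finset.mem_range.1 hk)
        positivity
    rw [h5, ← h6]
    exact hint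
  · exact Finset.measurable_fun_sum _ fun k _ => hmeas _ _

theorem modA_smul_mem {K : Set (ℝ × ℝ)} (hKc : Convex ℝ K) {θ : ℝ} (hθ : 0 < θ) {a k : ℝ × ℝ}
    (ha : a ∈ K) (hk : k ∈ K) : a + θ • k ∈ (1 + θ) • K := by
  have h1 : (0 : ℝ) < 1 + θ := by linarith
  rw [Set.mem_smul_set]
  refine ⟨(1 / (1 + θ)) • a + (θ / (1 + θ)) • k, ?_, ?_⟩
  · exact hKc ha hk (by positivity) (by positivity) (by field_simp)
  · rw [smul_add, smul_smul, smul_smul]
    congr 1
    · rw [mul_one_div_cancel h1.ne', one_smul]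
    · congr 1
      field_simp

theorem modA_mono {N : ℕ} {ξ : ℕ → ℝ} (hξ : ∀ k < N, ξ k ≤ ξ (k + 1)) {i j : ℕ} (hij : i ≤ j)
    (hj : j ≤ N) : ξ i ≤ ξ j := by
  induction j, hij using Nat.le_induction with
  | base => exact le_rfl
  | succ n hn ih => exact (ih (by omega)).trans (hξ n (by omega))

theorem modA_isClosed_tr {K : Set (ℝ × ℝ)} (hK : IsCompact K) (x : ℝ) : IsClosed (tr x K) := by
  have : tr x K = (fun p : ℝ × ℝ => (p.1 - x, p.2)) ⁻¹' K := rfl
  rw [this]
  exact hK.isClosed.preimage (by fun_prop)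

theorem slice_HS (K D : Set (ℝ × ℝ)) (hK : IsCompact K) (hKc : Convex ℝ K)
    (hD : IsCompact D) (hDc : Convex ℝ D) (N : ℕ) (ξ : ℕ → ℝ)
    (hξ : ∀ k < N, ξ k ≤ ξ (k + 1)) (hcov : ∀ p ∈ D, ∃ i ≤ N, p ∈ tr (ξ i) K)
    (θ w : ℝ) (hθ : 0 < θ) (hw : ∀ p ∈ K, |p.2| ≤ w) (L : ℕ → ℝ)
    (hL : ∀ k < N, ∀ p ∈ D, (∃ i ≤ k, p ∈ tr (ξ i) K) → (∃ j, k < j ∧ j ≤ N ∧ p ∈ tr (ξ j) K) →
      |p.2| ≤ L k)
    (y x₁ x₂ : ℝ) (h1 : (x₁, y) ∈ D + θ • K) (h2 : (x₂, y) ∈ D + θ • K) :
    ∃ z₁ z₂, (z₁, y) ∈ (1 + θ) • K ∧ (z₂, y) ∈ (1 + θ) • K ∧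
      x₂ - x₁ ≤ (∑ k ∈ Finset.range N, open Classical in
        if Used K ξ N D k ∧ |y| ≤ θ * w + L k then ξ (k + 1) - ξ k else 0) + (z₂ - z₁) := by
  classical
  obtain ⟨d1, hd1, e1, he1, hde1⟩ := Set.mem_add.1 h1
  obtain ⟨d2, hd2, e2, he2, hde2⟩ := Set.mem_add.1 h2
  obtain ⟨k1, hk1, rfl⟩ := Set.mem_smul_set.1 he1
  obtain ⟨k2, hk2, rfl⟩ := Set.mem_smul_set.1 he2
  obtain ⟨i, hi, hi'⟩ := hcov d1 hd1
  obtain ⟨j, hj, hj'⟩ := hcov d2 hd2
  have hx1 : d1.1 + θ * k1.1 = x₁ := by have := congrArg Prod.fst hde1; simpa using this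
  have hy1 : d1.2 + θ * k1.2 = y := by have := congrArg Prod.snd hde1; simpa using this
  have hx2 : d2.1 + θ * k2.1 = x₂ := by have := congrArg Prod.fst hde2; simpa using this
  have hy2 : d2.2 + θ * k2.2 = y := by have := congrArg Prod.snd hde2; simpa using this
  have hsum0 : ∀ k ∈ Finset.range N,
      0 ≤ (if Used K ξ N D k ∧ |y| ≤ θ * w + L k then ξ (k + 1) - ξ k else 0) := by
    intro k hk
    split_ifs
    · have := hξ k (Finset.mem_range.1 hk); linarith
    · exact le_rfl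
  refine ⟨x₁ - ξ i, x₂ - ξ j, ?_, ?_, ?_⟩
  · have h3 := modA_smul_mem hKc hθ hi' hk1
    have h4 : ((d1.1 - ξ i, d1.2) : ℝ × ℝ) + θ • k1 = (x₁ - ξ i, y) := by
      ext
      · simp; linarith
      · simp; linarith
    rw [h4] at h3
    exact h3
  · have h3 := modA_smul_mem hKc hθ hj' hk2
    have h4 : ((d2.1 - ξ j, d2.2) : ℝ × ℝ) + θ • k2 = (x₂ - ξ j, y) := by
      ext
      · simp; linarith
      · simp; linarith
    rw [h4] at h3
    exact h3
  · suffices hmain : ξ j - ξ i ≤ ∑ k ∈ Finset.range N,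
        if Used K ξ N D k ∧ |y| ≤ θ * w + L k then ξ (k + 1) - ξ k else 0 by linarith
    rcases le_or_gt j i with hji | hij
    · have h3 := modA_mono hξ hji hi
      have h4 := Finset.sum_nonneg hsum0
      linarith
    · have h3 : ξ j - ξ i = ∑ k ∈ Finset.Ico i j, (ξ (k + 1) - ξ k) :=
        (Finset.sum_Ico_sub _ hij.le).symm
      rw [h3]
      have h4 : ∑ k ∈ Finset.Ico i j, (ξ (k + 1) - ξ k) = ∑ k ∈ Finset.Ico i j,
          (if Used K ξ N D k ∧ |y| ≤ θ * w + L k then ξ (k + 1) - ξ k else 0) := by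
        apply Finset.sum_congr rfl
        intro k hk
        rw [Finset.mem_Ico] at hk
        have hkN : k < N := by omega
        -- a common point on the segment
        obtain ⟨A, hA⟩ : ∃ A : Set (ℝ × ℝ), A = ⋃ a ∈ Finset.range (k + 1), tr (ξ a) K := ⟨_, rfl⟩
        obtain ⟨B, hB⟩ : ∃ B : Set (ℝ × ℝ), B = ⋃ b ∈ Finset.Ioc k N, tr (ξ b) K := ⟨_, rfl⟩
        have hAc : IsClosed A := by
          rw [hA]
          exact isClosed_biUnion_finset fun a _ => modA_isClosed_tr hK _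
        have hBc : IsClosed B := by
          rw [hB]
          exact isClosed_biUnion_finset fun a _ => modA_isClosed_tr hK _
        have hmemA : ∀ p, p ∈ A ↔ ∃ a ≤ k, p ∈ tr (ξ a) K := by
          intro p
          rw [hA]
          simp
        have hmemB : ∀ p, p ∈ B ↔ ∃ b, k < b ∧ b ≤ N ∧ p ∈ tr (ξ b) K := by
          intro p
          rw [hB]
          simp [and_assoc]
        have hsegD : segment ℝ d1 d2 ⊆ D := hDc.segment_subset hd1 hd2
        have hpre : IsPreconnected (segment ℝ d1 d2) := (convex_segment d1 d2).isPreconnected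
        have hcovAB : segment ℝ d1 d2 ⊆ A ∪ B := by
          intro p hp
          obtain ⟨a, ha, hap⟩ := hcov p (hsegD hp)
          rcases le_or_gt a k with h | h
          · exact Or.inl ((hmemA p).2 ⟨a, h, hap⟩)
          · exact Or.inr ((hmemB p).2 ⟨a, h, ha, hap⟩)
        obtain ⟨p, hps, hpA, hpB⟩ := isPreconnected_closed_iff.1 hpre A B hAc hBc hcovAB
          ⟨d1, left_mem_segment ℝ d1 d2, (hmemA d1).2 ⟨i, by omega, hi'⟩⟩
          ⟨d2, right_mem_segment ℝ d1 d2, (hmemB d2).2 ⟨j, by omega, hj, hj'⟩⟩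
        have hpA' := (hmemA p).1 hpA
        have hpB' := (hmemB p).1 hpB
        have hpD := hsegD hps
        have hused : Used K ξ N D k := ⟨p, hpD, hpA', hpB'⟩
        have hpL := abs_le.1 (hL k hkN p hpD hpA' hpB')
        have hw1 := abs_le.1 (hw k1 hk1)
        have hw2 := abs_le.1 (hw k2 hk2)
        have hθ1 : θ * k1.2 ≤ θ * w := mul_le_mul_of_nonneg_left hw1.2 hθ.le
        have hθ2 : θ * k2.2 ≤ θ * w := mul_le_mul_of_nonneg_left hw2.2 hθ.le
        have hθ3 : θ * (-w) ≤ θ * k1.2 := mul_le_mul_of_nonneg_left hw1.1 hθ.le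
        have hθ4 : θ * (-w) ≤ θ * k2.2 := mul_le_mul_of_nonneg_left hw2.1 hθ.le
        have hy : |y| ≤ θ * w + L k := by
          obtain ⟨u, v, hu, hv, huv, rfl⟩ := hps
          simp only [Prod.snd_add, Prod.smul_snd, smul_eq_mul] at hpL
          rw [abs_le]
          constructor
          · by_contra hcon
            push Not at hcon
            have h5 : d1.2 < -(L k) := by linarith
            have h6 : d2.2 < -(L k) := by linarith
            have h7 : u * d1.2 + v * d2.2 < -(L k) := by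
              have hu' : u = 1 - v := by linarith
              subst hu'
              rcases eq_or_lt_of_le hv with h8 | h8
              · rw [← h8]; linarith
              · nlinarith
            linarith [hpL.1]
          · by_contra hcon
            push Not at hcon
            have h5 : L k < d1.2 := by linarith
            have h6 : L k < d2.2 := by linarith
            have h7 : L k < u * d1.2 + v * d2.2 := by
              have hu' : u = 1 - v := by linarith
              subst hu'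
              rcases eq_or_lt_of_le hv with h8 | h8
              · rw [← h8]; linarith
              · nlinarith
            linarith [hpL.2]
        rw [if_pos ⟨hused, hy⟩]
      rw [h4]
      apply Finset.sum_le_sum_of_subset_of_nonneg
      · intro k hk
        rw [Finset.mem_Ico] at hk
        rw [Finset.mem_range]
        omega
      · intro k hk _
        exact hsum0 k hk

theorem HS (K D : Set (ℝ × ℝ)) (hK : IsCompact K) (hKc : Convex ℝ K) (hKs : ∀ p ∈ K, -p ∈ K)
    (hKne : K.Nonempty) (hD : IsCompact D) (hDc : Convex ℝ D) (N : ℕ) (ξ : ℕ → ℝ)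
    (hξ : ∀ k < N, ξ k ≤ ξ (k + 1)) (hcov : ∀ p ∈ D, ∃ i ≤ N, p ∈ tr (ξ i) K)
    (θ w : ℝ) (hθ : 0 < θ) (hw : ∀ p ∈ K, |p.2| ≤ w) :
    ∃ L : ℕ → ℝ, (∀ k < N, Used K ξ N D k →
        0 ≤ L k ∧ ∃ p ∈ K, (p.1 - (ξ (k + 1) - ξ k), p.2) ∈ K ∧ p.2 = L k) ∧
      volume (D + θ • K) ≤
        ENNReal.ofReal (∑ k ∈ Finset.range N,
          open Classical in if Used K ξ N D k then (ξ (k + 1) - ξ k) * (2 * θ * w + 2 * L k) else 0) +
        ENNReal.ofReal ((1 + θ) ^ 2) * volume K := by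
  classical
  obtain ⟨k₀, hk₀⟩ := hKne
  have hw0 : 0 ≤ w := (abs_nonneg _).trans (hw k₀ hk₀)
  -- the highest point of the lens
  have hex : ∀ k : ℕ, ∃ l : ℝ, 0 ≤ l ∧ (k < N → Used K ξ N D k →
      (∃ p ∈ K, (p.1 - (ξ (k + 1) - ξ k), p.2) ∈ K ∧ p.2 = l) ∧
      ∀ p ∈ D, (∃ i ≤ k, p ∈ tr (ξ i) K) → (∃ j, k < j ∧ j ≤ N ∧ p ∈ tr (ξ j) K) → |p.2| ≤ l) := by
    intro k
    by_cases hu : k < N ∧ Used K ξ N D k
    · obtain ⟨hkN, hu⟩ := hu
      obtain ⟨S, hS⟩ : ∃ S : Set (ℝ × ℝ), S = {p | p ∈ K ∧ (p.1 - (ξ (k + 1) - ξ k), p.2) ∈ K} :=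
        ⟨_, rfl⟩
      have hSc : IsCompact S := by
        have : S = K ∩ (fun p : ℝ × ℝ => (p.1 - (ξ (k + 1) - ξ k), p.2)) ⁻¹' K := by
          rw [hS]; rfl
        rw [this]
        exact hK.inter_right (hK.isClosed.preimage (by fun_prop))
      -- points of `D` in both unions give points of `S`
      have hmem : ∀ p : ℝ × ℝ, (∃ i ≤ k, p ∈ tr (ξ i) K) →
          (∃ j, k < j ∧ j ≤ N ∧ p ∈ tr (ξ j) K) → (p.1 - ξ k, p.2) ∈ S := by
        rintro p ⟨i, hik, hi⟩ ⟨j, hkj, hjN, hj⟩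
        have h1 : ξ i ≤ ξ k := modA_mono hξ hik hkN.le
        have h2 : ξ k ≤ ξ (k + 1) := hξ k hkN
        have h3 : ξ (k + 1) ≤ ξ j := modA_mono hξ hkj hjN
        have h4 : Icc (p.1 - ξ j) (p.1 - ξ i) ⊆ (fun x => ((x, p.2) : ℝ × ℝ)) ⁻¹' K :=
          modA_convex_slice hKc hj hi
        rw [hS]
        refine ⟨h4 ⟨by linarith, by linarith⟩, ?_⟩
        have h5 : p.1 - ξ k - (ξ (k + 1) - ξ k) = p.1 - ξ (k + 1) := by ring
        change ((p.1 - ξ k - (ξ (k + 1) - ξ k), p.2) : ℝ × ℝ) ∈ K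
        rw [h5]
        exact h4 ⟨by linarith, by linarith⟩
      have hsymm : ∀ p ∈ S, ((ξ (k + 1) - ξ k) - p.1, -p.2) ∈ S := by
        intro p hp
        rw [hS] at hp ⊢
        refine ⟨?_, ?_⟩
        · have h1 := hKs _ hp.2
          have h2 : -((p.1 - (ξ (k + 1) - ξ k), p.2) : ℝ × ℝ) = ((ξ (k + 1) - ξ k) - p.1, -p.2) := by
            ext
            · simp
            · simp
          rw [h2] at h1
          exact h1
        · have h1 := hKs _ hp.1
          have h2 : -p = ((((ξ (k + 1) - ξ k) - p.1, -p.2) : ℝ × ℝ).1 - (ξ (k + 1) - ξ k),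
              (((ξ (k + 1) - ξ k) - p.1, -p.2) : ℝ × ℝ).2) := by
            ext
            · simp
            · simp
          rw [h2] at h1
          exact h1
      have hSne : S.Nonempty := by
        obtain ⟨p, _, hp1, hp2⟩ := hu
        exact ⟨_, hmem p hp1 hp2⟩
      obtain ⟨q, hq, hqmax⟩ := hSc.exists_isMaxOn hSne continuous_snd.continuousOn
      have habs : ∀ p ∈ S, |p.2| ≤ q.2 := by
        intro p hp
        rw [abs_le]
        constructor
        · have h1 : -p.2 ≤ q.2 := hqmax (hsymm p hp)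
          linarith
        · exact hqmax hp
      refine ⟨q.2, (abs_nonneg _).trans (habs q hq), fun _ _ => ⟨?_, ?_⟩⟩
      · rw [hS] at hq
        exact ⟨q, hq.1, hq.2, rfl⟩
      · intro p _ hp1 hp2
        have h6 := habs _ (hmem p hp1 hp2)
        exact h6
    · refine ⟨0, le_rfl, fun h1 h2 => absurd ⟨h1, h2⟩ hu⟩
  choose L hL0 hL using hex
  refine ⟨L, fun k hk hu => ⟨hL0 k, (hL k hk hu).1⟩, ?_⟩
  have h3 := vol_le_slices K (D + θ • K) hK hKc (hD.add (hK.smul _)) θ w 0 hθ hw0 le_rfl N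
    (fun k => if Used K ξ N D k then ξ (k + 1) - ξ k else 0) L
    (fun k hk => by
      split_ifs
      · have := hξ k hk; linarith
      · exact le_rfl)
    (fun k _ => hL0 k)
    (Finset.sum_nonneg fun k hk => by
      split_ifs
      · have := hξ k (Finset.mem_range.1 hk); linarith
      · exact le_rfl)
    (by
      intro y x₁ x₂ h1 h2
      obtain ⟨z₁, z₂, hz1, hz2, hz⟩ := slice_HS K D hK hKc hD hDc N ξ hξ hcov θ w hθ hw L
        (fun k hk p hp h4 h5 => (hL k hk ⟨p, hp, h4, h5⟩).2 p hp h4 h5) y x₁ x₂ h1 h2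
      refine ⟨z₁, z₂, hz1, hz2, ?_⟩
      rw [ite_self, add_zero]
      refine hz.trans (le_of_eq ?_)
      congr 1
      apply Finset.sum_congr rfl
      intro k _
      by_cases h4 : Used K ξ N D k <;> by_cases h5 : |y| ≤ θ * w + L k <;> simp [h4, h5])
  rw [mul_zero, ENNReal.ofReal_zero, add_zero] at h3
  refine h3.trans (le_of_eq ?_)
  congr 2
  apply Finset.sum_congr rfl
  intro k _
  by_cases h4 : Used K ξ N D k <;> simp [h4]

end ZZ
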