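import Pool.Agent.Helper32.ZZ.Defs

/-!
Module H1 for MP_f8fc30_co: tangent bounds for the end functions and the area of the right end.
-/

open MeasureTheory Set Pointwise
open scoped ENNReal

namespace ZZ

theorem modH1_cont {R : ℝ → ℝ} (hl : ∀ s t, |R s - R t| ≤ 1.001 * |s - t|) : Continuous R := by
  refine (LipschitzWith.of_dist_le_mul (K := ⟨1.001, by norm_num⟩) ?_).continuous
  intro x y
  rw [Real.dist_eq, Real.dist_eq]
  exact hl x y

/-- trapezoid lower bound for a concave function -/
theorem modH1_trap {R : ℝ → ℝ} (hc : ConcaveOn ℝ univ R) (hcont : Continuous R) (t m : ℝ)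
    (htm : t ≤ m) : (m - t) * ((R t + R m) / 2) ≤ ∫ y in t..m, R y := by
  have h1 : ∫ y in t..m, R (t + m - y) = ∫ y in t..m, R y := by
    rw [intervalIntegral.integral_comp_sub_left (fun y => R y) (t + m)]
    congr 1 <;> ring
  have hint : IntervalIntegrable R volume t m := hcont.intervalIntegrable _ _
  have hint2 : IntervalIntegrable (fun y => R (t + m - y)) volume t m :=
    (hcont.comp (continuous_const.sub continuous_id)).intervalIntegrable _ _
  have h2 : ∫ y in t..m, (R t + R m) ≤ ∫ y in t..m, (R y + R (t + m - y)) := by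
    apply intervalIntegral.integral_mono_on htm
    · exact continuous_const.intervalIntegrable _ _
    · exact hint.add hint2
    · intro y hy
      rcases eq_or_lt_of_le htm with h | h
      · subst h
        have : y = t := le_antisymm hy.2 hy.1
        subst this
        have e : y + y - y = y := by ring
        rw [e]
      · have hpos : 0 < m - t := by linarith
        have q1 : 0 ≤ (m - y) / (m - t) := div_nonneg (by linarith [hy.2]) hpos.le
        have q2 : 0 ≤ (y - t) / (m - t) := div_nonneg (by linarith [hy.1]) hpos.le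
        have c1 := hc.2 (mem_univ t) (mem_univ m) q1 q2 (by field_simp; ring)
        have c2 := hc.2 (mem_univ t) (mem_univ m) q2 q1 (by field_simp; ring)
        simp only [smul_eq_mul] at c1 c2
        have e1 : (m - y) / (m - t) * t + (y - t) / (m - t) * m = y := by field_simp; ring
        have e2 : (y - t) / (m - t) * t + (m - y) / (m - t) * m = t + m - y := by
          field_simp; ring
        rw [e1] at c1
        rw [e2] at c2
        have e3 : (m - y) / (m - t) * R t + (y - t) / (m - t) * R m +
            ((y - t) / (m - t) * R t + (m - y) / (m - t) * R m) = R t + R m := by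
          field_simp; ring
        linarith
  rw [intervalIntegral.integral_add hint hint2, h1, intervalIntegral.integral_const,
    smul_eq_mul] at h2
  linarith

theorem modH1_psi_nonneg (a : ℝ) : 0 ≤ psi a := by
  unfold psi
  exact le_min (by positivity) (by positivity)

theorem modH1_tangent {R : ℝ → ℝ} (hc : ConcaveOn ℝ univ R) (hcont : Continuous R) {W m α : ℝ}
    (hW : 9999 ≤ W) (_hm0 : 0.1 ≤ m) (hm1 : m ≤ 0.5) (hα0 : 0 ≤ α) (hα1 : α ≤ 0.08)
    (up : ∀ a, R (m + a) ≤ R m - α * a - psi a) (t : ℝ) (h1 : -2000 ≤ t) (h2 : t ≤ 7000) :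
    eP R W t ≤ eP R W m + (21 * R m - 20 * α * (W - m)) * (t - m) := by
  have hi : ∀ a b : ℝ, IntervalIntegrable R volume a b := fun a b => hcont.intervalIntegrable a b
  have e1 : (∫ y in (0:ℝ)..t, R y) = (∫ y in (0:ℝ)..m, R y) + ∫ y in m..t, R y :=
    (intervalIntegral.integral_add_adjacent_intervals (hi _ _) (hi _ _)).symm
  have e2 : (∫ y in m..W, R y) = (∫ y in m..t, R y) + ∫ y in t..W, R y :=
    (intervalIntegral.integral_add_adjacent_intervals (hi _ _) (hi _ _)).symm
  unfold eP
  rw [e1, e2]
  rcases le_total m t with hmt | htm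
  · obtain ⟨a, ha⟩ : ∃ a, a = t - m := ⟨_, rfl⟩
    have ha0 : 0 ≤ a := by linarith
    have hint : (∫ y in m..t, R y) ≤ a * R m - α * a ^ 2 / 2 := by
      have h3 : (∫ y in m..t, R y) ≤ ∫ y in m..t, ((R m + α * m) - α * y) := by
        apply intervalIntegral.integral_mono_on hmt (hi _ _)
        · exact (by fun_prop : Continuous fun y : ℝ => (R m + α * m) - α * y).intervalIntegrable _ _
        · intro y _
          have := up (y - m)
          have hp := modH1_psi_nonneg (y - m)
          have e : m + (y - m) = y := by ring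
          rw [e] at this
          linarith
      have h4 : ∫ y in m..t, ((R m + α * m) - α * y) = a * R m - α * a ^ 2 / 2 := by
        have hcy : Continuous fun y : ℝ => α * y := by fun_prop
        rw [intervalIntegral.integral_sub (continuous_const.intervalIntegrable _ _)
          (hcy.intervalIntegrable _ _),
          intervalIntegral.integral_const, intervalIntegral.integral_const_mul, integral_id,
          smul_eq_mul, ha]
        ring
      linarith
    have hRt : R t ≤ R m - α * a := by
      have := up a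
      have hp := modH1_psi_nonneg a
      have e : m + a = t := by linarith
      rw [e] at this
      linarith
    have hWt : 0 ≤ W - t := by linarith
    have h5 : R t * (W - t) ≤ (R m - α * a) * (W - t) := mul_le_mul_of_nonneg_right hRt hWt
    have ht : t = m + a := by linarith
    have h6 : (R m - α * a) * (W - t) = R m * (W - m) - a * R m - α * a * (W - m) + α * a ^ 2 := by
      rw [ht]; ring
    have h7 : 0 ≤ α * a ^ 2 := by positivity
    have h8 : t - m = a := by linarith
    rw [h8]
    nlinarith
  · obtain ⟨a, ha⟩ : ∃ a, a = m - t := ⟨_, rfl⟩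
    have ha0 : 0 ≤ a := by linarith
    have ha1 : a ≤ 2001 := by linarith
    have hint : a * ((R t + R m) / 2) ≤ -∫ y in m..t, R y := by
      rw [← intervalIntegral.integral_symm, ha]
      exact modH1_trap hc hcont t m htm
    have ht : t = m - a := by linarith
    have h8 : t - m = -a := by linarith
    rw [h8]
    rcases le_total (R m) (R t) with hR | hR
    · have hRt : R t ≤ R m + α * a - psi a := by
        have := up (-a)
        have e : m + -a = t := by linarith
        rw [e] at this
        have e2 : psi (-a) = psi a := by unfold psi; rw [neg_sq, abs_neg]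
        rw [e2] at this
        linarith
      have hWt : 0 ≤ W - t := by linarith
      have hψ : α * a ^ 2 ≤ psi a * (W - t) := by
        have hWt2 : 9998 ≤ W - t := by linarith
        unfold psi
        rw [abs_of_nonneg ha0]
        rcases min_cases (a ^ 2 / 20) (a / 4) with ⟨e, _⟩ | ⟨e, _⟩ <;> rw [e]
        · have : a ^ 2 / 20 * 9998 ≤ a ^ 2 / 20 * (W - t) :=
            mul_le_mul_of_nonneg_left hWt2 (by positivity)
          nlinarith [sq_nonneg a]
        · have : a / 4 * 9998 ≤ a / 4 * (W - t) :=
            mul_le_mul_of_nonneg_left hWt2 (by positivity)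
          nlinarith [mul_nonneg ha0 (sub_nonneg.2 ha1)]
      have h5 : R t * (W - t) ≤ (R m + α * a - psi a) * (W - t) :=
        mul_le_mul_of_nonneg_right hRt hWt
      have h6 : (R m + α * a - psi a) * (W - t) =
          R m * (W - m) + a * R m + α * a * (W - m) + α * a ^ 2 - psi a * (W - t) := by
        rw [ht]; ring
      have h7 : a * R m ≤ a * ((R t + R m) / 2) := mul_le_mul_of_nonneg_left (by linarith) ha0
      nlinarith
    · have h5 : R t * (W - t) = R t * (W - m) + a * R t := by rw [ht]; ring
      have h6 : (R m - R t) * 9998 ≤ (R m - R t) * (W - m) :=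
        mul_le_mul_of_nonneg_left (by linarith) (by linarith)
      have h7 : a * (R m - R t) ≤ 2001 * (R m - R t) :=
        mul_le_mul_of_nonneg_right ha1 (by linarith)
      have h9 : 0 ≤ α * a * (W - m) := mul_nonneg (mul_nonneg hα0 ha0) (by linarith)
      nlinarith

theorem eP_tangent {R : ℝ → ℝ} {W c m α β : ℝ} (h : Hyp R W c m α β) (t : ℝ) (h1 : -2000 ≤ t)
    (h2 : t ≤ 7000) : eP R W t ≤ eP R W m + SP R W m α * (t - m) :=
  modH1_tangent h.conc (modH1_cont h.lip) h.W_lo h.m_lo h.m_hi (by linarith [h.α_lo]) h.α_hi h.up1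
    t h1 h2

theorem eM_tangent {R : ℝ → ℝ} {W c m α β : ℝ} (h : Hyp R W c m α β) (t : ℝ) (h1 : -2000 ≤ t)
    (h2 : t ≤ 7000) : eM R W t ≤ eM R W m + SM R W m β * (t - m) := by
  have hc : ConcaveOn ℝ univ fun y => R (-y) := by
    refine ⟨convex_univ, fun x _ y _ a b ha hb hab => ?_⟩
    have := h.conc.2 (mem_univ (-x)) (mem_univ (-y)) ha hb hab
    simp only [smul_eq_mul] at this ⊢
    have e : -(a * x + b * y) = a * -x + b * -y := by ring
    rw [e]; exact this
  refine modH1_tangent (R := fun y => R (-y)) hc ((modH1_cont h.lip).comp continuous_neg) h.W_lo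
    h.m_lo h.m_hi (by linarith [h.β_lo]) h.β_hi ?_ t h1 h2
  intro a
  have := h.up2 a
  have e : -(m + a) = -m - a := by ring
  rw [e]; exact this

/-! ### the right end -/

/-- majorisation for a concave function -/
theorem modH1_major {R : ℝ → ℝ} (hc : ConcaveOn ℝ univ R) {s t u v : ℝ} (hst : s ≤ t) (htu : t ≤ u)
    (huv : u ≤ v) (hsum : s + 20 * v = t + 20 * u) : R s + 20 * R v ≤ R t + 20 * R u := by
  rcases eq_or_lt_of_le (hst.trans (htu.trans huv)) with h | h
  · have : t = s := by linarith
    have h2 : u = v := by linarith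
    rw [this, h2]
  · have hpos : 0 < v - s := by linarith
    have q1 : 0 ≤ (v - t) / (v - s) := div_nonneg (by linarith) hpos.le
    have q2 : 0 ≤ (t - s) / (v - s) := div_nonneg (by linarith) hpos.le
    have q3 : 0 ≤ (v - u) / (v - s) := div_nonneg (by linarith) hpos.le
    have q4 : 0 ≤ (u - s) / (v - s) := div_nonneg (by linarith) hpos.le
    have c1 := hc.2 (mem_univ s) (mem_univ v) q1 q2 (by field_simp; ring)
    have c2 := hc.2 (mem_univ s) (mem_univ v) q3 q4 (by field_simp; ring)
    simp only [smul_eq_mul] at c1 c2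
    have e1 : (v - t) / (v - s) * s + (t - s) / (v - s) * v = t := by field_simp; ring
    have e2 : (v - u) / (v - s) * s + (u - s) / (v - s) * v = u := by field_simp; ring
    rw [e1] at c1
    rw [e2] at c2
    have e3 : (v - t) / (v - s) + 20 * ((v - u) / (v - s)) = 1 := by
      field_simp; linarith
    have e4 : (t - s) / (v - s) + 20 * ((u - s) / (v - s)) = 20 := by
      field_simp; linarith
    calc R s + 20 * R v = ((v - t) / (v - s) + 20 * ((v - u) / (v - s))) * R s +
          ((t - s) / (v - s) + 20 * ((u - s) / (v - s))) * R v := by rw [e3, e4]; ring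
      _ ≤ R t + 20 * R u := by linarith

theorem modH1_major' {R : ℝ → ℝ} (hc : ConcaveOn ℝ univ R) {s t u v : ℝ} (hst : t ≤ s) (htu : u ≤ t)
    (huv : v ≤ u) (hsum : s + 20 * v = t + 20 * u) : R s + 20 * R v ≤ R t + 20 * R u := by
  have hc' : ConcaveOn ℝ univ fun y => R (-y) := by
    refine ⟨convex_univ, fun x _ y _ a b ha hb hab => ?_⟩
    have := hc.2 (mem_univ (-x)) (mem_univ (-y)) ha hb hab
    simp only [smul_eq_mul] at this ⊢
    have e : -(a * x + b * y) = a * -x + b * -y := by ring
    rw [e]; exact this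
  have := modH1_major hc' (s := -s) (t := -t) (u := -u) (v := -v) (by linarith) (by linarith)
    (by linarith) (by linarith)
  simpa using this

theorem modH1_jensen {R : ℝ → ℝ} (hc : ConcaveOn ℝ univ R) (s y : ℝ) :
    R s + 20 * R ((y - s) / 20) ≤ 21 * R (y / 21) := by
  have := hc.2 (mem_univ s) (mem_univ ((y - s) / 20)) (by norm_num : (0 : ℝ) ≤ 1 / 21)
    (by norm_num : (0 : ℝ) ≤ 20 / 21) (by norm_num)
  simp only [smul_eq_mul] at this
  have e : 1 / 21 * s + 20 / 21 * ((y - s) / 20) = y / 21 := by ring
  rw [e] at this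
  linarith

/-- a piece of the area -/
theorem modH1_piece (v : ℝ → ℝ≥0∞) (g : ℝ → ℝ) (hg : Continuous g) (a b : ℝ) (hab : a ≤ b)
    (hg0 : ∀ y ∈ Icc a b, 0 ≤ g y) (hv : ∀ y ∈ Icc a b, v y ≤ ENNReal.ofReal (g y)) :
    ∫⁻ y in Icc a b, v y ≤ ENNReal.ofReal (∫ y in a..b, g y) := by
  calc ∫⁻ y in Icc a b, v y ≤ ∫⁻ y in Icc a b, ENNReal.ofReal (g y) :=
        setLIntegral_mono (ENNReal.measurable_ofReal.comp hg.measurable) hv
    _ = ENNReal.ofReal (∫ y in Icc a b, g y) := by
        rw [ofReal_integral_eq_lintegral_ofReal]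
        · exact (hg.continuousOn.integrableOn_Icc)
        · exact (ae_restrict_iff' measurableSet_Icc).2 (Filter.Eventually.of_forall hg0)
    _ = _ := by rw [integral_Icc_eq_integral_Ioc, intervalIntegral.integral_of_le hab]

theorem modH1_KR_closed {R : ℝ → ℝ} (hcont : Continuous R) : IsClosed (KR R) := by
  have c1 : Continuous fun p : ℝ × ℝ => R p.2 := hcont.comp continuous_snd
  have c2 : Continuous fun p : ℝ × ℝ => R (-p.2) := hcont.comp continuous_snd.neg
  exact IsClosed.inter (isClosed_le continuous_fst c1) (isClosed_le continuous_fst.neg c2)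

/-- area of the part of `D + 20 K` to the right of the last centre -/
theorem right_end {R : ℝ → ℝ} {W c m α β : ℝ} (h : Hyp R W c m α β) (D : Set (ℝ × ℝ))
    (hD : IsCompact D) (x₀ t b : ℝ) (hright : ∀ p ∈ D, p.1 ≤ x₀ + R p.2)
    (hlev : ∀ p ∈ D, |p.2| ≤ 1700)
    (ht1 : -2000 ≤ t) (ht2 : t ≤ 7000) (hb1 : -2000 ≤ b) (hb2 : b ≤ 7000) (hbt : -b ≤ t)
    (hDt : ∀ p ∈ D, x₀ ≤ p.1 → -b ≤ p.2 ∧ p.2 ≤ t)
    (hEt : ∀ p ∈ D + (20 : ℝ) • KR R, x₀ ≤ p.1 → -(20 * W + b) ≤ p.2 ∧ p.2 ≤ 20 * W + t) :
    volume ((D + (20 : ℝ) • KR R) ∩ {p | x₀ ≤ p.1}) ≤ ENNReal.ofReal (eP R W t + eM R W b) := by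
  have hcont := modH1_cont h.lip
  have hc := h.conc
  obtain ⟨hc1, hc2⟩ := abs_le.1 h.c_abs
  have hW1 := h.W_lo
  have hW2 := h.W_hi
  -- lower bounds for R
  have hRlow : ∀ z, 9996 - 1.001 * |m - z| ≤ R z := by
    intro z
    have := (abs_le.1 (h.lip m z)).2
    linarith [h.Rm_lo]
  have hRmid : ∀ z, -7000 ≤ z → z ≤ 7000 → 2000 ≤ R z := by
    intro z hz1 hz2
    have h1 := hRlow z
    have h2 : |m - z| ≤ 7001 := by
      rw [abs_le]; constructor <;> linarith [h.m_lo, h.m_hi]
    linarith
  have hRmid2 : ∀ z, -2000 ≤ z → z ≤ 2000 → 7000 ≤ R z := by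
    intro z hz1 hz2
    have h1 := hRlow z
    have h2 : |m - z| ≤ 2001 := by
      rw [abs_le]; constructor <;> linarith [h.m_lo, h.m_hi]
    linarith
  have hmin : ∀ a b z : ℝ, a ≤ z → z ≤ b → min (R a) (R b) ≤ R z := by
    intro a b z h1 h2
    have := hc.min_le_of_mem_Icc (mem_univ a) (mem_univ b) (z := z) ⟨h1, h2⟩
    exact this
  -- the three pieces of `rho`
  have key : ∀ p ∈ D + (20 : ℝ) • KR R, x₀ ≤ p.1 → ∃ s, -b ≤ s ∧ s ≤ t ∧
      p.1 ≤ x₀ + (R s + 20 * R ((p.2 - s) / 20)) := by
    intro p hp hx
    obtain ⟨d, hd, k', hk', rfl⟩ := Set.mem_add.1 hp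
    obtain ⟨k, hk, rfl⟩ := Set.mem_smul_set.1 hk'
    obtain ⟨hk1, -⟩ := hk
    simp only [Prod.fst_add, Prod.snd_add, Prod.smul_fst, Prod.smul_snd, smul_eq_mul] at hx ⊢
    have hlevd := abs_le.1 (hlev d hd)
    have ek : (d.2 + 20 * k.2 - d.2) / 20 = k.2 := by ring
    rcases lt_or_ge t d.2 with h1 | h1
    · have hd1 : d.1 < x₀ := by
        by_contra hcon
        push Not at hcon
        exact absurd (hDt d hd hcon).2 (not_le.2 h1)
      refine ⟨t, hbt, le_refl _, ?_⟩
      have h2 := (abs_le.1 (h.lip k.2 ((d.2 + 20 * k.2 - t) / 20))).2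
      have h3 : |k.2 - (d.2 + 20 * k.2 - t) / 20| = (d.2 - t) / 20 := by
        have : k.2 - (d.2 + 20 * k.2 - t) / 20 = -((d.2 - t) / 20) := by ring
        rw [this, abs_neg, abs_of_nonneg (by linarith)]
      rw [h3] at h2
      have h4 := hRmid2 t ht1 (by linarith)
      linarith
    · rcases lt_or_ge d.2 (-b) with h5 | h5
      · have hd1 : d.1 < x₀ := by
          by_contra hcon
          push Not at hcon
          exact absurd (hDt d hd hcon).1 (not_le.2 h5)
        refine ⟨-b, le_refl _, hbt, ?_⟩
        have h2 := (abs_le.1 (h.lip k.2 ((d.2 + 20 * k.2 - -b) / 20))).2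
        have h3 : |k.2 - (d.2 + 20 * k.2 - -b) / 20| = (-b - d.2) / 20 := by
          have : k.2 - (d.2 + 20 * k.2 - -b) / 20 = (-b - d.2) / 20 := by ring
          rw [this, abs_of_nonneg (by linarith)]
        rw [h3] at h2
        have h4 := hRmid2 (-b) (by linarith) (by linarith)
        linarith
      · refine ⟨d.2, h5, h1, ?_⟩
        rw [ek]
        have := hright d hd
        linarith
  have gMid : ∀ s y : ℝ, R s + 20 * R ((y - s) / 20) ≤ 21 * R (y / 21) := modH1_jensen hc
  have gRight : ∀ s y : ℝ, s ≤ t → 21 * t ≤ y →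
      R s + 20 * R ((y - s) / 20) ≤ R t + 20 * R ((y - t) / 20) := by
    intro s y hs hy
    refine modH1_major hc hs ?_ ?_ ?_
    · linarith
    · linarith
    · ring
  have gLeft : ∀ s y : ℝ, -b ≤ s → y ≤ -(21 * b) →
      R s + 20 * R ((y - s) / 20) ≤ R (-b) + 20 * R ((y - -b) / 20) := by
    intro s y hs hy
    refine modH1_major' hc hs ?_ ?_ ?_
    · linarith
    · linarith
    · ring
  -- measurability and slices
  set E : Set (ℝ × ℝ) := (D + (20 : ℝ) • KR R) ∩ {p | x₀ ≤ p.1} with hE
  have hEc : IsClosed E := by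
    apply IsClosed.inter
    · have : IsClosed ((20 : ℝ) • KR R) := (modH1_KR_closed hcont).smul₀ 20
      exact this.add_left_of_isCompact hD
    · exact isClosed_le continuous_const continuous_fst
  set v : ℝ → ℝ≥0∞ := fun y => volume ((fun x => (x, y)) ⁻¹' E) with hv
  have hvol : volume E = ∫⁻ y, v y := by
    rw [Measure.volume_eq_prod, Measure.prod_apply_symm hEc.measurableSet]
  have hvb : ∀ (g : ℝ → ℝ) (y : ℝ), (∀ x, (x, y) ∈ E → x ≤ x₀ + g y) → v y ≤ ENNReal.ofReal (g y) := by
    intro g y hy
    have hs : (fun x => (x, y)) ⁻¹' E ⊆ Icc x₀ (x₀ + g y) := fun x hx => ⟨hx.2, hy x hx⟩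
    refine (measure_mono hs).trans ?_
    rw [Real.volume_Icc]
    apply ENNReal.ofReal_le_ofReal
    linarith
  set A : Set ℝ := Icc (-(20 * W + b)) (-(21 * b)) with hA
  set B : Set ℝ := Icc (-(21 * b)) (21 * t) with hB
  set C : Set ℝ := Icc (21 * t) (20 * W + t) with hC
  have hzero : ∀ y, y ∉ A ∪ B ∪ C → v y = 0 := by
    intro y hy
    have : (fun x => (x, y)) ⁻¹' E = ∅ := by
      ext x
      simp only [mem_preimage, mem_empty_iff_false, iff_false]
      rintro ⟨hx1, hx2⟩
      obtain ⟨h1, h2⟩ := hEt (x, y) hx1 hx2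
      simp only at h1 h2
      apply hy
      rcases le_total y (-(21 * b)) with h3 | h3
      · exact Or.inl (Or.inl ⟨h1, h3⟩)
      · rcases le_total y (21 * t) with h4 | h4
        · exact Or.inl (Or.inr ⟨h3, h4⟩)
        · exact Or.inr ⟨h4, h2⟩
    show volume ((fun x => (x, y)) ⁻¹' E) = 0
    rw [this, measure_empty]
  have hle : ∫⁻ y, v y ≤ (∫⁻ y in A, v y) + (∫⁻ y in B, v y) + ∫⁻ y in C, v y := by
    calc ∫⁻ y, v y = ∫⁻ y in A ∪ B ∪ C, v y := by
          rw [setLIntegral_eq_of_support_subset]
          intro y hy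
          by_contra hcon
          exact hy (hzero y hcon)
      _ ≤ (∫⁻ y in A ∪ B, v y) + ∫⁻ y in C, v y := lintegral_union_le _ _ _
      _ ≤ _ := by gcongr; exact lintegral_union_le _ _ _
  -- the pieces
  have pA := modH1_piece v (fun y => R (-b) + 20 * R ((y - -b) / 20)) (by fun_prop)
    (-(20 * W + b)) (-(21 * b)) (by linarith) (by
      intro y hy
      have h1 := hRmid (-b) (by linarith) (by linarith)
      have h2 := hmin (-W) (-b) ((y - -b) / 20) (by linarith [hy.1]) (by linarith [hy.2])
      rw [h.RnW, min_eq_left (by linarith)] at h2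
      linarith) (by
      intro y hy
      apply hvb
      intro x hx
      obtain ⟨s, hs1, hs2, hs3⟩ := key (x, y) hx.1 hx.2
      have := gLeft s y hs1 hy.2
      simp only at hs3
      linarith)
  have pB := modH1_piece v (fun y => 21 * R (y / 21)) (by fun_prop)
    (-(21 * b)) (21 * t) (by linarith) (by
      intro y hy
      have h1 := hRmid (y / 21) (by linarith [hy.1]) (by linarith [hy.2])
      linarith) (by
      intro y hy
      apply hvb
      intro x hx
      obtain ⟨s, hs1, hs2, hs3⟩ := key (x, y) hx.1 hx.2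
      have := gMid s y
      simp only at hs3
      linarith)
  have pC := modH1_piece v (fun y => R t + 20 * R ((y - t) / 20)) (by fun_prop)
    (21 * t) (20 * W + t) (by linarith) (by
      intro y hy
      have h1 := hRmid t (by linarith) (by linarith)
      have h2 := hmin t W ((y - t) / 20) (by linarith [hy.1]) (by linarith [hy.2])
      rw [h.RW, min_eq_right (by linarith)] at h2
      linarith) (by
      intro y hy
      apply hvb
      intro x hx
      obtain ⟨s, hs1, hs2, hs3⟩ := key (x, y) hx.1 hx.2
      have := gRight s y hs2 hy.1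
      simp only at hs3
      linarith)
  -- the integrals
  have hi : ∀ a b : ℝ, IntervalIntegrable R volume a b := fun a b => hcont.intervalIntegrable a b
  have iA : ∫ y in (-(20 * W + b))..(-(21 * b)), (R (-b) + 20 * R ((y - -b) / 20)) =
      20 * R (-b) * (W - b) + 400 * ∫ y in (-W)..(-b), R y := by
    have c1 : Continuous fun y : ℝ => R ((y - -b) / 20) := by fun_prop
    have c2 : Continuous fun y : ℝ => 20 * R ((y - -b) / 20) := by fun_prop
    rw [intervalIntegral.integral_add (continuous_const.intervalIntegrable _ _)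
      (c2.intervalIntegrable _ _), intervalIntegral.integral_const,
      intervalIntegral.integral_const_mul,
      intervalIntegral.integral_comp_sub_right (fun z => R (z / 20)) (-b),
      intervalIntegral.integral_comp_div (fun z => R z) (by norm_num : (20 : ℝ) ≠ 0), smul_eq_mul,
      smul_eq_mul]
    have e1 : (-(20 * W + b) - -b) / 20 = -W := by ring
    have e2 : (-(21 * b) - -b) / 20 = -b := by ring
    rw [e1, e2]
    ring
  have iB : ∫ y in (-(21 * b))..(21 * t), (21 * R (y / 21)) = 441 * ∫ y in (-b)..t, R y := by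
    rw [intervalIntegral.integral_const_mul,
      intervalIntegral.integral_comp_div (fun z => R z) (by norm_num : (21 : ℝ) ≠ 0), smul_eq_mul]
    have e1 : -(21 * b) / 21 = -b := by ring
    have e2 : 21 * t / 21 = t := by ring
    rw [e1, e2]
    ring
  have iC : ∫ y in (21 * t)..(20 * W + t), (R t + 20 * R ((y - t) / 20)) =
      20 * R t * (W - t) + 400 * ∫ y in t..W, R y := by
    have c1 : Continuous fun y : ℝ => R ((y - t) / 20) := by fun_prop
    have c2 : Continuous fun y : ℝ => 20 * R ((y - t) / 20) := by fun_prop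
    rw [intervalIntegral.integral_add (continuous_const.intervalIntegrable _ _)
      (c2.intervalIntegrable _ _), intervalIntegral.integral_const,
      intervalIntegral.integral_const_mul,
      intervalIntegral.integral_comp_sub_right (fun z => R (z / 20)) t,
      intervalIntegral.integral_comp_div (fun z => R z) (by norm_num : (20 : ℝ) ≠ 0), smul_eq_mul,
      smul_eq_mul]
    have e1 : (21 * t - t) / 20 = t := by ring
    have e2 : (20 * W + t - t) / 20 = W := by ring
    rw [e1, e2]
    ring
  rw [iA] at pA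
  rw [iB] at pB
  rw [iC] at pC
  have hsumval : eP R W t + eM R W b = (20 * R (-b) * (W - b) + 400 * ∫ y in (-W)..(-b), R y) +
      441 * (∫ y in (-b)..t, R y) + (20 * R t * (W - t) + 400 * ∫ y in t..W, R y) := by
    unfold eM eP
    have n1 : ∫ y in (0:ℝ)..b, R (-y) = ∫ y in (-b)..0, R y := by
      rw [intervalIntegral.integral_comp_neg (fun y => R y), neg_zero]
    have n2 : ∫ y in b..W, R (-y) = ∫ y in (-W)..(-b), R y := by
      rw [intervalIntegral.integral_comp_neg (fun y => R y)]
    have n3 : (∫ y in (-b)..t, R y) = (∫ y in (-b)..0, R y) + ∫ y in (0:ℝ)..t, R y :=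
      (intervalIntegral.integral_add_adjacent_intervals (hi _ _) (hi _ _)).symm
    rw [n1, n2, n3]
    ring
  -- nonnegativity of the three values
  have nA : 0 ≤ 20 * R (-b) * (W - b) + 400 * ∫ y in (-W)..(-b), R y := by
    rw [← iA]
    apply intervalIntegral.integral_nonneg (by linarith)
    intro y hy
    have h1 := hRmid (-b) (by linarith) (by linarith)
    have h2 := hmin (-W) (-b) ((y - -b) / 20) (by linarith [hy.1]) (by linarith [hy.2])
    rw [h.RnW, min_eq_left (by linarith)] at h2
    linarith
  have nB : 0 ≤ 441 * ∫ y in (-b)..t, R y := by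
    rw [← iB]
    apply intervalIntegral.integral_nonneg (by linarith)
    intro y hy
    have h1 := hRmid (y / 21) (by linarith [hy.1]) (by linarith [hy.2])
    linarith
  have nC : 0 ≤ 20 * R t * (W - t) + 400 * ∫ y in t..W, R y := by
    rw [← iC]
    apply intervalIntegral.integral_nonneg (by linarith)
    intro y hy
    have h1 := hRmid t (by linarith) (by linarith)
    have h2 := hmin t W ((y - t) / 20) (by linarith [hy.1]) (by linarith [hy.2])
    rw [h.RW, min_eq_right (by linarith)] at h2
    linarith
  rw [hvol, hsumval, ENNReal.ofReal_add (by positivity) nC, ENNReal.ofReal_add nA nB]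
  exact hle.trans (add_le_add (add_le_add pA pB) pC)

end ZZ
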