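import Pool.Agent.Helper32.ZZ.Defs
import Pool.Agent.Helper32.ZZ.H1

/-!
Module H2: support_line, geom_bound (uses right_end of module H1)
-/

open MeasureTheory Set Pointwise
open scoped ENNReal

namespace ZZ


/-- supporting line at the top point of a vertical section -/
theorem support_line (D : Set (ℝ × ℝ)) (hD : IsCompact D) (hDc : Convex ℝ D) (X δ M : ℝ) (hδ : 0 < δ)
    (hlev : ∀ p ∈ D, |p.2| ≤ M) (hl : ∃ p ∈ D, p.1 ≤ X - δ) (hr : ∃ p ∈ D, X + δ ≤ p.1) :
    ∃ τ σ : ℝ, (X, τ) ∈ D ∧ |σ| ≤ 2 * M / δ ∧ ∀ p ∈ D, p.2 ≤ τ + σ * (p.1 - X) := by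
  obtain ⟨l, hlD, hlX⟩ := hl
  obtain ⟨r, hrD, hrX⟩ := hr
  have hcross : ∀ p ∈ D, ∀ q ∈ D, p.1 < X → X < q.1 →
      (X, ((q.1 - X) * p.2 + (X - p.1) * q.2) / (q.1 - p.1)) ∈ D := by
    intro p hp q hq hpX hqX
    have hpq : 0 < q.1 - p.1 := by linarith
    have h := hDc hp hq (a := (q.1 - X) / (q.1 - p.1)) (b := (X - p.1) / (q.1 - p.1))
      (div_nonneg (by linarith) hpq.le) (div_nonneg (by linarith) hpq.le)
      (by rw [← add_div, div_eq_one_iff_eq hpq.ne']; ring)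
    have heq : ((q.1 - X) / (q.1 - p.1)) • p + ((X - p.1) / (q.1 - p.1)) • q
        = (X, ((q.1 - X) * p.2 + (X - p.1) * q.2) / (q.1 - p.1)) := by
      ext
      · simp only [Prod.fst_add, Prod.smul_fst, smul_eq_mul]
        field_simp
        ring
      · simp only [Prod.snd_add, Prod.smul_snd, smul_eq_mul]
        field_simp
    rw [heq] at h
    exact h
  have hlX' : l.1 < X := by linarith
  have hrX' : X < r.1 := by linarith
  -- top point of the section
  have hScomp : IsCompact (D ∩ {p : ℝ × ℝ | p.1 = X}) :=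
    hD.inter_right (isClosed_eq continuous_fst continuous_const)
  have hSne : (D ∩ {p : ℝ × ℝ | p.1 = X}).Nonempty :=
    ⟨_, hcross l hlD r hrD hlX' hrX', rfl⟩
  obtain ⟨P, ⟨hPD, hPX⟩, hPmax⟩ := hScomp.exists_isMaxOn hSne continuous_snd.continuousOn
  have hPX' : P.1 = X := hPX
  set τ : ℝ := P.2 with hτ
  have hPeq : P = (X, τ) := by
    ext
    · exact hPX'
    · rfl
  have htop : ∀ y, (X, y) ∈ D → y ≤ τ := by
    intro y hy
    exact hPmax ⟨hy, rfl⟩
  have hslope : ∀ p ∈ D, ∀ q ∈ D, p.1 < X → X < q.1 →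
      (q.2 - τ) / (q.1 - X) ≤ (τ - p.2) / (X - p.1) := by
    intro p hp q hq hpX hqX
    have h := htop _ (hcross p hp q hq hpX hqX)
    have hpq : 0 < q.1 - p.1 := by linarith
    rw [div_le_iff₀ hpq] at h
    rw [div_le_div_iff₀ (by linarith) (by linarith)]
    nlinarith
  set A : Set ℝ := {s | ∃ q ∈ D, X < q.1 ∧ s = (q.2 - τ) / (q.1 - X)} with hA
  have hAne : A.Nonempty := ⟨_, r, hrD, hrX', rfl⟩
  have hAub : ∀ p ∈ D, p.1 < X → (τ - p.2) / (X - p.1) ∈ upperBounds A := by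
    rintro p hp hpX s ⟨q, hq, hqX, rfl⟩
    exact hslope p hp q hq hpX hqX
  have hAbdd : BddAbove A := ⟨_, hAub l hlD hlX'⟩
  have hτM : |τ| ≤ M := hlev P hPD
  have hM : 0 ≤ M := (abs_nonneg _).trans hτM
  refine ⟨τ, sSup A, hPeq ▸ hPD, ?_, ?_⟩
  · rw [abs_le]
    constructor
    · have h1 : (r.2 - τ) / (r.1 - X) ≤ sSup A := le_csSup hAbdd ⟨r, hrD, hrX', rfl⟩
      have h2 : -(2 * M / δ) ≤ (r.2 - τ) / (r.1 - X) := by
        rw [← neg_div, div_le_div_iff₀ hδ (by linarith)]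
        have h3 := abs_le.mp (hlev r hrD)
        have h4 := abs_le.mp hτM
        have h5 : δ ≤ r.1 - X := by linarith
        nlinarith
      linarith
    · have h1 : sSup A ≤ (τ - l.2) / (X - l.1) := csSup_le hAne (hAub l hlD hlX')
      have h2 : (τ - l.2) / (X - l.1) ≤ 2 * M / δ := by
        rw [div_le_div_iff₀ (by linarith) hδ]
        have h3 := abs_le.mp (hlev l hlD)
        have h4 := abs_le.mp hτM
        have h5 : δ ≤ X - l.1 := by linarith
        nlinarith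
      linarith
  · intro p hp
    rcases lt_trichotomy p.1 X with h | h | h
    · have h1 : sSup A ≤ (τ - p.2) / (X - p.1) := csSup_le hAne (hAub p hp h)
      rw [le_div_iff₀ (by linarith)] at h1
      linarith
    · have h1 : p.2 ≤ τ := by
        apply htop
        rw [← h]
        exact hp
      rw [h]
      simpa using h1
    · have h1 : (p.2 - τ) / (p.1 - X) ≤ sSup A := le_csSup hAbdd ⟨p, hp, h, rfl⟩
      rw [div_le_iff₀ (by linarith)] at h1
      linarith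

/-! ### elementary facts on the profile -/

section facts

variable {R : ℝ → ℝ} {W c m α β : ℝ}

lemma modH2_R_le (h : Hyp R W c m α β) (t : ℝ) : R t ≤ 9998.1 := by
  have h1 := h.up1 (t - m)
  have h2 : m + (t - m) = t := by ring
  rw [h2] at h1
  have h3 := h.Rm_hi
  have hα := h.α_lo
  have hα2 := h.α_hi
  set a := t - m
  have h4 : -α * a - psi a ≤ 0.1 := by
    unfold psi
    rcases le_total (a ^ 2 / 20) (|a| / 4) with h5 | h5
    · rw [min_eq_left h5]
      nlinarith [sq_nonneg (a + 10 * α)]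
    · rw [min_eq_right h5]
      have h6 : -α * a ≤ α * |a| := by
        have := neg_abs_le a
        nlinarith
      have h7 := abs_nonneg a
      nlinarith
  linarith

lemma modH2_R_lo (h : Hyp R W c m α β) {x : ℝ} (h1 : 0 ≤ x) (h2 : x ≤ 300) : 9695 ≤ R x := by
  have h3 := h.lip x m
  have h4 := abs_le.mp h3
  have h5 : |x - m| ≤ 300 := by
    rw [abs_le]
    have := h.m_lo
    have := h.m_hi
    constructor <;> linarith
  have := h.Rm_lo
  linarith

lemma modH2_Rn_lo (h : Hyp R W c m α β) {x : ℝ} (h1 : 0 ≤ x) (h2 : x ≤ 300) :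
    9695 ≤ R (-x) := by
  have h3 := h.lip (-x) (-m)
  have h4 := abs_le.mp h3
  have h5 : |-x - -m| ≤ 300 := by
    rw [abs_le]
    have := h.m_lo
    have := h.m_hi
    constructor <;> linarith
  have := h.Rn_lo
  linarith

lemma modH2_KR_symm (R : ℝ → ℝ) {p : ℝ × ℝ} (hp : p ∈ KR R) : -p ∈ KR R := by
  obtain ⟨h1, h2⟩ := hp
  refine ⟨?_, ?_⟩
  · simpa using h2
  · simpa using h1

/-- every point of the body is below the top level -/
lemma modH2_le_W (h : Hyp R W c m α β) {p : ℝ × ℝ} (hp : p ∈ KR R) : p.2 ≤ W := by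
  by_contra hcon
  push Not at hcon
  obtain ⟨h1, h2⟩ := hp
  set t := p.2 with ht
  have hW : 0 < W := by linarith [h.W_lo]
  have ht0 : 0 < t := hW.trans hcon
  have hR0 : 9695 ≤ R 0 := modH2_R_lo h le_rfl (by norm_num)
  have hc : ∀ x y a b : ℝ, 0 ≤ a → 0 ≤ b → a + b = 1 → a * R x + b * R y ≤ R (a * x + b * y) := by
    intro x y a b ha hb hab
    have := h.conc.2 (mem_univ x) (mem_univ y) ha hb hab
    simpa only [smul_eq_mul] using this
  have e1 := hc 0 t (1 - W / t) (W / t)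
    (by rw [sub_nonneg, div_le_one ht0]; exact hcon.le) (by positivity) (by ring)
  have e2 := hc 0 (-t) (1 - W / t) (W / t)
    (by rw [sub_nonneg, div_le_one ht0]; exact hcon.le) (by positivity) (by ring)
  simp only [mul_zero, zero_add] at e1 e2
  have e3 : W / t * t = W := by field_simp
  have e4 : W / t * -t = -W := by field_simp
  rw [e3, h.RW] at e1
  rw [e4, h.RnW] at e2
  have h5 : 0 < 1 - W / t := by rw [sub_pos, div_lt_one ht0]; exact hcon
  have h6 : 0 < W / t := by positivity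
  have h7 : 0 ≤ R t + R (-t) := by linarith
  nlinarith

/-- support function of the body in almost vertical directions -/
lemma modH2_supp (h : Hyp R W c m α β) {p : ℝ × ℝ} (hp : p ∈ KR R) {s : ℝ} (hs : |s| ≤ 1 / 2) :
    p.2 - s * p.1 ≤ W - s * c := by
  have hW := modH2_le_W h hp
  obtain ⟨h1, h2⟩ := hp
  have hs' := abs_le.mp hs
  rcases le_total 0 s with h0 | h0
  · have h3 := h.lip (-p.2) (-W)
    have h4 : |-p.2 - -W| = W - p.2 := by
      rw [abs_of_nonneg (by linarith)]; ring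
    rw [h4, h.RnW] at h3
    have h5 := (abs_le.mp h3).2
    have h6 : -p.1 ≤ -c + 1.001 * (W - p.2) := by linarith
    nlinarith
  · have h3 := h.lip p.2 W
    have h4 : |p.2 - W| = W - p.2 := by
      rw [abs_of_nonpos (by linarith)]; ring
    rw [h4, h.RW] at h3
    have h5 := (abs_le.mp h3).2
    have h6 : p.1 ≤ c + 1.001 * (W - p.2) := by linarith
    nlinarith

lemma modH2_supp' (h : Hyp R W c m α β) {p : ℝ × ℝ} (hp : p ∈ KR R) {s : ℝ} (hs : |s| ≤ 1 / 2) :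
    -p.2 - s * p.1 ≤ W + s * c := by
  have h1 := modH2_supp h (modH2_KR_symm R hp) (s := -s) (by rwa [abs_neg])
  simp only [Prod.snd_neg, Prod.fst_neg] at h1
  linarith

end facts



lemma modH2_cell (E : Set (ℝ × ℝ)) (hE : IsCompact E) (a b : ℝ) (hab : a ≤ b) (U L : ℝ → ℝ)
    (hU : Continuous U) (hL : Continuous L)
    (hEU : ∀ p ∈ E, a ≤ p.1 → p.1 ≤ b → -(L p.1) ≤ p.2 ∧ p.2 ≤ U p.1)
    (hpos : ∀ x ∈ Icc a b, 0 ≤ U x + L x) :
    volume (E ∩ {p | a ≤ p.1 ∧ p.1 ≤ b}) ≤ ENNReal.ofReal (∫ x in a..b, (U x + L x)) := by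
  have hmeas : MeasurableSet (E ∩ {p : ℝ × ℝ | a ≤ p.1 ∧ p.1 ≤ b}) := by
    apply hE.measurableSet.inter
    exact ((isClosed_le continuous_const continuous_fst).inter
      (isClosed_le continuous_fst continuous_const)).measurableSet
  rw [Measure.volume_eq_prod, Measure.prod_apply hmeas]
  have h1 : ∀ x, volume (Prod.mk x ⁻¹' (E ∩ {p : ℝ × ℝ | a ≤ p.1 ∧ p.1 ≤ b}))
      ≤ (Icc a b).indicator (fun x => ENNReal.ofReal (U x + L x)) x := by
    intro x
    by_cases hx : x ∈ Icc a b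
    · rw [indicator_of_mem hx]
      have hsub : Prod.mk x ⁻¹' (E ∩ {p : ℝ × ℝ | a ≤ p.1 ∧ p.1 ≤ b}) ⊆ Icc (-(L x)) (U x) := by
        rintro y ⟨hy, h2⟩
        exact hEU (x, y) hy h2.1 h2.2
      refine (measure_mono hsub).trans ?_
      rw [Real.volume_Icc]
      apply ENNReal.ofReal_le_ofReal
      linarith
    · rw [indicator_of_notMem hx]
      have hempty : Prod.mk x ⁻¹' (E ∩ {p : ℝ × ℝ | a ≤ p.1 ∧ p.1 ≤ b}) = ∅ := by
        ext y
        simp only [mem_preimage, mem_inter_iff, mem_ofPred_eq, mem_empty_iff_false, iff_false]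
        rintro ⟨_, h2⟩
        exact hx ⟨h2.1, h2.2⟩
      rw [hempty, measure_empty]
  refine (lintegral_mono h1).trans ?_
  rw [lintegral_indicator measurableSet_Icc, intervalIntegral.integral_of_le hab,
    ← integral_Icc_eq_integral_Ioc, ofReal_integral_eq_lintegral_ofReal]
  · exact (hU.add hL).continuousOn.integrableOn_Icc
  · filter_upwards [ae_restrict_mem measurableSet_Icc] with x hx
    exact hpos x hx

/-- the closed neighbourhood of the origin in the body -/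
lemma modH2_small {R : ℝ → ℝ} {W c m α β : ℝ} (h : Hyp R W c m α β) {p : ℝ × ℝ}
    (h1 : |p.1| ≤ 1) (h2 : |p.2| ≤ 1) : p ∈ KR R := by
  have h1' := abs_le.mp h1
  have h2' := abs_le.mp h2
  have hR0 : 9695 ≤ R 0 := modH2_R_lo h le_rfl (by norm_num)
  have h3 := (abs_le.mp (h.lip p.2 0)).1
  have h4 := (abs_le.mp (h.lip (-p.2) 0)).1
  have h5 : |-p.2 - 0| ≤ 1 := by rw [sub_zero, abs_neg]; exact h2
  have h6 : |p.2 - 0| ≤ 1 := by rw [sub_zero]; exact h2
  constructor <;> nlinarith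

lemma modH2_pos {R : ℝ → ℝ} {W c m α β : ℝ} (h : Hyp R W c m α β) (D : Set (ℝ × ℝ)) (x₀ : ℝ)
    (hfar : ∃ p ∈ D, x₀ + 5000 ≤ p.1) :
    0 < volume ((D + (20 : ℝ) • KR R) ∩ {p | x₀ ≤ p.1}) := by
  obtain ⟨p, hp, hpx⟩ := hfar
  have hsub : Ioo (p.1 - 1) (p.1 + 1) ×ˢ Ioo (p.2 - 1) (p.2 + 1)
      ⊆ (D + (20 : ℝ) • KR R) ∩ {p | x₀ ≤ p.1} := by
    rintro q ⟨hq1, hq2⟩
    refine ⟨?_, ?_⟩
    · rw [Set.mem_add]
      refine ⟨p, hp, q - p, ?_, by abel⟩
      rw [Set.mem_smul_set]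
      refine ⟨(1 / 20 : ℝ) • (q - p), ?_, ?_⟩
      · apply modH2_small h
        · simp only [Prod.smul_fst, Prod.fst_sub, smul_eq_mul]
          rw [abs_le]
          constructor <;> linarith [hq1.1, hq1.2]
        · simp only [Prod.smul_snd, Prod.snd_sub, smul_eq_mul]
          rw [abs_le]
          constructor <;> linarith [hq2.1, hq2.2]
      · rw [smul_smul]
        norm_num
    · have := hq1.1
      change x₀ ≤ q.1
      linarith
  refine lt_of_lt_of_le ?_ (measure_mono hsub)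
  rw [Measure.volume_eq_prod, Measure.prod_prod, Real.volume_Ioo, Real.volume_Ioo]
  have e1 : p.1 + 1 - (p.1 - 1) = 2 := by ring
  have e2 : p.2 + 1 - (p.2 - 1) = 2 := by ring
  rw [e1, e2]
  norm_num

/-- the part of `D + 20 K` to the right of `x₀`, given supporting lines above and below -/
lemma modH2_end {R : ℝ → ℝ} {W c m α β : ℝ} (h : Hyp R W c m α β) (D : Set (ℝ × ℝ))
    (hD : IsCompact D) (x₀ X τ σ X' b ς : ℝ)
    (hX1 : 9002 ≤ x₀ - X) (hX2 : x₀ - X ≤ 9999) (hX'1 : 9002 ≤ x₀ - X') (hX'2 : x₀ - X' ≤ 9999)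
    (hσ : |σ| ≤ 1 / 4) (hς : |ς| ≤ 1 / 4) (hτ : |τ| ≤ 1700) (hb : |b| ≤ 1700)
    (htop : ∀ p ∈ D, p.2 ≤ τ + σ * (p.1 - X)) (hbot : ∀ p ∈ D, -p.2 ≤ b + ς * (p.1 - X'))
    (hright : ∀ p ∈ D, p.1 ≤ x₀ + R p.2) (hlev : ∀ p ∈ D, |p.2| ≤ 1700)
    (hfar : ∃ p ∈ D, x₀ + 5000 ≤ p.1) :
    ∃ t bb : ℝ, (-2000 ≤ t ∧ t ≤ 7000 ∧ -2000 ≤ bb ∧ bb ≤ 7000) ∧
      t ≤ τ + 20000 * max σ 0 - 9000 * max (-σ) 0 ∧
      bb ≤ b + 20000 * max ς 0 - 9000 * max (-ς) 0 ∧
      0 ≤ eP R W t + eM R W bb ∧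
      volume ((D + (20 : ℝ) • KR R) ∩ {p | x₀ ≤ p.1}) ≤ ENNReal.ofReal (eP R W t + eM R W bb) := by
  -- a common lemma for the top and (reflected) the bottom
  have hc := abs_le.mp h.c_abs
  have key : ∀ (Y T S : ℝ), 9002 ≤ x₀ - Y → x₀ - Y ≤ 9999 → |S| ≤ 1 / 4 → |T| ≤ 1700 →
      ∃ t, t = T + max (S * (x₀ - 1 / 50 - Y)) (S * (x₀ + 9998.2 - Y)) ∧ t ≤ 7000 ∧
        t ≤ T + 20000 * max S 0 - 9000 * max (-S) 0 ∧
        (∀ x, x₀ - 1 / 50 ≤ x → x ≤ x₀ + 9998.2 → T + S * (x - Y) ≤ t) := by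
    intro Y T S h1 h2 h3 h4
    have h3' := abs_le.mp h3
    have h4' := abs_le.mp h4
    refine ⟨_, rfl, ?_, ?_, ?_⟩
    · have : max (S * (x₀ - 1 / 50 - Y)) (S * (x₀ + 9998.2 - Y)) ≤ 5000 := by
        apply max_le <;> nlinarith
      linarith
    · rcases le_total 0 S with h0 | h0
      · have e1 : max S 0 = S := max_eq_left h0
        have e2 : max (-S) 0 = 0 := max_eq_right (by linarith)
        rw [e1, e2]
        have : max (S * (x₀ - 1 / 50 - Y)) (S * (x₀ + 9998.2 - Y)) ≤ 20000 * S := by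
          apply max_le <;> nlinarith
        linarith
      · have e1 : max S 0 = 0 := max_eq_right h0
        have e2 : max (-S) 0 = -S := max_eq_left (by linarith)
        rw [e1, e2]
        have : max (S * (x₀ - 1 / 50 - Y)) (S * (x₀ + 9998.2 - Y)) ≤ 9000 * S := by
          apply max_le <;> nlinarith
        linarith
    · intro x hx1 hx2
      rcases le_total 0 S with h0 | h0
      · have : S * (x - Y) ≤ S * (x₀ + 9998.2 - Y) := by
          apply mul_le_mul_of_nonneg_left _ h0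
          linarith
        linarith [le_max_right (S * (x₀ - 1 / 50 - Y)) (S * (x₀ + 9998.2 - Y))]
      · have : S * (x - Y) ≤ S * (x₀ - 1 / 50 - Y) := by
          apply mul_le_mul_of_nonpos_left _ h0
          linarith
        linarith [le_max_left (S * (x₀ - 1 / 50 - Y)) (S * (x₀ + 9998.2 - Y))]
  obtain ⟨t, -, ht2, ht3, ht4⟩ := key X τ σ hX1 hX2 hσ hτ
  obtain ⟨bb, -, hb2, hb3, hb4⟩ := key X' b ς hX'1 hX'2 hς hb
  have hDt : ∀ p ∈ D, x₀ ≤ p.1 → -bb ≤ p.2 ∧ p.2 ≤ t := by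
    intro p hp hpx
    have h5 := hright p hp
    have h6 := modH2_R_le h p.2
    have h7 := ht4 p.1 (by linarith) (by linarith)
    have h8 := hb4 p.1 (by linarith) (by linarith)
    have h9 := htop p hp
    have h10 := hbot p hp
    constructor <;> linarith
  obtain ⟨p₀, hp₀, hp₀x⟩ := hfar
  have hp₀t := hDt p₀ hp₀ (by linarith)
  have hp₀l := abs_le.mp (hlev p₀ hp₀)
  have hσ' : |σ| ≤ 1 / 2 := hσ.trans (by norm_num)
  have hς' : |ς| ≤ 1 / 2 := hς.trans (by norm_num)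
  have hEt : ∀ p ∈ D + (20 : ℝ) • KR R, x₀ ≤ p.1 →
      -(20 * W + bb) ≤ p.2 ∧ p.2 ≤ 20 * W + t := by
    intro p hp hpx
    rw [Set.mem_add] at hp
    obtain ⟨d, hd, k', hk', rfl⟩ := hp
    rw [Set.mem_smul_set] at hk'
    obtain ⟨k, hk, rfl⟩ := hk'
    simp only [Prod.fst_add, Prod.smul_fst, smul_eq_mul, Prod.snd_add, Prod.smul_snd] at hpx ⊢
    have hkW := modH2_le_W h hk
    have hkW' := modH2_le_W h (modH2_KR_symm R hk)
    simp only [Prod.snd_neg] at hkW'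
    have hdt := htop d hd
    have hdb := hbot d hd
    by_cases hdx : x₀ ≤ d.1
    · have := hDt d hd hdx
      constructor <;> linarith
    · push Not at hdx
      constructor
      · rcases le_total 0 ς with h0 | h0
        · have h1 := hb4 x₀ (by linarith) (by linarith)
          have h2 : ς * (d.1 - X') ≤ ς * (x₀ - X') := by
            apply mul_le_mul_of_nonneg_left _ h0
            linarith
          linarith
        · have h1 := modH2_supp' h hk hς'
          have h2 := hb4 (x₀ - 1 / 50) (by linarith) (by linarith)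
          have h3 : ς * (d.1 + 20 * k.1 + 20 * c - X') ≤ ς * (x₀ - 1 / 50 - X') := by
            apply mul_le_mul_of_nonpos_left _ h0
            linarith
          nlinarith
      · rcases le_total 0 σ with h0 | h0
        · have h1 := ht4 x₀ (by linarith) (by linarith)
          have h2 : σ * (d.1 - X) ≤ σ * (x₀ - X) := by
            apply mul_le_mul_of_nonneg_left _ h0
            linarith
          linarith
        · have h1 := modH2_supp h hk hσ'
          have h2 := ht4 (x₀ - 1 / 50) (by linarith) (by linarith)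
          have h3 : σ * (d.1 + 20 * k.1 - 20 * c - X) ≤ σ * (x₀ - 1 / 50 - X) := by
            apply mul_le_mul_of_nonpos_left _ h0
            linarith
          nlinarith
  -- lower bounds for t and bb
  have hRp := hright p₀ hp₀
  have hRle := modH2_R_le h p₀.2
  have ht1 : -2000 ≤ t := by linarith [hp₀t.2]
  have hb1 : -2000 ≤ bb := by linarith [hp₀t.1]
  have hvol := right_end h D hD x₀ t bb hright hlev ht1 ht2 hb1 hb2
    (by linarith [hp₀t.1, hp₀t.2]) hDt hEt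
  refine ⟨t, bb, ⟨ht1, ht2, hb1, hb2⟩, ht3, hb3, ?_, hvol⟩
  by_contra hneg
  push Not at hneg
  rw [ENNReal.ofReal_of_nonpos hneg.le] at hvol
  have hpos := modH2_pos h D x₀ ⟨p₀, hp₀, hp₀x⟩
  exact absurd hvol (not_le.mpr hpos)



lemma modH2_support_bot (D : Set (ℝ × ℝ)) (hD : IsCompact D) (hDc : Convex ℝ D) (X δ M : ℝ)
    (hδ : 0 < δ) (hlev : ∀ p ∈ D, |p.2| ≤ M) (hl : ∃ p ∈ D, p.1 ≤ X - δ)
    (hr : ∃ p ∈ D, X + δ ≤ p.1) :
    ∃ b ς : ℝ, (X, -b) ∈ D ∧ |ς| ≤ 2 * M / δ ∧ ∀ p ∈ D, -p.2 ≤ b + ς * (p.1 - X) := by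
  set T : ℝ × ℝ →L[ℝ] ℝ × ℝ :=
    (ContinuousLinearMap.fst ℝ ℝ ℝ).prod (-(ContinuousLinearMap.snd ℝ ℝ ℝ)) with hT
  have hTa : ∀ p : ℝ × ℝ, T p = (p.1, -p.2) := by
    intro p
    simp [hT]
  have hD' : IsCompact (T '' D) := hD.image T.continuous
  have hDc' : Convex ℝ (T '' D) := hDc.linear_image T.toLinearMap
  obtain ⟨l, hl1, hl2⟩ := hl
  obtain ⟨r, hr1, hr2⟩ := hr
  obtain ⟨b, ς, h1, h2, h3⟩ := support_line (T '' D) hD' hDc' X δ M hδ
    (by
      rintro _ ⟨p, hp, rfl⟩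
      rw [hTa]
      simpa using hlev p hp)
    ⟨T l, ⟨l, hl1, rfl⟩, by rw [hTa]; exact hl2⟩
    ⟨T r, ⟨r, hr1, rfl⟩, by rw [hTa]; exact hr2⟩
  refine ⟨b, ς, ?_, h2, ?_⟩
  · obtain ⟨p, hp, hpe⟩ := h1
    rw [hTa] at hpe
    have e1 : p.1 = X := congrArg Prod.fst hpe
    have e2 : -p.2 = b := congrArg Prod.snd hpe
    have : p = (X, -b) := by
      ext
      · exact e1
      · change p.2 = -b
        linarith
    rw [← this]
    exact hp
  · intro p hp
    have := h3 (T p) ⟨p, hp, rfl⟩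
    rw [hTa] at this
    exact this

lemma modH2_mono (N : ℕ) (ξ : ℕ → ℝ) (hslo : ∀ k < N, 19400 ≤ ξ (k + 1) - ξ k) :
    ∀ j ≤ N, ∀ i ≤ j, ξ i ≤ ξ j := by
  intro j
  induction j with
  | zero =>
    intro _ i hi
    have : i = 0 := by omega
    rw [this]
  | succ j ih =>
    intro hj i hi
    rcases Nat.lt_or_ge i (j + 1) with h | h
    · have h1 := ih (by omega) i (by omega)
      have h2 := hslo j (by omega)
      linarith
    · have : i = j + 1 := by omega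
      rw [this]

lemma modH2_find (ξ : ℕ → ℝ) (x : ℝ) : ∀ N : ℕ, 1 ≤ N → ξ 0 ≤ x → x ≤ ξ N →
    ∃ k < N, ξ k ≤ x ∧ x ≤ ξ (k + 1) := by
  intro N
  induction N with
  | zero => intro h; omega
  | succ n ih =>
    intro _ h0 hx
    rcases le_total (ξ n) x with h | h
    · exact ⟨n, by omega, h, hx⟩
    · rcases Nat.eq_zero_or_pos n with hn | hn
      · subst hn
        exact ⟨0, by omega, h0, hx⟩
      · obtain ⟨k, hk, h1, h2⟩ := ih hn h0 h
        exact ⟨k, by omega, h1, h2⟩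

lemma modH2_affine (a b A B : ℝ) :
    ∫ x in a..b, (A + B * x) = (b - a) * A + B * ((b ^ 2 - a ^ 2) / 2) := by
  have hderiv : ∀ x ∈ Set.uIcc a b, HasDerivAt (fun x : ℝ => A * x + B * (x ^ 2 / 2)) (A + B * x) x := by
    intro x _
    have h1 : HasDerivAt (fun x : ℝ => x ^ 2 / 2) (2 * x / 2) x := by
      have := (hasDerivAt_pow 2 x).div_const 2
      simpa using this
    have h2 := ((hasDerivAt_id x).const_mul A).add (h1.const_mul B)
    refine h2.congr_deriv ?_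
    ring
  rw [intervalIntegral.integral_eq_sub_of_hasDerivAt hderiv]
  · ring
  · apply Continuous.intervalIntegrable
    fun_prop

/-- one vertical cell -/
lemma modH2_cell_bound {R : ℝ → ℝ} {W c m α β : ℝ} (h : Hyp R W c m α β) (D : Set (ℝ × ℝ))
    (hD : IsCompact D) (hK : IsCompact (KR R)) (a a' μ τ σ b ς : ℝ) (hμ : 0 ≤ μ ∧ μ ≤ 300)
    (haa : a' - a = gR R μ)
    (hσ : |σ| ≤ 1 / 4) (hς : |ς| ≤ 1 / 4) (hτ : |τ| ≤ 1700) (hb : |b| ≤ 1700)
    (htop : ∀ p ∈ D, p.2 ≤ τ + σ * (p.1 - (a + R μ)))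
    (hbot : ∀ p ∈ D, -p.2 ≤ b + ς * (p.1 - (a + R (-μ)))) :
    0 ≤ (a' - a) * ((40 * W + τ + b) +
        ((R m - R (-m)) / 2 - (R μ - R (-μ)) / 2) * (σ - ς)) ∧
    volume ((D + (20 : ℝ) • KR R) ∩ {p | a ≤ p.1 ∧ p.1 ≤ a'}) ≤
      ENNReal.ofReal ((a' - a) * ((40 * W + τ + b) +
        ((R m - R (-m)) / 2 - (R μ - R (-μ)) / 2) * (σ - ς))) := by
  have hR1 := modH2_R_lo h hμ.1 hμ.2
  have hR2 := modH2_Rn_lo h hμ.1 hμ.2
  have hR3 := modH2_R_le h μ
  have hR4 := modH2_R_le h (-μ)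
  have hc := abs_le.mp h.c_abs
  have hW := h.W_lo
  have hσ1 := abs_le.mp hσ
  have hς1 := abs_le.mp hς
  have hτ1 := abs_le.mp hτ
  have hb1 := abs_le.mp hb
  have hbal := h.bal
  unfold gR at haa
  have hE : IsCompact (D + (20 : ℝ) • KR R) := hD.add (hK.smul 20)
  have hσ' : |σ| ≤ 1 / 2 := hσ.trans (by norm_num)
  have hς' : |ς| ≤ 1 / 2 := hς.trans (by norm_num)
  set U : ℝ → ℝ := fun x => 20 * W + τ + σ * (x - 20 * c - (a + R μ)) with hU
  set L : ℝ → ℝ := fun x => 20 * W + b + ς * (x + 20 * c - (a + R (-μ))) with hL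
  have hval : ∫ x in a..a', (U x + L x) = (a' - a) * ((40 * W + τ + b) +
        ((R m - R (-m)) / 2 - (R μ - R (-μ)) / 2) * (σ - ς)) := by
    have e1 : (fun x => U x + L x) = fun x => ((40 * W + τ + b
        + σ * (-20 * c - (a + R μ)) + ς * (20 * c - (a + R (-μ)))) + (σ + ς) * x) := by
      funext x
      simp only [hU, hL]
      ring
    rw [e1, modH2_affine]
    have e2 : a' = a + (R μ + R (-μ)) := by linarith
    have e3 : c = -((R m - R (-m)) / 2) / 20 := by linarith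
    rw [e2, e3]
    ring
  have hcell := modH2_cell (D + (20 : ℝ) • KR R) hE a a' (by linarith) U L
    (by rw [hU]; fun_prop) (by rw [hL]; fun_prop) ?_ ?_
  · rw [hval] at hcell
    refine ⟨?_, hcell⟩
    rw [← hval]
    apply intervalIntegral.integral_nonneg (by linarith)
    intro x hx
    simp only [hU, hL]
    have h1 := hx.1
    have h2 := hx.2
    have h3 : -5001 ≤ σ * (x - 20 * c - (a + R μ)) := by
      have : |σ * (x - 20 * c - (a + R μ))| ≤ 1 / 4 * 20004 := by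
        rw [abs_mul]
        gcongr
        rw [abs_le]
        constructor <;> linarith
      have := (abs_le.mp this).1
      linarith
    have h4 : -5001 ≤ ς * (x + 20 * c - (a + R (-μ))) := by
      have : |ς * (x + 20 * c - (a + R (-μ)))| ≤ 1 / 4 * 20004 := by
        rw [abs_mul]
        gcongr
        rw [abs_le]
        constructor <;> linarith
      have := (abs_le.mp this).1
      linarith
    linarith
  · intro p hp _ _
    rw [Set.mem_add] at hp
    obtain ⟨d, hd, k', hk', rfl⟩ := hp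
    rw [Set.mem_smul_set] at hk'
    obtain ⟨k, hk, rfl⟩ := hk'
    simp only [Prod.fst_add, Prod.smul_fst, smul_eq_mul, Prod.snd_add, Prod.smul_snd, hU, hL]
    have h1 := modH2_supp h hk hσ'
    have h2 := modH2_supp' h hk hς'
    have h3 := htop d hd
    have h4 := hbot d hd
    constructor <;> nlinarith
  · intro x hx
    simp only [hU, hL]
    have h1 := hx.1
    have h2 := hx.2
    have h3 : -5001 ≤ σ * (x - 20 * c - (a + R μ)) := by
      have : |σ * (x - 20 * c - (a + R μ))| ≤ 1 / 4 * 20004 := by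
        rw [abs_mul]
        gcongr
        rw [abs_le]
        constructor <;> linarith
      have := (abs_le.mp this).1
      linarith
    have h4 : -5001 ≤ ς * (x + 20 * c - (a + R (-μ))) := by
      have : |ς * (x + 20 * c - (a + R (-μ)))| ≤ 1 / 4 * 20004 := by
        rw [abs_mul]
        gcongr
        rw [abs_le]
        constructor <;> linarith
      have := (abs_le.mp this).1
      linarith
    linarith

lemma modH2_KR_compact {R : ℝ → ℝ} {W c m α β : ℝ} (h : Hyp R W c m α β) : IsCompact (KR R) := by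
  have hRc : Continuous R := by
    have : LipschitzWith 1.001 R := by
      apply LipschitzWith.of_dist_le_mul
      intro x y
      rw [Real.dist_eq, Real.dist_eq]
      have := h.lip x y
      simpa using this
    exact this.continuous
  have hclosed : IsClosed (KR R) := by
    apply IsClosed.inter
    · exact isClosed_le continuous_fst (hRc.comp continuous_snd)
    · exact isClosed_le continuous_fst.neg (hRc.comp continuous_snd.neg)
  apply Metric.isCompact_of_isClosed_isBounded hclosed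
  apply Bornology.IsBounded.subset (Bornology.IsBounded.prod
    (Metric.isBounded_Icc (-9999 : ℝ) 9999) (Metric.isBounded_Icc (-W) W))
  intro p hp
  have h1 := modH2_le_W h hp
  have h2 := modH2_le_W h (modH2_KR_symm R hp)
  have h3 := modH2_R_le h p.2
  have h4 := modH2_R_le h (-p.2)
  obtain ⟨h5, h6⟩ := hp
  simp only [Prod.snd_neg] at h2
  refine ⟨⟨by linarith, by linarith⟩, ⟨by linarith, by linarith⟩⟩



theorem geom_bound {R : ℝ → ℝ} {W c m α β : ℝ} (h : Hyp R W c m α β) (N : ℕ) (hN : 1 ≤ N)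
    (ξ mk : ℕ → ℝ) (hs : ∀ k < N, ξ (k + 1) - ξ k = gR R (mk k))
    (hslo : ∀ k < N, 19400 ≤ ξ (k + 1) - ξ k) (hmk : ∀ k < N, 0 ≤ mk k ∧ mk k ≤ 300)
    (D : Set (ℝ × ℝ)) (hD : IsCompact D) (hDc : Convex ℝ D)
    (hcov : ∀ p ∈ D, ∃ i ≤ N, p ∈ tr (ξ i) (KR R))
    (hlev : ∀ p ∈ D, |p.2| ≤ 1700) (hright : ∃ p ∈ D, ξ N + 5000 ≤ p.1)
    (hleft : ∃ p ∈ D, p.1 ≤ ξ 0 - 5000)
    (htop : ∀ k < N, ∀ y, (ξ k + R (mk k), y) ∈ D → y ≤ mk k)
    (hbot : ∀ k < N, ∀ y, (ξ k + R (-mk k), y) ∈ D → -mk k ≤ y) :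
    ∃ (τ b σ ς : ℕ → ℝ) (tR bR tL bL : ℝ),
      (∀ k < N, τ k ≤ mk k ∧ |τ k| ≤ 1700 ∧ |σ k| ≤ 1 / 4 ∧
        b k ≤ mk k ∧ |b k| ≤ 1700 ∧ |ς k| ≤ 1 / 4) ∧
      (∀ j < N, ∀ k < N, τ j ≤ τ k + σ k * ((ξ j + R (mk j)) - (ξ k + R (mk k)))) ∧
      (∀ j < N, ∀ k < N, b j ≤ b k + ς k * ((ξ j + R (-mk j)) - (ξ k + R (-mk k)))) ∧
      (-2000 ≤ tR ∧ tR ≤ 7000 ∧ -2000 ≤ bR ∧ bR ≤ 7000 ∧
        -2000 ≤ tL ∧ tL ≤ 7000 ∧ -2000 ≤ bL ∧ bL ≤ 7000) ∧
      tR ≤ τ (N - 1) + 20000 * max (σ (N - 1)) 0 - 9000 * max (-σ (N - 1)) 0 ∧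
      bR ≤ b (N - 1) + 20000 * max (ς (N - 1)) 0 - 9000 * max (-ς (N - 1)) 0 ∧
      tL ≤ τ 0 + 20000 * max (-σ 0) 0 - 9000 * max (σ 0) 0 ∧
      bL ≤ b 0 + 20000 * max (-ς 0) 0 - 9000 * max (ς 0) 0 ∧
      volume (D + (20 : ℝ) • KR R) ≤ ENNReal.ofReal
        ((∑ k ∈ Finset.range N, (ξ (k + 1) - ξ k) * ((40 * W + τ k + b k) +
            ((R m - R (-m)) / 2 - (R (mk k) - R (-mk k)) / 2) * (σ k - ς k)))
          + eP R W tR + eM R W bR + eM R W tL + eP R W bL) := by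
  have hmono := modH2_mono N ξ hslo
  have hR1 : ∀ k < N, 9695 ≤ R (mk k) := fun k hk => modH2_R_lo h (hmk k hk).1 (hmk k hk).2
  have hR2 : ∀ k < N, 9695 ≤ R (-mk k) := fun k hk => modH2_Rn_lo h (hmk k hk).1 (hmk k hk).2
  have hR3 : ∀ t, R t ≤ 9998.1 := modH2_R_le h
  have hs' : ∀ k < N, ξ (k + 1) = ξ k + (R (mk k) + R (-mk k)) := by
    intro k hk
    have := hs k hk
    unfold gR at this
    linarith
  have h14 : 2 * 1700 / 14695 ≤ (1 / 4 : ℝ) := by norm_num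
  obtain ⟨pr, hpr, hprx⟩ := hright
  obtain ⟨pl, hpl, hplx⟩ := hleft
  have hlines : ∀ k, ∃ τ σ b ς : ℝ, k < N →
      ((ξ k + R (mk k), τ) ∈ D ∧ |σ| ≤ 1 / 4 ∧
        (∀ p ∈ D, p.2 ≤ τ + σ * (p.1 - (ξ k + R (mk k))))) ∧
      ((ξ k + R (-mk k), -b) ∈ D ∧ |ς| ≤ 1 / 4 ∧
        (∀ p ∈ D, -p.2 ≤ b + ς * (p.1 - (ξ k + R (-mk k))))) := by
    intro k
    by_cases hk : k < N
    · have e0 := hmono k hk.le 0 (Nat.zero_le _)
      have e1 := hmono N le_rfl (k + 1) hk
      have e2 := hs' k hk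
      have e3 := hR1 k hk
      have e4 := hR2 k hk
      obtain ⟨τ, σ, a1, a2, a3⟩ := support_line D hD hDc (ξ k + R (mk k)) 14695 1700 (by norm_num)
        hlev ⟨pl, hpl, by linarith⟩ ⟨pr, hpr, by linarith⟩
      obtain ⟨b, ς, b1, b2, b3⟩ := modH2_support_bot D hD hDc (ξ k + R (-mk k)) 14695 1700
        (by norm_num) hlev ⟨pl, hpl, by linarith⟩ ⟨pr, hpr, by linarith⟩
      exact ⟨τ, σ, b, ς, fun _ => ⟨⟨a1, a2.trans h14, a3⟩, ⟨b1, b2.trans h14, b3⟩⟩⟩
    · exact ⟨0, 0, 0, 0, fun hk' => absurd hk' hk⟩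
  choose τ σ b ς hl using hlines
  have hτ : ∀ k < N, |τ k| ≤ 1700 := fun k hk => hlev _ (hl k hk).1.1
  have hb : ∀ k < N, |b k| ≤ 1700 := by
    intro k hk
    have := hlev _ (hl k hk).2.1
    simpa using this
  have hK : IsCompact (KR R) := modH2_KR_compact h
  have hE : IsCompact (D + (20 : ℝ) • KR R) := hD.add (hK.smul 20)
  -- the right end
  have hN1 : N - 1 < N := by omega
  have hN2 : N - 1 + 1 = N := by omega
  have hsN := hs' (N - 1) hN1
  rw [hN2] at hsN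
  have hrightD : ∀ p ∈ D, p.1 ≤ ξ N + R p.2 := by
    intro p hp
    obtain ⟨i, hi, hpi⟩ := hcov p hp
    have h1 : p.1 - ξ i ≤ R p.2 := hpi.1
    have h2 := hmono N le_rfl i hi
    linarith
  obtain ⟨tR, bR, ⟨r1, r2, r3, r4⟩, r5, r6, r7, r8⟩ := modH2_end h D hD (ξ N)
    (ξ (N - 1) + R (mk (N - 1))) (τ (N - 1)) (σ (N - 1))
    (ξ (N - 1) + R (-mk (N - 1))) (b (N - 1)) (ς (N - 1))
    (by linarith [hR2 (N - 1) hN1]) (by linarith [hR3 (-mk (N - 1))])
    (by linarith [hR1 (N - 1) hN1]) (by linarith [hR3 (mk (N - 1))])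
    (hl (N - 1) hN1).1.2.1 (hl (N - 1) hN1).2.2.1 (hτ _ hN1) (hb _ hN1)
    (hl (N - 1) hN1).1.2.2 (hl (N - 1) hN1).2.2.2 hrightD hlev ⟨pr, hpr, hprx⟩
  -- the left end
  have h0N : 0 < N := by omega
  have hDneg : IsCompact (-D) := hD.neg
  have hleftD : ∀ p ∈ -D, p.1 ≤ -ξ 0 + R p.2 := by
    intro p hp
    obtain ⟨i, hi, hpi⟩ := hcov (-p) hp
    have h1 : -(-p.1 - ξ i) ≤ R (-(-p.2)) := hpi.2
    rw [neg_neg p.2] at h1
    have h2 := hmono i hi 0 (Nat.zero_le _)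
    linarith
  obtain ⟨bL, tL, ⟨l1, l2, l3, l4⟩, l5, l6, l7, l8⟩ := modH2_end h (-D) hDneg (-ξ 0)
    (-(ξ 0 + R (-mk 0))) (b 0) (-ς 0) (-(ξ 0 + R (mk 0))) (τ 0) (-σ 0)
    (by linarith [hR2 0 h0N]) (by linarith [hR3 (-mk 0)])
    (by linarith [hR1 0 h0N]) (by linarith [hR3 (mk 0)])
    (by rw [abs_neg]; exact (hl 0 h0N).2.2.1) (by rw [abs_neg]; exact (hl 0 h0N).1.2.1)
    (hb _ h0N) (hτ _ h0N)
    (by
      intro p hp
      have := (hl 0 h0N).2.2.2 (-p) hp
      simp only [Prod.snd_neg, Prod.fst_neg, neg_neg] at this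
      linarith)
    (by
      intro p hp
      have := (hl 0 h0N).1.2.2 (-p) hp
      simp only [Prod.snd_neg, Prod.fst_neg] at this
      linarith)
    hleftD
    (by
      intro p hp
      have := hlev (-p) hp
      simpa using this)
    ⟨-pl, by simpa using hpl, by simp only [Prod.fst_neg]; linarith⟩
  have hEneg : (D + (20 : ℝ) • KR R) ∩ {p | p.1 ≤ ξ 0}
      = -(((-D) + (20 : ℝ) • KR R) ∩ {p | -ξ 0 ≤ p.1}) := by
    ext p
    simp only [Set.mem_neg, Set.mem_inter_iff, Set.mem_ofPred_eq, Prod.fst_neg, neg_le_neg_iff]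
    apply and_congr_left
    intro _
    constructor
    · intro hp
      rw [Set.mem_add] at hp ⊢
      obtain ⟨d, hd, k', hk', rfl⟩ := hp
      rw [Set.mem_smul_set] at hk'
      obtain ⟨k, hk, rfl⟩ := hk'
      refine ⟨-d, by simpa using hd, (20 : ℝ) • (-k), ?_, ?_⟩
      · exact Set.smul_mem_smul_set (modH2_KR_symm R hk)
      · rw [smul_neg]; abel
    · intro hp
      rw [Set.mem_add] at hp ⊢
      obtain ⟨d, hd, k', hk', hde⟩ := hp
      rw [Set.mem_smul_set] at hk'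
      obtain ⟨k, hk, rfl⟩ := hk'
      refine ⟨-d, hd, (20 : ℝ) • (-k), ?_, ?_⟩
      · exact Set.smul_mem_smul_set (modH2_KR_symm R hk)
      · have hde' : p = -(d + (20 : ℝ) • k) := by
          have h3 : d + (20 : ℝ) • k = -p := hde
          rw [h3, neg_neg]
        rw [smul_neg, hde']
        abel
  have hvolL : volume ((D + (20 : ℝ) • KR R) ∩ {p | p.1 ≤ ξ 0})
      ≤ ENNReal.ofReal (eP R W bL + eM R W tL) := by
    rw [hEneg, Measure.measure_neg]
    exact l8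
  refine ⟨τ, b, σ, ς, tR, bR, tL, bL, ?_, ?_, ?_, ⟨r1, r2, r3, r4, l3, l4, l1, l2⟩, r5, r6, ?_, ?_, ?_⟩
  · intro k hk
    refine ⟨htop k hk _ (hl k hk).1.1, hτ k hk, (hl k hk).1.2.1, ?_, hb k hk, (hl k hk).2.2.1⟩
    have := hbot k hk _ (hl k hk).2.1
    linarith
  · intro j hj k hk
    exact (hl k hk).1.2.2 _ (hl j hj).1.1
  · intro j hj k hk
    have := (hl k hk).2.2.2 _ (hl j hj).2.1
    simpa using this
  · simpa only [neg_neg] using l6
  · simpa only [neg_neg] using l5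
  · -- the total
    set S : ℕ → ℝ := fun k => (ξ (k + 1) - ξ k) * ((40 * W + τ k + b k) +
            ((R m - R (-m)) / 2 - (R (mk k) - R (-mk k)) / 2) * (σ k - ς k)) with hS
    have hcells : ∀ k < N, 0 ≤ S k ∧
        volume ((D + (20 : ℝ) • KR R) ∩ {p | ξ k ≤ p.1 ∧ p.1 ≤ ξ (k + 1)})
          ≤ ENNReal.ofReal (S k) := by
      intro k hk
      exact modH2_cell_bound h D hD hK (ξ k) (ξ (k + 1)) (mk k) (τ k) (σ k) (b k) (ς k) (hmk k hk)
        (hs k hk) (hl k hk).1.2.1 (hl k hk).2.2.1 (hτ k hk) (hb k hk) (hl k hk).1.2.2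
        (hl k hk).2.2.2
    have hsub : (D + (20 : ℝ) • KR R) ⊆
        ((D + (20 : ℝ) • KR R) ∩ {p | p.1 ≤ ξ 0}) ∪
        ((⋃ k ∈ Finset.range N, (D + (20 : ℝ) • KR R) ∩ {p | ξ k ≤ p.1 ∧ p.1 ≤ ξ (k + 1)}) ∪
        ((D + (20 : ℝ) • KR R) ∩ {p | ξ N ≤ p.1})) := by
      intro p hp
      rcases le_total p.1 (ξ 0) with h0 | h0
      · exact Or.inl ⟨hp, h0⟩
      · rcases le_total (ξ N) p.1 with h1 | h1
        · exact Or.inr (Or.inr ⟨hp, h1⟩)
        · obtain ⟨k, hk, h2, h3⟩ := modH2_find ξ p.1 N hN h0 h1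
          refine Or.inr (Or.inl ?_)
          simp only [Set.mem_iUnion, Finset.mem_range]
          exact ⟨k, hk, hp, h2, h3⟩
    have hsum : (∑ k ∈ Finset.range N, S k) + eP R W tR + eM R W bR + eM R W tL + eP R W bL
        = (eP R W bL + eM R W tL) + ((∑ k ∈ Finset.range N, S k) + (eP R W tR + eM R W bR)) := by
      ring
    rw [hsum]
    have hSnn : 0 ≤ ∑ k ∈ Finset.range N, S k :=
      Finset.sum_nonneg (fun k hk => (hcells k (Finset.mem_range.mp hk)).1)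
    rw [ENNReal.ofReal_add l7 (by linarith), ENNReal.ofReal_add hSnn r7]
    refine (measure_mono hsub).trans ((measure_union_le _ _).trans ?_)
    refine add_le_add hvolL ((measure_union_le _ _).trans ?_)
    refine add_le_add ?_ r8
    rw [ENNReal.ofReal_sum_of_nonneg (fun k hk => (hcells k (Finset.mem_range.mp hk)).1)]
    refine (measure_biUnion_finset_le _ _).trans ?_
    exact Finset.sum_le_sum (fun k hk => (hcells k (Finset.mem_range.mp hk)).2)

end ZZ
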