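import Pool.Agent.Helper32.ZZ.Defs

/-!
Module I for MP_f8fc30_co (helper76): absorption inequality, pure real analysis.
-/

open MeasureTheory Set Pointwise
open scoped ENNReal

namespace ZZ

theorem modI_psi_nonneg (a : ℝ) : 0 ≤ psi a := by
  unfold psi
  exact le_min (by positivity) (by positivity)

theorem modI_lip1 {R : ℝ → ℝ} {W c m α β : ℝ} (h : Hyp R W c m α β) (x : ℝ) :
    |R x - R m| ≤ 1.001 * |x - m| := h.lip x m

theorem modI_lip2 {R : ℝ → ℝ} {W c m α β : ℝ} (h : Hyp R W c m α β) (x : ℝ) :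
    |R (-x) - R (-m)| ≤ 1.001 * |x - m| := by
  have := h.lip (-x) (-m)
  have e : |-x - -m| = |x - m| := by
    rw [← abs_neg]; congr 1; ring
  rwa [e] at this

theorem modI_g_le {R : ℝ → ℝ} {W c m α β : ℝ} (h : Hyp R W c m α β) (x : ℝ) (hx : 0 ≤ x) :
    gR R x ≤ 20000 := by
  have h1 := h.up1 (x - m)
  have h2 := h.up2 (x - m)
  have e1 : m + (x - m) = x := by ring
  have e2 : -m - (x - m) = -x := by ring
  rw [e1] at h1
  rw [e2] at h2
  have p := modI_psi_nonneg (x - m)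
  have a1 := h.α_lo
  have a2 := h.α_hi
  have b1 := h.β_lo
  have b2 := h.β_hi
  have m1 := h.m_hi
  have m2 := h.m_lo
  have r1 := h.Rm_hi
  have r2 := h.Rn_hi
  unfold gR
  nlinarith [mul_nonneg (by linarith : (0:ℝ) ≤ α) hx, mul_nonneg (by linarith : (0:ℝ) ≤ β) hx]

/-- Jensen with slack -/
theorem FR_tangent {R : ℝ → ℝ} {W c m α β : ℝ} (h : Hyp R W c m α β) (x : ℝ) (hx : 0 ≤ x)
    (hx2 : x ≤ 300) :
    FR R W x ≤ FR R W m + (2 * gR R m - (α + β) * (2 * m + 40 * W)) * (x - m)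
      - 39000 * min ((x - m) ^ 2) (5 * |x - m|) := by
  have h1 := h.up1 (x - m)
  have h2 := h.up2 (x - m)
  have e1 : m + (x - m) = x := by ring
  have e2 : -m - (x - m) = -x := by ring
  rw [e1] at h1
  rw [e2] at h2
  have W1 := h.W_lo
  have hW : (399960:ℝ) ≤ 2 * x + 40 * W := by linarith
  have hg : gR R x ≤ gR R m - (α + β) * (x - m) - 2 * psi (x - m) := by
    unfold gR; linarith
  have hab : 0 ≤ α + β := by
    have := h.α_lo; have := h.β_lo; linarith
  have hF : FR R W x ≤ (gR R m - (α + β) * (x - m) - 2 * psi (x - m)) * (2 * x + 40 * W) := by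
    unfold FR
    exact mul_le_mul_of_nonneg_right hg (by linarith)
  have hpsi : 39000 * min ((x - m) ^ 2) (5 * |x - m|) ≤ 2 * psi (x - m) * (2 * x + 40 * W) := by
    have h3 : 39000 * min ((x - m) ^ 2) (5 * |x - m|) ≤ 2 * psi (x - m) * 399960 := by
      unfold psi
      rcases le_total ((x - m) ^ 2 / 20) (|x - m| / 4) with h4 | h4
      · rw [min_eq_left h4, min_eq_left (by linarith)]
        nlinarith [sq_nonneg (x - m)]
      · rw [min_eq_right h4, min_eq_right (by linarith)]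
        nlinarith [abs_nonneg (x - m)]
    refine h3.trans ?_
    exact mul_le_mul_of_nonneg_left hW (by have := modI_psi_nonneg (x - m); linarith)
  have hq : 0 ≤ (α + β) * (x - m) ^ 2 := mul_nonneg hab (sq_nonneg _)
  unfold FR at *
  nlinarith

theorem modI_SP {R : ℝ → ℝ} {W c m α β : ℝ} (h : Hyp R W c m α β) :
    190000 ≤ SP R W m α ∧ SP R W m α ≤ 206000 ∧ 190000 ≤ SM R W m β ∧ SM R W m β ≤ 206000 ∧
    |SP R W m α - SM R W m β| ≤ 12004 := by
  have a1 := h.α_lo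
  have a2 := h.α_hi
  have b1 := h.β_lo
  have b2 := h.β_hi
  have m1 := h.m_hi
  have m2 := h.m_lo
  have r1 := h.Rm_hi
  have r2 := h.Rn_hi
  have r3 := h.Rm_lo
  have r4 := h.Rn_lo
  have w1 := h.W_lo
  have w2 := h.W_hi
  have hb := h.bal
  have hc := abs_le.1 h.c_abs
  unfold SP SM
  have hWm : 9998 ≤ W - m := by linarith
  have hWm2 : W - m ≤ 10001 := by linarith
  have p1 : α * (W - m) ≤ 0.08 * 10001 := by nlinarith
  have p2 : 0.02 * 9998 ≤ α * (W - m) := by nlinarith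
  have p3 : β * (W - m) ≤ 0.08 * 10001 := by nlinarith
  have p4 : 0.02 * 9998 ≤ β * (W - m) := by nlinarith
  have p5 : (α - β) * (W - m) ≤ 0.06 * 10001 := by nlinarith
  have p6 : -(0.06 * 10001) ≤ (α - β) * (W - m) := by nlinarith
  refine ⟨by nlinarith, by nlinarith, by nlinarith, by nlinarith, ?_⟩
  rw [abs_le]
  constructor
  · nlinarith
  · nlinarith

/-! ### sums -/

theorem modI_sum_split (M : ℕ) (a : ℕ → ℝ) :
    ∑ k ∈ Finset.range (M + 2), a k = (∑ j ∈ Finset.range M, a (j + 1)) + a 0 + a (M + 1) := by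
  rw [Finset.sum_range_succ, Finset.sum_range_succ']

theorem modI_sh0 (M : ℕ) (a : ℕ → ℝ) (ha : ∀ k, k < M + 2 → 0 ≤ a k) :
    ∑ j ∈ Finset.range M, a j ≤ ∑ k ∈ Finset.range (M + 2), a k := by
  refine Finset.sum_le_sum_of_subset_of_nonneg ?_ ?_
  · intro x hx
    rw [Finset.mem_range] at *
    omega
  · intro x hx _
    exact ha x (Finset.mem_range.1 hx)

theorem modI_sh1 (M : ℕ) (a : ℕ → ℝ) (ha : ∀ k, k < M + 2 → 0 ≤ a k) :
    ∑ j ∈ Finset.range M, a (j + 1) ≤ ∑ k ∈ Finset.range (M + 2), a k := by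
  rw [modI_sum_split]
  have h1 := ha 0 (by omega)
  have h2 := ha (M + 1) (by omega)
  linarith

theorem modI_sh2 (M : ℕ) (a : ℕ → ℝ) (ha : ∀ k, k < M + 2 → 0 ≤ a k) :
    ∑ j ∈ Finset.range M, a (j + 2) ≤ ∑ k ∈ Finset.range (M + 2), a k := by
  rw [Finset.sum_range_succ', Finset.sum_range_succ']
  have h1 := ha 0 (by omega)
  have h2 := ha 1 (by omega)
  simp only [zero_add] at *
  have e : ∀ j, j + 1 + 1 = j + 2 := fun j => rfl
  simp only [e]
  linarith

theorem modI_mem (M : ℕ) (a : ℕ → ℝ) (ha : ∀ k, k < M + 2 → 0 ≤ a k) (k : ℕ) (hk : k < M + 2) :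
    a k ≤ ∑ k ∈ Finset.range (M + 2), a k :=
  Finset.single_le_sum (f := a) (fun i hi => ha i (Finset.mem_range.1 hi)) (Finset.mem_range.2 hk)

/-- slopes of one side -/
theorem modI_slopes (M : ℕ) (X τ σ D : ℕ → ℝ) (m : ℝ)
    (hX : ∀ k, k + 1 < M + 2 → 19000 ≤ X (k + 1) - X k)
    (hD : ∀ k, k < M + 2 → |τ k - m| ≤ D k)
    (hτ : ∀ j < M + 2, ∀ k < M + 2, τ j ≤ τ k + σ k * (X j - X k)) :
    (∀ j < M, |σ (j + 1)| ≤ (D j + 2 * D (j + 1) + D (j + 2)) / 19000) ∧
    (19000 * (M + 1 : ℝ) ≤ X (M + 1) - X 0) ∧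
    (max (-σ 0) 0 ≤ (D 0 + D (M + 1)) / (19000 * (M + 1 : ℝ))) ∧
    (max (σ (M + 1)) 0 ≤ (D 0 + D (M + 1)) / (19000 * (M + 1 : ℝ))) := by
  have hD0 : ∀ k, k < M + 2 → 0 ≤ D k := fun k hk => (abs_nonneg _).trans (hD k hk)
  have hL : ∀ k, k < M + 2 → 19000 * (k : ℝ) ≤ X k - X 0 := by
    intro k hk
    induction k with
    | zero => simp
    | succ k ih =>
      have h1 := ih (by omega)
      have h2 := hX k hk
      push_cast
      linarith
  have hLM := hL (M + 1) (by omega)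
  push_cast at hLM
  have hMpos : (0:ℝ) < 19000 * (M + 1 : ℝ) := by positivity
  have hd0 := abs_le.1 (hD 0 (by omega))
  have hdM := abs_le.1 (hD (M + 1) (by omega))
  refine ⟨?_, hLM, ?_, ?_⟩
  · intro j hj
    have h1 := hτ j (by omega) (j + 1) (by omega)
    have h2 := hτ (j + 2) (by omega) (j + 1) (by omega)
    have x1 := hX j (by omega)
    have x2 := hX (j + 1) (by omega)
    have e : j + 1 + 1 = j + 2 := rfl
    rw [e] at x2
    have d0 := abs_le.1 (hD j (by omega))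
    have d1 := abs_le.1 (hD (j + 1) (by omega))
    have d2 := abs_le.1 (hD (j + 2) (by omega))
    have n0 := hD0 j (by omega)
    have n1 := hD0 (j + 1) (by omega)
    have n2 := hD0 (j + 2) (by omega)
    rw [le_div_iff₀ (by norm_num)]
    rcases le_total 0 (σ (j + 1)) with hs | hs
    · rw [abs_of_nonneg hs]
      have : σ (j + 1) * 19000 ≤ σ (j + 1) * (X (j + 1) - X j) :=
        mul_le_mul_of_nonneg_left x1 hs
      nlinarith
    · rw [abs_of_nonpos hs]
      have : (-σ (j + 1)) * 19000 ≤ (-σ (j + 1)) * (X (j + 2) - X (j + 1)) :=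
        mul_le_mul_of_nonneg_left x2 (by linarith)
      nlinarith
  · have h1 := hτ (M + 1) (by omega) 0 (by omega)
    have nn : 0 ≤ (D 0 + D (M + 1)) / (19000 * (M + 1 : ℝ)) :=
      div_nonneg (add_nonneg (hD0 0 (by omega)) (hD0 (M + 1) (by omega))) hMpos.le
    refine max_le ?_ nn
    rcases le_total (-σ 0) 0 with hs | hs
    · exact hs.trans nn
    · rw [le_div_iff₀ hMpos]
      have : (-σ 0) * (19000 * (M + 1 : ℝ)) ≤ (-σ 0) * (X (M + 1) - X 0) :=
        mul_le_mul_of_nonneg_left hLM hs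
      nlinarith
  · have h1 := hτ 0 (by omega) (M + 1) (by omega)
    have nn : 0 ≤ (D 0 + D (M + 1)) / (19000 * (M + 1 : ℝ)) :=
      div_nonneg (add_nonneg (hD0 0 (by omega)) (hD0 (M + 1) (by omega))) hMpos.le
    refine max_le ?_ nn
    rcases le_total (σ (M + 1)) 0 with hs | hs
    · exact hs.trans nn
    · rw [le_div_iff₀ hMpos]
      have : σ (M + 1) * (19000 * (M + 1 : ℝ)) ≤ σ (M + 1) * (X (M + 1) - X 0) :=
        mul_le_mul_of_nonneg_left hLM hs
      nlinarith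

/-- the chord inequality for one side -/
theorem modI_chord (M : ℕ) (X τ σ : ℕ → ℝ) (m g0 e : ℝ) (he : 0 ≤ e)
    (hmono : ∀ k < M + 2, X 0 ≤ X k ∧ X k ≤ X (M + 1))
    (hL : 19000 * (M + 1 : ℝ) ≤ X (M + 1) - X 0)
    (hX : ∀ k < M + 2, |X k - X 0 - k * g0| ≤ e)
    (hsum : ∑ k ∈ Finset.range (M + 2), τ k ≤ (M + 2 : ℝ) * m)
    (hτ : ∀ j < M + 2, ∀ k < M + 2, τ j ≤ τ k + σ k * (X j - X k)) :
    τ 0 + τ (M + 1) - 2 * m ≤ 3 * e * |τ (M + 1) - τ 0| / (19000 * (M + 1 : ℝ)) := by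
  set L := X (M + 1) - X 0 with hLdef
  have hMpos : (0:ℝ) < 19000 * (M + 1 : ℝ) := by positivity
  have hLpos : 0 < L := hMpos.trans_le hL
  have h1 : ∀ k ∈ Finset.range (M + 2), (X (M + 1) - X k) * τ 0 + (X k - X 0) * τ (M + 1) ≤
      L * τ k := by
    intro k hk
    rw [Finset.mem_range] at hk
    obtain ⟨a1, a2⟩ := hmono k hk
    have b1 := mul_le_mul_of_nonneg_left (hτ 0 (by omega) k hk) (by linarith : 0 ≤ X (M + 1) - X k)
    have b2 := mul_le_mul_of_nonneg_left (hτ (M + 1) (by omega) k hk) (by linarith : 0 ≤ X k - X 0)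
    rw [hLdef]
    nlinarith
  have h2 := Finset.sum_le_sum h1
  rw [Finset.sum_add_distrib, ← Finset.sum_mul, ← Finset.sum_mul, ← Finset.mul_sum] at h2
  set Ψ := ∑ k ∈ Finset.range (M + 2), (X k - X 0) with hΨ
  have h3 : ∑ k ∈ Finset.range (M + 2), (X (M + 1) - X k) = (M + 2 : ℝ) * L - Ψ := by
    rw [hΨ, eq_sub_iff_add_eq, ← Finset.sum_add_distrib]
    have : ∀ k ∈ Finset.range (M + 2), X (M + 1) - X k + (X k - X 0) = L := by
      intro k _
      rw [hLdef]; ring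
    rw [Finset.sum_congr rfl this]
    simp
  rw [h3] at h2
  have h4 : L * ∑ k ∈ Finset.range (M + 2), τ k ≤ L * ((M + 2 : ℝ) * m) :=
    mul_le_mul_of_nonneg_left hsum hLpos.le
  -- the sum `Ψ`
  have hid : ∑ k ∈ Finset.range (M + 2), ((k : ℝ) * g0) = (M + 2 : ℝ) * (M + 1) / 2 * g0 := by
    rw [← Finset.sum_mul]
    congr 1
    have : ∀ n : ℕ, ∑ k ∈ Finset.range n, (k : ℝ) = n * (n - 1) / 2 := by
      intro n
      induction n with
      | zero => simp
      | succ n ih => rw [Finset.sum_range_succ, ih]; push_cast; ring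
    rw [this]
    push_cast; ring
  have h5 : |Ψ - (M + 2 : ℝ) * (M + 1) / 2 * g0| ≤ (M + 2 : ℝ) * e := by
    rw [hΨ, ← hid, ← Finset.sum_sub_distrib]
    refine (Finset.abs_sum_le_sum_abs _ _).trans ?_
    refine (Finset.sum_le_sum fun k hk => hX k (Finset.mem_range.1 hk)).trans ?_
    simp
  have h6 := hX (M + 1) (by omega)
  rw [← hLdef] at h6
  push_cast at h6
  have h7 : |Ψ - (M + 2 : ℝ) * L / 2| ≤ (M + 2 : ℝ) * e * (3 / 2) := by
    have hn : (0:ℝ) ≤ (M + 2 : ℝ) / 2 := by positivity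
    obtain ⟨u1, u2⟩ := abs_le.1 h5
    obtain ⟨u3, u4⟩ := abs_le.1 h6
    rw [abs_le]
    constructor <;> nlinarith
  have h8 : -(Ψ - (M + 2 : ℝ) * L / 2) * (τ (M + 1) - τ 0) ≤
      (M + 2 : ℝ) * e * (3 / 2) * |τ (M + 1) - τ 0| := by
    refine (le_abs_self _).trans ?_
    rw [abs_mul, abs_neg]
    exact mul_le_mul_of_nonneg_right h7 (abs_nonneg _)
  have h9 : (M + 2 : ℝ) / 2 * (L * (τ 0 + τ (M + 1) - 2 * m)) ≤
      (M + 2 : ℝ) / 2 * (3 * e * |τ (M + 1) - τ 0|) := by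
    nlinarith
  have h10 : L * (τ 0 + τ (M + 1) - 2 * m) ≤ 3 * e * |τ (M + 1) - τ 0| :=
    le_of_mul_le_mul_left h9 (by positivity)
  rw [le_div_iff₀ hMpos]
  rcases le_total (τ 0 + τ (M + 1) - 2 * m) 0 with h11 | h11
  · have : 0 ≤ 3 * e * |τ (M + 1) - τ 0| := by positivity
    nlinarith
  · have : (τ 0 + τ (M + 1) - 2 * m) * (19000 * (M + 1 : ℝ)) ≤ (τ 0 + τ (M + 1) - 2 * m) * L :=
      mul_le_mul_of_nonneg_left hL h11
    linarith

/-- all estimates for one side -/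
theorem modI_side (M : ℕ) (hMr : (10:ℝ) ^ 8 ≤ (M:ℝ) + 2) (X τ σ d T P cr : ℕ → ℝ)
    (m g0 s1 s2 t1 t2 : ℝ)
    (hd0 : ∀ k < M + 2, 0 ≤ d k) (hd1 : ∀ k < M + 2, d k ≤ 300)
    (hT : ∀ k < M + 2, 0 ≤ T k) (hP0 : ∀ k < M + 2, 0 ≤ P k)
    (hP : ∀ k < M + 2, d k ^ 2 ≤ 60 * P k) (hP' : ∀ k < M + 2, min (d k ^ 2) (5 * d k) ≤ P k)
    (hPs : ∑ k ∈ Finset.range (M + 2), P k ≤ 6000)
    (hτm : ∀ k < M + 2, |τ k - m| ≤ d k + T k)
    (hcr : ∀ k < M + 2, |cr k| ≤ 20020 * d k)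
    (hs1 : 190000 ≤ s1) (hs1' : s1 ≤ 206000) (hs2 : 190000 ≤ s2) (hs2' : s2 ≤ 206000)
    (ht1 : t1 ≤ τ 0 + 20000 * max (-σ 0) 0 - 9000 * max (σ 0) 0)
    (ht2 : t2 ≤ τ (M + 1) + 20000 * max (σ (M + 1)) 0 - 9000 * max (-σ (M + 1)) 0)
    (hXs : ∀ k, k + 1 < M + 2 → 19000 ≤ X (k + 1) - X k)
    (hmono : ∀ k < M + 2, X 0 ≤ X k ∧ X k ≤ X (M + 1))
    (hX : ∀ k < M + 2, |X k - X 0 - k * g0| ≤ 3.003 * ∑ k ∈ Finset.range (M + 2), d k)
    (hsum : ∑ k ∈ Finset.range (M + 2), τ k ≤ (M + 2 : ℝ) * m)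
    (hτ : ∀ j < M + 2, ∀ k < M + 2, τ j ≤ τ k + σ k * (X j - X k)) :
    (∑ k ∈ Finset.range (M + 2), cr k * σ k) + s1 * (t1 - m) + s2 * (t2 - m) ≤
      6200 * (∑ k ∈ Finset.range (M + 2), P k) + 1400 * (∑ k ∈ Finset.range (M + 2), T k) +
        10 ^ 12 / (4 * (M + 1 : ℝ) ^ 2) + (s2 - s1) / 2 * (τ (M + 1) - τ 0) := by
  obtain ⟨hsl, hL, hz0, hzM⟩ := modI_slopes M X τ σ (fun k => d k + T k) m hXs hτm hτ
  set Q := ∑ k ∈ Finset.range (M + 2), P k with hQ
  set sT := ∑ k ∈ Finset.range (M + 2), T k with hsT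
  set Del := ∑ k ∈ Finset.range (M + 2), d k with hDel
  set sD := ∑ k ∈ Finset.range (M + 2), d k ^ 2 with hsD
  have hM1 : (0:ℝ) < (M:ℝ) + 1 := by linarith
  have hDel0 : 0 ≤ Del := Finset.sum_nonneg fun k hk => hd0 k (Finset.mem_range.1 hk)
  have hQ0 : 0 ≤ Q := Finset.sum_nonneg fun k hk => hP0 k (Finset.mem_range.1 hk)
  have hsD_le : sD ≤ 60 * Q := by
    rw [hsD, hQ, Finset.mul_sum]
    exact Finset.sum_le_sum fun k hk => hP k (Finset.mem_range.1 hk)
  -- interior cross terms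
  have hint : ∑ j ∈ Finset.range M, cr (j + 1) * σ (j + 1) ≤ 253 * Q + 1265 * sT := by
    have h1 : ∀ j ∈ Finset.range M, cr (j + 1) * σ (j + 1) ≤
        (20020 / 19000) * ((d j ^ 2 / 2 + 3 * d (j + 1) ^ 2 + d (j + 2) ^ 2 / 2) +
          300 * (T j + 2 * T (j + 1) + T (j + 2))) := by
      intro j hj
      rw [Finset.mem_range] at hj
      have a0 := hd0 j (by omega)
      have a1 := hd0 (j + 1) (by omega)
      have a2 := hd0 (j + 2) (by omega)
      have b0 := hT j (by omega)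
      have b1 := hT (j + 1) (by omega)
      have b2 := hT (j + 2) (by omega)
      have c1 := hd1 (j + 1) (by omega)
      have h2 : cr (j + 1) * σ (j + 1) ≤ (20020 * d (j + 1)) *
          ((d j + T j + 2 * (d (j + 1) + T (j + 1)) + (d (j + 2) + T (j + 2))) / 19000) := by
        refine (le_abs_self _).trans ?_
        rw [abs_mul]
        exact mul_le_mul (hcr (j + 1) (by omega)) (hsl j hj) (abs_nonneg _) (by positivity)
      refine h2.trans ?_
      have h3 : d (j + 1) * (T j + 2 * T (j + 1) + T (j + 2)) ≤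
          300 * (T j + 2 * T (j + 1) + T (j + 2)) :=
        mul_le_mul_of_nonneg_right c1 (by linarith)
      have h4 : d (j + 1) * d j ≤ (d (j + 1) ^ 2 + d j ^ 2) / 2 := by
        have := two_mul_le_add_sq (d (j + 1)) (d j)
        linarith
      have h5 : d (j + 1) * d (j + 2) ≤ (d (j + 1) ^ 2 + d (j + 2) ^ 2) / 2 := by
        have := two_mul_le_add_sq (d (j + 1)) (d (j + 2))
        linarith
      have e : (20020 * d (j + 1)) *
          ((d j + T j + 2 * (d (j + 1) + T (j + 1)) + (d (j + 2) + T (j + 2))) / 19000) =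
          (20020 / 19000) * (d (j + 1) * d j + 2 * d (j + 1) ^ 2 + d (j + 1) * d (j + 2) +
            d (j + 1) * (T j + 2 * T (j + 1) + T (j + 2))) := by ring
      rw [e]
      refine mul_le_mul_of_nonneg_left ?_ (by norm_num)
      linarith
    refine (Finset.sum_le_sum h1).trans ?_
    rw [← Finset.mul_sum, Finset.sum_add_distrib, ← Finset.mul_sum, Finset.sum_add_distrib,
      Finset.sum_add_distrib, Finset.sum_add_distrib, Finset.sum_add_distrib, ← Finset.sum_div,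
      ← Finset.sum_div, ← Finset.mul_sum, ← Finset.mul_sum]
    have q0 := modI_sh0 M (fun k => d k ^ 2) fun k _ => sq_nonneg _
    have q1 := modI_sh1 M (fun k => d k ^ 2) fun k _ => sq_nonneg _
    have q2 := modI_sh2 M (fun k => d k ^ 2) fun k _ => sq_nonneg _
    have r0 := modI_sh0 M T hT
    have r1 := modI_sh1 M T hT
    have r2 := modI_sh2 M T hT
    simp only at q0 q1 q2
    rw [← hsD] at q0 q1 q2
    rw [← hsT] at r0 r1 r2
    have hT0 : 0 ≤ sT := Finset.sum_nonneg fun k hk => hT k (Finset.mem_range.1 hk)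
    linarith
  -- end terms
  have hE : ∀ z : ℝ, z = max (-σ 0) 0 ∨ z = max (σ (M + 1)) 0 →
      0 ≤ z ∧ z * 4126006000 ≤ 217160 * ((d 0 + T 0 + (d (M + 1) + T (M + 1))) / (M + 1 : ℝ)) := by
    intro z hz
    have hz1 : z ≤ (d 0 + T 0 + (d (M + 1) + T (M + 1))) / (19000 * (M + 1 : ℝ)) := by
      rcases hz with rfl | rfl
      · exact hz0
      · exact hzM
    have hz2 : 0 ≤ z := by
      rcases hz with rfl | rfl <;> exact le_max_right _ _
    refine ⟨hz2, ?_⟩
    have e : (d 0 + T 0 + (d (M + 1) + T (M + 1))) / (19000 * (M + 1 : ℝ)) =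
        (d 0 + T 0 + (d (M + 1) + T (M + 1))) / (M + 1 : ℝ) / 19000 := by
      rw [div_div, mul_comm]
    rw [e] at hz1
    have hnn : 0 ≤ (d 0 + T 0 + (d (M + 1) + T (M + 1))) / (M + 1 : ℝ) := by
      have := hd0 0 (by omega)
      have := hd0 (M + 1) (by omega)
      have := hT 0 (by omega)
      have := hT (M + 1) (by omega)
      positivity
    linarith
  set E := (d 0 + T 0 + (d (M + 1) + T (M + 1))) / (M + 1 : ℝ) with hEdef
  have hend0 : cr 0 * σ 0 + s1 * (t1 - m) ≤ s1 * (τ 0 - m) + 217160 * E := by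
    obtain ⟨z1, z2⟩ := hE _ (Or.inl rfl)
    have h1 : cr 0 * σ 0 ≤ 6006000 * (max (σ 0) 0 + max (-σ 0) 0) := by
      refine (le_abs_self _).trans ?_
      rw [abs_mul]
      have hc := hcr 0 (by omega)
      have hd := hd1 0 (by omega)
      have e1 : |σ 0| = max (σ 0) 0 + max (-σ 0) 0 := by
        rcases le_total 0 (σ 0) with h | h
        · rw [abs_of_nonneg h, max_eq_left h, max_eq_right (by linarith)]; ring
        · rw [abs_of_nonpos h, max_eq_right h, max_eq_left (by linarith)]; ring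
      rw [← e1]
      exact mul_le_mul_of_nonneg_right (by linarith) (abs_nonneg _)
    have h2 := mul_le_mul_of_nonneg_left ht1 (by linarith : 0 ≤ s1)
    have p1 : 0 ≤ max (σ 0) 0 := le_max_right _ _
    have h3 : 190000 * max (σ 0) 0 ≤ s1 * max (σ 0) 0 := mul_le_mul_of_nonneg_right hs1 p1
    have h4 : s1 * (20000 * max (-σ 0) 0) ≤ 206000 * (20000 * max (-σ 0) 0) :=
      mul_le_mul_of_nonneg_right hs1' (by positivity)
    linarith
  have hendM : cr (M + 1) * σ (M + 1) + s2 * (t2 - m) ≤ s2 * (τ (M + 1) - m) + 217160 * E := by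
    obtain ⟨z1, z2⟩ := hE _ (Or.inr rfl)
    have h1 : cr (M + 1) * σ (M + 1) ≤ 6006000 * (max (σ (M + 1)) 0 + max (-σ (M + 1)) 0) := by
      refine (le_abs_self _).trans ?_
      rw [abs_mul]
      have hc := hcr (M + 1) (by omega)
      have hd := hd1 (M + 1) (by omega)
      have e1 : |σ (M + 1)| = max (σ (M + 1)) 0 + max (-σ (M + 1)) 0 := by
        rcases le_total 0 (σ (M + 1)) with h | h
        · rw [abs_of_nonneg h, max_eq_left h, max_eq_right (by linarith)]; ring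
        · rw [abs_of_nonpos h, max_eq_right h, max_eq_left (by linarith)]; ring
      rw [← e1]
      exact mul_le_mul_of_nonneg_right (by linarith) (abs_nonneg _)
    have h2 := mul_le_mul_of_nonneg_left ht2 (by linarith : 0 ≤ s2)
    have p1 : 0 ≤ max (-σ (M + 1)) 0 := le_max_right _ _
    have h3 : 190000 * max (-σ (M + 1)) 0 ≤ s2 * max (-σ (M + 1)) 0 :=
      mul_le_mul_of_nonneg_right hs2 p1
    have h4 : s2 * (20000 * max (σ (M + 1)) 0) ≤ 206000 * (20000 * max (σ (M + 1)) 0) :=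
      mul_le_mul_of_nonneg_right hs2' (by positivity)
    linarith
  -- the chord
  have hch := modI_chord M X τ σ m g0 (3.003 * Del) (by positivity) hmono hL hX hsum hτ
  have ha0 := hd0 0 (by omega)
  have haM := hd0 (M + 1) (by omega)
  have hb0 := hT 0 (by omega)
  have hbM := hT (M + 1) (by omega)
  have hτd : |τ (M + 1) - τ 0| ≤ d 0 + T 0 + (d (M + 1) + T (M + 1)) := by
    have u := abs_le.1 (hτm 0 (by omega))
    have v := abs_le.1 (hτm (M + 1) (by omega))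
    rw [abs_le]
    constructor <;> linarith
  set r := Del / (M + 1 : ℝ) with hr
  have hr0 : 0 ≤ r := div_nonneg hDel0 hM1.le
  have hch2 : τ 0 + τ (M + 1) - 2 * m ≤
      9.009 / 19000 * (r * (d 0 + T 0 + (d (M + 1) + T (M + 1)))) := by
    refine hch.trans ?_
    have e : 3 * (3.003 * Del) * |τ (M + 1) - τ 0| / (19000 * (M + 1 : ℝ)) =
        9.009 / 19000 * (r * |τ (M + 1) - τ 0|) := by
      rw [hr]
      field_simp
      ring
    rw [e]
    refine mul_le_mul_of_nonneg_left ?_ (by norm_num)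
    exact mul_le_mul_of_nonneg_left hτd hr0
  have hS : (s1 + s2) / 2 * (τ 0 + τ (M + 1) - 2 * m) ≤
      97.7 * (r * (d 0 + T 0 + (d (M + 1) + T (M + 1)))) := by
    have hnn : 0 ≤ r * (d 0 + T 0 + (d (M + 1) + T (M + 1))) := by positivity
    have h1 : (s1 + s2) / 2 * (τ 0 + τ (M + 1) - 2 * m) ≤
        (s1 + s2) / 2 * (9.009 / 19000 * (r * (d 0 + T 0 + (d (M + 1) + T (M + 1))))) :=
      mul_le_mul_of_nonneg_left hch2 (by linarith)
    have h2 : (s1 + s2) / 2 * (9.009 / 19000 * (r * (d 0 + T 0 + (d (M + 1) + T (M + 1))))) ≤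
        206000 * (9.009 / 19000 * (r * (d 0 + T 0 + (d (M + 1) + T (M + 1))))) :=
      mul_le_mul_of_nonneg_right (by linarith) (by positivity)
    refine (h1.trans h2).trans ?_
    rw [← mul_assoc]
    exact mul_le_mul_of_nonneg_right (by norm_num) hnn
  -- the bound for `r`
  have hDel2 : Del ^ 2 ≤ (M + 2 : ℝ) * (60 * Q) := by
    have h2 : (∑ k ∈ Finset.range (M + 2), d k) ^ 2 ≤
        (Finset.range (M + 2)).card * ∑ k ∈ Finset.range (M + 2), d k ^ 2 :=
      sq_sum_le_card_mul_sum_sq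
    rw [Finset.card_range] at h2
    push_cast at h2
    rw [← hDel, ← hsD] at h2
    refine h2.trans ?_
    exact mul_le_mul_of_nonneg_left hsD_le (by positivity)
  have hM2 : (M:ℝ) + 2 ≤ 10 ^ (-7 : ℤ) * (M + 1 : ℝ) ^ 2 := by
    have h1 : (10:ℝ) ^ 8 - 1 ≤ (M:ℝ) + 1 := by linarith
    have h2 : (M:ℝ) + 2 ≤ 2 * ((M:ℝ) + 1) := by linarith
    have h3 : (2:ℝ) ≤ 10 ^ (-7 : ℤ) * ((M:ℝ) + 1) := by
      norm_num
      linarith
    calc (M:ℝ) + 2 ≤ 2 * ((M:ℝ) + 1) := h2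
      _ ≤ (10 ^ (-7 : ℤ) * ((M:ℝ) + 1)) * ((M:ℝ) + 1) :=
        mul_le_mul_of_nonneg_right h3 hM1.le
      _ = _ := by ring
  have hr2 : r ^ 2 ≤ 10 ^ (-7 : ℤ) * (60 * Q) := by
    rw [hr, div_pow, div_le_iff₀ (by positivity)]
    calc Del ^ 2 ≤ (M + 2 : ℝ) * (60 * Q) := hDel2
      _ ≤ (10 ^ (-7 : ℤ) * (M + 1 : ℝ) ^ 2) * (60 * Q) :=
        mul_le_mul_of_nonneg_right hM2 (by positivity)
      _ = _ := by ring
  have hr2' : r ^ 2 ≤ 0.00001 * Q := by
    refine hr2.trans ?_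
    norm_num
    linarith
  have hr1 : r ≤ 0.3 := by
    have : r ^ 2 ≤ 0.3 ^ 2 := by
      refine hr2'.trans ?_
      norm_num
      linarith
    exact le_of_sq_le_sq this (by norm_num)
  have hS2 : 97.7 * (r * (d 0 + T 0 + (d (M + 1) + T (M + 1)))) ≤
      48.85 * (d 0 ^ 2 + d (M + 1) ^ 2 + 2 * r ^ 2) + 30 * (T 0 + T (M + 1)) := by
    have h1 : r * d 0 ≤ (r ^ 2 + d 0 ^ 2) / 2 := by
      have := two_mul_le_add_sq r (d 0)
      linarith
    have h2 : r * d (M + 1) ≤ (r ^ 2 + d (M + 1) ^ 2) / 2 := by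
      have := two_mul_le_add_sq r (d (M + 1))
      linarith
    have h3 : r * (T 0 + T (M + 1)) ≤ 0.3 * (T 0 + T (M + 1)) :=
      mul_le_mul_of_nonneg_right hr1 (by linarith)
    linarith
  -- the corner terms
  have hcorner : ∀ k < M + 2, 434320 * (d k / (M + 1 : ℝ)) ≤
      P k / 2 + 10 ^ 12 / (8 * (M + 1 : ℝ) ^ 2) := by
    intro k hk
    have hk0 := hd0 k hk
    have hkP := hP' k hk
    set u := 1 / (M + 1 : ℝ) with hu
    have hu0 : 0 < u := by positivity
    have e1 : d k / (M + 1 : ℝ) = d k * u := by rw [hu]; ring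
    have e2 : 10 ^ 12 / (8 * (M + 1 : ℝ) ^ 2) = 10 ^ 12 / 8 * u ^ 2 := by
      rw [hu]; field_simp
    rw [e1, e2]
    rcases le_total (d k ^ 2) (5 * d k) with h1 | h1
    · rw [min_eq_left h1] at hkP
      have := sq_nonneg (d k - 434320 * u)
      have := sq_nonneg u
      linarith
    · rw [min_eq_right h1] at hkP
      have h2 : 434320 * u ≤ 1 := by
        rw [hu, mul_one_div, div_le_one hM1]
        linarith
      have h3 : d k * (434320 * u) ≤ d k * 1 := mul_le_mul_of_nonneg_left h2 hk0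
      have := sq_nonneg u
      linarith
  have hcT : ∀ k < M + 2, 434320 * (T k / (M + 1 : ℝ)) ≤ T k := by
    intro k hk
    have := hT k hk
    rw [mul_div_assoc', div_le_iff₀ hM1]
    have h1 : T k * 434320 ≤ T k * (M + 1 : ℝ) :=
      mul_le_mul_of_nonneg_left (by linarith) this
    linarith
  have hE2 : 434320 * E = 434320 * (d 0 / (M + 1 : ℝ)) + 434320 * (d (M + 1) / (M + 1 : ℝ)) +
      434320 * (T 0 / (M + 1 : ℝ)) + 434320 * (T (M + 1) / (M + 1 : ℝ)) := by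
    rw [hEdef]; ring
  have c0 := hcorner 0 (by omega)
  have cM := hcorner (M + 1) (by omega)
  have e0 := hcT 0 (by omega)
  have eM := hcT (M + 1) (by omega)
  have P0 := hP 0 (by omega)
  have PM := hP (M + 1) (by omega)
  have Q0 : P 0 ≤ Q := modI_mem M P hP0 0 (by omega)
  have QM : P (M + 1) ≤ Q := modI_mem M P hP0 (M + 1) (by omega)
  have T0 : T 0 ≤ sT := modI_mem M T hT 0 (by omega)
  have TM : T (M + 1) ≤ sT := modI_mem M T hT (M + 1) (by omega)
  rw [modI_sum_split]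
  have key : s1 * (τ 0 - m) + s2 * (τ (M + 1) - m) =
      (s1 + s2) / 2 * (τ 0 + τ (M + 1) - 2 * m) + (s2 - s1) / 2 * (τ (M + 1) - τ 0) := by ring
  have e8 : 10 ^ 12 / (4 * (M + 1 : ℝ) ^ 2) =
      10 ^ 12 / (8 * (M + 1 : ℝ) ^ 2) + 10 ^ 12 / (8 * (M + 1 : ℝ) ^ 2) := by
    field_simp
    norm_num
  rw [e8]
  have hfin : (s1 + s2) / 2 * (τ 0 + τ (M + 1) - 2 * m) ≤ 5863 * Q + 60 * sT := by
    have := hS.trans hS2
    linarith
  linarith

theorem modI_mono (M : ℕ) (X : ℕ → ℝ) (hXs : ∀ k, k + 1 < M + 2 → 19000 ≤ X (k + 1) - X k)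
    (i j : ℕ) (hij : i ≤ j) (hj : j < M + 2) : X i ≤ X j := by
  induction j, hij using Nat.le_induction with
  | base => exact le_rfl
  | succ j hij ih =>
    have h1 := ih (by omega)
    have h2 := hXs j hj
    linarith

/-- positions of the contact points -/
theorem modI_pos (M : ℕ) (ξ s d ρ : ℕ → ℝ) (g0 : ℝ) (hd0 : ∀ k < M + 2, 0 ≤ d k)
    (hs : ∀ k < M + 2, ξ (k + 1) - ξ k = s k) (hsg : ∀ k < M + 2, |s k - g0| ≤ 2.002 * d k)
    (hρ : ∀ k < M + 2, |ρ k| ≤ 1.001 * d k) (k : ℕ) (hk : k < M + 2) :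
    |(ξ k + ρ k) - (ξ 0 + ρ 0) - k * g0| ≤ 3.003 * ∑ k ∈ Finset.range (M + 2), d k := by
  have h1 : |ξ k - ξ 0 - k * g0| ≤ 2.002 * ∑ i ∈ Finset.range k, d i := by
    have e : ξ k - ξ 0 - k * g0 = ∑ i ∈ Finset.range k, (s i - g0) := by
      rw [Finset.sum_sub_distrib, Finset.sum_const, Finset.card_range, nsmul_eq_mul,
        ← Finset.sum_range_sub ξ k]
      congr 1
      exact Finset.sum_congr rfl fun i hi => hs i (by
        have := Finset.mem_range.1 hi
        omega)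
    rw [e, Finset.mul_sum]
    refine (Finset.abs_sum_le_sum_abs _ _).trans ?_
    exact Finset.sum_le_sum fun i hi => hsg i (by
      have := Finset.mem_range.1 hi
      omega)
  have h2 : ∑ i ∈ Finset.range k, d i + d k ≤ ∑ k ∈ Finset.range (M + 2), d k := by
    rw [← Finset.sum_range_succ]
    refine Finset.sum_le_sum_of_subset_of_nonneg ?_ ?_
    · intro x hx
      rw [Finset.mem_range] at *
      omega
    · intro x hx _
      exact hd0 x (Finset.mem_range.1 hx)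
  have h3 : d 0 ≤ ∑ k ∈ Finset.range (M + 2), d k := modI_mem M d hd0 0 (by omega)
  have h4 := hρ k hk
  have h5 := hρ 0 (by omega)
  have h6 := hd0 k hk
  rw [abs_le] at *
  constructor <;> linarith

/-! ### the absorption inequality -/

theorem absorb {R : ℝ → ℝ} {W c m α β : ℝ} (h : Hyp R W c m α β) (N : ℕ) (hN : 10 ^ 8 ≤ N)
    (ξ mk τ b σ ς : ℕ → ℝ) (tR bR tL bL : ℝ)
    (hmk : ∀ k < N, 0 ≤ mk k ∧ mk k ≤ 300)
    (hsum : ∑ k ∈ Finset.range N, mk k = N * m)
    (hs : ∀ k < N, ξ (k + 1) - ξ k = gR R (mk k))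
    (hslo : ∀ k < N, 19400 ≤ ξ (k + 1) - ξ k)
    (hP : ∑ k ∈ Finset.range N, min ((mk k - m) ^ 2) (5 * |mk k - m|) ≤ 6000)
    (hb : ∀ k < N, τ k ≤ mk k ∧ |τ k| ≤ 1700 ∧ |σ k| ≤ 1 / 4 ∧
        b k ≤ mk k ∧ |b k| ≤ 1700 ∧ |ς k| ≤ 1 / 4)
    (hτ : ∀ j < N, ∀ k < N, τ j ≤ τ k + σ k * ((ξ j + R (mk j)) - (ξ k + R (mk k))))
    (hβ : ∀ j < N, ∀ k < N, b j ≤ b k + ς k * ((ξ j + R (-mk j)) - (ξ k + R (-mk k))))
    (htR : tR ≤ τ (N - 1) + 20000 * max (σ (N - 1)) 0 - 9000 * max (-σ (N - 1)) 0)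
    (hbR : bR ≤ b (N - 1) + 20000 * max (ς (N - 1)) 0 - 9000 * max (-ς (N - 1)) 0)
    (htL : tL ≤ τ 0 + 20000 * max (-σ 0) 0 - 9000 * max (σ 0) 0)
    (hbL : bL ≤ b 0 + 20000 * max (-ς 0) 0 - 9000 * max (ς 0) 0) :
    (∑ k ∈ Finset.range N, (ξ (k + 1) - ξ k) * ((40 * W + τ k + b k) +
            ((R m - R (-m)) / 2 - (R (mk k) - R (-mk k)) / 2) * (σ k - ς k)))
      + SP R W m α * (tR - m) + SM R W m β * (bR - m) + SM R W m β * (tL - m)
      + SP R W m α * (bL - m) ≤ N * FR R W m + 10 ^ 12 / N ^ 2 := by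
  obtain ⟨M, rfl⟩ : ∃ M, N = M + 2 := ⟨N - 2, by omega⟩
  have hMr : (10:ℝ) ^ 8 ≤ (M:ℝ) + 2 := by exact_mod_cast hN
  clear hN
  have e1 : M + 2 - 1 = M + 1 := rfl
  rw [e1] at htR hbR
  push_cast at hsum
  obtain ⟨p1, p2, p3, p4, p5⟩ := modI_SP h
  have m1 := h.m_lo
  have m2 := h.m_hi
  set d : ℕ → ℝ := fun k => |mk k - m| with hd
  set T : ℕ → ℝ := fun k => mk k - τ k with hT
  set B : ℕ → ℝ := fun k => mk k - b k with hB
  set P : ℕ → ℝ := fun k => min ((mk k - m) ^ 2) (5 * |mk k - m|) with hPd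
  set cr : ℕ → ℝ := fun k => (ξ (k + 1) - ξ k) *
    ((R m - R (-m)) / 2 - (R (mk k) - R (-mk k)) / 2) with hcr
  have hd0 : ∀ k < M + 2, 0 ≤ d k := fun k _ => abs_nonneg _
  have hd1 : ∀ k < M + 2, d k ≤ 300 := by
    intro k hk
    obtain ⟨a1, a2⟩ := hmk k hk
    rw [hd]
    simp only
    rw [abs_le]
    constructor <;> linarith
  have hT0 : ∀ k < M + 2, 0 ≤ T k := fun k hk => by
    have := (hb k hk).1
    simp only [hT]; linarith
  have hB0 : ∀ k < M + 2, 0 ≤ B k := fun k hk => by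
    have := (hb k hk).2.2.2.1
    simp only [hB]; linarith
  have hP0 : ∀ k < M + 2, 0 ≤ P k := fun k _ => le_min (sq_nonneg _) (by positivity)
  have hPa : ∀ k < M + 2, d k ^ 2 ≤ 60 * P k := by
    intro k hk
    have h1 := hd1 k hk
    have h0 := hd0 k hk
    have e : (mk k - m) ^ 2 = d k ^ 2 := by simp only [hd]; rw [sq_abs]
    have e' : P k = min (d k ^ 2) (5 * d k) := by simp only [hPd]; rw [e]
    rw [e']
    rcases le_total (d k ^ 2) (5 * d k) with h2 | h2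
    · rw [min_eq_left h2]; nlinarith [sq_nonneg (d k)]
    · rw [min_eq_right h2]; nlinarith
  have hPb : ∀ k < M + 2, min (d k ^ 2) (5 * d k) ≤ P k := by
    intro k hk
    have e : (mk k - m) ^ 2 = d k ^ 2 := by simp only [hd]; rw [sq_abs]
    have e' : P k = min (d k ^ 2) (5 * d k) := by simp only [hPd]; rw [e]
    rw [e']
  have hτm : ∀ k < M + 2, |τ k - m| ≤ d k + T k := by
    intro k hk
    have e : τ k - m = (mk k - m) + (-T k) := by simp only [hT]; ring
    rw [e]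
    refine (abs_add_le _ _).trans ?_
    rw [abs_neg, abs_of_nonneg (hT0 k hk)]
  have hbm : ∀ k < M + 2, |b k - m| ≤ d k + B k := by
    intro k hk
    have e : b k - m = (mk k - m) + (-B k) := by simp only [hB]; ring
    rw [e]
    refine (abs_add_le _ _).trans ?_
    rw [abs_neg, abs_of_nonneg (hB0 k hk)]
  have hs2 : ∀ k < M + 2, ξ (k + 1) - ξ k ≤ 20000 := fun k hk => by
    rw [hs k hk]; exact modI_g_le h _ (hmk k hk).1
  have hcrb : ∀ k < M + 2, |cr k| ≤ 20020 * d k := by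
    intro k hk
    simp only [hcr]
    rw [abs_mul, abs_of_nonneg (by have := hslo k hk; linarith)]
    have l1 := modI_lip1 h (mk k)
    have l2 := modI_lip2 h (mk k)
    have l3 : |(R m - R (-m)) / 2 - (R (mk k) - R (-mk k)) / 2| ≤ 1.001 * d k := by
      simp only [hd]
      rw [abs_le] at *
      constructor <;> linarith
    calc (ξ (k + 1) - ξ k) * |(R m - R (-m)) / 2 - (R (mk k) - R (-mk k)) / 2|
        ≤ 20000 * (1.001 * d k) := mul_le_mul (hs2 k hk) l3 (abs_nonneg _) (by norm_num)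
      _ = 20020 * d k := by ring
  have hsg : ∀ k < M + 2, |gR R (mk k) - gR R m| ≤ 2.002 * d k := by
    intro k hk
    have l1 := modI_lip1 h (mk k)
    have l2 := modI_lip2 h (mk k)
    simp only [hd]
    unfold gR
    rw [abs_le] at *
    constructor <;> linarith
  have hstep : ∀ (ρ : ℝ → ℝ), (∀ s t, |ρ s - ρ t| ≤ 1.001 * |s - t|) →
      ∀ k, k + 1 < M + 2 → 19000 ≤ (ξ (k + 1) + ρ (mk (k + 1))) - (ξ k + ρ (mk k)) := by
    intro ρ hρ k hk
    have h1 := abs_le.1 (hρ (mk (k + 1)) (mk k))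
    have h2 := hslo k (by omega)
    obtain ⟨a1, a2⟩ := hmk k (by omega)
    obtain ⟨a3, a4⟩ := hmk (k + 1) hk
    have h3 : |mk (k + 1) - mk k| ≤ 300 := by
      rw [abs_le]; constructor <;> linarith
    linarith [h1.1]
  have hX1 := hstep R h.lip
  have hX2 := hstep (fun t => R (-t)) (fun s t => by
    have := h.lip (-s) (-t)
    have e : |-s - -t| = |s - t| := by rw [← abs_neg]; congr 1; ring
    rwa [e] at this)
  have hsT : ∑ k ∈ Finset.range (M + 2), τ k ≤ (M + 2 : ℝ) * m := by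
    rw [← hsum]
    exact Finset.sum_le_sum fun k hk => (hb k (Finset.mem_range.1 hk)).1
  have hsB : ∑ k ∈ Finset.range (M + 2), b k ≤ (M + 2 : ℝ) * m := by
    rw [← hsum]
    exact Finset.sum_le_sum fun k hk => (hb k (Finset.mem_range.1 hk)).2.2.2.1
  have hpos1 : ∀ k < M + 2, |(ξ k + R (mk k)) - (ξ 0 + R (mk 0)) - k * gR R m| ≤
      3.003 * ∑ k ∈ Finset.range (M + 2), d k := by
    intro k hk
    have := modI_pos M ξ (fun k => gR R (mk k)) d (fun k => R (mk k) - R m) (gR R m) hd0 hs hsg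
      (fun k _ => modI_lip1 h (mk k)) k hk
    have e : (ξ k + (R (mk k) - R m)) - (ξ 0 + (R (mk 0) - R m)) - k * gR R m =
        (ξ k + R (mk k)) - (ξ 0 + R (mk 0)) - k * gR R m := by ring
    rwa [e] at this
  have hpos2 : ∀ k < M + 2, |(ξ k + R (-mk k)) - (ξ 0 + R (-mk 0)) - k * gR R m| ≤
      3.003 * ∑ k ∈ Finset.range (M + 2), d k := by
    intro k hk
    have := modI_pos M ξ (fun k => gR R (mk k)) d (fun k => R (-mk k) - R (-m)) (gR R m) hd0 hs
      hsg (fun k _ => modI_lip2 h (mk k)) k hk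
    have e : (ξ k + (R (-mk k) - R (-m))) - (ξ 0 + (R (-mk 0) - R (-m))) - k * gR R m =
        (ξ k + R (-mk k)) - (ξ 0 + R (-mk 0)) - k * gR R m := by ring
    rwa [e] at this
  have side1 := modI_side M hMr (fun k => ξ k + R (mk k)) τ σ d T P cr m (gR R m)
    (SM R W m β) (SP R W m α) tL tR hd0 hd1 hT0 hP0 hPa hPb hP hτm hcrb p3 p4 p1 p2 htL htR
    hX1 (fun k hk => ⟨modI_mono M (fun k => ξ k + R (mk k)) hX1 0 k (by omega) hk,
      modI_mono M (fun k => ξ k + R (mk k)) hX1 k (M + 1) (by omega) (by omega)⟩) hpos1 hsT hτ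
  have side2 := modI_side M hMr (fun k => ξ k + R (-mk k)) b ς d B P (fun k => -cr k) m (gR R m)
    (SP R W m α) (SM R W m β) bL bR hd0 hd1 hB0 hP0 hPa hPb hP hbm
    (fun k hk => by simp only [abs_neg]; exact hcrb k hk) p1 p2 p3 p4 hbL hbR
    hX2 (fun k hk => ⟨modI_mono M (fun k => ξ k + R (-mk k)) hX2 0 k (by omega) hk,
      modI_mono M (fun k => ξ k + R (-mk k)) hX2 k (M + 1) (by omega) (by omega)⟩) hpos2 hsB hβ
  set Q := ∑ k ∈ Finset.range (M + 2), P k with hQ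
  set sT := ∑ k ∈ Finset.range (M + 2), T k with hsTd
  set sB := ∑ k ∈ Finset.range (M + 2), B k with hsBd
  -- the bulk
  have hbulk : ∑ k ∈ Finset.range (M + 2), (ξ (k + 1) - ξ k) * ((40 * W + τ k + b k) +
            ((R m - R (-m)) / 2 - (R (mk k) - R (-mk k)) / 2) * (σ k - ς k)) ≤
      (M + 2 : ℝ) * FR R W m - 39000 * Q - 19400 * sT - 19400 * sB +
        (∑ k ∈ Finset.range (M + 2), cr k * σ k) + ∑ k ∈ Finset.range (M + 2), -cr k * ς k := by
    have h1 : ∀ k ∈ Finset.range (M + 2), (ξ (k + 1) - ξ k) * ((40 * W + τ k + b k) +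
            ((R m - R (-m)) / 2 - (R (mk k) - R (-mk k)) / 2) * (σ k - ς k)) ≤
        (FR R W m + (2 * gR R m - (α + β) * (2 * m + 40 * W)) * (mk k - m)) - 39000 * P k
          - 19400 * T k - 19400 * B k + cr k * σ k + -cr k * ς k := by
      intro k hk
      rw [Finset.mem_range] at hk
      have h2 := FR_tangent h (mk k) (hmk k hk).1 (hmk k hk).2
      have h3 : (ξ (k + 1) - ξ k) * (2 * mk k + 40 * W) = FR R W (mk k) := by
        rw [hs k hk]; rfl
      have h4 : 19400 * T k ≤ (ξ (k + 1) - ξ k) * T k :=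
        mul_le_mul_of_nonneg_right (hslo k hk) (hT0 k hk)
      have h5 : 19400 * B k ≤ (ξ (k + 1) - ξ k) * B k :=
        mul_le_mul_of_nonneg_right (hslo k hk) (hB0 k hk)
      have h6 : (ξ (k + 1) - ξ k) * ((40 * W + τ k + b k) +
            ((R m - R (-m)) / 2 - (R (mk k) - R (-mk k)) / 2) * (σ k - ς k)) =
          (ξ (k + 1) - ξ k) * (2 * mk k + 40 * W) - (ξ (k + 1) - ξ k) * T k -
            (ξ (k + 1) - ξ k) * B k + cr k * σ k + -cr k * ς k := by
        simp only [hcr, hT, hB]; ring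
      rw [h6, h3]
      have h7 : P k = min ((mk k - m) ^ 2) (5 * |mk k - m|) := rfl
      rw [h7]
      linarith
    refine (Finset.sum_le_sum h1).trans ?_
    simp only [Finset.sum_add_distrib, Finset.sum_sub_distrib, ← Finset.mul_sum]
    rw [hsum]
    simp only [Finset.sum_const, Finset.card_range, nsmul_eq_mul]
    push_cast
    apply le_of_eq
    ring
  have hQ0 : 0 ≤ Q := Finset.sum_nonneg fun k hk => hP0 k (Finset.mem_range.1 hk)
  have T0 : T 0 ≤ sT := modI_mem M T hT0 0 (by omega)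
  have TM : T (M + 1) ≤ sT := modI_mem M T hT0 (M + 1) (by omega)
  have B0 : B 0 ≤ sB := modI_mem M B hB0 0 (by omega)
  have BM : B (M + 1) ≤ sB := modI_mem M B hB0 (M + 1) (by omega)
  have hA : (SP R W m α - SM R W m β) / 2 * (τ (M + 1) - τ 0) +
      (SM R W m β - SP R W m α) / 2 * (b (M + 1) - b 0) ≤
      6002 * (T 0 + B 0 + T (M + 1) + B (M + 1)) := by
    have e : (SP R W m α - SM R W m β) / 2 * (τ (M + 1) - τ 0) +
      (SM R W m β - SP R W m α) / 2 * (b (M + 1) - b 0) =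
      (SP R W m α - SM R W m β) / 2 * ((B (M + 1) - T (M + 1)) - (B 0 - T 0)) := by
      simp only [hT, hB]; ring
    rw [e]
    refine (le_abs_self _).trans ?_
    rw [abs_mul]
    have a1 : |(SP R W m α - SM R W m β) / 2| ≤ 6002 := by
      rw [abs_div, abs_two]; linarith
    have a2 : |(B (M + 1) - T (M + 1)) - (B 0 - T 0)| ≤ T 0 + B 0 + T (M + 1) + B (M + 1) := by
      have := hT0 0 (by omega)
      have := hB0 0 (by omega)
      have := hT0 (M + 1) (by omega)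
      have := hB0 (M + 1) (by omega)
      rw [abs_le]
      constructor <;> linarith
    exact mul_le_mul a1 a2 (abs_nonneg _) (by norm_num)
  have hlast : 10 ^ 12 / (4 * (M + 1 : ℝ) ^ 2) + 10 ^ 12 / (4 * (M + 1 : ℝ) ^ 2) ≤
      10 ^ 12 / (M + 2 : ℝ) ^ 2 := by
    have hM1 : (0:ℝ) < (M:ℝ) + 1 := by linarith
    have e : 10 ^ 12 / (4 * (M + 1 : ℝ) ^ 2) + 10 ^ 12 / (4 * (M + 1 : ℝ) ^ 2) =
        10 ^ 12 / (2 * (M + 1 : ℝ) ^ 2) := by
      field_simp
      norm_num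
    rw [e]
    apply div_le_div_of_nonneg_left (by norm_num) (by positivity)
    nlinarith
  push_cast
  have t1 : 0 ≤ sT := Finset.sum_nonneg fun k hk => hT0 k (Finset.mem_range.1 hk)
  have t2 : 0 ≤ sB := Finset.sum_nonneg fun k hk => hB0 k (Finset.mem_range.1 hk)
  clear_value Q sT sB
  linarith

end ZZ
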