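import Pool.Agent.Helper32.ZZ.G
import Pool.Agent.Helper32.ZZ.H2
import Pool.Agent.Helper32.ZZ.I

open MeasureTheory Set Pointwise
open scoped ENNReal

namespace ZZ

/-- the sharp upper bound for collinear coverings in the frame -/
theorem collinear_upper {R : ℝ → ℝ} {W c m α β : ℝ} (h : Hyp R W c m α β) (N : ℕ)
    (hN : 10 ^ 8 ≤ N)
    (ξ mk : ℕ → ℝ) (hs : ∀ k < N, ξ (k + 1) - ξ k = gR R (mk k))
    (hslo : ∀ k < N, 19400 ≤ ξ (k + 1) - ξ k) (hmk : ∀ k < N, 0 ≤ mk k ∧ mk k ≤ 300)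
    (hmax : ∀ k < N, ∀ t, ξ (k + 1) - ξ k ≤ gR R t → |t| ≤ mk k)
    (hsum : ∑ k ∈ Finset.range N, mk k = N * m)
    (hP : ∑ k ∈ Finset.range N, min ((mk k - m) ^ 2) (5 * |mk k - m|) ≤ 6000)
    (D : Set (ℝ × ℝ)) (hD : IsCompact D) (hDc : Convex ℝ D)
    (hcov : ∀ p ∈ D, ∃ i ≤ N, p ∈ tr (ξ i) (KR R))
    (hused : ∀ k < N, Used (KR R) ξ N D k)
    (Fs : ℝ) (hFs : 7.99 * 10 ^ 9 ≤ Fs) (hF : ∀ k < N, FR R W (mk k) ≤ Fs)
    (hvolK : volume (KR R) ≤ ENNReal.ofReal (2 * 10 ^ 8))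
    (hvol : ENNReal.ofReal ((N + 1) * Fs) + ENNReal.ofReal 400 * volume (KR R)
      ≤ volume (D + (20 : ℝ) • KR R)) :
    volume (D + (20 : ℝ) • KR R) ≤ ENNReal.ofReal (MM R W m N + 10 ^ 12 / N ^ 2) := by
  have hN1 : 1 ≤ N := le_trans (by norm_num) hN
  have hN10 : 10 ≤ N := le_trans (by norm_num) hN
  obtain ⟨hlev, hright, hleft, htop, hbot⟩ := rough h N hN10 ξ mk hs hslo hmk hmax D hD hDc hcov
    hused Fs hFs hF hvolK hvol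
  obtain ⟨τ, b, σ, ς, tR, bR, tL, bL, hb, hτ, hβ, ⟨a1, a2, a3, a4, a5, a6, a7, a8⟩, htR, hbR, htL,
    hbL, hV⟩ := geom_bound h N hN1 ξ mk hs hslo hmk D hD hDc hcov hlev hright hleft htop hbot
  refine hV.trans (ENNReal.ofReal_le_ofReal ?_)
  have habs := absorb h N hN ξ mk τ b σ ς tR bR tL bL hmk hsum hs hslo hP hb hτ hβ htR hbR htL hbL
  have e1 := eP_tangent h tR a1 a2
  have e2 := eM_tangent h bR a3 a4
  have e3 := eM_tangent h tL a5 a6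
  have e4 := eP_tangent h bL a7 a8
  unfold MM
  linarith

end ZZ
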