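import Pool.Agent.Helper32.ZZ.Defs

open MeasureTheory Set Pointwise
open scoped ENNReal

namespace ZZ

/-- sorting a collinear family -/
theorem sort_collinear (N : ℕ) (x : Fin (N + 1) → ℝ × ℝ) (hx : Collinear ℝ (range x)) :
    ∃ (x0 v : ℝ × ℝ) (r : ℕ → ℝ), (∀ k < N, r k ≤ r (k + 1)) ∧
      (∀ i : Fin (N + 1), ∃ j ≤ N, x i = x0 + r j • v) ∧ ((∃ ω : ℝ, v = (1, ω)) ∨ v = (0, 1)) := by
  obtain ⟨p0, v, hv⟩ := (collinear_iff_exists_forall_eq_smul_vadd (k := ℝ) (range x)).1 hx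
  have hr : ∀ i : Fin (N + 1), ∃ r : ℝ, x i = r • v + p0 := fun i => by
    obtain ⟨r, hr⟩ := hv (x i) (mem_range_self i)
    exact ⟨r, hr⟩
  choose r hr using hr
  -- normalised direction
  obtain ⟨w, r', hw, hr'⟩ : ∃ (w : ℝ × ℝ) (r' : Fin (N + 1) → ℝ),
      ((∃ ω : ℝ, w = (1, ω)) ∨ w = (0, 1)) ∧ ∀ i, x i = p0 + r' i • w := by
    by_cases h1 : v.1 = 0
    · refine ⟨(0, 1), fun i => r i * v.2, Or.inr rfl, fun i => ?_⟩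
      rw [hr i]
      ext
      · simp [h1]
      · simp [add_comm]
    · refine ⟨(1, v.2 / v.1), fun i => r i * v.1, Or.inl ⟨_, rfl⟩, fun i => ?_⟩
      rw [hr i]
      ext
      · simp [add_comm]
      · simp only [Prod.snd_add, Prod.smul_snd, smul_eq_mul]
        field_simp
        ring
  let σ := Tuple.sort r'
  have hmono : Monotone (r' ∘ σ) := Tuple.monotone_sort r'
  refine ⟨p0, w, fun k => if h : k < N + 1 then r' (σ ⟨k, h⟩) else 0, ?_, ?_, hw⟩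
  · intro k hk
    have h1 : k < N + 1 := by omega
    have h2 : k + 1 < N + 1 := by omega
    simp only [h1, h2, dif_pos]
    apply hmono
    simp [Fin.le_def]
  · intro i
    refine ⟨(σ.symm i : ℕ), by have := (σ.symm i).2; omega, ?_⟩
    have : (σ.symm i : ℕ) < N + 1 := (σ.symm i).2
    simp only [this, dif_pos, Fin.eta, Equiv.apply_symm_apply]
    exact hr' i

/-- images under a linear equivalence -/
theorem image_add_smul (M : (ℝ × ℝ) ≃ₗ[ℝ] (ℝ × ℝ)) (D K : Set (ℝ × ℝ)) (θ : ℝ) :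
    M '' (D + θ • K) = M '' D + θ • (M '' K) := by
  ext p
  simp only [mem_image, Set.mem_add, Set.mem_smul_set]
  constructor
  · rintro ⟨_, ⟨d, hd, _, ⟨k, hk, rfl⟩, rfl⟩, rfl⟩
    exact ⟨M d, ⟨d, hd, rfl⟩, θ • M k, ⟨M k, ⟨k, hk, rfl⟩, rfl⟩, by simp⟩
  · rintro ⟨_, ⟨d, hd, rfl⟩, _, ⟨_, ⟨k, hk, rfl⟩, rfl⟩, rfl⟩
    exact ⟨d + θ • k, ⟨d, hd, θ • k, ⟨k, hk, rfl⟩, rfl⟩, by simp⟩

theorem M_continuous (M : (ℝ × ℝ) ≃ₗ[ℝ] (ℝ × ℝ)) : Continuous M :=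
  LinearMap.continuous_of_finiteDimensional (M : (ℝ × ℝ) →ₗ[ℝ] (ℝ × ℝ))

theorem Admissible.image {K : Set (ℝ × ℝ)} {n : ℕ} {D : Set (ℝ × ℝ)} (h : Admissible K n D)
    (M : (ℝ × ℝ) ≃ₗ[ℝ] (ℝ × ℝ)) : Admissible (M '' K) n (M '' D) := by
  obtain ⟨hc, hconv, x, hx⟩ := h
  refine ⟨hc.image (M_continuous M), hconv.linear_image (M : (ℝ × ℝ) →ₗ[ℝ] (ℝ × ℝ)),
    fun i => M (x i), ?_⟩
  rintro _ ⟨p, hp, rfl⟩
  obtain ⟨i, hi⟩ := mem_iUnion.1 (hx hp)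
  obtain ⟨k, hk, hk'⟩ := hi
  refine mem_iUnion.2 ⟨i, ?_⟩
  refine ⟨M k, ⟨k, hk, rfl⟩, ?_⟩
  simp only [vadd_eq_add] at hk' ⊢
  rw [← hk', map_add]

theorem vol_vadd_add (D K : Set (ℝ × ℝ)) (θ : ℝ) (v : ℝ × ℝ) :
    volume ((v +ᵥ D) + θ • K) = volume (D + θ • K) := by
  have : (v +ᵥ D) + θ • K = v +ᵥ (D + θ • K) := by
    ext p
    simp only [Set.mem_add, Set.mem_vadd_set, vadd_eq_add]
    constructor
    · rintro ⟨_, ⟨d, hd, rfl⟩, k, hk, rfl⟩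
      exact ⟨d + k, ⟨d, hd, k, hk, rfl⟩, by abel⟩
    · rintro ⟨_, ⟨d, hd, k, hk, rfl⟩, rfl⟩
      exact ⟨v + d, ⟨d, hd, rfl⟩, k, hk, by abel⟩
  rw [this, measure_vadd]

theorem mem_vadd_iff (x p : ℝ × ℝ) (K : Set (ℝ × ℝ)) : p ∈ x +ᵥ K ↔ p - x ∈ K := by
  rw [Set.mem_vadd_set_iff_neg_vadd_mem, vadd_eq_add, neg_add_eq_sub]

end ZZ
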