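import Pool.Agent.Helper32.ZZ.Defs

open MeasureTheory Set Pointwise
open scoped ENNReal

namespace ZZ

/-- sheared horizontal slice -/
def modB_sl (ω : ℝ) (A : Set (ℝ × ℝ)) (y : ℝ) : Set ℝ := {x | (x, y + ω * x) ∈ A}

theorem modB_fubini (ω : ℝ) (E : Set (ℝ × ℝ)) (hE : MeasurableSet E) :
    volume E = ∫⁻ y, volume (modB_sl ω E y) := by
  have hT : MeasurePreserving (fun p : ℝ × ℝ => (p.1, p.2 + ω * p.1)) (volume.prod volume)
      (volume.prod volume) := by
    have := MeasurePreserving.skew_product (μa := (volume : Measure ℝ)) (μb := volume)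
      (μc := (volume : Measure ℝ)) (μd := volume) (f := id) (MeasurePreserving.id _)
      (g := fun a c => c + ω * a) (by unfold Function.uncurry; fun_prop)
      (by
        refine Filter.Eventually.of_forall fun a => ?_
        exact map_add_right_eq_self volume (ω * a))
    exact this
  have h1 := hT.measure_preimage hE.nullMeasurableSet
  rw [Measure.volume_eq_prod, ← h1, Measure.prod_apply_symm (hT.measurable hE)]
  rfl

theorem modB_meas (ω : ℝ) (E : Set (ℝ × ℝ)) (hE : MeasurableSet E) :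
    Measurable fun y => volume (modB_sl ω E y) := by
  have hT : Measurable (fun p : ℝ × ℝ => (p.1, p.2 + ω * p.1)) := by fun_prop
  exact measurable_measure_prodMk_right (μ := (volume : Measure ℝ)) (hT hE)

theorem modB_scale (G : ℝ → ℝ≥0∞) (hG : Measurable G) (θ c : ℝ) (hθ : 0 < θ) :
    ∫⁻ y, G (θ⁻¹ * (y + c)) = ENNReal.ofReal θ * ∫⁻ y, G y := by
  rw [lintegral_add_right_eq_self (fun y => G (θ⁻¹ * y)) c]
  have h := Real.map_volume_mul_left (a := θ⁻¹) (by positivity)
  rw [← lintegral_map (f := G) (g := fun y => θ⁻¹ * y) hG (by fun_prop), h, lintegral_smul_measure]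
  simp [abs_of_pos hθ]

/-- `E` contains the sum of a segment `e + [0, n] u` and `θ K`: slice bound -/
theorem modB_edge (K D : Set (ℝ × ℝ)) (hK : IsCompact K) (hKc : Convex ℝ K) (θ : ℝ) (hθ : 0 ≤ θ)
    (n : ℝ) (hn : 0 ≤ n) (u e : ℝ × ℝ) (hu : 0 < u.1) (ω : ℝ) (hω : u.2 = ω * u.1)
    (he : ∀ a, 0 ≤ a → a ≤ n → e + a • u ∈ D) (b : ℝ) (hb : (modB_sl ω K b).Nonempty) :
    ENNReal.ofReal (n * u.1) + ENNReal.ofReal θ * volume (modB_sl ω K b) ≤
      volume (modB_sl ω (D + θ • K) (e.2 - ω * e.1 + θ * b)) := by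
  set S := modB_sl ω K b with hS
  have hScl : IsClosed S := hK.isClosed.preimage (by fun_prop)
  have hSb : Bornology.IsBounded S := by
    have h1 : S ⊆ Prod.fst '' K := fun x hx => ⟨(x, b + ω * x), hx, rfl⟩
    exact (hK.image continuous_fst).isBounded.subset h1
  have hSc : IsCompact S := Metric.isCompact_of_isClosed_isBounded hScl hSb
  have hSconv : Convex ℝ S := by
    intro x hx y hy s t hs ht hst
    have := hKc hx hy hs ht hst
    show (s • x + t • y, b + ω * (s • x + t • y)) ∈ K
    convert this using 1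
    ext
    · simp
    · simp only [smul_eq_mul, Prod.smul_mk, Prod.mk_add_mk]
      have : b = s * b + t * b := by rw [← add_mul, hst, one_mul]
      linear_combination this
  obtain ⟨hα, hβ⟩ := And.intro (hSc.sInf_mem hb) (hSc.sSup_mem hb)
  set α := sInf S
  set β := sSup S
  have hsub : S ⊆ Icc α β := fun x hx => ⟨csInf_le hSb.bddBelow hx, le_csSup hSb.bddAbove hx⟩
  have hαβ : α ≤ β := (hsub hα).2
  have hG : volume S ≤ ENNReal.ofReal (β - α) := by
    calc volume S ≤ volume (Icc α β) := measure_mono hsub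
      _ = _ := Real.volume_Icc
  have hl : 0 ≤ n * u.1 := by positivity
  have hl2 : 0 ≤ θ * (β - α) := mul_nonneg hθ (by linarith)
  have hsup : Icc (e.1 + θ * α) (e.1 + n * u.1 + θ * β) ⊆
      modB_sl ω (D + θ • K) (e.2 - ω * e.1 + θ * b) := by
    intro x hx
    -- parameter
    obtain ⟨t, ht0, ht1, hxt⟩ : ∃ t : ℝ, 0 ≤ t ∧ t ≤ 1 ∧
        x = e.1 + t * n * u.1 + θ * (α + t * (β - α)) := by
      rcases eq_or_lt_of_le (add_nonneg hl hl2) with h0 | h0
      · refine ⟨0, le_rfl, zero_le_one, ?_⟩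
        have h3 : n * u.1 = 0 := by linarith
        have h4 : θ * (β - α) = 0 := by linarith
        have h5 := hx.1; have h6 := hx.2
        nlinarith
      · refine ⟨(x - (e.1 + θ * α)) / (n * u.1 + θ * (β - α)), ?_, ?_, ?_⟩
        · exact div_nonneg (by linarith [hx.1]) h0.le
        · rw [div_le_one h0]; linarith [hx.2]
        · have : (x - (e.1 + θ * α)) / (n * u.1 + θ * (β - α)) * (n * u.1 + θ * (β - α)) =
            x - (e.1 + θ * α) := div_mul_cancel₀ _ h0.ne'
          linear_combination -this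
    have hk : α + t * (β - α) ∈ S := by
      have := hSconv hα hβ (by linarith : (0:ℝ) ≤ 1 - t) ht0 (by ring)
      simp only [smul_eq_mul] at this
      convert this using 1; ring
    show (x, e.2 - ω * e.1 + θ * b + ω * x) ∈ D + θ • K
    refine ⟨e + (t * n) • u, he _ (by positivity) (by nlinarith),
      θ • (α + t * (β - α), b + ω * (α + t * (β - α))), smul_mem_smul_set hk, ?_⟩
    ext
    · simp only [Prod.fst_add, Prod.smul_fst, smul_eq_mul]; rw [hxt]
    · simp only [Prod.snd_add, Prod.smul_snd, smul_eq_mul]; rw [hxt, hω]; ring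
  calc ENNReal.ofReal (n * u.1) + ENNReal.ofReal θ * volume S
      ≤ ENNReal.ofReal (n * u.1) + ENNReal.ofReal θ * ENNReal.ofReal (β - α) := by gcongr
    _ = ENNReal.ofReal (n * u.1 + θ * (β - α)) := by
        rw [← ENNReal.ofReal_mul hθ, ENNReal.ofReal_add hl hl2]
    _ = volume (Icc (e.1 + θ * α) (e.1 + n * u.1 + θ * β)) := by
        rw [Real.volume_Icc]; congr 1; ring
    _ ≤ _ := measure_mono hsup

/-- the parallelogram -/
def modB_D (n : ℕ) (p q : ℝ × ℝ) : Set (ℝ × ℝ) :=
  {v | ∃ a b : ℝ, 0 ≤ a ∧ a ≤ n ∧ 0 ≤ b ∧ b ≤ 1 ∧ v = -q + a • (p + q) + b • (q - p)}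

theorem modB_adm (K : Set (ℝ × ℝ)) (hKc : Convex ℝ K) (hKs : ∀ p ∈ K, -p ∈ K)
    (n : ℕ) (hn : 1 ≤ n) (p q : ℝ × ℝ) (hp : p ∈ K) (hq : q ∈ K) :
    Admissible K n (modB_D n p q) := by
  refine ⟨?_, ?_, ?_⟩
  · have : modB_D n p q = (fun ab : ℝ × ℝ => -q + ab.1 • (p + q) + ab.2 • (q - p)) ''
        (Icc 0 (n:ℝ) ×ˢ Icc 0 1) := by
      ext v
      constructor
      · rintro ⟨a, b, ha0, ha1, hb0, hb1, rfl⟩
        exact ⟨(a, b), ⟨⟨ha0, ha1⟩, ⟨hb0, hb1⟩⟩, rfl⟩
      · rintro ⟨⟨a, b⟩, ⟨⟨ha0, ha1⟩, ⟨hb0, hb1⟩⟩, rfl⟩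
        exact ⟨a, b, ha0, ha1, hb0, hb1, rfl⟩
    rw [this]
    exact (isCompact_Icc.prod isCompact_Icc).image (by fun_prop)
  · rintro v ⟨a, b, ha0, ha1, hb0, hb1, rfl⟩ w ⟨c, d, hc0, hc1, hd0, hd1, rfl⟩ s t hs ht hst
    refine ⟨s * a + t * c, s * b + t * d, by positivity, ?_, by positivity, ?_, ?_⟩
    · calc s * a + t * c ≤ s * n + t * n := by gcongr
        _ = n := by rw [← add_mul, hst, one_mul]
    · calc s * b + t * d ≤ s * 1 + t * 1 := by gcongr
        _ = 1 := by rw [mul_one, mul_one, hst]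
    · have : s = 1 - t := by linarith
      subst this
      module
  · refine ⟨fun i => (i : ℝ) • (p + q), ?_⟩
    rintro v ⟨a, b, ha0, ha1, hb0, hb1, rfl⟩
    obtain ⟨j, hj, hj0, hj1⟩ : ∃ j : ℕ, j < n ∧ (j : ℝ) ≤ a ∧ a ≤ j + 1 := by
      rcases lt_or_ge a n with h | h
      · refine ⟨⌊a⌋₊, ?_, Nat.floor_le ha0, (Nat.lt_floor_add_one a).le⟩
        exact (Nat.floor_lt ha0).2 h
      · refine ⟨n - 1, by omega, ?_, ?_⟩
        · have : ((n - 1 : ℕ) : ℝ) ≤ n := by exact_mod_cast Nat.sub_le n 1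
          linarith
        · have : ((n - 1 : ℕ) : ℝ) + 1 = n := by
            have : (n - 1) + 1 = n := by omega
            exact_mod_cast this
          linarith
    refine mem_iUnion.2 ⟨⟨j, hj⟩, ?_⟩
    rw [mem_vadd_set]
    refine ⟨-q + (a - j) • (p + q) + b • (q - p), ?_, ?_⟩
    · have k1 := hKc (hKs q hq) hp (by linarith : (0:ℝ) ≤ 1 - (a - j)) (by linarith : 0 ≤ a - j)
        (by ring)
      have k2 := hKc (hKs p hp) hq (by linarith : (0:ℝ) ≤ 1 - (a - j)) (by linarith : 0 ≤ a - j)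
        (by ring)
      have k3 := hKc k1 k2 (by linarith : 0 ≤ 1 - b) hb0 (by ring)
      convert k3 using 1
      module
    · simp only [vadd_eq_add]
      module

theorem base (K : Set (ℝ × ℝ)) (hK : IsCompact K) (hKc : Convex ℝ K) (hKs : ∀ p ∈ K, -p ∈ K)
    (θ : ℝ) (hθ : 0 ≤ θ) (n : ℕ) (hn : 1 ≤ n) (p q κ : ℝ × ℝ) (hp : p ∈ K) (hq : q ∈ K) (hκ : κ ∈ K)
    (h1 : 0 < p.1 + q.1) (h2 : 0 ≤ cross q p) :
    ∃ D, Admissible K n D ∧
      ENNReal.ofReal (n * (2 * cross q p + 2 * θ * |cross (p + q) κ|)) +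
        ENNReal.ofReal (θ ^ 2) * volume K ≤ volume (D + θ • K) := by
  have hadm := modB_adm K hKc hKs n hn p q hp hq
  refine ⟨modB_D n p q, hadm, ?_⟩
  set D := modB_D n p q with hD
  set u := p + q with hu
  have hu1 : 0 < u.1 := h1
  set ω := u.2 / u.1 with hω
  have hω' : u.2 = ω * u.1 := by rw [hω, div_mul_cancel₀ _ hu1.ne']
  have h0K : (0 : ℝ × ℝ) ∈ K := by
    have := hKc hp (hKs p hp) (by norm_num : (0:ℝ) ≤ 1/2) (by norm_num : (0:ℝ) ≤ 1/2) (by norm_num)
    simpa using this
  have hE : MeasurableSet (D + θ • K) := by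
    have : IsCompact (θ • K) := hK.image (continuous_const_smul θ)
    exact (hadm.1.add this).measurableSet
  -- levels
  set m := p.2 - ω * p.1 with hm
  have hmq : q.2 - ω * q.1 = -m := by
    have : u.2 = p.2 + q.2 := rfl
    have h3 : u.1 = p.1 + q.1 := rfl
    rw [h3, this] at hω'
    rw [hm]; linarith
  have hcr : cross q p = m * u.1 := by
    have h3 : u.1 = p.1 + q.1 := rfl
    have hp2 : p.2 = m + ω * p.1 := by rw [hm]; ring
    have hq2 : q.2 = -m + ω * q.1 := by rw [← hmq]; ring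
    unfold cross; rw [h3, hp2, hq2]; ring
  have hm0 : 0 ≤ m := by
    rw [hcr] at h2
    exact nonneg_of_mul_nonneg_left h2 hu1
  -- level of κ
  obtain ⟨κ', hκ', hκl⟩ : ∃ κ' ∈ K, κ'.2 - ω * κ'.1 = |κ.2 - ω * κ.1| := by
    rcases abs_choice (κ.2 - ω * κ.1) with h | h
    · exact ⟨κ, hκ, h.symm⟩
    · refine ⟨-κ, hKs κ hκ, ?_⟩
      rw [h]; simp; ring
  set w := |κ.2 - ω * κ.1| with hw
  have hw0 : 0 ≤ w := abs_nonneg _
  have hcrκ : |cross u κ| = u.1 * w := by
    have : cross u κ = u.1 * (κ.2 - ω * κ.1) := by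
      unfold cross; rw [hω']; ring
    rw [this, abs_mul, abs_of_pos hu1]
  -- edges of D
  have edge : ∀ b : ℝ, 0 ≤ b → b ≤ 1 → ∀ a, 0 ≤ a → a ≤ (n:ℝ) →
      (-q + b • (q - p)) + a • u ∈ D := by
    intro b hb0 hb1 a ha0 ha1
    exact ⟨a, b, ha0, ha1, hb0, hb1, by module⟩
  have hn0 : (0:ℝ) ≤ n := Nat.cast_nonneg n
  set ℓ := (n : ℝ) * u.1 with hℓ
  have hℓ0 : 0 ≤ ℓ := by positivity
  have slab : ∀ b : ℝ, 0 ≤ b → b ≤ 1 → ∀ c, (modB_sl ω K c).Nonempty →
      ENNReal.ofReal ℓ + ENNReal.ofReal θ * volume (modB_sl ω K c) ≤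
        volume (modB_sl ω (D + θ • K) (m - 2 * m * b + θ * c)) := by
    intro b hb0 hb1 c hc
    have := modB_edge K D hK hKc θ hθ n hn0 u (-q + b • (q - p)) hu1 ω hω' (edge b hb0 hb1) c hc
    convert this using 4
    simp only [Prod.snd_add, Prod.snd_neg, Prod.smul_snd, Prod.snd_sub, Prod.fst_add, Prod.fst_neg,
      Prod.smul_fst, Prod.fst_sub, smul_eq_mul]
    have hp2 : p.2 = m + ω * p.1 := by rw [hm]; ring
    have hq2 : q.2 = -m + ω * q.1 := by rw [← hmq]; ring
    rw [hp2, hq2]; ring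
  have hK0 : (modB_sl ω K 0).Nonempty := ⟨0, by
    show ((0:ℝ), 0 + ω * 0) ∈ K
    have : (((0:ℝ), 0 + ω * 0) : ℝ × ℝ) = 0 := by ext <;> simp
    rw [this]; exact h0K⟩
  have hKb : ∀ b, |b| ≤ w → (modB_sl ω K b).Nonempty := by
    intro b hb
    -- point (b / w) κ'
    rcases eq_or_lt_of_le hw0 with h | h
    · have : b = 0 := by rw [← h] at hb; exact abs_nonpos_iff.1 hb
      rw [this]; exact hK0
    · have hkk : (b / w) • κ' ∈ K := by
        rcases le_total 0 b with hb' | hb'
        · have h3 : b / w ≤ 1 := by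
            rw [div_le_one h]; exact (le_abs_self b).trans hb
          have := hKc h0K hκ' (by linarith : 0 ≤ 1 - b / w) (by positivity : 0 ≤ b / w) (by ring)
          simpa using this
        · have h3 : -(b / w) ≤ 1 := by
            rw [← neg_div, div_le_one h]; exact (neg_le_abs b).trans hb
          have h4 : 0 ≤ -(b / w) := by
            rw [← neg_div]; exact div_nonneg (by linarith) hw0
          have := hKc h0K (hKs _ hκ') (by linarith : 0 ≤ 1 - -(b / w)) h4 (by ring)
          simpa using this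
      refine ⟨((b / w) • κ').1, ?_⟩
      show (((b / w) • κ').1, b + ω * ((b / w) • κ').1) ∈ K
      convert hkk using 1
      ext
      · rfl
      · simp only [Prod.smul_fst, Prod.smul_snd, smul_eq_mul]
        have h5 : κ'.2 = w + ω * κ'.1 := by rw [← hκl]; ring
        rw [h5]; field_simp
  have hKmeas : MeasurableSet K := hK.measurableSet
  have hvE := modB_fubini ω _ hE
  have hvK := modB_fubini ω _ hKmeas
  set G : ℝ → ℝ≥0∞ := fun y => volume (modB_sl ω K y) with hG
  have hGm : Measurable G := modB_meas ω K hKmeas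
  -- lower bound function
  have hfin : ENNReal.ofReal (n * (2 * cross q p + 2 * θ * |cross u κ|)) =
      ENNReal.ofReal ℓ * ENNReal.ofReal (2 * m) + (ENNReal.ofReal ℓ * ENNReal.ofReal (θ * w) +
        ENNReal.ofReal ℓ * ENNReal.ofReal (θ * w)) := by
    rw [hcr, hcrκ, ← ENNReal.ofReal_mul hℓ0, ← ENNReal.ofReal_mul hℓ0,
      ← ENNReal.ofReal_add (by positivity) (by positivity),
      ← ENNReal.ofReal_add (by positivity) (by positivity)]
    congr 1; rw [hℓ]; ring
  have i1 : ∫⁻ y, (Ioo (-m) m).indicator (fun _ => ENNReal.ofReal ℓ) y =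
      ENNReal.ofReal ℓ * ENNReal.ofReal (2 * m) := by
    rw [lintegral_indicator measurableSet_Ioo, setLIntegral_const, Real.volume_Ioo]
    congr 2; ring
  have mid : ∀ y ∈ Ioo (-m) m, ENNReal.ofReal ℓ ≤ volume (modB_sl ω (D + θ • K) y) := by
    intro y hy
    have hmpos : 0 < m := by linarith [hy.1, hy.2]
    have := slab ((m - y) / (2 * m)) (div_nonneg (by linarith [hy.2]) (by linarith))
      ((div_le_one (by linarith)).2 (by linarith [hy.1])) 0 hK0
    have e : m - 2 * m * ((m - y) / (2 * m)) + θ * 0 = y := by field_simp; ring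
    rw [e] at this
    exact le_trans (le_add_right le_rfl) this
  rcases eq_or_lt_of_le hθ with h0 | hθp
  · -- θ = 0
    rw [hfin, ← h0]
    simp only [zero_mul, ENNReal.ofReal_zero, mul_zero, add_zero, ne_eq, OfNat.ofNat_ne_zero,
      not_false_eq_true, zero_pow]
    rw [← i1, h0, hvE]
    refine lintegral_mono fun y => ?_
    by_cases hy : y ∈ Ioo (-m) m
    · rw [indicator_of_mem hy]; exact mid y hy
    · rw [indicator_of_notMem hy]; simp
  · -- θ > 0
    have i2 : ∫⁻ y, (Ioc m (m + θ * w)).indicator (fun _ => ENNReal.ofReal ℓ) y =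
        ENNReal.ofReal ℓ * ENNReal.ofReal (θ * w) := by
      rw [lintegral_indicator measurableSet_Ioc, setLIntegral_const, Real.volume_Ioc]
      congr 2; ring
    have i3 : ∫⁻ y, (Ico (-m - θ * w) (-m)).indicator (fun _ => ENNReal.ofReal ℓ) y =
        ENNReal.ofReal ℓ * ENNReal.ofReal (θ * w) := by
      rw [lintegral_indicator measurableSet_Ico, setLIntegral_const, Real.volume_Ico]
      congr 2; ring
    have g1 : Measurable ((Ioi (0:ℝ)).indicator G) := hGm.indicator measurableSet_Ioi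
    have g2 : Measurable ((Iio (0:ℝ)).indicator G) := hGm.indicator measurableSet_Iio
    have j2 := modB_scale _ g1 θ (-m) hθp
    have j3 := modB_scale _ g2 θ m hθp
    have hsum : (∫⁻ y, (Ioi (0:ℝ)).indicator G y) + (∫⁻ y, (Iio (0:ℝ)).indicator G y) = volume K := by
      have e := lintegral_add_left (μ := (volume : Measure ℝ)) g1 ((Iio (0:ℝ)).indicator G)
      rw [← e, hvK]
      refine lintegral_congr_ae ?_
      have : ∀ᵐ y : ℝ, y ≠ 0 := by
        rw [ae_iff]; simp
      filter_upwards [this] with y hy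
      rcases lt_or_gt_of_ne hy with h | h
      · simp [indicator, h, not_lt.2 h.le, hG]
      · simp [indicator, h, not_lt.2 h.le, hG]
    have mg1 : Measurable fun y => ENNReal.ofReal θ * (Ioi (0:ℝ)).indicator G (θ⁻¹ * (y + -m)) :=
      (g1.comp (by fun_prop)).const_mul _
    have mg2 : Measurable fun y => ENNReal.ofReal θ * (Iio (0:ℝ)).indicator G (θ⁻¹ * (y + m)) :=
      (g2.comp (by fun_prop)).const_mul _
    have mc1 : Measurable ((Ioo (-m) m).indicator (fun _ : ℝ => ENNReal.ofReal ℓ)) :=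
      measurable_const.indicator measurableSet_Ioo
    have mc2 : Measurable ((Ioc m (m + θ * w)).indicator (fun _ : ℝ => ENNReal.ofReal ℓ)) :=
      measurable_const.indicator measurableSet_Ioc
    have mc3 : Measurable ((Ico (-m - θ * w) (-m)).indicator (fun _ : ℝ => ENNReal.ofReal ℓ)) :=
      measurable_const.indicator measurableSet_Ico
    have total : ENNReal.ofReal (n * (2 * cross q p + 2 * θ * |cross u κ|)) +
        ENNReal.ofReal (θ ^ 2) * volume K =
        ∫⁻ y, ((Ioo (-m) m).indicator (fun _ => ENNReal.ofReal ℓ) y +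
          (((Ioc m (m + θ * w)).indicator (fun _ => ENNReal.ofReal ℓ) y +
            ENNReal.ofReal θ * (Ioi (0:ℝ)).indicator G (θ⁻¹ * (y + -m))) +
          ((Ico (-m - θ * w) (-m)).indicator (fun _ => ENNReal.ofReal ℓ) y +
            ENNReal.ofReal θ * (Iio (0:ℝ)).indicator G (θ⁻¹ * (y + m))))) := by
      rw [lintegral_add_left mc1, lintegral_add_left (show Measurable (fun y =>
        (Ioc m (m + θ * w)).indicator (fun _ : ℝ => ENNReal.ofReal ℓ) y +
            ENNReal.ofReal θ * (Ioi (0:ℝ)).indicator G (θ⁻¹ * (y + -m))) from mc2.add mg1),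
        lintegral_add_left mc2,
        lintegral_add_left mc3, lintegral_const_mul' _ _ ENNReal.ofReal_ne_top,
        lintegral_const_mul' _ _ ENNReal.ofReal_ne_top, i1, i2, i3, j2, j3, hfin, ← hsum,
        ENNReal.ofReal_pow hθ, ENNReal.ofReal_mul hθ]
      ring
    rw [total, hvE]
    refine lintegral_mono fun y => ?_
    simp only
    rcases lt_trichotomy y (-m) with hy | hy | hy
    · -- bottom
      have e1 : y ∉ Ioo (-m) m := fun h => by linarith [h.1]
      have e2 : y ∉ Ioc m (m + θ * w) := fun h => by linarith [h.1]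
      have e3 : θ⁻¹ * (y + -m) ∉ Ioi (0:ℝ) := by
        simp only [mem_Ioi, not_lt]
        exact mul_nonpos_of_nonneg_of_nonpos (by positivity) (by linarith)
      have e4 : θ⁻¹ * (y + m) ∈ Iio (0:ℝ) := mul_neg_of_pos_of_neg (inv_pos.2 hθp) (by linarith)
      rw [indicator_of_notMem e1, indicator_of_notMem e2, indicator_of_notMem e3,
        indicator_of_mem e4, mul_zero, zero_add, zero_add, zero_add]
      by_cases hne : (modB_sl ω K (θ⁻¹ * (y + m))).Nonempty
      · have := slab 1 zero_le_one le_rfl _ hne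
        have e : m - 2 * m * 1 + θ * (θ⁻¹ * (y + m)) = y := by
          rw [← mul_assoc, mul_inv_cancel₀ hθp.ne']; ring
        rw [e] at this
        refine le_trans ?_ this
        gcongr
        exact indicator_le_self' (fun _ _ => by simp) _
      · rw [not_nonempty_iff_eq_empty] at hne
        have e5 : y ∉ Ico (-m - θ * w) (-m) := by
          intro h
          have : |θ⁻¹ * (y + m)| ≤ w := by
            rw [abs_of_neg e4, ← mul_neg, inv_mul_le_iff₀ hθp]; linarith [h.1]
          have := hKb _ this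
          rw [hne] at this
          exact not_nonempty_empty this
        rw [indicator_of_notMem e5]
        simp [hG, hne]
    · -- y = -m
      have e1 : y ∉ Ioo (-m) m := fun h => by linarith [h.1]
      have e2 : y ∉ Ioc m (m + θ * w) := fun h => by linarith [h.1]
      have e3 : θ⁻¹ * (y + -m) ∉ Ioi (0:ℝ) := by
        simp only [mem_Ioi, not_lt]
        exact mul_nonpos_of_nonneg_of_nonpos (by positivity) (by linarith)
      have e4 : θ⁻¹ * (y + m) ∉ Iio (0:ℝ) := by rw [hy]; simp
      have e5 : y ∉ Ico (-m - θ * w) (-m) := fun h => by linarith [h.2]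
      rw [indicator_of_notMem e1, indicator_of_notMem e2, indicator_of_notMem e3,
        indicator_of_notMem e4, indicator_of_notMem e5]
      simp
    · have e4 : θ⁻¹ * (y + m) ∉ Iio (0:ℝ) := by
        simp only [mem_Iio, not_lt]
        exact mul_nonneg (by positivity) (by linarith)
      have e5 : y ∉ Ico (-m - θ * w) (-m) := fun h => by linarith [h.2]
      rw [indicator_of_notMem e4, indicator_of_notMem e5, mul_zero, add_zero, add_zero]
      rcases lt_trichotomy y m with hy' | hy' | hy'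
      · have e2 : y ∉ Ioc m (m + θ * w) := fun h => by linarith [h.1]
        have e3 : θ⁻¹ * (y + -m) ∉ Ioi (0:ℝ) := by
          simp only [mem_Ioi, not_lt]
          exact mul_nonpos_of_nonneg_of_nonpos (by positivity) (by linarith)
        rw [indicator_of_notMem e2, indicator_of_notMem e3, mul_zero, add_zero, add_zero,
          indicator_of_mem (show y ∈ Ioo (-m) m from ⟨hy, hy'⟩)]
        exact mid y ⟨hy, hy'⟩
      · have e1 : y ∉ Ioo (-m) m := fun h => by linarith [h.2]
        have e2 : y ∉ Ioc m (m + θ * w) := fun h => by linarith [h.1]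
        have e3 : θ⁻¹ * (y + -m) ∉ Ioi (0:ℝ) := by rw [hy']; simp
        rw [indicator_of_notMem e1, indicator_of_notMem e2, indicator_of_notMem e3]
        simp
      · have e1 : y ∉ Ioo (-m) m := fun h => by linarith [h.2]
        have e3 : θ⁻¹ * (y + -m) ∈ Ioi (0:ℝ) := mul_pos (inv_pos.2 hθp) (by linarith)
        rw [indicator_of_notMem e1, indicator_of_mem e3, zero_add]
        by_cases hne : (modB_sl ω K (θ⁻¹ * (y + -m))).Nonempty
        · have := slab 0 le_rfl zero_le_one _ hne
          have e : m - 2 * m * 0 + θ * (θ⁻¹ * (y + -m)) = y := by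
            rw [← mul_assoc, mul_inv_cancel₀ hθp.ne']; ring
          rw [e] at this
          refine le_trans ?_ this
          gcongr
          exact indicator_le_self' (fun _ _ => by simp) _
        · rw [not_nonempty_iff_eq_empty] at hne
          have e2 : y ∉ Ioc m (m + θ * w) := by
            intro h
            have : |θ⁻¹ * (y + -m)| ≤ w := by
              rw [abs_of_pos e3, inv_mul_le_iff₀ hθp]; linarith [h.2]
            have := hKb _ this
            rw [hne] at this
            exact not_nonempty_empty this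
          rw [indicator_of_notMem e2]
          simp [hG, hne]

end ZZ
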