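import Pool.Agent.Helper32.ZZ.Defs

/-!
Module E for MP_f8fc30_co: the concrete body and the localisation inequality.
-/

open MeasureTheory Set Pointwise
open scoped ENNReal

namespace ZZ

/-! ### the function `f` -/

theorem modE_f_ge (s y : ℝ) (h0 : 0 ≤ s) (h1 : s ≤ 1) : s * y - 4 * s ^ 2 ≤ f y := by
  unfold f
  split_ifs with a b c
  · nlinarith [mul_nonneg (sub_nonneg.2 h1) (sub_nonneg.2 a), mul_nonneg h0 (sub_nonneg.2 h1)]
  · nlinarith [sq_nonneg (y - 8 * s)]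
  · nlinarith [mul_nonneg h0 (le_of_lt (neg_pos.2 (not_le.1 b))), sq_nonneg y, sq_nonneg s]
  · nlinarith [mul_nonneg h0 (le_of_lt (neg_pos.2 (not_le.1 b))), sq_nonneg s]

theorem modE_f_ge' (s y : ℝ) (h0 : -1 ≤ s) (h1 : s ≤ 0) : s * y - 2 * s ^ 2 ≤ f y := by
  unfold f
  split_ifs with a b c
  · nlinarith [sq_nonneg s, mul_nonneg (neg_nonneg.2 h1) (show (0:ℝ) ≤ y by linarith)]
  · nlinarith [sq_nonneg s, mul_nonneg (neg_nonneg.2 h1) b, sq_nonneg y]
  · nlinarith [sq_nonneg (y - 4 * s)]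
  · have hy : y < -4 := not_le.1 c
    nlinarith [mul_nonneg (show (0:ℝ) ≤ s + 1 by linarith) (show (0:ℝ) ≤ -4 - y by linarith),
      mul_nonneg (neg_nonneg.2 h1) (show (0:ℝ) ≤ s + 1 by linarith)]

theorem modE_f_eq (y : ℝ) : ∃ s : ℝ, (0 ≤ s ∧ s ≤ 1 ∧ f y = s * y - 4 * s ^ 2) ∨
    (-1 ≤ s ∧ s ≤ 0 ∧ f y = s * y - 2 * s ^ 2) := by
  by_cases a : 8 ≤ y
  · exact ⟨1, Or.inl ⟨by norm_num, le_refl _, by unfold f; rw [if_pos a]; ring⟩⟩
  · by_cases b : 0 ≤ y
    · refine ⟨y / 8, Or.inl ⟨by positivity, by push Not at a; linarith, ?_⟩⟩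
      unfold f
      rw [if_neg a, if_pos b]; ring
    · push Not at b
      by_cases c : -4 ≤ y
      · refine ⟨y / 4, Or.inr ⟨by linarith, by linarith, ?_⟩⟩
        unfold f
        rw [if_neg a, if_neg (not_le.2 b), if_pos c]; ring
      · refine ⟨-1, Or.inr ⟨le_refl _, by norm_num, ?_⟩⟩
        unfold f
        rw [if_neg a, if_neg (not_le.2 b), if_neg c]; ring

theorem modE_f_nonneg (y : ℝ) : 0 ≤ f y := by
  have := modE_f_ge 0 y le_rfl zero_le_one
  linarith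

theorem modE_f_zero : f 0 = 0 := by
  unfold f; norm_num

theorem modE_f_ge4 (y : ℝ) : y - 4 ≤ f y := by
  have := modE_f_ge 1 y zero_le_one le_rfl
  linarith

theorem modE_f_ge2 (y : ℝ) : -y - 2 ≤ f y := by
  have := modE_f_ge' (-1) y le_rfl (by norm_num)
  linarith

theorem modE_f_sub_le (x y : ℝ) : f x - f y ≤ |x - y| := by
  obtain ⟨s, ⟨h0, h1, h⟩ | ⟨h0, h1, h⟩⟩ := modE_f_eq x
  · have h2 := modE_f_ge s y h0 h1
    have h3 : s * (x - y) ≤ |x - y| := by
      calc s * (x - y) ≤ s * |x - y| := by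
            apply mul_le_mul_of_nonneg_left (le_abs_self _) h0
        _ ≤ 1 * |x - y| := by
            apply mul_le_mul_of_nonneg_right h1 (abs_nonneg _)
        _ = _ := one_mul _
    linarith
  · have h2 := modE_f_ge' s y h0 h1
    have h3 : s * (x - y) ≤ |x - y| := by
      calc s * (x - y) = (-s) * -(x - y) := by ring
        _ ≤ (-s) * |x - y| := by
            apply mul_le_mul_of_nonneg_left (neg_le_abs _) (by linarith)
        _ ≤ 1 * |x - y| := by
            apply mul_le_mul_of_nonneg_right (by linarith) (abs_nonneg _)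
        _ = _ := one_mul _
    linarith

theorem modE_f_cont : Continuous f := by
  refine (LipschitzWith.of_dist_le_mul (K := 1) ?_).continuous
  intro x y
  rw [Real.dist_eq, Real.dist_eq, NNReal.coe_one, one_mul]
  rw [abs_le]
  have h1 := modE_f_sub_le x y
  have h2 := modE_f_sub_le y x
  rw [abs_sub_comm y x] at h2
  constructor <;> linarith

theorem modE_f_convex : ConvexOn ℝ univ f := by
  refine ⟨convex_univ, fun x _ y _ a b ha hb hab => ?_⟩
  simp only [smul_eq_mul]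
  obtain ⟨s, ⟨h0, h1, h⟩ | ⟨h0, h1, h⟩⟩ := modE_f_eq (a * x + b * y)
  · have h2 := modE_f_ge s x h0 h1
    have h3 := modE_f_ge s y h0 h1
    have h4 := mul_le_mul_of_nonneg_left h2 ha
    have h5 := mul_le_mul_of_nonneg_left h3 hb
    rw [h]
    have : s * (a * x + b * y) - 4 * s ^ 2 = a * (s * x - 4 * s ^ 2) + b * (s * y - 4 * s ^ 2) := by
      linear_combination (4 * s ^ 2) * hab
    linarith
  · have h2 := modE_f_ge' s x h0 h1
    have h3 := modE_f_ge' s y h0 h1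
    have h4 := mul_le_mul_of_nonneg_left h2 ha
    have h5 := mul_le_mul_of_nonneg_left h3 hb
    rw [h]
    have : s * (a * x + b * y) - 2 * s ^ 2 = a * (s * x - 2 * s ^ 2) + b * (s * y - 2 * s ^ 2) := by
      linear_combination (2 * s ^ 2) * hab
    linarith

/-! ### the body -/

theorem K0_bounds (κ : ℝ × ℝ) (hκ : κ ∈ K0) : |κ.1 + κ.2| ≤ 10001 ∧ |κ.1 - κ.2| ≤ 9999 := by
  obtain ⟨h1, h2⟩ := hκ
  have a1 := modE_f_ge4 κ.2
  have a2 := modE_f_ge2 κ.2
  have a3 := modE_f_ge4 (-κ.2)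
  have a4 := modE_f_ge2 (-κ.2)
  constructor <;> rw [abs_le] <;> constructor <;> linarith

theorem K0_symm : ∀ p ∈ K0, -p ∈ K0 := by
  rintro p ⟨h1, h2⟩
  refine ⟨?_, ?_⟩
  · simpa using h2
  · simpa using h1

theorem modE_closed : IsClosed K0 := by
  have c1 : Continuous fun p : ℝ × ℝ => p.1 + f p.2 :=
    continuous_fst.add (modE_f_cont.comp continuous_snd)
  have c2 : Continuous fun p : ℝ × ℝ => -p.1 + f (-p.2) :=
    continuous_fst.neg.add (modE_f_cont.comp continuous_snd.neg)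
  exact IsClosed.inter (isClosed_le c1 continuous_const) (isClosed_le c2 continuous_const)

theorem K0_compact : IsCompact K0 := by
  refine Metric.isCompact_of_isClosed_isBounded modE_closed ?_
  refine (Metric.isBounded_closedBall (x := (0 : ℝ × ℝ)) (r := 10001)).subset ?_
  intro p hp
  obtain ⟨h1, h2⟩ := K0_bounds p hp
  rw [abs_le] at h1 h2
  rw [Metric.mem_closedBall, dist_zero_right, Prod.norm_def]
  refine max_le ?_ ?_ <;> rw [Real.norm_eq_abs, abs_le] <;> constructor <;> linarith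

theorem K0_convex : Convex ℝ K0 := by
  intro p hp q hq a b ha hb hab
  obtain ⟨p1, p2⟩ := hp
  obtain ⟨q1, q2⟩ := hq
  have h1 := modE_f_convex.2 (mem_univ p.2) (mem_univ q.2) ha hb hab
  have h2 := modE_f_convex.2 (mem_univ (-p.2)) (mem_univ (-q.2)) ha hb hab
  simp only [smul_eq_mul] at h1 h2
  have e1 := mul_le_mul_of_nonneg_left p1 ha
  have e2 := mul_le_mul_of_nonneg_left q1 hb
  have e3 := mul_le_mul_of_nonneg_left p2 ha
  have e4 := mul_le_mul_of_nonneg_left q2 hb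
  have e5 : a * 9997 + b * 9997 = 9997 := by rw [← add_mul, hab, one_mul]
  refine ⟨?_, ?_⟩
  · simp only [Prod.fst_add, Prod.smul_fst, Prod.snd_add, Prod.smul_snd, smul_eq_mul]
    nlinarith
  · simp only [Prod.fst_add, Prod.smul_fst, Prod.snd_add, Prod.smul_snd, smul_eq_mul]
    have : -(a * p.2 + b * q.2) = a * -p.2 + b * -q.2 := by ring
    rw [this]
    nlinarith

theorem K0_interior : (interior K0).Nonempty := by
  refine ⟨0, ?_⟩
  rw [mem_interior]
  refine ⟨{p : ℝ × ℝ | p.1 + f p.2 < 9997} ∩ {p : ℝ × ℝ | -p.1 + f (-p.2) < 9997}, ?_, ?_, ?_⟩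
  · rintro p ⟨h1, h2⟩
    exact ⟨le_of_lt h1, le_of_lt h2⟩
  · have c1 : Continuous fun p : ℝ × ℝ => p.1 + f p.2 :=
      continuous_fst.add (modE_f_cont.comp continuous_snd)
    have c2 : Continuous fun p : ℝ × ℝ => -p.1 + f (-p.2) :=
      continuous_fst.neg.add (modE_f_cont.comp continuous_snd.neg)
    exact IsOpen.inter (isOpen_lt c1 continuous_const) (isOpen_lt c2 continuous_const)
  · constructor
    · show (0 : ℝ × ℝ).1 + f (0 : ℝ × ℝ).2 < 9997
      simp [modE_f_zero]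
    · show -(0 : ℝ × ℝ).1 + f (-(0 : ℝ × ℝ).2) < 9997
      simp [modE_f_zero]

theorem K0_vol : volume K0 ≤ ENNReal.ofReal (2 * 10 ^ 8) := by
  let T : (ℝ × ℝ) →ₗ[ℝ] (ℝ × ℝ) := Matrix.toLin (Module.Basis.finTwoProd ℝ)
    (Module.Basis.finTwoProd ℝ) !![1, 1; 1, -1]
  have hdet : LinearMap.det T = -2 := by
    show LinearMap.det (Matrix.toLin _ _ _) = -2
    rw [LinearMap.det_toLin, Matrix.det_fin_two_of]; norm_num
  have hT : ∀ p : ℝ × ℝ, T p = (p.1 + p.2, p.1 - p.2) := by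
    intro p
    show Matrix.toLin _ _ _ p = _
    rw [Matrix.toLin_finTwoProd_apply]
    ext
    · simp
    · simp; ring
  have hsub : K0 ⊆ T ⁻¹' (Icc (-10001) 10001 ×ˢ Icc (-9999) 9999) := by
    intro p hp
    obtain ⟨h1, h2⟩ := K0_bounds p hp
    rw [abs_le] at h1 h2
    rw [mem_preimage, hT]
    exact ⟨h1, h2⟩
  refine (measure_mono hsub).trans ?_
  rw [Measure.addHaar_preimage_linearMap volume (by rw [hdet]; norm_num), hdet,
    Measure.volume_eq_prod, Measure.prod_prod, Real.volume_Icc, Real.volume_Icc,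
    ← ENNReal.ofReal_mul (by norm_num), ← ENNReal.ofReal_mul (by positivity)]
  apply ENNReal.ofReal_le_ofReal
  rw [abs_inv, abs_neg, abs_of_pos (by norm_num : (0:ℝ) < 2)]
  norm_num

/-- top vertex -/
theorem K0_top : ((1 : ℝ), (10000 : ℝ)) ∈ K0 := by
  constructor
  · show (1 : ℝ) + f 10000 ≤ 9997
    unfold f; norm_num
  · show -(1 : ℝ) + f (-10000) ≤ 9997
    unfold f; norm_num

theorem K0_right : ((9997 : ℝ), (0 : ℝ)) ∈ K0 := by
  constructor
  · show (9997 : ℝ) + f 0 ≤ 9997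
    rw [modE_f_zero]; norm_num
  · show -(9997 : ℝ) + f (-0) ≤ 9997
    rw [neg_zero, modE_f_zero]; norm_num

theorem modE_cross_cont (v : ℝ × ℝ) : Continuous fun κ : ℝ × ℝ => cross v κ := by
  unfold cross
  fun_prop

theorem modE_bdd (v : ℝ × ℝ) : BddAbove ((fun κ => cross v κ) '' K0) :=
  (K0_compact.image (modE_cross_cont v)).bddAbove

theorem NN_ge (v κ : ℝ × ℝ) (hκ : κ ∈ K0) : |cross v κ| ≤ NN v := by
  rw [abs_le']
  constructor
  · exact le_csSup (modE_bdd v) ⟨κ, hκ, rfl⟩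
  · have : -cross v κ = cross v (-κ) := by unfold cross; simp; ring
    rw [this]
    exact le_csSup (modE_bdd v) ⟨-κ, K0_symm κ hκ, rfl⟩

theorem NN_attained (v : ℝ × ℝ) : ∃ κ ∈ K0, cross v κ = NN v := by
  obtain ⟨κ, hκ, h⟩ := K0_compact.exists_sSup_image_eq ⟨_, K0_top⟩ (modE_cross_cont v).continuousOn
  exact ⟨κ, hκ, h.symm⟩

/-- `K0` has a good contact pair -/
theorem Fz_base : ∃ p ∈ K0, ∃ q ∈ K0, 80 * 9997 * 10000 + 5900 ≤ Fz p q := by
  refine ⟨(9996.99, 0.4), ⟨?_, ?_⟩, (9996.995, -0.2), ⟨?_, ?_⟩, ?_⟩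
  · show (9996.99 : ℝ) + f 0.4 ≤ 9997
    unfold f; norm_num
  · show -(9996.99 : ℝ) + f (-0.4) ≤ 9997
    unfold f; norm_num
  · show (9996.995 : ℝ) + f (-0.2) ≤ 9997
    unfold f; norm_num
  · show -(9996.995 : ℝ) + f (-(-0.2)) ≤ 9997
    unfold f; norm_num
  · have h := NN_ge ((9996.99, 0.4) + (9996.995, -0.2)) (1, 10000) K0_top
    have h2 := (le_abs_self _).trans h
    unfold Fz
    unfold cross at h2 ⊢
    simp only [Prod.mk_add_mk] at h2 ⊢
    norm_num at h2 ⊢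
    linarith

theorem modE_NN_neg (v : ℝ × ℝ) : NN (-v) = NN v := by
  have key : ∀ v : ℝ × ℝ, NN v ≤ NN (-v) := by
    intro v
    obtain ⟨κ, hκ, h⟩ := NN_attained v
    have h2 := NN_ge (-v) κ hκ
    rw [← h]
    refine le_trans ?_ h2
    have : cross (-v) κ = -cross v κ := by unfold cross; simp; ring
    rw [this, abs_neg]
    exact le_abs_self _
  apply le_antisymm
  · have := key (-v)
    rwa [neg_neg] at this
  · exact key v

theorem modE_Fz_neg (p q : ℝ × ℝ) : Fz (-p) (-q) = Fz p q := by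
  unfold Fz
  have h1 : -p + -q = -(p + q) := by abel
  rw [h1, modE_NN_neg]
  unfold cross
  simp

theorem modE_caseB (p q : ℝ × ℝ) (hp : p ∈ K0) (hq : q ∈ K0) (hv : |p.1 + q.1| < p.2 + q.2) :
    Fz p q < 80 * 9997 * 10000 + 5600 := by
  obtain ⟨κ, hκ, h⟩ := NN_attained (p + q)
  have hNN : NN (p + q) ≤ 9997 * (p.2 + q.2) + 4 * |p.1 + q.1| := by
    rw [← h]
    obtain ⟨k1, k2⟩ := hκ
    have hf1 := modE_f_ge4 (-κ.2)
    have hf2 := modE_f_ge2 (-κ.2)
    have hf0 := modE_f_nonneg (-κ.2)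
    unfold cross
    simp only [Prod.fst_add, Prod.snd_add]
    have e1 : (p.1 + q.1) * κ.2 ≤ |p.1 + q.1| * |κ.2| := by
      rw [← abs_mul]; exact le_abs_self _
    have hV := abs_nonneg (p.1 + q.1)
    have hk := abs_nonneg κ.2
    have hf3 : |κ.2| - 4 ≤ f (-κ.2) := by
      rcases abs_cases κ.2 with ⟨e, _⟩ | ⟨e, _⟩ <;> rw [e] <;> linarith
    have hv0 : 0 ≤ p.2 + q.2 := by linarith
    have e2 : (p.2 + q.2) * (-κ.1) ≤ (p.2 + q.2) * (9997 - f (-κ.2)) :=
      mul_le_mul_of_nonneg_left (by linarith) hv0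
    rcases le_or_gt 4 |κ.2| with h4 | h4
    · have e3 : (p.2 + q.2) * (|κ.2| - 4) ≤ (p.2 + q.2) * f (-κ.2) :=
        mul_le_mul_of_nonneg_left hf3 hv0
      nlinarith [mul_nonneg (sub_nonneg.2 hv.le) (sub_nonneg.2 h4)]
    · have e3 : 0 ≤ (p.2 + q.2) * f (-κ.2) := mul_nonneg hv0 hf0
      nlinarith [mul_nonneg hV (sub_nonneg.2 h4.le)]
  obtain ⟨p1, p2⟩ := K0_bounds p hp
  obtain ⟨q1, q2⟩ := K0_bounds q hq
  rw [abs_le] at p1 p2 q1 q2
  -- new coordinates
  obtain ⟨a, ha⟩ : ∃ a, a = 1 - p.1 := ⟨_, rfl⟩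
  obtain ⟨e, he⟩ : ∃ e, e = 10000 - p.2 := ⟨_, rfl⟩
  obtain ⟨a', ha'⟩ : ∃ a', a' = 1 - q.1 := ⟨_, rfl⟩
  obtain ⟨e', he'⟩ : ∃ e', e' = 10000 - q.2 := ⟨_, rfl⟩
  have c1 : -e ≤ a := by linarith
  have c2 : a ≤ e := by linarith
  have c3 : -e' ≤ a' := by linarith
  have c4 : a' ≤ e' := by linarith
  have ce : 0 ≤ e := by linarith
  have ce' : 0 ≤ e' := by linarith
  have hP1 : p.1 = 1 - a := by linarith
  have hP2 : p.2 = 10000 - e := by linarith
  have hQ1 : q.1 = 1 - a' := by linarith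
  have hQ2 : q.2 = 10000 - e' := by linarith
  have hv1 : |p.1 + q.1| ≤ 2 + (e + e') := by
    rw [abs_le]; constructor <;> linarith
  have hs : e + e' < 20000 := by
    have := (abs_nonneg (p.1 + q.1)).trans_lt hv
    linarith
  have hcross : cross q p ≤ 20001 * (e + e') := by
    unfold cross
    rw [hP1, hP2, hQ1, hQ2]
    have t1 : a' * e ≤ e' * e := mul_le_mul_of_nonneg_right c4 ce
    have t2 : -(a * e') ≤ e * e' := by nlinarith
    have t3 : 2 * (e * e') ≤ 10000 * (e + e') := by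
      nlinarith [sq_nonneg (e - e'), mul_nonneg (add_nonneg ce ce') (sub_nonneg.2 hs.le)]
    nlinarith
  unfold Fz
  nlinarith

theorem modE_qa {Y : ℝ} (h : 3487 ≤ 19954 * Y - 380000 * (Y ^ 2 / 16)) : 0.2 ≤ Y ∧ Y ≤ 0.6 := by
  constructor
  · by_contra hcon
    push Not at hcon
    nlinarith
  · by_contra hcon
    push Not at hcon
    nlinarith

theorem modE_qb {Z : ℝ} (h : 1618 ≤ 20034 * Z - 50000 * Z ^ 2) : 0.1 ≤ Z ∧ Z ≤ 0.3 := by
  constructor
  · by_contra hcon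
    push Not at hcon
    nlinarith
  · by_contra hcon
    push Not at hcon
    nlinarith

theorem modE_ident (Y Z u v dp dq : ℝ)
    (h : 80 * 9997 * 10000 + 5600 ≤ 2 * ((9997 - v - dq) * Y - (-Z) * (9997 - u - dp)) +
      40 * (10000 * ((9997 - u - dp) + (9997 - v - dq)) - (Y + -Z))) :
    5600 ≤ 19954 * Y + 20034 * Z - 400000 * (u + v) - 2 * v * Y - 2 * u * Z -
      dp * (400000 + 2 * Z) - dq * (400000 + 2 * Y) := by
  have : 2 * ((9997 - v - dq) * Y - (-Z) * (9997 - u - dp)) +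
      40 * (10000 * ((9997 - u - dp) + (9997 - v - dq)) - (Y + -Z)) =
      80 * 9997 * 10000 + (19954 * Y + 20034 * Z - 400000 * (u + v) - 2 * v * Y - 2 * u * Z -
      dp * (400000 + 2 * Z) - dq * (400000 + 2 * Y)) := by ring
  linarith

theorem modE_caseA (p q : ℝ × ℝ) (hp : p ∈ K0) (hq : q ∈ K0) (hv : |p.2 + q.2| ≤ p.1 + q.1)
    (h : 80 * 9997 * 10000 + 5600 ≤ Fz p q) :
    0.2 ≤ p.2 ∧ p.2 ≤ 0.6 ∧ -0.3 ≤ q.2 ∧ q.2 ≤ -0.1 ∧ 9990 ≤ p.1 ∧ 9990 ≤ q.1 := by
  obtain ⟨κ, hκ, hk⟩ := NN_attained (p + q)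
  rw [abs_le] at hv
  have hNN : NN (p + q) ≤ 10000 * (p.1 + q.1) - (p.2 + q.2) := by
    rw [← hk]
    obtain ⟨k1, k2⟩ := K0_bounds κ hκ
    rw [abs_le] at k1 k2
    unfold cross
    simp only [Prod.fst_add, Prod.snd_add]
    nlinarith [mul_nonneg (show 0 ≤ (p.1 + q.1) - (p.2 + q.2) by linarith)
        (show 0 ≤ 10001 - (κ.1 + κ.2) by linarith),
      mul_nonneg (show 0 ≤ (p.1 + q.1) + (p.2 + q.2) by linarith)
        (show 0 ≤ 9999 + (κ.1 - κ.2) by linarith)]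
  obtain ⟨b1, b2⟩ := K0_bounds p hp
  obtain ⟨b3, b4⟩ := K0_bounds q hq
  rw [abs_le] at b1 b2 b3 b4
  obtain ⟨hp1, -⟩ := hp
  obtain ⟨hq1, -⟩ := hq
  -- abbreviations
  set Y : ℝ := p.2 with hY
  obtain ⟨Z, hZ⟩ : ∃ Z, Z = -q.2 := ⟨_, rfl⟩
  have hq2 : q.2 = -Z := by linarith
  rw [hq2] at hq1
  set u : ℝ := f Y with hu
  set v : ℝ := f (-Z) with hv'
  have hu0 : 0 ≤ u := modE_f_nonneg _
  have hv0 : 0 ≤ v := modE_f_nonneg _
  have hY1 : Y ≤ 10000 := by linarith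
  have hY2 : -10000 ≤ Y := by linarith
  have hZ1 : Z ≤ 10000 := by linarith
  have hZ2 : -10000 ≤ Z := by linarith
  obtain ⟨dp, hdp⟩ : ∃ dp, dp = 9997 - u - p.1 := ⟨_, rfl⟩
  obtain ⟨dq, hdq⟩ : ∃ dq, dq = 9997 - v - q.1 := ⟨_, rfl⟩
  have hdp0 : 0 ≤ dp := by linarith
  have hdq0 : 0 ≤ dq := by linarith
  have hp1' : p.1 = 9997 - u - dp := by linarith
  have hq1' : q.1 = 9997 - v - dq := by linarith
  have hF : 5600 ≤ 19954 * Y + 20034 * Z - 400000 * (u + v) - 2 * v * Y - 2 * u * Z -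
      dp * (400000 + 2 * Z) - dq * (400000 + 2 * Y) := by
    have : Fz p q ≤ 2 * (q.1 * p.2 - q.2 * p.1) + 40 * (10000 * (p.1 + q.1) - (p.2 + q.2)) := by
      unfold Fz cross
      linarith
    rw [hq2, hp1', hq1', ← hY] at this
    exact modE_ident Y Z u v dp dq (h.trans this)
  -- crude bounds
  have m1 : 0 ≤ dp * (400000 + 2 * Z) := mul_nonneg hdp0 (by linarith)
  have m2 : 0 ≤ dq * (400000 + 2 * Y) := mul_nonneg hdq0 (by linarith)
  have n1 : -(2 * v * Y) ≤ 20000 * v := by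
    have := mul_nonneg hv0 (show 0 ≤ Y + 10000 by linarith)
    linarith
  have n2 : -(2 * u * Z) ≤ 20000 * u := by
    have := mul_nonneg hu0 (show 0 ≤ Z + 10000 by linarith)
    linarith
  have hcr : 5600 ≤ (19954 * Y - 380000 * u) + (20034 * Z - 380000 * v) := by linarith
  -- the two one-variable bounds
  have f1 : ∀ s : ℝ, 0 ≤ s → s ≤ 1 → s * Y - 4 * s ^ 2 ≤ u := fun s h0 h1 => modE_f_ge s Y h0 h1
  have f2 : ∀ s : ℝ, 0 ≤ s → s ≤ 1 → s * Z - 2 * s ^ 2 ≤ v := fun s h0 h1 => by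
    have := modE_f_ge' (-s) (-Z) (by linarith) (by linarith)
    nlinarith
  have hYmax : 19954 * Y - 380000 * u ≤ 4192 := by
    have := f1 (19954 / 380000) (by norm_num) (by norm_num)
    norm_num at this
    linarith
  have hZmax : 20034 * Z - 380000 * v ≤ 2113 := by
    have := f2 (20034 / 380000) (by norm_num) (by norm_num)
    norm_num at this
    linarith
  have hYlow : 3487 ≤ 19954 * Y - 380000 * u := by linarith
  have hZlow : 1408 ≤ 20034 * Z - 380000 * v := by linarith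
  have hYpos : 0 < Y := by linarith
  have hZpos : 0 < Z := by linarith
  have hY8 : Y < 8 := by
    by_contra hcon
    push Not at hcon
    have := f1 1 (by norm_num) (by norm_num)
    linarith
  have hZ4 : Z < 4 := by
    by_contra hcon
    push Not at hcon
    have := f2 1 (by norm_num) (by norm_num)
    linarith
  have hueq : u = Y ^ 2 / 16 := by
    rw [hu]; unfold f
    rw [if_neg (not_le.2 hY8), if_pos hYpos.le]
  have hveq : v = Z ^ 2 / 8 := by
    rw [hv']; unfold f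
    rw [if_neg (by push Not; linarith), if_neg (by push Not; linarith), if_pos (by linarith)]
    ring
  obtain ⟨hYa, hYb⟩ := modE_qa (hueq ▸ hYlow)
  -- second round
  have r1 : 0 ≤ 2 * v * Y := by positivity
  have r2 : 0 ≤ 2 * u * Z := by positivity
  have hF2 : 5600 ≤ 19954 * Y + 20034 * Z - 25000 * Y ^ 2 - 50000 * Z ^ 2 -
      dp * (400000 + 2 * Z) - dq * (400000 + 2 * Y) := by
    rw [hueq, hveq] at hF
    rw [hveq] at r1
    rw [hueq] at r2
    linarith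
  have hYq : 19954 * Y - 25000 * Y ^ 2 ≤ 3982 := by
    have : 25000 * (Y - 0.39908) ^ 2 ≥ 0 := by positivity
    linarith
  have hZq : 20034 * Z - 50000 * Z ^ 2 ≤ 2007 := by
    have : 50000 * (Z - 0.20034) ^ 2 ≥ 0 := by positivity
    linarith
  have hZlow2 : 1618 ≤ 20034 * Z - 50000 * Z ^ 2 := by linarith
  obtain ⟨hZa, hZb⟩ := modE_qb hZlow2
  have hdpb : dp ≤ 1 := by
    have h1 : dp * (400000 + 2 * Z) ≤ 389 := by linarith
    by_contra hcon
    push Not at hcon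
    have h2 : 1 * 400000 ≤ dp * (400000 + 2 * Z) :=
      mul_le_mul hcon.le (by linarith) (by norm_num) hdp0
    linarith
  have hdqb : dq ≤ 1 := by
    have h1 : dq * (400000 + 2 * Y) ≤ 389 := by linarith
    by_contra hcon
    push Not at hcon
    have h2 : 1 * 400000 ≤ dq * (400000 + 2 * Y) :=
      mul_le_mul hcon.le (by linarith) (by norm_num) hdq0
    linarith
  have hub : u ≤ 1 := by
    rw [hueq]
    have : Y ^ 2 ≤ 1 := pow_le_one₀ hYpos.le (by linarith)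
    linarith
  have hvb : v ≤ 1 := by
    rw [hveq]
    have : Z ^ 2 ≤ 1 := pow_le_one₀ hZpos.le (by linarith)
    linarith
  refine ⟨hYa, hYb, by linarith, by linarith, by linarith, by linarith⟩

/-- every pair `p, q` with `F(p,q)` almost maximal is (up to sign) localised -/
theorem Fz_loc (p q : ℝ × ℝ) (hp : p ∈ K0) (hq : q ∈ K0) (h : 80 * 9997 * 10000 + 5600 ≤ Fz p q) :
    ∃ ε : ℝ, (ε = 1 ∨ ε = -1) ∧ 0.2 ≤ ε * p.2 ∧ ε * p.2 ≤ 0.6 ∧ -0.3 ≤ ε * q.2 ∧ ε * q.2 ≤ -0.1 ∧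
      9990 ≤ ε * p.1 ∧ 9990 ≤ ε * q.1 := by
  have hp' := K0_symm p hp
  have hq' := K0_symm q hq
  have h' : 80 * 9997 * 10000 + 5600 ≤ Fz (-p) (-q) := by rw [modE_Fz_neg]; exact h
  have e1 : (-p).1 + (-q).1 = -(p.1 + q.1) := by simp; ring
  have e2 : (-p).2 + (-q).2 = -(p.2 + q.2) := by simp; ring
  rcases lt_or_ge |p.1 + q.1| |p.2 + q.2| with hB | hA
  · exfalso
    rcases le_or_gt 0 (p.2 + q.2) with hs | hs
    · rw [abs_of_nonneg hs] at hB
      exact absurd h (not_le.2 (modE_caseB p q hp hq hB))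
    · rw [abs_of_neg hs] at hB
      refine absurd h' (not_le.2 (modE_caseB (-p) (-q) hp' hq' ?_))
      rw [e1, e2, abs_neg]
      exact hB
  · rcases le_or_gt 0 (p.1 + q.1) with hs | hs
    · rw [abs_of_nonneg hs] at hA
      obtain ⟨a, b, c, d, e, g⟩ := modE_caseA p q hp hq hA h
      exact ⟨1, Or.inl rfl, by rw [one_mul]; exact a, by rw [one_mul]; exact b,
        by rw [one_mul]; exact c, by rw [one_mul]; exact d, by rw [one_mul]; exact e,
        by rw [one_mul]; exact g⟩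
    · rw [abs_of_neg hs] at hA
      obtain ⟨a, b, c, d, e, g⟩ := modE_caseA (-p) (-q) hp' hq' (by
        rw [e1, e2, abs_neg]; exact hA) h'
      simp only [Prod.fst_neg, Prod.snd_neg] at a b c d e g
      exact ⟨-1, Or.inr rfl, by linarith, by linarith, by linarith, by linarith, by linarith,
        by linarith⟩

end ZZ
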