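import Pool.Agent.Helper32.ZZ.A
import Pool.Agent.Helper32.ZZ.B
import Pool.Agent.Helper32.ZZ.E
import Pool.Agent.Helper32.ZZ.Asm2

open MeasureTheory Set Pointwise
open scoped ENNReal

namespace ZZ

theorem cross_smul_left (a : ℝ) (p q : ℝ × ℝ) : cross (a • p) q = a * cross p q := by
  simp [cross]; ring

theorem NN_smul (s : ℝ) (hs : 0 ≤ s) (v : ℝ × ℝ) : NN (s • v) = s * NN v := by
  obtain ⟨k1, hk1, h1⟩ := NN_attained (s • v)
  obtain ⟨k2, hk2, h2⟩ := NN_attained v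
  apply le_antisymm
  · rw [← h1, cross_smul_left]
    exact mul_le_mul_of_nonneg_left ((le_abs_self _).trans (NN_ge v k1 hk1)) hs
  · rw [← h2, ← cross_smul_left]
    exact (le_abs_self _).trans (NN_ge (s • v) k2 hk2)

theorem NN_nonneg (v : ℝ × ℝ) : 0 ≤ NN v :=
  (abs_nonneg _).trans (NN_ge v _ K0_top)

/-- `Used` in the original coordinates -/
def UsedO (x0 v : ℝ × ℝ) (r : ℕ → ℝ) (N : ℕ) (D : Set (ℝ × ℝ)) (k : ℕ) : Prop :=
  ∃ p ∈ D, (∃ i ≤ k, p - (x0 + r i • v) ∈ K0) ∧ (∃ j, k < j ∧ j ≤ N ∧ p - (x0 + r j • v) ∈ K0)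

theorem mem_tr_image (M : (ℝ × ℝ) ≃ₗ[ℝ] (ℝ × ℝ)) (x0 v p : ℝ × ℝ) (hMv : M v = (1, 0)) (a : ℝ) :
    M (p - x0) ∈ tr a (M '' K0) ↔ p - (x0 + a • v) ∈ K0 := by
  have : ((M (p - x0)).1 - a, (M (p - x0)).2) = M (p - (x0 + a • v)) := by
    have h1 : p - (x0 + a • v) = (p - x0) - a • v := by abel
    rw [h1, map_sub M (p - x0) (a • v), map_smul, hMv]
    ext <;> simp
  have h2 : M (p - x0) ∈ tr a (M '' K0) ↔ ((M (p - x0)).1 - a, (M (p - x0)).2) ∈ M '' K0 := Iff.rfl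
  rw [h2, this, M.injective.mem_set_image]

theorem used_iff (M : (ℝ × ℝ) ≃ₗ[ℝ] (ℝ × ℝ)) (x0 v : ℝ × ℝ) (hMv : M v = (1, 0)) (r : ℕ → ℝ) (N : ℕ)
    (D : Set (ℝ × ℝ)) (k : ℕ) :
    Used (M '' K0) r N ((fun p => M (p - x0)) '' D) k ↔ UsedO x0 v r N D k := by
  unfold Used UsedO
  simp only [exists_mem_image, mem_tr_image M x0 v _ hMv]

theorem image_sub_eq (M : (ℝ × ℝ) ≃ₗ[ℝ] (ℝ × ℝ)) (x0 : ℝ × ℝ) (D : Set (ℝ × ℝ)) :
    (fun p => M (p - x0)) '' D = M '' ((-x0) +ᵥ D) := by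
  ext p
  constructor
  · rintro ⟨d, hd, rfl⟩
    exact ⟨-x0 + d, ⟨d, hd, rfl⟩, by simp [sub_eq_add_neg, add_comm]⟩
  · rintro ⟨_, ⟨d, hd, rfl⟩, rfl⟩
    exact ⟨d, hd, by simp [sub_eq_add_neg, add_comm]⟩

theorem vol_image_sub (M : (ℝ × ℝ) ≃ₗ[ℝ] (ℝ × ℝ)) (hM : ∀ s : Set (ℝ × ℝ), volume (M '' s) = volume s)
    (x0 : ℝ × ℝ) (D K : Set (ℝ × ℝ)) (θ : ℝ) :
    volume ((fun p => M (p - x0)) '' D + θ • (M '' K)) = volume (D + θ • K) := by
  rw [image_sub_eq, ← image_add_smul, hM, vol_vadd_add]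

theorem step1 (M : (ℝ × ℝ) ≃ₗ[ℝ] (ℝ × ℝ)) (v : ℝ × ℝ) (hMv : M v = (1, 0))
    (hMvol : ∀ s : Set (ℝ × ℝ), volume (M '' s) = volume s)
    (hMc : ∀ p q, cross (M p) (M q) = cross p q)
    (x0 : ℝ × ℝ) (r : ℕ → ℝ) (N : ℕ) (hr : ∀ k < N, r k ≤ r (k + 1))
    (D : Set (ℝ × ℝ)) (hD : IsCompact D) (hDc : Convex ℝ D)
    (hcov : ∀ p ∈ D, ∃ i ≤ N, p - (x0 + r i • v) ∈ K0) :
    ∃ P Q : ℕ → ℝ × ℝ, (∀ k < N, UsedO x0 v r N D k → P k ∈ K0 ∧ Q k ∈ K0 ∧
        P k + Q k = (r (k + 1) - r k) • v ∧ 0 ≤ (M (P k)).2 ∧ 0 ≤ Fz (P k) (Q k)) ∧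
      volume (D + (20 : ℝ) • K0) ≤ ENNReal.ofReal (∑ k ∈ Finset.range N,
        open Classical in if UsedO x0 v r N D k then Fz (P k) (Q k) else 0) +
        ENNReal.ofReal (21 ^ 2) * volume K0 := by
  classical
  have hKc : IsCompact (M '' K0) := K0_compact.image (M_continuous M)
  have hKconv : Convex ℝ (M '' K0) := K0_convex.linear_image (M : (ℝ × ℝ) →ₗ[ℝ] (ℝ × ℝ))
  have hKs : ∀ p ∈ M '' K0, -p ∈ M '' K0 := by
    rintro _ ⟨p, hp, rfl⟩
    exact ⟨-p, K0_symm p hp, by simp⟩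
  have hKne : (M '' K0).Nonempty := ⟨_, ⟨_, K0_top, rfl⟩⟩
  have hDi : (fun p => M (p - x0)) '' D = M '' ((-x0) +ᵥ D) := image_sub_eq M x0 D
  have hD' : IsCompact ((fun p => M (p - x0)) '' D) := by
    rw [hDi]; exact (hD.vadd (-x0)).image (M_continuous M)
  have hDc' : Convex ℝ ((fun p => M (p - x0)) '' D) := by
    rw [hDi]; exact (hDc.vadd (-x0)).linear_image (M : (ℝ × ℝ) →ₗ[ℝ] (ℝ × ℝ))
  have hcov' : ∀ p ∈ (fun p => M (p - x0)) '' D, ∃ i ≤ N, p ∈ tr (r i) (M '' K0) := by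
    rintro _ ⟨p, hp, rfl⟩
    obtain ⟨i, hi, hpi⟩ := hcov p hp
    exact ⟨i, hi, (mem_tr_image M x0 v p hMv (r i)).2 hpi⟩
  have hlevel : ∀ κ, (M κ).2 = cross v κ := by
    intro κ
    rw [← hMc v κ, hMv]
    simp [cross]
  have hw : ∀ p ∈ M '' K0, |p.2| ≤ NN v := by
    rintro _ ⟨κ, hκ, rfl⟩
    rw [hlevel]
    exact NN_ge v κ hκ
  obtain ⟨L, hL, hV⟩ := HS (M '' K0) ((fun p => M (p - x0)) '' D) hKc hKconv hKs hKne hD' hDc' N r hr
    hcov' 20 (NN v) (by norm_num) hw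
  have hex : ∀ k, ∃ P Q : ℝ × ℝ, k < N → UsedO x0 v r N D k → P ∈ K0 ∧ Q ∈ K0 ∧
        P + Q = (r (k + 1) - r k) • v ∧ 0 ≤ (M P).2 ∧ 0 ≤ L k ∧
        Fz P Q = (r (k + 1) - r k) * (2 * 20 * NN v + 2 * L k) := by
    intro k
    by_cases hk : k < N
    · by_cases hu : UsedO x0 v r N D k
      · obtain ⟨hL0, p, hp, hps, hpl⟩ := hL k hk ((used_iff M x0 v hMv r N D k).2 hu)
        obtain ⟨P, hP, rfl⟩ := hp
        obtain ⟨P', hP', hP'e⟩ := hps
        have hs0 : 0 ≤ r (k + 1) - r k := by have := hr k hk; linarith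
        have hsum : P + -P' = (r (k + 1) - r k) • v := by
          apply M.injective
          rw [map_add, map_neg, hP'e, map_smul, hMv]
          ext <;> simp
        have hQ : -P' = (r (k + 1) - r k) • v - P := by rw [← hsum]; abel
        refine ⟨P, -P', fun _ _ => ⟨hP, K0_symm _ hP', hsum, by rw [hpl]; exact hL0, hL0, ?_⟩⟩
        unfold Fz
        rw [hsum, NN_smul _ hs0, ← hMc (-P') P, hQ, map_sub, map_smul, hMv]
        have : cross ((r (k + 1) - r k) • ((1 : ℝ), (0 : ℝ)) - M P) (M P) = (r (k + 1) - r k) * L k := by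
          rw [← hpl]
          simp [cross]
          ring
        rw [this]
        ring
      · exact ⟨0, 0, fun _ h => absurd h hu⟩
    · exact ⟨0, 0, fun h => absurd h hk⟩
  choose P Q hPQ using hex
  refine ⟨P, Q, fun k hk hu => ?_, ?_⟩
  · obtain ⟨a, b, c, d, e, hFz⟩ := hPQ k hk hu
    refine ⟨a, b, c, d, ?_⟩
    rw [hFz]
    have h1 := hr k hk
    have h2 := NN_nonneg v
    apply mul_nonneg <;> nlinarith
  · rw [vol_image_sub M hMvol x0 D K0 20, hMvol K0] at hV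
    refine hV.trans (le_of_eq ?_)
    have hsumeq : (∑ k ∈ Finset.range N,
        if Used (M '' K0) r N ((fun p => M (p - x0)) '' D) k then
          (r (k + 1) - r k) * (2 * 20 * NN v + 2 * L k) else 0) =
        ∑ k ∈ Finset.range N, if UsedO x0 v r N D k then Fz (P k) (Q k) else 0 := by
      apply Finset.sum_congr rfl
      intro k hk
      have hk' := Finset.mem_range.1 hk
      by_cases hu : UsedO x0 v r N D k
      · have hu' := (used_iff M x0 v hMv r N D k).2 hu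
        rw [if_pos hu, if_pos hu', (hPQ k hk' hu).2.2.2.2.2]
      · have hu' : ¬ Used (M '' K0) r N ((fun p => M (p - x0)) '' D) k :=
          fun h => hu ((used_iff M x0 v hMv r N D k).1 h)
        rw [if_neg hu, if_neg hu']
    rw [hsumeq]
    norm_num

theorem NN_neg (v : ℝ × ℝ) : NN (-v) = NN v := by
  have h1 : ∀ v : ℝ × ℝ, NN (-v) ≤ NN v := by
    intro v
    obtain ⟨k, hk, h⟩ := NN_attained (-v)
    have h2 := (abs_le.1 (NN_ge v k hk)).1
    have h3 : cross (-v) k = - cross v k := by simp [cross]; ring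
    rw [← h, h3]; linarith
  apply le_antisymm (h1 v)
  have := h1 (-v)
  rwa [neg_neg] at this

theorem Fz_neg (p q : ℝ × ℝ) : Fz (-p) (-q) = Fz p q := by
  unfold Fz
  have h1 : -p + -q = -(p + q) := by abel
  rw [h1, NN_neg]
  simp [cross]

theorem opt_lower (N : ℕ) (D : Set (ℝ × ℝ)) (hopt : IsOptimal K0 20 (N + 1) D) (p q : ℝ × ℝ)
    (hp : p ∈ K0) (hq : q ∈ K0) (h : 80 * 9997 * 10000 + 5600 ≤ Fz p q) :
    ENNReal.ofReal ((N + 1) * Fz p q) + ENNReal.ofReal 400 * volume K0 ≤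
      volume (D + (20 : ℝ) • K0) := by
  -- positive representative
  have key : ∀ p q : ℝ × ℝ, p ∈ K0 → q ∈ K0 → 0.2 ≤ p.2 → q.2 ≤ -0.1 → 9990 ≤ p.1 → 9990 ≤ q.1 →
      ENNReal.ofReal ((N + 1) * Fz p q) + ENNReal.ofReal 400 * volume K0 ≤
      volume (D + (20 : ℝ) • K0) := by
    intro p q hp hq h1 h2 h3 h4
    obtain ⟨κ, hκ, hκe⟩ := NN_attained (p + q)
    have hcr : 0 ≤ cross q p := by
      unfold cross
      nlinarith
    obtain ⟨D', hD', hV⟩ := base K0 K0_compact K0_convex K0_symm 20 (by norm_num) (N + 1) (by omega)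
      p q κ hp hq hκ (by linarith) hcr
    have h5 : |cross (p + q) κ| = NN (p + q) := by
      rw [hκe]; exact abs_of_nonneg (NN_nonneg _)
    rw [h5] at hV
    have h6 : ((N + 1 : ℕ) : ℝ) * (2 * cross q p + 2 * 20 * NN (p + q)) = (N + 1) * Fz p q := by
      unfold Fz; push_cast; ring
    rw [h6] at hV
    have h7 : ((20 : ℝ) ^ 2) = 400 := by norm_num
    rw [h7] at hV
    exact hV.trans (hopt.2 D' hD')
  obtain ⟨ε, hε, a1, a2, a3, a4, a5, a6⟩ := Fz_loc p q hp hq h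
  rcases hε with rfl | rfl
  · exact key p q hp hq (by linarith) (by linarith) (by linarith) (by linarith)
  · have := key (-p) (-q) (K0_symm p hp) (K0_symm q hq) (by simp only [Prod.snd_neg]; linarith)
      (by simp only [Prod.snd_neg]; linarith) (by simp only [Prod.fst_neg]; linarith)
      (by simp only [Prod.fst_neg]; linarith)
    rwa [Fz_neg] at this

theorem isCompact_sum (D : Set (ℝ × ℝ)) (hD : IsCompact D) : IsCompact (D + (20 : ℝ) • K0) :=
  hD.add (K0_compact.smul 20)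

theorem step2 (N : ℕ) (D : Set (ℝ × ℝ)) (hopt : IsOptimal K0 20 (N + 1) D) :
    ∃ Fs : ℝ, (∀ p ∈ K0, ∀ q ∈ K0, Fz p q ≤ Fs) ∧ 80 * 9997 * 10000 + 5900 ≤ Fs ∧
      ENNReal.ofReal ((N + 1) * Fs) + ENNReal.ofReal 400 * volume K0 ≤
        volume (D + (20 : ℝ) • K0) := by
  have hfinE : volume (D + (20 : ℝ) • K0) ≠ ⊤ := (isCompact_sum D hopt.1.1).measure_lt_top.ne
  have hfinK : volume K0 ≠ ⊤ := K0_compact.measure_lt_top.ne
  set vE := (volume (D + (20 : ℝ) • K0)).toReal with hvE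
  set V := (volume K0).toReal with hV
  have hV0 : 0 ≤ V := ENNReal.toReal_nonneg
  have hN0 : (0:ℝ) ≤ N := Nat.cast_nonneg N
  have key : ∀ p q : ℝ × ℝ, p ∈ K0 → q ∈ K0 → 80 * 9997 * 10000 + 5600 ≤ Fz p q →
      (N + 1) * Fz p q + 400 * V ≤ vE := by
    intro p q hp hq h
    have h1 := opt_lower N D hopt p q hp hq h
    have h2 := ENNReal.toReal_mono hfinE h1
    rw [ENNReal.toReal_add ENNReal.ofReal_ne_top (ENNReal.mul_ne_top ENNReal.ofReal_ne_top hfinK),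
      ENNReal.toReal_mul, ENNReal.toReal_ofReal (by positivity), ENNReal.toReal_ofReal (by positivity)]
      at h2
    exact h2
  obtain ⟨p0, hp0, q0, hq0, h0⟩ := Fz_base
  let S : Set ℝ := {x | ∃ p ∈ K0, ∃ q ∈ K0, x = Fz p q}
  have hSne : S.Nonempty := ⟨_, p0, hp0, q0, hq0, rfl⟩
  have hkey0 := key p0 q0 hp0 hq0 (by linarith)
  have hbd : ∀ x ∈ S, x ≤ (vE - 400 * V) / (N + 1) := by
    rintro x ⟨p, hp, q, hq, rfl⟩
    rw [le_div_iff₀ (by positivity)]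
    by_cases h : 80 * 9997 * 10000 + 5600 ≤ Fz p q
    · have := key p q hp hq h
      linarith
    · push Not at h
      have : Fz p q * (N + 1) ≤ Fz p0 q0 * (N + 1) :=
        mul_le_mul_of_nonneg_right (by linarith) (by linarith)
      linarith
  refine ⟨sSup S, fun p hp q hq => le_csSup ⟨_, fun x hx => hbd x hx⟩ ⟨p, hp, q, hq, rfl⟩,
    le_csSup_of_le ⟨_, fun x hx => hbd x hx⟩ ⟨p0, hp0, q0, hq0, rfl⟩ h0, ?_⟩
  have h3 : sSup S ≤ (vE - 400 * V) / (N + 1) := csSup_le hSne hbd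
  rw [le_div_iff₀ (by positivity)] at h3
  have hS0 : 0 ≤ sSup S := le_trans (by norm_num)
    (le_csSup_of_le ⟨_, fun x hx => hbd x hx⟩ ⟨p0, hp0, q0, hq0, rfl⟩ h0)
  have h4 : volume K0 = ENNReal.ofReal V := by rw [hV, ENNReal.ofReal_toReal hfinK]
  have h5 : volume (D + (20 : ℝ) • K0) = ENNReal.ofReal vE := by rw [hvE, ENNReal.ofReal_toReal hfinE]
  rw [h4, h5, ← ENNReal.ofReal_mul (by norm_num), ← ENNReal.ofReal_add (by positivity) (by positivity)]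
  apply ENNReal.ofReal_le_ofReal
  linarith

theorem step3 (N : ℕ) (D : Set (ℝ × ℝ)) (hD : IsCompact D)
    (U : ℕ → Prop) (P Q : ℕ → ℝ × ℝ)
    (hPQ : ∀ k < N, U k → P k ∈ K0 ∧ Q k ∈ K0 ∧ 0 ≤ Fz (P k) (Q k))
    (hV : volume (D + (20 : ℝ) • K0) ≤ ENNReal.ofReal (∑ k ∈ Finset.range N,
        open Classical in if U k then Fz (P k) (Q k) else 0) +
        ENNReal.ofReal (21 ^ 2) * volume K0)
    (Fs : ℝ) (hFs : ∀ p ∈ K0, ∀ q ∈ K0, Fz p q ≤ Fs) (hFs0 : 80 * 9997 * 10000 + 5900 ≤ Fs)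
    (hlow : ENNReal.ofReal ((N + 1) * Fs) + ENNReal.ofReal 400 * volume K0 ≤
        volume (D + (20 : ℝ) • K0)) :
    (∀ k < N, U k) ∧ ∑ k ∈ Finset.range N, (Fs - Fz (P k) (Q k)) ≤ 2.03 * 10 ^ 8 := by
  classical
  have hfinK : volume K0 ≠ ⊤ := K0_compact.measure_lt_top.ne
  set V := (volume K0).toReal with hVd
  have hV0 : 0 ≤ V := ENNReal.toReal_nonneg
  have hN0 : (0:ℝ) ≤ N := Nat.cast_nonneg N
  have h4 : volume K0 = ENNReal.ofReal V := by rw [hVd, ENNReal.ofReal_toReal hfinK]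
  have hV2 : V ≤ 2 * 10 ^ 8 := by
    have := K0_vol
    rw [h4] at this
    rwa [ENNReal.ofReal_le_ofReal_iff (by norm_num)] at this
  have hsum0 : 0 ≤ ∑ k ∈ Finset.range N, if U k then Fz (P k) (Q k) else 0 := by
    apply Finset.sum_nonneg
    intro k hk
    split_ifs with hu
    · exact (hPQ k (Finset.mem_range.1 hk) hu).2.2
    · exact le_rfl
  have hmain : (N + 1) * Fs + 400 * V ≤
      (∑ k ∈ Finset.range N, if U k then Fz (P k) (Q k) else 0) + 441 * V := by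
    have h5 := hlow.trans hV
    rw [h4, ← ENNReal.ofReal_mul (by norm_num), ← ENNReal.ofReal_add (by positivity) (by positivity),
      ← ENNReal.ofReal_mul (by norm_num), ← ENNReal.ofReal_add hsum0 (by positivity),
      ENNReal.ofReal_le_ofReal_iff (by positivity)] at h5
    linarith
  have hle : ∀ k ∈ Finset.range N, (if U k then Fz (P k) (Q k) else 0) ≤ Fs := by
    intro k hk
    split_ifs with hu
    · obtain ⟨a, b, _⟩ := hPQ k (Finset.mem_range.1 hk) hu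
      exact hFs _ a _ b
    · linarith
  have hall : ∀ k < N, U k := by
    intro k0 hk0
    by_contra hu
    have h6 : (∑ k ∈ Finset.range N, if U k then Fz (P k) (Q k) else 0) ≤
        ∑ k ∈ Finset.range N, (Fs - if k = k0 then Fs else 0) := by
      apply Finset.sum_le_sum
      intro k hk
      by_cases hkk : k = k0
      · subst hkk; simp [hu]
      · simp only [hkk, if_false, sub_zero]; exact hle k hk
    rw [Finset.sum_sub_distrib, Finset.sum_const, Finset.sum_ite_eq' (Finset.range N) k0,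
      if_pos (Finset.mem_range.2 hk0), Finset.card_range, nsmul_eq_mul] at h6
    linarith
  refine ⟨hall, ?_⟩
  have h7 : (∑ k ∈ Finset.range N, if U k then Fz (P k) (Q k) else 0) =
      ∑ k ∈ Finset.range N, Fz (P k) (Q k) := by
    apply Finset.sum_congr rfl
    intro k hk
    rw [if_pos (hall k (Finset.mem_range.1 hk))]
  rw [h7] at hmain
  rw [Finset.sum_sub_distrib, Finset.sum_const, Finset.card_range, nsmul_eq_mul]
  linarith

end ZZ
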