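import Pool.Agent.Helper32.ZZ.Defs

/-! Module F : frames -/

open MeasureTheory Set Pointwise
open scoped ENNReal

namespace ZZ

/-- the derivative of `f` -/
noncomputable def modF_fd (y : ℝ) : ℝ :=
  if 8 ≤ y then 1 else if 0 ≤ y then y / 8 else if -4 ≤ y then y / 4 else -1

theorem modF_cases (y : ℝ) : (8 ≤ y ∧ f y = y - 4 ∧ modF_fd y = 1) ∨
    (0 ≤ y ∧ y ≤ 8 ∧ f y = y ^ 2 / 16 ∧ modF_fd y = y / 8) ∨
    (-4 ≤ y ∧ y ≤ 0 ∧ f y = y ^ 2 / 8 ∧ modF_fd y = y / 4) ∨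
    (y ≤ -4 ∧ f y = -y - 2 ∧ modF_fd y = -1) := by
  unfold f modF_fd
  by_cases h1 : 8 ≤ y
  · left; simp [h1]
  · by_cases h2 : 0 ≤ y
    · right; left; simp [h1, h2]; linarith
    · by_cases h3 : -4 ≤ y
      · right; right; left; simp [h1, h2, h3]; linarith
      · right; right; right; simp [h1, h2, h3]; linarith

theorem modF_tangent (y z : ℝ) : f y + modF_fd y * (z - y) ≤ f z := by
  rcases modF_cases y with ⟨h1, h2, h3⟩ | ⟨h1, h1', h2, h3⟩ | ⟨h1, h1', h2, h3⟩ | ⟨h1, h2, h3⟩ <;>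
  rcases modF_cases z with ⟨g1, g2, g3⟩ | ⟨g1, g1', g2, g3⟩ | ⟨g1, g1', g2, g3⟩ | ⟨g1, g2, g3⟩ <;>
  rw [h2, h3, g2] <;> nlinarith [sq_nonneg (z - y), sq_nonneg (z - 8), sq_nonneg (z + 4), sq_nonneg z]

theorem modF_smooth (y z : ℝ) : f z ≤ f y + modF_fd y * (z - y) + (z - y) ^ 2 / 8 := by
  rcases modF_cases y with ⟨h1, h2, h3⟩ | ⟨h1, h1', h2, h3⟩ | ⟨h1, h1', h2, h3⟩ | ⟨h1, h2, h3⟩ <;>
  rcases modF_cases z with ⟨g1, g2, g3⟩ | ⟨g1, g1', g2, g3⟩ | ⟨g1, g1', g2, g3⟩ | ⟨g1, g2, g3⟩ <;>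
  rw [h2, h3, g2] <;> nlinarith [sq_nonneg (z - y), sq_nonneg (z - 8), sq_nonneg (z + 4), sq_nonneg z,
    sq_nonneg (y - 8), sq_nonneg (y + 4), sq_nonneg y]

theorem modF_fd_abs (y : ℝ) : |modF_fd y| ≤ 1 := by
  rw [abs_le]
  rcases modF_cases y with ⟨h1, h2, h3⟩ | ⟨h1, h1', h2, h3⟩ | ⟨h1, h1', h2, h3⟩ | ⟨h1, h2, h3⟩ <;>
  rw [h3] <;> constructor <;> linarith

theorem modF_lip (y z : ℝ) : |f y - f z| ≤ |y - z| := by
  have h1 := modF_tangent y z
  have h2 := modF_tangent z y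
  have h3 : modF_fd y * (y - z) ≤ |y - z| := by
    calc modF_fd y * (y - z) ≤ |modF_fd y * (y - z)| := le_abs_self _
      _ = |modF_fd y| * |y - z| := abs_mul _ _
      _ ≤ 1 * |y - z| := by gcongr; exact modF_fd_abs y
      _ = _ := one_mul _
  have h4 : modF_fd z * (z - y) ≤ |y - z| := by
    calc modF_fd z * (z - y) ≤ |modF_fd z * (z - y)| := le_abs_self _
      _ = |modF_fd z| * |z - y| := abs_mul _ _
      _ ≤ 1 * |z - y| := by gcongr; exact modF_fd_abs z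
      _ = _ := by rw [one_mul, abs_sub_comm]
  rw [abs_le]
  constructor <;> nlinarith

theorem modF_convex : ConvexOn ℝ univ f := by
  refine ⟨convex_univ, fun x _ y _ a b ha hb hab => ?_⟩
  simp only [smul_eq_mul]
  have h1 := modF_tangent (a * x + b * y) x
  have h2 := modF_tangent (a * x + b * y) y
  have h3 : a * (x - (a * x + b * y)) + b * (y - (a * x + b * y)) = 0 := by
    have hb' : b = 1 - a := by linarith
    subst hb'; ring
  have h4 : a * (f (a * x + b * y) + modF_fd (a * x + b * y) * (x - (a * x + b * y))) +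
      b * (f (a * x + b * y) + modF_fd (a * x + b * y) * (y - (a * x + b * y))) =
      (a + b) * f (a * x + b * y) + modF_fd (a * x + b * y) *
        (a * (x - (a * x + b * y)) + b * (y - (a * x + b * y))) := by ring
  rw [h3, hab] at h4
  have h5 := mul_le_mul_of_nonneg_left h1 ha
  have h6 := mul_le_mul_of_nonneg_left h2 hb
  linarith

theorem modF_cont : Continuous f := by
  have : LipschitzWith 1 f := LipschitzWith.of_dist_le_mul fun x y => by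
    rw [Real.dist_eq, Real.dist_eq, NNReal.coe_one, one_mul]
    exact modF_lip x y
  exact this.continuous

/-- growth of `x ↦ x + f (t + ω x)` -/
theorem modF_grow (ω : ℝ) (hω : |ω| ≤ 1 / 2) (t : ℝ) {x x' : ℝ} (h : x ≤ x') :
    (x' - x) / 2 ≤ (x' + f (t + ω * x')) - (x + f (t + ω * x)) := by
  have h1 := modF_lip (t + ω * x') (t + ω * x)
  have h2 : |t + ω * x' - (t + ω * x)| ≤ (x' - x) / 2 := by
    have : t + ω * x' - (t + ω * x) = ω * (x' - x) := by ring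
    rw [this, abs_mul, abs_of_nonneg (show 0 ≤ x' - x by linarith)]
    nlinarith
  have h3 := (abs_le.1 (h1.trans h2)).1
  linarith

theorem modF_root (ω : ℝ) (hω : |ω| ≤ 1 / 2) (t : ℝ) : ∃ x, x + f (t + ω * x) = 9997 := by
  have hcont : Continuous (fun x : ℝ => x + f (t + ω * x)) := by
    have := modF_cont
    fun_prop
  have htop : Filter.Tendsto (fun x : ℝ => x + f (t + ω * x)) Filter.atTop Filter.atTop := by
    have h1 : Filter.Tendsto (fun x : ℝ => f (t + ω * 0) + x / 2) Filter.atTop Filter.atTop :=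
      Filter.tendsto_atTop_add_const_left _ _ (Filter.tendsto_id.atTop_div_const (by norm_num))
    apply Filter.tendsto_atTop_mono' _ _ h1
    filter_upwards [Filter.eventually_ge_atTop (0 : ℝ)] with x hx
    have := modF_grow ω hω t hx
    linarith
  have hbot : Filter.Tendsto (fun x : ℝ => x + f (t + ω * x)) Filter.atBot Filter.atBot := by
    have h1 : Filter.Tendsto (fun x : ℝ => f (t + ω * 0) + x / 2) Filter.atBot Filter.atBot :=
      Filter.tendsto_atBot_add_const_left _ _ (Filter.tendsto_id.atBot_div_const (by norm_num))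
    apply Filter.tendsto_atBot_mono' _ _ h1
    filter_upwards [Filter.eventually_le_atBot (0 : ℝ)] with x hx
    have := modF_grow ω hω t hx
    linarith
  exact hcont.surjective htop hbot 9997

theorem modF_set (ω : ℝ) (hω : |ω| ≤ 1 / 2) (t x₀ : ℝ) (h0 : x₀ + f (t + ω * x₀) = 9997) (x : ℝ) :
    x + f (t + ω * x) ≤ 9997 ↔ x ≤ x₀ := by
  constructor
  · intro h
    by_contra hc
    push Not at hc
    have := modF_grow ω hω t hc.le
    linarith
  · intro h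
    have := modF_grow ω hω t h
    linarith

theorem modF_Rw_of_root (ω : ℝ) (hω : |ω| ≤ 1 / 2) (t x₀ : ℝ) (h0 : x₀ + f (t + ω * x₀) = 9997) :
    Rw ω t = x₀ := by
  unfold Rw
  have : {x | x + f (t + ω * x) ≤ 9997} = Iic x₀ := by
    ext x
    exact modF_set ω hω t x₀ h0 x
  rw [this, csSup_Iic]

theorem modF_Rw_eq (ω : ℝ) (hω : |ω| ≤ 1 / 2) (t : ℝ) : Rw ω t + f (t + ω * Rw ω t) = 9997 := by
  obtain ⟨x₀, h0⟩ := modF_root ω hω t
  rw [modF_Rw_of_root ω hω t x₀ h0]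
  exact h0

theorem Rw_spec (ω : ℝ) (hω : |ω| ≤ 1 / 2) (t x : ℝ) : x + f (t + ω * x) ≤ 9997 ↔ x ≤ Rw ω t :=
  modF_set ω hω t _ (modF_Rw_eq ω hω t) x

theorem Rw_concave (ω : ℝ) (hω : |ω| ≤ 1 / 2) : ConcaveOn ℝ univ (Rw ω) := by
  refine ⟨convex_univ, fun s _ t _ a b ha hb hab => ?_⟩
  simp only [smul_eq_mul]
  rw [← Rw_spec ω hω]
  have h1 := modF_Rw_eq ω hω s
  have h2 := modF_Rw_eq ω hω t
  have h3 := modF_convex.2 (mem_univ (s + ω * Rw ω s)) (mem_univ (t + ω * Rw ω t)) ha hb hab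
  simp only [smul_eq_mul] at h3
  have h4 : a * s + b * t + ω * (a * Rw ω s + b * Rw ω t) =
      a * (s + ω * Rw ω s) + b * (t + ω * Rw ω t) := by ring
  rw [h4]
  have h5 : a * (Rw ω s + f (s + ω * Rw ω s)) + b * (Rw ω t + f (t + ω * Rw ω t)) = 9997 := by
    rw [h1, h2, ← add_mul, hab, one_mul]
  linarith

theorem Rw_lip (ω : ℝ) (hω : |ω| ≤ 3 / 100000) (s t : ℝ) : |Rw ω s - Rw ω t| ≤ 1.0001 * |s - t| := by
  have hω' : |ω| ≤ 1 / 2 := by linarith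
  have h1 := modF_Rw_eq ω hω' s
  have h2 := modF_Rw_eq ω hω' t
  have h3 : Rw ω s - Rw ω t = f (t + ω * Rw ω t) - f (s + ω * Rw ω s) := by linarith
  have h4 : |Rw ω s - Rw ω t| ≤ |s - t| + |ω| * |Rw ω s - Rw ω t| := by
    calc |Rw ω s - Rw ω t| = |f (t + ω * Rw ω t) - f (s + ω * Rw ω s)| := by rw [h3]
      _ ≤ |t + ω * Rw ω t - (s + ω * Rw ω s)| := modF_lip _ _
      _ = |-((s - t) + ω * (Rw ω s - Rw ω t))| := by congr 1; ring
      _ = |(s - t) + ω * (Rw ω s - Rw ω t)| := abs_neg _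
      _ ≤ |s - t| + |ω * (Rw ω s - Rw ω t)| := abs_add_le _ _
      _ = _ := by rw [abs_mul]
  have h5 : |ω| * |Rw ω s - Rw ω t| ≤ 3 / 100000 * |Rw ω s - Rw ω t| := by gcongr
  have h6 := abs_nonneg (s - t)
  have h7 : (1.0001 : ℝ) = 10001 / 10000 := by norm_num
  rw [h7]
  linarith

theorem Rw_top (ω : ℝ) (hω : |ω| ≤ 3 / 100000) :
    Rw ω (10000 - ω) = 1 ∧ Rw ω (-(10000 - ω)) = -1 := by
  have hω' : |ω| ≤ 1 / 2 := by linarith
  constructor
  · apply modF_Rw_of_root ω hω'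
    have : 10000 - ω + ω * 1 = 10000 := by ring
    rw [this]
    unfold f
    norm_num
  · apply modF_Rw_of_root ω hω'
    have : -(10000 - ω) + ω * -1 = -10000 := by ring
    rw [this]
    unfold f
    norm_num

theorem Mlin_vol (ω ν : ℝ) (s : Set (ℝ × ℝ)) : volume (Mlin ω ν '' s) = volume s := by
  have hdet : LinearMap.det ((Mlin ω ν : (ℝ × ℝ) ≃ₗ[ℝ] (ℝ × ℝ)) : (ℝ × ℝ) →ₗ[ℝ] (ℝ × ℝ)) = 1 := by
    rw [← LinearMap.det_toMatrix (Module.Basis.finTwoProd ℝ), Matrix.det_fin_two]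
    simp [LinearMap.toMatrix_apply, Mlin]
  have h := Measure.addHaar_image_linearMap (volume : Measure (ℝ × ℝ))
    ((Mlin ω ν : (ℝ × ℝ) ≃ₗ[ℝ] (ℝ × ℝ)) : (ℝ × ℝ) →ₗ[ℝ] (ℝ × ℝ)) s
  rw [hdet] at h
  simpa using h

theorem Mlin_K0 (ω ν : ℝ) (hω : |ω| ≤ 1 / 2) : Mlin ω ν '' K0 = KR (fun t => Rw ω t + ν * t) := by
  ext p
  rw [LinearEquiv.image_eq_preimage_symm]
  constructor
  · intro hp
    have h1 : p.1 - ν * p.2 + f (p.2 + ω * (p.1 - ν * p.2)) ≤ 9997 := hp.1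
    have h2 : -(p.1 - ν * p.2) + f (-(p.2 + ω * (p.1 - ν * p.2))) ≤ 9997 := hp.2
    have h3 := (Rw_spec ω hω p.2 (p.1 - ν * p.2)).1 h1
    have h4 : -(p.2 + ω * (p.1 - ν * p.2)) = -p.2 + ω * (-(p.1 - ν * p.2)) := by ring
    rw [h4] at h2
    have h5 := (Rw_spec ω hω (-p.2) (-(p.1 - ν * p.2))).1 h2
    exact ⟨by simp only; linarith, by simp only; linarith⟩
  · intro hp
    have h1 : p.1 ≤ Rw ω p.2 + ν * p.2 := hp.1
    have h2 : -p.1 ≤ Rw ω (-p.2) + ν * (-p.2) := hp.2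
    have h3 := (Rw_spec ω hω p.2 (p.1 - ν * p.2)).2 (by linarith)
    have h5 := (Rw_spec ω hω (-p.2) (-(p.1 - ν * p.2))).2 (by linarith)
    have h4 : -(p.2 + ω * (p.1 - ν * p.2)) = -p.2 + ω * (-(p.1 - ν * p.2)) := by ring
    rw [← h4] at h5
    exact ⟨h3, h5⟩

/-- expansion of `Rw` about a point -/
theorem modF_core (ω : ℝ) (hω : |ω| ≤ 3 / 100000) (t g : ℝ) (hg : |g| ≤ 1 / 10)
    (hlow : ∀ y, min ((y - (t + ω * Rw ω t)) ^ 2 / 16) (|y - (t + ω * Rw ω t)| / 3) ≤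
      f y - f (t + ω * Rw ω t) - g * (y - (t + ω * Rw ω t)))
    (hup : ∀ y, f y - f (t + ω * Rw ω t) - g * (y - (t + ω * Rw ω t)) ≤
      (y - (t + ω * Rw ω t)) ^ 2 / 8) (a : ℝ) :
    Rw ω (t + a) ≤ Rw ω t - g / (1 + ω * g) * a - psi a ∧
      Rw ω t - g / (1 + ω * g) * a - a ^ 2 / 6 ≤ Rw ω (t + a) := by
  have hω' : |ω| ≤ 1 / 2 := by linarith
  have h1 := modF_Rw_eq ω hω' t
  have h2 := modF_Rw_eq ω hω' (t + a)
  have hl := Rw_lip ω hω (t + a) t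
  obtain ⟨x, hx⟩ : ∃ x, x = Rw ω (t + a) := ⟨_, rfl⟩
  obtain ⟨x₀, hx0⟩ : ∃ x₀, x₀ = Rw ω t := ⟨_, rfl⟩
  rw [← hx, ← hx0] at hl
  rw [← hx] at h2
  rw [← hx0] at h1 hlow hup
  rw [← hx, ← hx0]
  have hlow' := hlow (t + a + ω * x)
  have hup' := hup (t + a + ω * x)
  obtain ⟨b, hb⟩ : ∃ b, b = t + a + ω * x - (t + ω * x₀) := ⟨_, rfl⟩
  rw [← hb] at hlow' hup'
  obtain ⟨rem, hrem⟩ : ∃ rem, rem = f (t + a + ω * x) - f (t + ω * x₀) - g * b := ⟨_, rfl⟩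
  rw [← hrem] at hlow' hup'
  have hta : |t + a - t| = |a| := by congr 1; ring
  rw [hta] at hl
  -- `1 + ω g`
  have hωg : |ω * g| ≤ 3 / 1000000 := by
    rw [abs_mul]
    calc |ω| * |g| ≤ 3 / 100000 * (1 / 10) := by gcongr
      _ = _ := by norm_num
  have hωg' := abs_le.1 hωg
  have hden : 0 < 1 + ω * g := by linarith [hωg'.1]
  have hkey : x - x₀ = -(g / (1 + ω * g) * a) - rem / (1 + ω * g) := by
    have h3 : (x - x₀) * (1 + ω * g) = -(g * a) - rem := by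
      have : b = a + ω * (x - x₀) := by rw [hb]; ring
      have h4 : x - x₀ = -(g * b) - rem := by rw [hrem]; linarith
      have h5 : x - x₀ = -(g * (a + ω * (x - x₀))) - rem := by rw [← this]; exact h4
      linear_combination h5
    rw [← mul_div_right_comm, ← neg_div, ← sub_div, eq_div_iff hden.ne']
    exact h3
  -- size of `b`
  have hba : |b - a| ≤ 1 / 10000 * |a| := by
    have : b - a = ω * (x - x₀) := by rw [hb]; ring
    rw [this, abs_mul]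
    have h0 := abs_nonneg a
    calc |ω| * |x - x₀| ≤ 3 / 100000 * (1.0001 * |a|) := by gcongr
      _ ≤ 1 / 10000 * |a| := by norm_num; linarith
  have hb1 : 9999 / 10000 * |a| ≤ |b| := by
    have : |a| ≤ |b| + |b - a| := by
      have := abs_sub_abs_le_abs_sub a b
      rw [abs_sub_comm a b] at this
      linarith
    linarith
  have hb2 : |b| ≤ 10001 / 10000 * |a| := by
    have := abs_sub_abs_le_abs_sub b a
    linarith
  have ha0 := abs_nonneg a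
  have hsqa : |a| ^ 2 = a ^ 2 := sq_abs a
  have hsqb : |b| ^ 2 = b ^ 2 := sq_abs b
  constructor
  · -- upper bound
    have h5 : psi a ≤ rem / (1 + ω * g) := by
      rw [le_div_iff₀ hden]
      have h6 : psi a ≤ a ^ 2 / 20 := min_le_left _ _
      have h7 : psi a ≤ |a| / 4 := min_le_right _ _
      have h8 : 0 ≤ psi a := le_min (by positivity) (by positivity)
      rcases min_le_iff.1 hlow' with h9 | h9
      · have : (9999 / 10000 * |a|) ^ 2 ≤ |b| ^ 2 := by gcongr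
        rw [mul_pow, hsqa, hsqb] at this
        nlinarith [sq_nonneg a]
      · nlinarith
    linarith
  · have h5 : rem / (1 + ω * g) ≤ a ^ 2 / 6 := by
      rw [div_le_iff₀ hden]
      have : |b| ^ 2 ≤ (10001 / 10000 * |a|) ^ 2 := by gcongr
      rw [mul_pow, hsqa, hsqb] at this
      nlinarith [sq_nonneg a]
    linarith

theorem modF_low1 (Y : ℝ) (h1 : 0.2 ≤ Y) (h2 : Y ≤ 0.6) (y : ℝ) :
    min ((y - Y) ^ 2 / 16) (|y - Y| / 3) ≤ f y - f Y - Y / 8 * (y - Y) := by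
  norm_num at h1 h2
  have hY : f Y = Y ^ 2 / 16 := by
    rcases modF_cases Y with ⟨g1, g2, g3⟩ | ⟨g1, g1', g2, g3⟩ | ⟨g1, g1', g2, g3⟩ | ⟨g1, g2, g3⟩
    · linarith
    · exact g2
    · linarith
    · linarith
  rw [hY]
  rcases modF_cases y with ⟨g1, g2, g3⟩ | ⟨g1, g1', g2, g3⟩ | ⟨g1, g1', g2, g3⟩ | ⟨g1, g2, g3⟩
  · refine le_trans (min_le_right _ _) ?_
    rw [g2, abs_of_nonneg (by linarith)]
    nlinarith
  · refine le_trans (min_le_left _ _) ?_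
    rw [g2]
    nlinarith
  · refine le_trans (min_le_left _ _) ?_
    rw [g2]
    nlinarith [sq_nonneg y]
  · refine le_trans (min_le_right _ _) ?_
    rw [g2, abs_of_nonpos (by linarith)]
    nlinarith

theorem modF_low2 (Q : ℝ) (h1 : 0.1 ≤ Q) (h2 : Q ≤ 0.3) (y : ℝ) :
    min ((y - -Q) ^ 2 / 16) (|y - -Q| / 3) ≤ f y - f (-Q) - -(Q / 4) * (y - -Q) := by
  norm_num at h1 h2
  have hY : f (-Q) = Q ^ 2 / 8 := by
    rcases modF_cases (-Q) with ⟨g1, g2, g3⟩ | ⟨g1, g1', g2, g3⟩ | ⟨g1, g1', g2, g3⟩ | ⟨g1, g2, g3⟩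
    · linarith
    · linarith
    · rw [g2]; ring
    · linarith
  rw [hY]
  rcases modF_cases y with ⟨g1, g2, g3⟩ | ⟨g1, g1', g2, g3⟩ | ⟨g1, g1', g2, g3⟩ | ⟨g1, g2, g3⟩
  · refine le_trans (min_le_right _ _) ?_
    rw [g2, abs_of_nonneg (by linarith)]
    nlinarith
  · refine le_trans (min_le_left _ _) ?_
    rw [g2]
    nlinarith
  · refine le_trans (min_le_left _ _) ?_
    rw [g2]
    nlinarith [sq_nonneg (y + Q)]
  · refine le_trans (min_le_right _ _) ?_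
    rw [g2, abs_of_nonpos (by linarith)]
    nlinarith

theorem modF_psi_neg (a : ℝ) : psi (-a) = psi a := by
  unfold psi
  rw [abs_neg, neg_sq]

theorem modF_div (u w : ℝ) (hu0 : 0 ≤ u) (hu : u ≤ 1 / 10) (hw : |w| ≤ 3 / 1000000) :
    u - 1 / 1000000 ≤ u / (1 + w) ∧ u / (1 + w) ≤ u + 1 / 1000000 := by
  have hw' := abs_le.1 hw
  have h1 : 0 < 1 + w := by linarith [hw'.1]
  have h2 : |u * w| ≤ 3 / 10000000 := by
    rw [abs_mul, abs_of_nonneg hu0]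
    calc u * |w| ≤ 1 / 10 * (3 / 1000000) := by gcongr
      _ = _ := by norm_num
  have h2' := abs_le.1 h2
  constructor
  · rw [le_div_iff₀ h1]
    have : (u - 1 / 1000000) * (1 + w) = u + u * w - 1 / 1000000 * (1 + w) := by ring
    rw [this]
    linarith [hw'.1, h2'.2]
  · rw [div_le_iff₀ h1]
    have : (u + 1 / 1000000) * (1 + w) = u + u * w + 1 / 1000000 * (1 + w) := by ring
    rw [this]
    linarith [hw'.1, h2'.1]

theorem modF_sq (Y Q : ℝ) (h1 : 1 / 5 ≤ Y) (h2 : Y ≤ 3 / 5) (h3 : 1 / 10 ≤ Q) (h4 : Q ≤ 3 / 10) :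
    1 / 25 ≤ Y ^ 2 ∧ Y ^ 2 ≤ 9 / 25 ∧ 1 / 100 ≤ Q ^ 2 ∧ Q ^ 2 ≤ 9 / 100 ∧ 1 / 50 ≤ Y * Q := by
  refine ⟨?_, ?_, ?_, ?_, ?_⟩ <;> nlinarith

theorem modF_mulabs (ω u c : ℝ) (hω : |ω| ≤ 3 / 100000) (hu : |u| ≤ c) :
    |ω * u| ≤ 3 / 100000 * c := by
  rw [abs_mul]
  gcongr

set_option maxHeartbeats 1000000 in
theorem frame_hyp (ω m : ℝ) (hω : |ω| ≤ 3 / 100000) (hm0 : 0 < m) (hm1 : m < 1)
    (hY1 : 0.2 ≤ m + ω * Rw ω m) (hY2 : m + ω * Rw ω m ≤ 0.6)
    (hQ1 : 0.1 ≤ m - ω * Rw ω (-m)) (hQ2 : m - ω * Rw ω (-m) ≤ 0.3) :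
    ∃ ν c α β, |ν| ≤ 1 / 1000 ∧ Hyp (fun t => Rw ω t + ν * t) (10000 - ω) c m α β := by
  have hω' : |ω| ≤ 1 / 2 := by linarith
  have hωa := abs_le.1 hω
  obtain ⟨Y, hY⟩ : ∃ Y, Y = m + ω * Rw ω m := ⟨_, rfl⟩
  obtain ⟨Q, hQ⟩ : ∃ Q, Q = m - ω * Rw ω (-m) := ⟨_, rfl⟩
  have hQn : -m + ω * Rw ω (-m) = -Q := by rw [hQ]; ring
  rw [← hY] at hY1 hY2
  rw [← hQ] at hQ1 hQ2
  have hY1' : (1 : ℝ) / 5 ≤ Y := by norm_num at hY1; linarith
  have hY2' : Y ≤ 3 / 5 := by norm_num at hY2; linarith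
  have hQ1' : (1 : ℝ) / 10 ≤ Q := by norm_num at hQ1; linarith
  have hQ2' : Q ≤ 3 / 10 := by norm_num at hQ2; linarith
  have hfY : f Y = Y ^ 2 / 16 ∧ modF_fd Y = Y / 8 := by
    rcases modF_cases Y with ⟨g1, g2, g3⟩ | ⟨g1, g1', g2, g3⟩ | ⟨g1, g1', g2, g3⟩ | ⟨g1, g2, g3⟩
    · linarith
    · exact ⟨g2, g3⟩
    · linarith
    · linarith
  have hfQ : f (-Q) = Q ^ 2 / 8 ∧ modF_fd (-Q) = -(Q / 4) := by
    rcases modF_cases (-Q) with ⟨g1, g2, g3⟩ | ⟨g1, g1', g2, g3⟩ | ⟨g1, g1', g2, g3⟩ | ⟨g1, g2, g3⟩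
    · linarith
    · linarith
    · exact ⟨by rw [g2]; ring, by rw [g3]; ring⟩
    · linarith
  have hRm : Rw ω m = 9997 - Y ^ 2 / 16 := by
    have := modF_Rw_eq ω hω' m
    rw [← hY, hfY.1] at this
    linarith
  have hRn : Rw ω (-m) = 9997 - Q ^ 2 / 8 := by
    have := modF_Rw_eq ω hω' (-m)
    rw [hQn, hfQ.1] at this
    linarith
  -- expansions
  have e1 := modF_core ω hω m (Y / 8) (by rw [abs_of_nonneg (by linarith)]; linarith)
    (by rw [← hY]; exact modF_low1 Y hY1 hY2)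
    (by rw [← hY]; intro y; have := modF_smooth Y y; rw [hfY.2] at this; linarith)
  have e2 := modF_core ω hω (-m) (-(Q / 4)) (by rw [abs_neg, abs_of_nonneg (by linarith)]; linarith)
    (by rw [hQn]; exact modF_low2 Q hQ1 hQ2)
    (by rw [hQn]; intro y; have := modF_smooth (-Q) y; rw [hfQ.2] at this; linarith)
  obtain ⟨A, hA⟩ : ∃ A, A = Y / 8 / (1 + ω * (Y / 8)) := ⟨_, rfl⟩
  obtain ⟨B, hB⟩ : ∃ B, B = Q / 4 / (1 + ω * -(Q / 4)) := ⟨_, rfl⟩
  have hBn : -(Q / 4) / (1 + ω * -(Q / 4)) = -B := by rw [hB, neg_div]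
  rw [← hA] at e1
  rw [hBn] at e2
  -- sizes of A and B
  have hωY : |ω * (Y / 8)| ≤ 3 / 1000000 := by
    have := modF_mulabs ω (Y / 8) (1 / 10) hω
      (by rw [abs_of_nonneg (by linarith)]; linarith)
    norm_num at this ⊢
    exact this
  have hωQ : |ω * (Q / 4)| ≤ 3 / 1000000 := by
    have := modF_mulabs ω (Q / 4) (1 / 10) hω
      (by rw [abs_of_nonneg (by linarith)]; linarith)
    norm_num at this ⊢
    exact this
  obtain ⟨hYs1, hYs2, hQs1, hQs2, hYQ⟩ := modF_sq Y Q hY1' hY2' hQ1' hQ2'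
  obtain ⟨hA1, hA2⟩ := modF_div (Y / 8) (ω * (Y / 8)) (by linarith) (by linarith) hωY
  have hωQn : |ω * -(Q / 4)| ≤ 3 / 1000000 := by
    rw [mul_neg, abs_neg]; exact hωQ
  obtain ⟨hB1, hB2⟩ := modF_div (Q / 4) (ω * -(Q / 4)) (by linarith) (by linarith) hωQn
  rw [← hA] at hA1 hA2
  rw [← hB] at hB1 hB2
  -- `m`
  have hsum : Y + Q = 2 * m + ω * (Rw ω m - Rw ω (-m)) := by rw [hY, hQ]; ring
  have hdiff : Rw ω m - Rw ω (-m) = Q ^ 2 / 8 - Y ^ 2 / 16 := by rw [hRm, hRn]; ring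
  rw [hdiff] at hsum
  have hQY : |Q ^ 2 / 8 - Y ^ 2 / 16| ≤ 3 / 100 := by
    rw [abs_le]; constructor <;> linarith
  have hsmall : |ω * (Q ^ 2 / 8 - Y ^ 2 / 16)| ≤ 1 / 1000000 := by
    rw [abs_mul]
    calc |ω| * |Q ^ 2 / 8 - Y ^ 2 / 16| ≤ 3 / 100000 * (3 / 100) := by gcongr
      _ ≤ _ := by norm_num
  have hsmall' := abs_le.1 hsmall
  have hm1' : 2 * m ≤ Y + Q + 1 / 1000000 := by linarith [hsmall'.1]
  have hm2' : Y + Q - 1 / 1000000 ≤ 2 * m := by linarith [hsmall'.2]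
  -- `ν`
  obtain ⟨E, hE⟩ : ∃ E, E = (Q ^ 2 / 8 - Y ^ 2 / 16) / 2 := ⟨_, rfl⟩
  have hE' := abs_le.1 hQY
  have hE1 : -(3 / 200) ≤ E := by rw [hE]; linarith [hE'.1]
  have hE2 : E ≤ 3 / 200 := by rw [hE]; linarith [hE'.2]
  have hden : 0 < 20 * (10000 - ω) + m := by linarith [hωa.2]
  obtain ⟨ν, hν⟩ : ∃ ν, ν = -(20 + E) / (20 * (10000 - ω) + m) := ⟨_, rfl⟩
  have hν1 : ν * (20 * (10000 - ω) + m) = -(20 + E) := by
    rw [hν]; field_simp
  have hν2 : ν ≤ 0 := by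
    rw [hν]; apply div_nonpos_of_nonpos_of_nonneg _ hden.le; linarith
  have hν3 : -(11 / 100000) ≤ ν := by
    rw [hν, le_div_iff₀ hden]
    linarith [hωa.1, hωa.2]
  have hνabs : |ν| ≤ 11 / 100000 := by rw [abs_le]; constructor <;> linarith
  have hWm : 20 * (1 + ν * (10000 - ω)) + E + ν * m = 0 := by linarith
  have hνm : |ν * m| ≤ 11 / 100000 := by
    rw [abs_mul, abs_of_nonneg hm0.le]
    calc |ν| * m ≤ 11 / 100000 * 1 := by gcongr
      _ = _ := mul_one _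
  have hνm' := abs_le.1 hνm
  obtain ⟨htop1, htop2⟩ := Rw_top ω hω
  refine ⟨ν, 1 + ν * (10000 - ω), A - ν, B + ν, by linarith, ?_⟩
  refine
    { conc := ?_, lip := ?_, W_lo := ?_, W_hi := ?_, RW := ?_, RnW := ?_, c_abs := ?_, bal := ?_,
      m_lo := ?_, m_hi := ?_, α_lo := ?_, α_hi := ?_, β_lo := ?_, β_hi := ?_, Rm_lo := ?_,
      Rm_hi := ?_, Rn_lo := ?_, Rn_hi := ?_, up1 := ?_, up2 := ?_, lo1 := ?_, lo2 := ?_, gam := ?_ }
  · refine ⟨convex_univ, fun s _ t _ a b ha hb hab => ?_⟩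
    have := (Rw_concave ω hω').2 (mem_univ s) (mem_univ t) ha hb hab
    simp only [smul_eq_mul] at this ⊢
    have h5 : a * (Rw ω s + ν * s) + b * (Rw ω t + ν * t) =
        (a * Rw ω s + b * Rw ω t) + ν * (a * s + b * t) := by ring
    rw [h5]
    linarith
  · intro s t
    have h1 := Rw_lip ω hω s t
    have h2 : |Rw ω s + ν * s - (Rw ω t + ν * t)| ≤ |Rw ω s - Rw ω t| + |ν| * |s - t| := by
      have : Rw ω s + ν * s - (Rw ω t + ν * t) = (Rw ω s - Rw ω t) + ν * (s - t) := by ring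
      rw [this, ← abs_mul]
      exact abs_add_le _ _
    have h3 := abs_nonneg (s - t)
    have h4 : |ν| * |s - t| ≤ 11 / 100000 * |s - t| := by gcongr
    have h7 : (1.0001 : ℝ) = 10001 / 10000 := by norm_num
    have h8 : (1.001 : ℝ) = 1001 / 1000 := by norm_num
    rw [h7] at h1
    rw [h8]
    linarith
  · linarith [hωa.2]
  · linarith [hωa.1]
  · rw [htop1]
  · rw [htop2]; ring
  · have h8 : (0.001 : ℝ) = 1 / 1000 := by norm_num
    rw [h8, abs_le]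
    constructor <;> linarith [hνm'.1, hνm'.2]
  · rw [hRm, hRn]
    rw [hE] at hWm
    linarith
  · norm_num
    linarith
  · norm_num
    linarith
  · norm_num
    linarith
  · norm_num
    linarith
  · norm_num
    linarith
  · norm_num
    linarith
  · rw [hRm]
    linarith [hνm'.1, hνm'.2]
  · rw [hRm]
    linarith [hνm'.1, hνm'.2]
  · rw [hRn]
    linarith [hνm'.1, hνm'.2]
  · rw [hRn]
    linarith [hνm'.1, hνm'.2]
  · intro a
    have := (e1 a).1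
    linarith
  · intro a
    have := (e2 (-a)).1
    rw [modF_psi_neg] at this
    have h9 : -m - a = -m + -a := by ring
    rw [h9]
    linarith
  · intro a
    have := (e1 a).2
    linarith
  · intro a
    have := (e2 (-a)).2
    rw [neg_sq] at this
    have h9 : -m - a = -m + -a := by ring
    rw [h9]
    linarith
  · rw [hRm, hRn]
    -- `(A - B) m + Q²/8 - Y²/16 ≤ -1/1000`
    have h1 : (A - B) * m ≤ (Y / 8 - Q / 4) * m + 2 / 1000000 := by
      have h3 : (A - B - (Y / 8 - Q / 4)) * m ≤ 2 / 1000000 * 1 := by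
        apply mul_le_mul _ hm1.le hm0.le (by norm_num)
        linarith
      linarith
    have h2 : (Y / 8 - Q / 4) * m ≤ (Y / 8 - Q / 4) * ((Y + Q) / 2) + 1 / 1000000 := by
      have h3 : |(Y / 8 - Q / 4) * (m - (Y + Q) / 2)| ≤ 1 * (1 / 1000000) := by
        rw [abs_mul]
        gcongr
        · rw [abs_le]; constructor <;> linarith
        · rw [abs_le]; constructor <;> linarith
      have h4 := (abs_le.1 h3).2
      linarith
    have h5 : (Y / 8 - Q / 4) * ((Y + Q) / 2) = Y ^ 2 / 16 - Y * Q / 16 - Q ^ 2 / 8 := by ring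
    rw [h5] at h2
    linarith

end ZZ
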