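import Pool.Agent.Helper32.ZZ.Asm1
import Pool.Agent.Helper32.ZZ.F
import Pool.Agent.Helper32.ZZ.Asm3

open MeasureTheory Set Pointwise
open scoped ENNReal

namespace ZZ

theorem NN_one (ω : ℝ) (hω : |ω| ≤ 1) : NN (1, ω) = 10000 - ω := by
  obtain ⟨h1, h2⟩ := abs_le.1 hω
  apply le_antisymm
  · obtain ⟨κ, hκ, h⟩ := NN_attained (1, ω)
    obtain ⟨h3, h4⟩ := K0_bounds κ hκ
    rw [← h]
    unfold cross
    simp only
    obtain ⟨h5, h6⟩ := abs_le.1 h3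
    obtain ⟨h7, h8⟩ := abs_le.1 h4
    nlinarith
  · have := (le_abs_self _).trans (NN_ge (1, ω) _ K0_top)
    unfold cross at this
    simp only at this
    linarith

theorem step4 (N : ℕ) (hN : 10 ^ 6 ≤ N) (v : ℝ × ℝ) (hv : (∃ ω : ℝ, v = (1, ω)) ∨ v = (0, 1))
    (r : ℕ → ℝ) (hr : ∀ k < N, r k ≤ r (k + 1)) (P Q : ℕ → ℝ × ℝ)
    (hPQ : ∀ k < N, P k ∈ K0 ∧ Q k ∈ K0 ∧ P k + Q k = (r (k + 1) - r k) • v)
    (Fs : ℝ) (hFs0 : 80 * 9997 * 10000 + 5900 ≤ Fs)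
    (hsum : ∑ k ∈ Finset.range N, (Fs - Fz (P k) (Q k)) ≤ 2.03 * 10 ^ 8) :
    ∃ ω : ℝ, v = (1, ω) ∧ |ω| ≤ 3 / 100000 := by
  have hNr : (10 ^ 6 : ℝ) ≤ N := by exact_mod_cast hN
  have hex : ∃ k < N, Fs - Fz (P k) (Q k) ≤ 300 := by
    by_contra hcon
    push Not at hcon
    have : ∑ k ∈ Finset.range N, (300 : ℝ) ≤ ∑ k ∈ Finset.range N, (Fs - Fz (P k) (Q k)) := by
      apply Finset.sum_le_sum
      intro k hk
      exact (hcon k (Finset.mem_range.1 hk)).le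
    rw [Finset.sum_const, Finset.card_range, nsmul_eq_mul] at this
    linarith
  obtain ⟨k, hk, hFk⟩ := hex
  obtain ⟨hP, hQ, hPQs⟩ := hPQ k hk
  obtain ⟨ε, hε, a1, a2, a3, a4, a5, a6⟩ := Fz_loc _ _ hP hQ (by linarith)
  have e1 := congrArg Prod.fst hPQs
  have e2 := congrArg Prod.snd hPQs
  simp only [Prod.fst_add, Prod.snd_add, Prod.smul_fst, Prod.smul_snd, smul_eq_mul] at e1 e2
  have hrk := hr k hk
  rcases hv with ⟨ω, rfl⟩ | rfl
  · refine ⟨ω, rfl, ?_⟩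
    simp only [mul_one] at e1 e2
    have hε1 : ε = 1 := by
      rcases hε with rfl | rfl
      · rfl
      · exfalso; linarith
    subst hε1
    have hs : 19980 ≤ r (k + 1) - r k := by linarith
    rw [abs_le]
    constructor
    · nlinarith
    · nlinarith
  · exfalso
    simp only [mul_zero] at e1
    rcases hε with rfl | rfl <;> linarith

/-! ### the profile `Rw ω` -/

theorem gR_concave {R : ℝ → ℝ} (h : ConcaveOn ℝ univ R) : ConcaveOn ℝ univ (gR R) := by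
  have h2 : ConcaveOn ℝ univ (fun t => R (-t)) := by
    have := h.comp_linearMap (-(LinearMap.id : ℝ →ₗ[ℝ] ℝ))
    simpa [Function.comp_def] using this
  exact h.add h2

theorem gR_neg (R : ℝ → ℝ) (t : ℝ) : gR R (-t) = gR R t := by
  unfold gR; rw [neg_neg]; ring

theorem gR_abs (R : ℝ → ℝ) (t : ℝ) : gR R |t| = gR R t := by
  rcases abs_choice t with h | h <;> rw [h]
  exact gR_neg R t

theorem gR_lip {R : ℝ → ℝ} {C : ℝ} (hC : ∀ s t, |R s - R t| ≤ C * |s - t|) (s t : ℝ) :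
    |gR R s - gR R t| ≤ 2 * C * |s - t| := by
  unfold gR
  have h1 := hC s t
  have h2 := hC (-s) (-t)
  have h3 : |(-s) - (-t)| = |s - t| := by rw [← abs_neg]; congr 1; ring
  rw [h3] at h2
  have h4 : R s + R (-s) - (R t + R (-t)) = (R s - R t) + (R (-s) - R (-t)) := by ring
  rw [h4]
  calc _ ≤ |R s - R t| + |R (-s) - R (-t)| := abs_add_le _ _
    _ ≤ _ := by linarith

theorem gR_nonpos {R : ℝ → ℝ} (h : ConcaveOn ℝ univ R) {W : ℝ} (hW : 0 < W) (hg : gR R W = 0)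
    (hg0 : 0 < gR R 0) (t : ℝ) (ht : W ≤ |t|) : gR R t ≤ 0 := by
  by_contra hcon
  push Not at hcon
  rw [← gR_abs] at hcon
  have hc := gR_concave h
  -- W is between 0 and |t|
  have hseg : W ∈ segment ℝ 0 |t| := by
    rw [segment_eq_Icc (abs_nonneg t)]
    exact ⟨hW.le, ht⟩
  have := hc.min_le_of_mem_segment (mem_univ _) (mem_univ _) hseg
  rw [hg] at this
  exact absurd this (not_le.2 (lt_min hg0 hcon))

theorem FR_congr (ω ν W t : ℝ) : FR (fun t => Rw ω t + ν * t) W t = FR (Rw ω) W t := by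
  unfold FR gR; ring

theorem gR_congr (ω ν t : ℝ) : gR (fun t => Rw ω t + ν * t) t = gR (Rw ω) t := by
  unfold gR; ring

theorem pair_mem (ω t : ℝ) (hω : |ω| ≤ 1 / 2) (hg : 0 ≤ gR (Rw ω) t) :
    (Rw ω t, t + ω * Rw ω t) ∈ K0 := by
  refine ⟨?_, ?_⟩
  · simp only
    exact (Rw_spec ω hω t (Rw ω t)).2 le_rfl
  · simp only
    have h1 := (Rw_spec ω hω (-t) (-Rw ω t)).2 (by unfold gR at hg; linarith)
    have h2 : -(t + ω * Rw ω t) = -t + ω * -Rw ω t := by ring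
    rw [h2]; exact h1

theorem Fz_pair (ω t : ℝ) (hω : |ω| ≤ 1 / 2) (hg : 0 ≤ gR (Rw ω) t) :
    Fz (Rw ω t, t + ω * Rw ω t) (Rw ω (-t), -t + ω * Rw ω (-t)) = FR (Rw ω) (10000 - ω) t := by
  unfold Fz
  have h1 : (Rw ω t, t + ω * Rw ω t) + (Rw ω (-t), -t + ω * Rw ω (-t)) =
      gR (Rw ω) t • ((1 : ℝ), ω) := by
    ext
    · simp [gR]
    · simp [gR]; ring
  rw [h1, NN_smul _ hg, NN_one ω (by linarith)]
  unfold cross FR gR
  simp only
  ring

end ZZ
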