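import Pool.Agent.Helper32.ZZ.Asm4

open MeasureTheory Set Pointwise
open scoped ENNReal

namespace ZZ

section frame
variable (ω : ℝ) (hω : |ω| ≤ 3 / 100000)
include hω

theorem om_half : |ω| ≤ 1 / 2 := by linarith

theorem W_bounds : 9999 ≤ 10000 - ω ∧ 10000 - ω ≤ 10000 + 3 / 100000 := by
  obtain ⟨h1, h2⟩ := abs_le.1 hω
  constructor <;> linarith

theorem gRw_W : gR (Rw ω) (10000 - ω) = 0 := by
  unfold gR
  rw [(Rw_top ω hω).1, (Rw_top ω hω).2]; ring

theorem gRw_upper (t : ℝ) (ht : t ≤ 10000 - ω) : gR (Rw ω) t ≤ 2.0002 * (10000 - ω - t) := by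
  have h := gR_lip (Rw_lip ω hω) t (10000 - ω)
  rw [gRw_W ω hω, sub_zero] at h
  have h2 : |t - (10000 - ω)| = 10000 - ω - t := by
    rw [abs_sub_comm, abs_of_nonneg (by linarith)]
  rw [h2] at h
  have := le_abs_self (gR (Rw ω) t)
  linarith

theorem Rw_zero : 9996 ≤ Rw ω 0 := by
  rw [← Rw_spec ω (om_half ω hω)]
  obtain ⟨h1, h2⟩ := abs_le.1 hω
  rw [zero_add]
  unfold f
  have : (ω * 9996) ^ 2 ≤ 1 := by nlinarith
  split_ifs <;> nlinarith

theorem gRw_zero : 0 < gR (Rw ω) 0 := by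
  unfold gR
  rw [neg_zero]
  linarith [Rw_zero ω hω]

theorem gRw_cont : Continuous (gR (Rw ω)) := by
  rw [← continuousOn_univ]
  exact (gR_concave (Rw_concave ω (om_half ω hω))).continuousOn isOpen_univ

/-- existence of the contact level -/
theorem exists_level (s L : ℝ) (hs : 0 < s) (hL : 0 ≤ L) (hLW : L ≤ 10000 - ω)
    (hsL : s ≤ gR (Rw ω) L) :
    ∃ mk, L ≤ mk ∧ mk ≤ 10000 - ω ∧ s = gR (Rw ω) mk ∧ ∀ t, s ≤ gR (Rw ω) t → |t| ≤ mk := by
  have hcont := gRw_cont ω hω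
  have hW : 0 < 10000 - ω := by linarith [(W_bounds ω hω).1]
  let T : Set ℝ := Icc 0 (10000 - ω) ∩ {t | s ≤ gR (Rw ω) t}
  have hT : IsCompact T := isCompact_Icc.inter_right (isClosed_le continuous_const hcont)
  have hne : T.Nonempty := ⟨L, ⟨hL, hLW⟩, hsL⟩
  obtain ⟨mk, ⟨hmk1, hmk2⟩, hmax⟩ := hT.exists_isGreatest hne
  have hmk2' : s ≤ gR (Rw ω) mk := hmk2
  have hmax' : ∀ t, s ≤ gR (Rw ω) t → |t| ≤ mk := by
    intro t ht
    by_cases htW : |t| ≤ 10000 - ω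
    · apply hmax
      refine ⟨⟨abs_nonneg t, htW⟩, ?_⟩
      show s ≤ gR (Rw ω) |t|
      rw [gR_abs]; exact ht
    · push Not at htW
      have := gR_nonpos (Rw_concave ω (om_half ω hω)) hW (gRw_W ω hω) (gRw_zero ω hω) t htW.le
      linarith
  refine ⟨mk, hmax ⟨⟨hL, hLW⟩, hsL⟩, hmk1.2, ?_, hmax'⟩
  by_contra hne'
  have hlt : s < gR (Rw ω) mk := lt_of_le_of_ne hmk2' hne'
  -- intermediate value on [mk, W]
  have hiv : s ∈ gR (Rw ω) '' Icc mk (10000 - ω) := by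
    apply intermediate_value_Icc' hmk1.2 hcont.continuousOn
    rw [gRw_W ω hω]
    exact ⟨hs.le, hlt.le⟩
  obtain ⟨t, ht, hts⟩ := hiv
  have h1 : |t| ≤ mk := hmax' t hts.ge
  rw [abs_of_nonneg (hmk1.1.trans ht.1)] at h1
  have h2 : t = mk := le_antisymm h1 ht.1
  rw [h2] at hts
  linarith

/-- `FR` is concave on `[0, W]` -/
theorem FR_concave : ConcaveOn ℝ (Icc 0 (10000 - ω)) (FR (Rw ω) (10000 - ω)) := by
  have hgc := gR_concave (Rw_concave ω (om_half ω hω))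
  have hW : 0 < 10000 - ω := by linarith [(W_bounds ω hω).1]
  have hconv : Convex ℝ (Icc 0 (10000 - ω)) := convex_Icc _ _
  have h1 : ConcaveOn ℝ (Icc 0 (10000 - ω)) (gR (Rw ω)) := hgc.subset (subset_univ _) hconv
  have h2 : ConcaveOn ℝ (Icc 0 (10000 - ω)) (fun t : ℝ => 2 * t + 40 * (10000 - ω)) := by
    refine ⟨hconv, fun x _ y _ a b _ _ hab => ?_⟩
    simp only [smul_eq_mul]
    have : a * (2 * x + 40 * (10000 - ω)) + b * (2 * y + 40 * (10000 - ω)) =
      2 * (a * x + b * y) + (a + b) * (40 * (10000 - ω)) := by ring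
    rw [this, hab, one_mul]
  have hanti : AntitoneOn (gR (Rw ω)) (Icc 0 (10000 - ω)) := by
    intro x hx y hy hxy
    -- x between -y and y
    have hseg : x ∈ segment ℝ (-y) y := by
      rw [segment_eq_Icc (by linarith [hx.1])]
      exact ⟨by linarith [hx.1], hxy⟩
    have := hgc.min_le_of_mem_segment (mem_univ _) (mem_univ _) hseg
    rwa [gR_neg, min_self] at this
  have := h1.mul h2 (fun x hx => ?_) (fun x hx => ?_) ?_
  · exact this
  · rw [← gRw_W ω hω]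
    exact hanti hx ⟨hW.le, le_rfl⟩ hx.2
  · have := hx.1
    positivity
  · intro x hx y hy hxy
    simp only at hxy
    exact hanti hx hy (by linarith)
end frame

end ZZ
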