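import Pool.Agent.Helper32.ZZ.Asm5

open MeasureTheory Set Pointwise
open scoped ENNReal

namespace ZZ

theorem Mlin_cross (ω ν : ℝ) (p q : ℝ × ℝ) : cross (Mlin ω ν p) (Mlin ω ν q) = cross p q := by
  unfold cross
  simp only [Mlin, LinearEquiv.coe_mk, LinearMap.coe_mk, AddHom.coe_mk]
  ring

theorem Mlin_dir (ω ν : ℝ) : Mlin ω ν (1, ω) = (1, 0) := by
  simp [Mlin]

/-- rotation by a right angle -/
def Rot : (ℝ × ℝ) ≃ₗ[ℝ] (ℝ × ℝ) where
  toFun p := (p.2, -p.1)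
  invFun p := (-p.2, p.1)
  map_add' p q := by ext <;> simp [add_comm]
  map_smul' a p := by ext <;> simp
  left_inv p := by ext <;> simp
  right_inv p := by ext <;> simp

theorem Rot_vol (s : Set (ℝ × ℝ)) : volume (Rot '' s) = volume s := by
  have hdet : LinearMap.det ((Rot : (ℝ × ℝ) ≃ₗ[ℝ] (ℝ × ℝ)) : (ℝ × ℝ) →ₗ[ℝ] (ℝ × ℝ)) = 1 := by
    rw [← LinearMap.det_toMatrix (Module.Basis.finTwoProd ℝ), Matrix.det_fin_two]
    simp [LinearMap.toMatrix_apply, Rot]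
  have := MeasureTheory.Measure.addHaar_image_linearMap (volume : Measure (ℝ × ℝ))
    ((Rot : (ℝ × ℝ) ≃ₗ[ℝ] (ℝ × ℝ)) : (ℝ × ℝ) →ₗ[ℝ] (ℝ × ℝ)) s
  rw [hdet] at this
  simpa using this

theorem Rot_cross (p q : ℝ × ℝ) : cross (Rot p) (Rot q) = cross p q := by
  unfold cross Rot
  simp only [LinearEquiv.coe_mk, LinearMap.coe_mk, AddHom.coe_mk]
  ring

/-- Reduction: a collinear covering of an optimal set forces the direction and gives the frame data -/
theorem frame_data (N : ℕ) (hN : 10 ^ 6 ≤ N) (D : Set (ℝ × ℝ)) (hopt : IsOptimal K0 20 (N + 1) D)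
    (x : Fin (N + 1) → ℝ × ℝ) (hcov : D ⊆ ⋃ i, (x i +ᵥ K0)) (hcol : Collinear ℝ (range x)) :
    ∃ (x0 : ℝ × ℝ) (ω : ℝ) (r mk : ℕ → ℝ) (Fs : ℝ), |ω| ≤ 3 / 100000 ∧
      (∀ k < N, r k ≤ r (k + 1)) ∧
      (∀ p ∈ D, ∃ i ≤ N, p - (x0 + r i • ((1 : ℝ), ω)) ∈ K0) ∧
      (∀ k < N, UsedO x0 (1, ω) r N D k) ∧
      80 * 9997 * 10000 + 5900 ≤ Fs ∧
      (∀ p ∈ K0, ∀ q ∈ K0, Fz p q ≤ Fs) ∧
      ENNReal.ofReal ((N + 1) * Fs) + ENNReal.ofReal 400 * volume K0 ≤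
        volume (D + (20 : ℝ) • K0) ∧
      (∀ k < N, 0 ≤ mk k ∧ mk k ≤ 300 ∧ r (k + 1) - r k = gR (Rw ω) (mk k) ∧
        19400 ≤ r (k + 1) - r k ∧ (∀ t, r (k + 1) - r k ≤ gR (Rw ω) t → |t| ≤ mk k)) ∧
      ∑ k ∈ Finset.range N, (Fs - FR (Rw ω) (10000 - ω) (mk k)) ≤ 2.03 * 10 ^ 8 := by
  obtain ⟨x0, v, r, hr, hxr, hv⟩ := sort_collinear N x hcol
  have hcov' : ∀ p ∈ D, ∃ i ≤ N, p - (x0 + r i • v) ∈ K0 := by
    intro p hp
    obtain ⟨i, hi⟩ := mem_iUnion.1 (hcov hp)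
    obtain ⟨j, hj, hxj⟩ := hxr i
    refine ⟨j, hj, ?_⟩
    rw [← hxj]
    exact (mem_vadd_iff _ _ _).1 hi
  obtain ⟨Fs, hFs, hFs0, hlow⟩ := step2 N D hopt
  have hD := hopt.1.1
  have hDc := hopt.1.2.1
  -- choose the linear map
  obtain ⟨M, hMv, hMvol, hMc⟩ : ∃ M : (ℝ × ℝ) ≃ₗ[ℝ] (ℝ × ℝ), M v = (1, 0) ∧
      (∀ s : Set (ℝ × ℝ), volume (M '' s) = volume s) ∧ (∀ p q, cross (M p) (M q) = cross p q) := by
    rcases hv with ⟨ω, rfl⟩ | rfl
    · exact ⟨Mlin ω 0, Mlin_dir ω 0, Mlin_vol ω 0, Mlin_cross ω 0⟩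
    · exact ⟨Rot, by simp [Rot], Rot_vol, Rot_cross⟩
  obtain ⟨P, Q, hPQ, hV⟩ := step1 M v hMv hMvol hMc x0 r N hr D hD hDc hcov'
  obtain ⟨hall, hsum⟩ := step3 N D hD (UsedO x0 v r N D) P Q
    (fun k hk hu => ⟨(hPQ k hk hu).1, (hPQ k hk hu).2.1, (hPQ k hk hu).2.2.2.2⟩) hV Fs hFs hFs0 hlow
  obtain ⟨ω, rfl, hω⟩ := step4 N hN v hv r hr P Q
    (fun k hk => ⟨(hPQ k hk (hall k hk)).1, (hPQ k hk (hall k hk)).2.1,
      (hPQ k hk (hall k hk)).2.2.1⟩) Fs hFs0 hsum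
  -- contact levels
  have hlev : ∀ κ, (M κ).2 = cross ((1 : ℝ), ω) κ := by
    intro κ
    rw [← hMc (1, ω) κ, hMv]
    simp [cross]
  have hterm : ∀ k < N, Fs - Fz (P k) (Q k) ≤ 2.03 * 10 ^ 8 := by
    intro k hk
    refine le_trans ?_ hsum
    apply Finset.single_le_sum (f := fun k => Fs - Fz (P k) (Q k)) (fun j hj => ?_)
      (Finset.mem_range.2 hk)
    have hj' := Finset.mem_range.1 hj
    have := hFs _ (hPQ j hj' (hall j hj')).1 _ (hPQ j hj' (hall j hj')).2.1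
    linarith
  have hWb := W_bounds ω hω
  have hlevel : ∀ k < N, ∃ mk, 0 ≤ mk ∧ mk ≤ 300 ∧ r (k + 1) - r k = gR (Rw ω) mk ∧
        19400 ≤ r (k + 1) - r k ∧ (∀ t, r (k + 1) - r k ≤ gR (Rw ω) t → |t| ≤ mk) ∧
        Fz (P k) (Q k) ≤ FR (Rw ω) (10000 - ω) mk := by
    intro k hk
    obtain ⟨hP, hQ, hPQs, hL0, hF0⟩ := hPQ k hk (hall k hk)
    set s := r (k + 1) - r k with hs
    have hs0 : 0 ≤ s := by have := hr k hk; rw [hs]; linarith
    set L := (M (P k)).2 with hL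
    have hLe : L = (P k).2 - ω * (P k).1 := by
      rw [hL, hlev]; simp [cross]
    have e1 : (P k).1 + (Q k).1 = s := by
      have := congrArg Prod.fst hPQs
      simpa using this
    have e2 : (P k).2 + (Q k).2 = s * ω := by
      have := congrArg Prod.snd hPQs
      simpa using this
    have hLW : L ≤ 10000 - ω := by
      have h1 := NN_ge (1, ω) (P k) hP
      rw [NN_one ω (by linarith), ← hlev] at h1
      exact (le_abs_self _).trans h1
    have hω2 : |ω| ≤ 1 / 2 := by linarith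
    have hsL : s ≤ gR (Rw ω) L := by
      unfold gR
      have h1 : (P k).1 ≤ Rw ω L := by
        rw [← Rw_spec ω hω2]
        have : L + ω * (P k).1 = (P k).2 := by rw [hLe]; ring
        rw [this]; exact hP.1
      have h2 : (Q k).1 ≤ Rw ω (-L) := by
        rw [← Rw_spec ω hω2]
        have : -L + ω * (Q k).1 = (Q k).2 := by
          have : (Q k).1 = s - (P k).1 := by linarith
          rw [this, hLe]; linarith
        rw [this]; exact hQ.1
      linarith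
    have hFk : Fz (P k) (Q k) = s * (2 * L + 40 * (10000 - ω)) := by
      unfold Fz
      have h1 : P k + Q k = s • ((1 : ℝ), ω) := hPQs
      rw [h1, NN_smul s hs0, NN_one ω (by linarith)]
      have h2 : cross (Q k) (P k) = s * L := by
        unfold cross
        have h3 : (Q k).1 = s - (P k).1 := by linarith
        have h4 : (Q k).2 = s * ω - (P k).2 := by linarith
        rw [h3, h4, hLe]; ring
      rw [h2]; ring
    have hFk2 : 7.79 * 10 ^ 9 ≤ s * (2 * L + 40 * (10000 - ω)) := by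
      have := hterm k hk
      rw [hFk] at this
      linarith
    have hspos : 0 < s := by
      rcases hs0.lt_or_eq with h | h
      · exact h
      · rw [← h] at hFk2
        norm_num at hFk2
    obtain ⟨mk, hLmk, hmkW, hsmk, hmax⟩ := exists_level ω hω s L hspos hL0 hLW hsL
    have hmk0 : 0 ≤ mk := hL0.trans hLmk
    have hFmk : Fz (P k) (Q k) ≤ FR (Rw ω) (10000 - ω) mk := by
      rw [hFk]
      unfold FR
      rw [← hsmk]
      exact mul_le_mul_of_nonneg_left (by linarith) hs0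
    have hup := gRw_upper ω hω mk hmkW
    rw [← hsmk] at hup
    have hFmk2 : 7.79 * 10 ^ 9 ≤ s * (2 * mk + 40 * (10000 - ω)) := by
      have h1 : s * (2 * L + 40 * (10000 - ω)) ≤ s * (2 * mk + 40 * (10000 - ω)) :=
        mul_le_mul_of_nonneg_left (by linarith) hs0
      linarith
    set W := 10000 - ω with hW
    have hmk300 : mk ≤ 300 := by
      by_contra hcon
      push Not at hcon
      have h1 : s * (2 * mk + 40 * W) ≤ 2.0002 * (W - mk) * (2 * mk + 40 * W) :=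
        mul_le_mul_of_nonneg_right hup (by linarith [hWb.1])
      have h2 : 2.0002 * (W - mk) * (2 * mk + 40 * W) ≤ 7.789 * 10 ^ 9 := by
        have h3 : (W - mk) * (2 * mk + 40 * W) = 40 * W ^ 2 - 38 * W * mk - 2 * mk ^ 2 := by ring
        have h4 : W ^ 2 ≤ 100001000 := by nlinarith [hWb.1, hWb.2]
        have h5 : 9999 * 300 ≤ W * mk := by nlinarith [hWb.1]
        nlinarith
      linarith
    refine ⟨mk, hmk0, hmk300, hsmk, ?_, hmax, hFmk⟩
    nlinarith [hWb.2]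
  choose! mk hmk using hlevel
  refine ⟨x0, ω, r, mk, Fs, hω, hr, hcov', hall, hFs0, hFs, hlow,
    fun k hk => ⟨(hmk k hk).1, (hmk k hk).2.1, (hmk k hk).2.2.1, (hmk k hk).2.2.2.1,
      (hmk k hk).2.2.2.2.1⟩, ?_⟩
  refine le_trans (Finset.sum_le_sum fun k hk => ?_) hsum
  have := (hmk k (Finset.mem_range.1 hk)).2.2.2.2.2
  linarith

end ZZ
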