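import Pool.Agent.Helper32.ZZ.Defs

/-!
Module J (by helper25): the zigzag covering.
-/

open MeasureTheory Set Pointwise
open scoped ENNReal

namespace ZZ

theorem modJ_cont {F : ℝ → ℝ} (hlip : ∀ s t, |F s - F t| ≤ 1.001 * |s - t|) : Continuous F := by
  have : LipschitzWith 1.001 F := by
    apply LipschitzWith.of_dist_le_mul
    intro x y
    rw [Real.dist_eq, Real.dist_eq]
    have := hlip x y
    norm_num at this ⊢
    exact this
  exact this.continuous

/-- lower expansion of `e⁺` -/
theorem modJ_eP_low (F : ℝ → ℝ) (hlip : ∀ s t, |F s - F t| ≤ 1.001 * |s - t|) (W m t a : ℝ)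
    (hW0 : 0 ≤ W - t) (hW1 : W - t ≤ 10003) (ha : 0 ≤ a)
    (hF : F m - a * (t - m) - (t - m) ^ 2 / 6 ≤ F t) :
    eP F W m + (21 * F m - 20 * a * (W - m)) * (t - m) - 33500 * (t - m) ^ 2 ≤ eP F W t := by
  have hc := modJ_cont hlip
  have hi : ∀ x y, IntervalIntegrable F volume x y := fun x y => hc.intervalIntegrable x y
  have e1 : (∫ y in (0:ℝ)..t, F y) = (∫ y in (0:ℝ)..m, F y) + ∫ y in m..t, F y :=
    (intervalIntegral.integral_add_adjacent_intervals (hi _ _) (hi _ _)).symm
  have e2 : (∫ y in m..W, F y) = (∫ y in m..t, F y) + ∫ y in t..W, F y :=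
    (intervalIntegral.integral_add_adjacent_intervals (hi _ _) (hi _ _)).symm
  have e3 : ‖∫ y in m..t, (F y - F m)‖ ≤ (1.001 * |t - m|) * |t - m| := by
    apply intervalIntegral.norm_integral_le_of_norm_le_const
    intro y hy
    rw [Real.norm_eq_abs]
    refine le_trans (hlip y m) ?_
    have : |y - m| ≤ |t - m| := by
      rcases le_total m t with h | h
      · rw [uIoc_of_le h] at hy
        rw [abs_of_nonneg (by linarith [hy.1] : 0 ≤ y - m), abs_of_nonneg (by linarith)]
        linarith [hy.2]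
      · rw [uIoc_of_ge h] at hy
        rw [abs_of_nonpos (by linarith [hy.2] : y - m ≤ 0), abs_of_nonpos (by linarith)]
        linarith [hy.1]
    nlinarith
  have e4 : (∫ y in m..t, (F y - F m)) = (∫ y in m..t, F y) - (t - m) * F m := by
    rw [intervalIntegral.integral_sub (hi _ _) intervalIntegrable_const]
    simp
  rw [e4, Real.norm_eq_abs] at e3
  have e5 : |t - m| * |t - m| = (t - m) ^ 2 := by
    rw [← abs_mul, abs_of_nonneg (mul_self_nonneg _)]; ring
  have e6 := (abs_le.1 e3).1
  have e7 : (1.001 * |t - m|) * |t - m| = 1.001 * (t - m) ^ 2 := by rw [mul_assoc, e5]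
  rw [e7] at e6
  unfold eP
  rw [e1, e2]
  set I := ∫ y in m..t, F y
  have h1 : (F m - a * (t - m) - (t - m) ^ 2 / 6) * (W - t) ≤ F t * (W - t) :=
    mul_le_mul_of_nonneg_right hF hW0
  have h2 : 0 ≤ (t - m) ^ 2 := sq_nonneg _
  nlinarith [mul_nonneg h2 ha, mul_nonneg h2 (sub_nonneg.2 hW1)]

/-- extremal choice: `ρ(u) = R(a) + 20 R((u-a)/20)`, `a` the clamp of `u/21` to `[-b,t]` -/
noncomputable def modJ_cl (t b u : ℝ) : ℝ := max (-b) (min (u / 21) t)

noncomputable def modJ_rho (R : ℝ → ℝ) (t b u : ℝ) : ℝ :=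
  R (modJ_cl t b u) + 20 * R ((u - modJ_cl t b u) / 20)

theorem modJ_cl_cont (t b : ℝ) : Continuous (modJ_cl t b) := by
  unfold modJ_cl; fun_prop

theorem modJ_rho_cont {R : ℝ → ℝ} (hc : Continuous R) (t b : ℝ) : Continuous (modJ_rho R t b) := by
  have := modJ_cl_cont t b
  unfold modJ_rho; fun_prop

theorem modJ_cl_mem {t b : ℝ} (h : -b ≤ t) (u : ℝ) : -b ≤ modJ_cl t b u ∧ modJ_cl t b u ≤ t := by
  unfold modJ_cl
  exact ⟨le_max_left _ _, max_le h (min_le_right _ _)⟩

theorem modJ_k_mem {t b W : ℝ} (h : -b ≤ t) (hb : |b| ≤ W) (ht : |t| ≤ W) (u : ℝ)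
    (h1 : -(20 * W + b) ≤ u) (h2 : u ≤ 20 * W + t) : |(u - modJ_cl t b u) / 20| ≤ W := by
  have hb' := abs_le.1 hb
  have ht' := abs_le.1 ht
  rw [abs_le]
  unfold modJ_cl
  rcases le_total (u / 21) t with h3 | h3
  · rw [min_eq_left h3]
    rcases le_total (-b) (u / 21) with h4 | h4
    · rw [max_eq_right h4]
      constructor <;> linarith
    · rw [max_eq_left h4]
      constructor <;> linarith
  · rw [min_eq_right h3, max_eq_right h]
    constructor <;> linarith

theorem modJ_int_rho {R : ℝ → ℝ} (hc : Continuous R) (t b W : ℝ) (h : -b ≤ t) (hb : b ≤ W)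
    (ht : t ≤ W) :
    (∫ u in (-(20 * W + b))..(20 * W + t), modJ_rho R t b u) = eP R W t + eM R W b := by
  have hr := modJ_rho_cont hc t b
  have hi : ∀ x y, IntervalIntegrable (modJ_rho R t b) volume x y := fun x y => hr.intervalIntegrable x y
  have hiR : ∀ x y, IntervalIntegrable R volume x y := fun x y => hc.intervalIntegrable x y
  rw [← intervalIntegral.integral_add_adjacent_intervals (hi (-(20 * W + b)) (-(21 * b)))
    (hi (-(21 * b)) (20 * W + t)),
    ← intervalIntegral.integral_add_adjacent_intervals (hi (-(21 * b)) (21 * t))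
    (hi (21 * t) (20 * W + t))]
  have e1 : (∫ u in (-(20 * W + b))..(-(21 * b)), modJ_rho R t b u) =
      20 * R (-b) * (W - b) + 400 * ∫ y in b..W, R (-y) := by
    have : (∫ u in (-(20 * W + b))..(-(21 * b)), modJ_rho R t b u) =
        ∫ u in (-(20 * W + b))..(-(21 * b)), (R (-b) + 20 * R (u / 20 - (-b / 20))) := by
      apply intervalIntegral.integral_congr
      intro u hu
      rw [uIcc_of_le (by linarith)] at hu
      have : modJ_cl t b u = -b := by
        unfold modJ_cl
        have : u / 21 ≤ -b := by linarith [hu.2]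
        rw [min_eq_left (by linarith), max_eq_left this]
      simp only [modJ_rho, this]
      congr 3
      ring
    rw [this, intervalIntegral.integral_add intervalIntegrable_const
      ((Continuous.intervalIntegrable (by fun_prop)) _ _)]
    rw [intervalIntegral.integral_const_mul,
      intervalIntegral.integral_comp_div_sub (fun x => R x) (by norm_num : (20:ℝ) ≠ 0)]
    rw [intervalIntegral.integral_const]
    have e : (∫ y in b..W, R (-y)) = ∫ y in (-W)..(-b), R y := by
      rw [intervalIntegral.integral_comp_neg]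
    rw [e]
    have e' : (-(20 * W + b)) / 20 - (-b / 20) = -W := by ring
    have e'' : (-(21 * b)) / 20 - (-b / 20) = -b := by ring
    rw [e', e'']
    simp only [smul_eq_mul]
    ring
  have e2 : (∫ u in (-(21 * b))..(21 * t), modJ_rho R t b u) =
      441 * ((∫ y in (0:ℝ)..t, R y) + ∫ y in (0:ℝ)..b, R (-y)) := by
    have : (∫ u in (-(21 * b))..(21 * t), modJ_rho R t b u) =
        ∫ u in (-(21 * b))..(21 * t), 21 * R (u / 21) := by
      apply intervalIntegral.integral_congr
      intro u hu
      rw [uIcc_of_le (by linarith)] at hu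
      have : modJ_cl t b u = u / 21 := by
        unfold modJ_cl
        have h1 : u / 21 ≤ t := by linarith [hu.2]
        have h2 : -b ≤ u / 21 := by linarith [hu.1]
        rw [min_eq_left h1, max_eq_right h2]
      simp only [modJ_rho, this]
      have e : (u - u / 21) / 20 = u / 21 := by ring
      rw [e]; ring
    rw [this, intervalIntegral.integral_const_mul,
      intervalIntegral.integral_comp_div (fun x => R x) (by norm_num : (21:ℝ) ≠ 0)]
    have e' : (-(21 * b)) / 21 = -b := by ring
    have e'' : (21 * t) / 21 = t := by ring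
    rw [e', e'']
    have e3 : (∫ y in (0:ℝ)..b, R (-y)) = ∫ y in (-b)..0, R y := by
      rw [intervalIntegral.integral_comp_neg]; simp
    have e4 : (∫ y in (-b)..t, R y) = (∫ y in (-b)..0, R y) + ∫ y in (0:ℝ)..t, R y :=
      (intervalIntegral.integral_add_adjacent_intervals (hiR _ _) (hiR _ _)).symm
    rw [e3, e4]
    simp only [smul_eq_mul]
    ring
  have e3 : (∫ u in (21 * t)..(20 * W + t), modJ_rho R t b u) =
      20 * R t * (W - t) + 400 * ∫ y in t..W, R y := by
    have : (∫ u in (21 * t)..(20 * W + t), modJ_rho R t b u) =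
        ∫ u in (21 * t)..(20 * W + t), (R t + 20 * R (u / 20 - t / 20)) := by
      apply intervalIntegral.integral_congr
      intro u hu
      rw [uIcc_of_le (by linarith)] at hu
      have : modJ_cl t b u = t := by
        unfold modJ_cl
        have : t ≤ u / 21 := by linarith [hu.1]
        rw [min_eq_right this, max_eq_right h]
      simp only [modJ_rho, this]
      congr 3
      ring
    rw [this, intervalIntegral.integral_add intervalIntegrable_const
      ((Continuous.intervalIntegrable (by fun_prop)) _ _)]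
    rw [intervalIntegral.integral_const_mul,
      intervalIntegral.integral_comp_div_sub (fun x => R x) (by norm_num : (20:ℝ) ≠ 0)]
    rw [intervalIntegral.integral_const]
    have e' : (21 * t) / 20 - (t / 20) = t := by ring
    have e'' : (20 * W + t) / 20 - (t / 20) = W := by ring
    rw [e', e'']
    simp only [smul_eq_mul]
    ring
  rw [e1, e2, e3]
  unfold eM eP
  ring

/-- centres of the zigzag -/
noncomputable def modJ_x (G₁ G₂ : ℝ) : ℕ → ℝ
  | 0 => 0
  | (i + 1) => modJ_x G₁ G₂ i + if Even i then G₁ else G₂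

noncomputable def modJ_y (δ : ℝ) (i : ℕ) : ℝ := if Even i then δ else -δ

theorem modJ_x_even (G₁ G₂ : ℝ) (j : ℕ) : modJ_x G₁ G₂ (2 * j) = j * (G₁ + G₂) := by
  induction j with
  | zero => simp [modJ_x]
  | succ j ih =>
    have e : 2 * (j + 1) = (2 * j + 1) + 1 := by ring
    rw [e]
    simp only [modJ_x]
    have h1 : Even (2 * j) := even_two_mul j
    have h2 : ¬ Even (2 * j + 1) := by
      rw [Nat.not_even_iff_odd]; exact ⟨j, rfl⟩
    rw [if_pos h1, if_neg h2, ih]
    push_cast
    ring

theorem modJ_x_odd (G₁ G₂ : ℝ) (j : ℕ) :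
    modJ_x G₁ G₂ (2 * j + 1) = j * (G₁ + G₂) + G₁ := by
  simp only [modJ_x]
  rw [if_pos (even_two_mul j), modJ_x_even]

/-- chain covering -/
theorem modJ_chain (l r : ℕ → ℝ) (x : ℝ) (N : ℕ) (h0 : l 0 ≤ x) (hN : x ≤ r N)
    (hov : ∀ i < N, l (i + 1) ≤ r i) : ∃ i ≤ N, l i ≤ x ∧ x ≤ r i := by
  induction N with
  | zero => exact ⟨0, le_refl _, h0, hN⟩
  | succ N ih =>
    by_cases h : l (N + 1) ≤ x
    · exact ⟨N + 1, le_refl _, h, hN⟩
    · obtain ⟨i, hi, h1⟩ := ih (by
        have := hov N (Nat.lt_succ_self N)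
        linarith [not_le.1 h]) (fun i hi => hov i (by omega))
      exact ⟨i, by omega, h1⟩

theorem modJ_conc {R : ℝ → ℝ} (h : ConcaveOn ℝ univ R) {a b x y : ℝ} (ha : 0 ≤ a) (hb : 0 ≤ b)
    (hab : a + b = 1) : a * R x + b * R y ≤ R (a * x + b * y) := by
  have := h.2 (mem_univ x) (mem_univ y) ha hb hab
  simpa using this

/-- even concave function -/
theorem modJ_even {R : ℝ → ℝ} (h : ConcaveOn ℝ univ R) {m d t : ℝ} (hm : 0 < m) (h1 : -m ≤ t)
    (h2 : t ≤ m) : R (m - d) + R (-m - d) ≤ R (t - d) + R (-t - d) := by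
  have ha : 0 ≤ (t + m) / (2 * m) := by apply div_nonneg <;> linarith
  have hb : 0 ≤ (m - t) / (2 * m) := by apply div_nonneg <;> linarith
  have hab : (t + m) / (2 * m) + (m - t) / (2 * m) = 1 := by field_simp; ring
  have e1 := modJ_conc h (x := m - d) (y := -m - d) ha hb hab
  have e2 := modJ_conc h (x := m - d) (y := -m - d) hb ha (by linarith)
  have f1 : (t + m) / (2 * m) * (m - d) + (m - t) / (2 * m) * (-m - d) = t - d := by
    field_simp; ring
  have f2 : (m - t) / (2 * m) * (m - d) + (t + m) / (2 * m) * (-m - d) = -t - d := by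
    field_simp; ring
  rw [f1] at e1
  rw [f2] at e2
  have e3 : ((t + m) / (2 * m) + (m - t) / (2 * m)) * (R (m - d) + R (-m - d)) =
      R (m - d) + R (-m - d) := by rw [hab, one_mul]
  linarith [e1, e2, e3]

theorem modJ_KR_convex {R : ℝ → ℝ} (h : ConcaveOn ℝ univ R) : Convex ℝ (KR R) := by
  intro p hp q hq a b ha hb hab
  simp only [KR, mem_ofPred_eq, Prod.fst_add, Prod.smul_fst, Prod.snd_add, Prod.smul_snd,
    smul_eq_mul] at *
  have e1 := modJ_conc h (x := p.2) (y := q.2) ha hb hab
  have e2 := modJ_conc h (x := -p.2) (y := -q.2) ha hb hab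
  have f2 : a * -p.2 + b * -q.2 = -(a * p.2 + b * q.2) := by ring
  rw [f2] at e2
  constructor
  · nlinarith [mul_le_mul_of_nonneg_left hp.1 ha, mul_le_mul_of_nonneg_left hq.1 hb]
  · nlinarith [mul_le_mul_of_nonneg_left hp.2 ha, mul_le_mul_of_nonneg_left hq.2 hb]

/-- nonnegative slice length for `|t| ≤ W` -/
theorem modJ_gR_nonneg {R : ℝ → ℝ} (h : ConcaveOn ℝ univ R) {W : ℝ} (hW : 0 < W)
    (h0 : R W + R (-W) = 0) {t : ℝ} (ht : |t| ≤ W) : 0 ≤ R t + R (-t) := by
  have := modJ_even h (d := 0) hW (abs_le.1 ht).1 (abs_le.1 ht).2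
  simp only [sub_zero] at this
  linarith

/-- a set containing both ends of every horizontal slice has large area -/
theorem modJ_vol (E : Set (ℝ × ℝ)) (hE : Convex ℝ E) (A : ℝ) (hA : 0 ≤ A) (lo hi : ℝ → ℝ)
    (hlo : Continuous lo) (hhi : Continuous hi)
    (h : ∀ y, -A ≤ y → y ≤ A → (lo y, y) ∈ E ∧ (hi y, y) ∈ E) :
    ENNReal.ofReal (∫ y in (-A)..A, (hi y - lo y)) ≤ volume E := by
  set S : Set (ℝ × ℝ) := {p | -A ≤ p.2 ∧ p.2 ≤ A ∧ lo p.2 ≤ p.1 ∧ p.1 ≤ hi p.2} with hS
  have hSE : S ⊆ E := by
    rintro ⟨x, y⟩ ⟨h1, h2, h3, h4⟩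
    simp only at h1 h2 h3 h4
    obtain ⟨e1, e2⟩ := h y h1 h2
    rcases eq_or_lt_of_le (le_trans h3 h4) with h5 | h5
    · have : x = lo y := by linarith
      rw [this]; exact e1
    · have hd : 0 < hi y - lo y := by linarith
      have := hE e1 e2 (a := (hi y - x) / (hi y - lo y)) (b := (x - lo y) / (hi y - lo y))
        (div_nonneg (by linarith) hd.le) (div_nonneg (by linarith) hd.le)
        (by field_simp; ring)
      convert this using 1
      ext
      · simp only [Prod.fst_add, Prod.smul_fst, smul_eq_mul]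
        field_simp
        ring
      · simp only [Prod.snd_add, Prod.smul_snd, smul_eq_mul]
        field_simp
        ring
  have hSc : IsClosed S := by
    have c1 : Continuous fun p : ℝ × ℝ => lo p.2 := hlo.comp continuous_snd
    have c2 : Continuous fun p : ℝ × ℝ => hi p.2 := hhi.comp continuous_snd
    have : S = {p : ℝ × ℝ | -A ≤ p.2} ∩ ({p : ℝ × ℝ | p.2 ≤ A} ∩ ({p : ℝ × ℝ | lo p.2 ≤ p.1} ∩
        {p : ℝ × ℝ | p.1 ≤ hi p.2})) := by
      ext p; simp [hS]
    rw [this]
    exact (isClosed_le continuous_const continuous_snd).inter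
      ((isClosed_le continuous_snd continuous_const).inter
        ((isClosed_le c1 continuous_fst).inter (isClosed_le continuous_fst c2)))
  refine le_trans ?_ (measure_mono hSE)
  have hv : volume S = ∫⁻ y, volume ((fun x => (x, y)) ⁻¹' S) := by
    rw [Measure.volume_eq_prod, Measure.prod_apply_symm hSc.measurableSet]
  rw [hv]
  have hsl : ∀ y ∈ Icc (-A) A, volume ((fun x => (x, y)) ⁻¹' S) = ENNReal.ofReal (hi y - lo y) := by
    intro y hy
    have : (fun x => (x, y)) ⁻¹' S = Icc (lo y) (hi y) := by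
      ext x
      simp only [hS, mem_preimage, mem_ofPred_eq, mem_Icc]
      constructor
      · rintro ⟨_, _, h3, h4⟩; exact ⟨h3, h4⟩
      · rintro ⟨h3, h4⟩; exact ⟨hy.1, hy.2, h3, h4⟩
    rw [this, Real.volume_Icc]
  calc ENNReal.ofReal (∫ y in (-A)..A, (hi y - lo y))
      ≤ ENNReal.ofReal (∫ y in (-A)..A, max (hi y - lo y) 0) := by
        apply ENNReal.ofReal_le_ofReal
        apply intervalIntegral.integral_mono_on (by linarith)
        · exact (Continuous.intervalIntegrable (by fun_prop)) _ _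
        · exact (Continuous.intervalIntegrable (by fun_prop)) _ _
        · intro y _; exact le_max_left _ _
    _ = ENNReal.ofReal (∫ y in Icc (-A) A, max (hi y - lo y) 0) := by
        rw [intervalIntegral.integral_of_le (by linarith), integral_Icc_eq_integral_Ioc]
    _ = ∫⁻ y in Icc (-A) A, ENNReal.ofReal (max (hi y - lo y) 0) := by
        rw [ofReal_integral_eq_lintegral_ofReal]
        · exact (Continuous.integrableOn_Icc (by fun_prop))
        · exact Filter.Eventually.of_forall (fun y => le_max_right _ _)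
    _ = ∫⁻ y in Icc (-A) A, volume ((fun x => (x, y)) ⁻¹' S) := by
        apply setLIntegral_congr_fun measurableSet_Icc
        intro y hy
        simp only
        rw [hsl y hy]
        rcases le_total (hi y - lo y) 0 with h5 | h5
        · rw [max_eq_right h5, ENNReal.ofReal_of_nonpos h5, ENNReal.ofReal_zero]
        · rw [max_eq_left h5]
    _ ≤ ∫⁻ y, volume ((fun x => (x, y)) ⁻¹' S) := setLIntegral_le_lintegral _ _

/-- the zigzag set: between a left boundary and a right boundary -/
def modJ_Z (R : ℝ → ℝ) (m δ X : ℝ) : Set (ℝ × ℝ) :=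
  {p | -m ≤ p.2 ∧ p.2 ≤ m ∧ -R (-p.2 + δ) ≤ p.1 ∧ p.1 ≤ X + R (p.2 + δ)}

theorem modJ_Z_convex {R : ℝ → ℝ} (h : ConcaveOn ℝ univ R) (m δ X : ℝ) :
    Convex ℝ (modJ_Z R m δ X) := by
  intro p hp q hq a b ha hb hab
  simp only [modJ_Z, mem_ofPred_eq, Prod.fst_add, Prod.smul_fst, Prod.snd_add, Prod.smul_snd,
    smul_eq_mul] at *
  obtain ⟨p1, p2, p3, p4⟩ := hp
  obtain ⟨q1, q2, q3, q4⟩ := hq
  have e1 := modJ_conc h (x := p.2 + δ) (y := q.2 + δ) ha hb hab
  have e2 := modJ_conc h (x := -p.2 + δ) (y := -q.2 + δ) ha hb hab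
  have hb' : b = 1 - a := by linarith
  have f1 : a * (p.2 + δ) + b * (q.2 + δ) = (a * p.2 + b * q.2) + δ := by
    rw [hb']; ring
  have f2 : a * (-p.2 + δ) + b * (-q.2 + δ) = -(a * p.2 + b * q.2) + δ := by
    rw [hb']; ring
  rw [f1] at e1
  rw [f2] at e2
  have hX : a * X + b * X = X := by rw [hb']; ring
  have hm' : a * m + b * m = m := by rw [hb']; ring
  refine ⟨?_, ?_, ?_, ?_⟩
  · nlinarith [mul_le_mul_of_nonneg_left p1 ha, mul_le_mul_of_nonneg_left q1 hb]
  · nlinarith [mul_le_mul_of_nonneg_left p2 ha, mul_le_mul_of_nonneg_left q2 hb]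
  · nlinarith [mul_le_mul_of_nonneg_left p3 ha, mul_le_mul_of_nonneg_left q3 hb]
  · nlinarith [mul_le_mul_of_nonneg_left p4 ha, mul_le_mul_of_nonneg_left q4 hb]

theorem modJ_Z_compact {R : ℝ → ℝ} (hc : Continuous R) (m δ X : ℝ) :
    IsCompact (modJ_Z R m δ X) := by
  have c1 : Continuous fun p : ℝ × ℝ => -R (-p.2 + δ) := by fun_prop
  have c2 : Continuous fun p : ℝ × ℝ => X + R (p.2 + δ) := by fun_prop
  have hcl : IsClosed (modJ_Z R m δ X) := by
    have : modJ_Z R m δ X = {p : ℝ × ℝ | -m ≤ p.2} ∩ ({p : ℝ × ℝ | p.2 ≤ m} ∩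
        ({p : ℝ × ℝ | -R (-p.2 + δ) ≤ p.1} ∩ {p : ℝ × ℝ | p.1 ≤ X + R (p.2 + δ)})) := by
      ext p; simp [modJ_Z]
    rw [this]
    exact (isClosed_le continuous_const continuous_snd).inter
      ((isClosed_le continuous_snd continuous_const).inter
        ((isClosed_le c1 continuous_fst).inter (isClosed_le continuous_fst c2)))
  have d1 : Continuous fun t : ℝ => -R (-t + δ) := by fun_prop
  have d2 : Continuous fun t : ℝ => X + R (t + δ) := by fun_prop
  obtain ⟨a, ha⟩ := (isCompact_Icc (a := -m) (b := m)).bddBelow_image d1.continuousOn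
  obtain ⟨b, hb⟩ := (isCompact_Icc (a := -m) (b := m)).bddAbove_image d2.continuousOn
  apply IsCompact.of_isClosed_subset ((isCompact_Icc (a := a) (b := b)).prod
    (isCompact_Icc (a := -m) (b := m))) hcl
  rintro ⟨x, t⟩ ⟨h1, h2, h3, h4⟩
  simp only at h1 h2 h3 h4
  refine ⟨⟨?_, ?_⟩, h1, h2⟩
  · exact le_trans (ha ⟨t, ⟨h1, h2⟩, rfl⟩) h3
  · exact le_trans h4 (hb ⟨t, ⟨h1, h2⟩, rfl⟩)

theorem modJ_Z_cov {R : ℝ → ℝ} (h : ConcaveOn ℝ univ R) (m δ : ℝ) (hm : 0 < m) (k : ℕ) :
    CoveredBy (KR R) (2 * (k + 1))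
      (modJ_Z R m δ (modJ_x (R (m - δ) + R (-m - δ)) (R (m + δ) + R (-m + δ)) (2 * k + 1))) := by
  set x := modJ_x (R (m - δ) + R (-m - δ)) (R (m + δ) + R (-m + δ)) with hx
  refine ⟨fun i => (x i, modJ_y δ i), ?_⟩
  rintro ⟨u, t⟩ ⟨h1, h2, h3, h4⟩
  simp only at h1 h2 h3 h4
  obtain ⟨i, hi, h5, h6⟩ := modJ_chain (fun i => x i - R (-(t - modJ_y δ i)))
    (fun i => x i + R (t - modJ_y δ i)) u (2 * k + 1)
    (by
      have : modJ_y δ 0 = δ := by simp [modJ_y]
      simp only [this]
      have e : x 0 = 0 := rfl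
      rw [e]
      have e2 : -(t - δ) = -t + δ := by ring
      rw [e2]
      linarith)
    (by
      have : modJ_y δ (2 * k + 1) = -δ := by
        unfold modJ_y
        rw [if_neg]
        rw [Nat.not_even_iff_odd]; exact ⟨k, rfl⟩
      simp only [this]
      have e2 : t - -δ = t + δ := by ring
      rw [e2]
      exact h4)
    (by
      intro i hi
      by_cases he : Even i
      · have y1 : modJ_y δ i = δ := by simp [modJ_y, he]
        have y2 : modJ_y δ (i + 1) = -δ := by
          unfold modJ_y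
          rw [if_neg]
          rw [Nat.not_even_iff_odd]; exact he.add_one
        simp only [y1, y2]
        have e : x (i + 1) = x i + (R (m - δ) + R (-m - δ)) := by
          rw [hx]; simp only [modJ_x]; rw [if_pos he]
        rw [e]
        have := modJ_even h (d := δ) hm h1 h2
        have e2 : -(t - -δ) = -t - δ := by ring
        rw [e2]
        linarith
      · have y1 : modJ_y δ i = -δ := by simp [modJ_y, he]
        have y2 : modJ_y δ (i + 1) = δ := by
          unfold modJ_y
          rw [if_pos]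
          rw [Nat.not_even_iff_odd] at he; exact he.add_one
        simp only [y1, y2]
        have e : x (i + 1) = x i + (R (m + δ) + R (-m + δ)) := by
          rw [hx]; simp only [modJ_x]; rw [if_neg he]
        rw [e]
        have := modJ_even h (d := -δ) hm h1 h2
        have e2 : -(t - δ) = -t - -δ := by ring
        have e3 : m + δ = m - -δ := by ring
        have e4 : -m + δ = -m - -δ := by ring
        rw [e2, e3, e4]
        linarith)
  rw [mem_iUnion]
  refine ⟨⟨i, by omega⟩, ?_⟩
  rw [Set.mem_vadd_set_iff_neg_vadd_mem]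
  simp only [KR, mem_ofPred_eq, vadd_eq_add, Prod.fst_add, Prod.snd_add, Prod.fst_neg, Prod.snd_neg]
  have e1 : -modJ_y δ i + t = t - modJ_y δ i := by ring
  rw [e1]
  constructor
  · linarith
  · linarith

theorem zigzag {R : ℝ → ℝ} {W c m α β : ℝ} (h : Hyp R W c m α β) (n : ℕ) (hn : Even n)
    (hn2 : 100 ≤ n) :
    ∃ Z, Admissible (KR R) n Z ∧
      ENNReal.ofReal (MM R W m (n - 1) + 1 / 10 ^ 9 / n) ≤ volume (Z + (20 : ℝ) • KR R) := by
  obtain ⟨k0, hk0⟩ := hn
  obtain ⟨k, rfl⟩ : ∃ k, n = 2 * (k + 1) := ⟨k0 - 1, by omega⟩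
  have hc := modJ_cont h.lip
  have hnpos : (100:ℝ) ≤ ((2 * (k + 1) : ℕ) : ℝ) := by exact_mod_cast hn2
  set n : ℝ := ((2 * (k + 1) : ℕ) : ℝ) with hnr
  have hkn : (k : ℝ) = n / 2 - 1 := by rw [hnr]; push_cast; ring
  set δ : ℝ := -(3 / 20000000) / n with hδ
  have hδ0 : δ < 0 := by rw [hδ]; apply div_neg_of_neg_of_pos <;> linarith
  have hδ1 : -1 / 1000 ≤ δ := by
    rw [hδ, le_div_iff₀ (by linarith)]
    linarith
  set G₁ := R (m - δ) + R (-m - δ) with hG₁
  set G₂ := R (m + δ) + R (-m + δ) with hG₂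
  set X := modJ_x G₁ G₂ (2 * k + 1) with hX
  have hXv : X = k * (G₁ + G₂) + G₁ := modJ_x_odd _ _ _
  have hm0 : 0 < m := by linarith [h.m_lo]
  have hRW : R W + R (-W) = 0 := by rw [h.RW, h.RnW]; ring
  have hWpos : 0 < W := by linarith [h.W_lo]
  -- values of R near 0
  have hR1 : ∀ s, |s| ≤ 1 → 9990 ≤ R s := by
    intro s hs
    have h1 := (abs_le.1 (h.lip s m)).1
    have h2 : |s - m| ≤ 2 := by
      have := abs_le.1 hs
      rw [abs_le]
      constructor <;> linarith [h.m_lo, h.m_hi]
    have := h.Rm_lo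
    linarith
  have hX0 : 0 ≤ X := by
    have g1 : 0 ≤ G₁ := by
      have := hR1 (m - δ) (by rw [abs_le]; constructor <;> linarith [h.m_lo, h.m_hi])
      have := hR1 (-m - δ) (by rw [abs_le]; constructor <;> linarith [h.m_lo, h.m_hi])
      linarith
    have g2 : 0 ≤ G₂ := by
      have := hR1 (m + δ) (by rw [abs_le]; constructor <;> linarith [h.m_lo, h.m_hi])
      have := hR1 (-m + δ) (by rw [abs_le]; constructor <;> linarith [h.m_lo, h.m_hi])
      linarith
    rw [hXv]
    have : (0:ℝ) ≤ k := Nat.cast_nonneg k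
    linarith [mul_nonneg this (add_nonneg g1 g2)]
  refine ⟨modJ_Z R m δ X, ⟨modJ_Z_compact hc m δ X, modJ_Z_convex h.conc m δ X,
    modJ_Z_cov h.conc m δ hm0 k⟩, ?_⟩
  -- lower bound of the volume
  set t := m + δ with ht
  set b := m - δ with hb
  have hbt : -b ≤ t := by rw [ht, hb]; linarith
  have hE : Convex ℝ (modJ_Z R m δ X + (20 : ℝ) • KR R) :=
    (modJ_Z_convex h.conc m δ X).add ((modJ_KR_convex h.conc).smul 20)
  have hr := modJ_rho_cont hc t b
  have key := modJ_vol _ hE (20 * W + m) (by linarith)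
    (fun y => -modJ_rho R t b (-y + δ)) (fun y => X + modJ_rho R t b (y + δ))
    (by fun_prop) (by fun_prop)
    (by
      intro y hy1 hy2
      have hZm : ∀ a, -m ≤ a → a ≤ m → 9990 ≤ R (a + δ) ∧ 9990 ≤ R (-a + δ) := by
        intro a h1 h2
        constructor
        · apply hR1; rw [abs_le]; constructor <;> linarith [h.m_lo, h.m_hi]
        · apply hR1; rw [abs_le]; constructor <;> linarith [h.m_lo, h.m_hi]
      constructor
      · -- left end
        set u := -y + δ with hu
        have hcl := modJ_cl_mem hbt u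
        have hk := modJ_k_mem (W := W) hbt
          (by rw [abs_le]; constructor <;> linarith [h.m_lo, h.m_hi, h.W_lo])
          (by rw [abs_le]; constructor <;> linarith [h.m_lo, h.m_hi, h.W_lo]) u
          (by linarith) (by linarith)
        have hg := modJ_gR_nonneg h.conc hWpos hRW hk
        set a := modJ_cl t b u with ha
        set κ := (u - a) / 20 with hκ
        refine Set.mem_add.2 ⟨(-R a, δ - a), ?_, ((20:ℝ) * (-R κ), (20:ℝ) * (-κ)), ?_, ?_⟩
        · refine ⟨?_, ?_, ?_, ?_⟩
          · simp only; linarith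
          · simp only; linarith
          · simp only
            have : -(δ - a) + δ = a := by ring
            rw [this]
          · simp only
            have h1 := (hZm (δ - a) (by linarith) (by linarith)).1
            have h2 := (hZm (δ - a) (by linarith) (by linarith)).2
            have : -(δ - a) + δ = a := by ring
            rw [this] at h2
            linarith
        · rw [Set.mem_smul_set]
          refine ⟨(-R κ, -κ), ⟨?_, ?_⟩, rfl⟩
          · simp only; linarith
          · simp only [neg_neg]; exact le_refl _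
        · simp only [Prod.mk_add_mk]
          unfold modJ_rho
          rw [← ha, ← hκ]
          ext
          · simp only; ring
          · simp only
            rw [hκ, hu]; ring
      · set u := y + δ with hu
        have hcl := modJ_cl_mem hbt u
        have hk := modJ_k_mem (W := W) hbt
          (by rw [abs_le]; constructor <;> linarith [h.m_lo, h.m_hi, h.W_lo])
          (by rw [abs_le]; constructor <;> linarith [h.m_lo, h.m_hi, h.W_lo]) u
          (by linarith) (by linarith)
        have hg := modJ_gR_nonneg h.conc hWpos hRW hk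
        set a := modJ_cl t b u with ha
        set κ := (u - a) / 20 with hκ
        refine Set.mem_add.2 ⟨(X + R a, a - δ), ?_, ((20:ℝ) * (R κ), (20:ℝ) * κ), ?_, ?_⟩
        · refine ⟨?_, ?_, ?_, ?_⟩
          · simp only; linarith
          · simp only; linarith
          · simp only
            have h1 := (hZm (a - δ) (by linarith) (by linarith)).1
            have h2 := (hZm (a - δ) (by linarith) (by linarith)).2
            have : a - δ + δ = a := by ring
            rw [this] at h1
            linarith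
          · simp only
            have : a - δ + δ = a := by ring
            rw [this]
        · rw [Set.mem_smul_set]
          refine ⟨(R κ, κ), ⟨?_, ?_⟩, rfl⟩
          · simp only; exact le_refl _
          · simp only; linarith
        · simp only [Prod.mk_add_mk]
          unfold modJ_rho
          rw [← ha, ← hκ]
          ext
          · simp only; ring
          · simp only
            rw [hκ, hu]; ring)
  refine le_trans (ENNReal.ofReal_le_ofReal ?_) key
  -- compute the integral
  have hiv : ∀ p q, IntervalIntegrable (fun y => modJ_rho R t b (y + δ)) volume p q :=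
    fun p q => (Continuous.intervalIntegrable (by fun_prop)) _ _
  have hiv' : ∀ p q, IntervalIntegrable (fun y => modJ_rho R t b (-y + δ)) volume p q :=
    fun p q => (Continuous.intervalIntegrable (by fun_prop)) _ _
  have I1 : (∫ y in (-(20 * W + m))..(20 * W + m), modJ_rho R t b (y + δ)) =
      eP R W t + eM R W b := by
    rw [intervalIntegral.integral_comp_add_right (fun x => modJ_rho R t b x)]
    have e1 : -(20 * W + m) + δ = -(20 * W + b) := by rw [hb]; ring
    have e2 : 20 * W + m + δ = 20 * W + t := by rw [ht]; ring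
    rw [e1, e2]
    exact modJ_int_rho hc t b W hbt (by linarith [h.m_hi, h.W_lo]) (by linarith [h.m_hi, h.W_lo])
  have I2 : (∫ y in (-(20 * W + m))..(20 * W + m), modJ_rho R t b (-y + δ)) =
      eP R W t + eM R W b := by
    rw [← I1, intervalIntegral.integral_comp_neg (fun x => modJ_rho R t b (x + δ)), neg_neg]
  have I3 : (∫ y in (-(20 * W + m))..(20 * W + m),
      (X + modJ_rho R t b (y + δ) - -modJ_rho R t b (-y + δ))) =
      X * (2 * m + 40 * W) + 2 * (eP R W t + eM R W b) := by
    have : (fun y => X + modJ_rho R t b (y + δ) - -modJ_rho R t b (-y + δ)) =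
        fun y => (X + modJ_rho R t b (y + δ)) + modJ_rho R t b (-y + δ) := by
      funext y; ring
    rw [this, intervalIntegral.integral_add
      ((Continuous.intervalIntegrable (by fun_prop)) _ _) (hiv' _ _),
      intervalIntegral.integral_add intervalIntegrable_const (hiv _ _), I1, I2,
      intervalIntegral.integral_const]
    simp only [smul_eq_mul]
    ring
  rw [I3]
  -- expansions
  have P := modJ_eP_low R h.lip W m t α (by linarith [h.m_hi, h.W_lo]) (by linarith [h.m_lo, h.W_hi])
    (by linarith [h.α_lo]) (by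
      have := h.lo1 δ
      have e : t - m = δ := by rw [ht]; ring
      rw [e]
      exact this)
  have hlip' : ∀ s t, |R (-s) - R (-t)| ≤ 1.001 * |s - t| := by
    intro s t
    have := h.lip (-s) (-t)
    have e : |-s - -t| = |s - t| := by rw [← abs_neg]; congr 1; ring
    rwa [e] at this
  have Q := modJ_eP_low (fun y => R (-y)) hlip' W m b β (by linarith [h.m_hi, h.W_lo])
    (by linarith [h.m_lo, h.W_hi]) (by linarith [h.β_lo]) (by
      have := h.lo2 (-δ)
      have e : b - m = -δ := by rw [hb]; ring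
      have e2 : -b = -m - -δ := by rw [hb]; ring
      change R (-m) - β * (b - m) - (b - m) ^ 2 / 6 ≤ R (-b)
      rw [e, e2]
      linarith)
  have e1 : t - m = δ := by rw [ht]; ring
  have e2 : b - m = -δ := by rw [hb]; ring
  rw [e1] at P
  rw [e2] at Q
  change eM R W m + _ - _ ≤ eM R W b at Q
  have l1 := h.lo1 δ
  have l2 := h.lo1 (-δ)
  have l3 := h.lo2 δ
  have l4 := h.lo2 (-δ)
  have g1 : gR R m + (α - β) * δ - δ ^ 2 / 3 ≤ G₁ := by
    rw [hG₁]; unfold gR
    have : b = m + -δ := by rw [hb]; ring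
    rw [this]
    linarith
  have g2 : gR R m - (α - β) * δ - δ ^ 2 / 3 ≤ G₂ := by
    rw [hG₂]; unfold gR
    have : -m + δ = -m - -δ := by ring
    rw [this, ht]
    linarith
  have hk0' : (0:ℝ) ≤ k := Nat.cast_nonneg k
  have gX : (n - 1) * gR R m + (α - β) * δ - (n - 1) * (δ ^ 2 / 3) ≤ X := by
    rw [hXv]
    have hh : (k:ℝ) * (gR R m + (α - β) * δ - δ ^ 2 / 3 + (gR R m - (α - β) * δ - δ ^ 2 / 3))
        ≤ k * (G₁ + G₂) := mul_le_mul_of_nonneg_left (add_le_add g1 g2) hk0'
    rw [hkn] at hh ⊢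
    linarith
  have hnn : ((2 * (k + 1) - 1 : ℕ) : ℝ) = n - 1 := by
    rw [hnr]
    have : 2 * (k + 1) - 1 = 2 * k + 1 := by omega
    rw [this]; push_cast; ring
  unfold MM FR
  rw [hnn]
  have hpos : 0 ≤ 2 * m + 40 * W := by linarith
  have hXm : ((n - 1) * gR R m + (α - β) * δ - (n - 1) * (δ ^ 2 / 3)) * (2 * m + 40 * W) ≤
      X * (2 * m + 40 * W) := mul_le_mul_of_nonneg_right gX hpos
  have hγ := h.gam
  -- 42 γ δ
  have hmain : 42 * ((α - β) * m + R m - R (-m)) * δ ≥ 42 / 1000 * (-δ) := by
    have := mul_nonneg_of_nonpos_of_nonpos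
      (by linarith : (α - β) * m + R m - R (-m) + 1 / 1000 ≤ 0) hδ0.le
    linarith
  have hδn : δ * n = -(3 / 20000000) := by rw [hδ]; field_simp
  have hδ2 : (n - 1) * (δ ^ 2 / 3) * (2 * m + 40 * W) ≤ 133400 * n * δ ^ 2 := by
    have : 2 * m + 40 * W ≤ 400200 := by linarith [h.m_hi, h.W_hi]
    have h2 : 0 ≤ (n - 1) * (δ ^ 2 / 3) := by
      apply mul_nonneg (by linarith)
      positivity
    have h3 : (n - 1) * (δ ^ 2 / 3) * (2 * m + 40 * W) ≤ (n - 1) * (δ ^ 2 / 3) * 400200 :=
      mul_le_mul_of_nonneg_left this h2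
    linarith [sq_nonneg δ]
  have hδ3 : 134000 * δ ^ 2 ≤ 1340 * n * δ ^ 2 := by
    have := mul_nonneg (sub_nonneg.2 hnpos) (sq_nonneg δ)
    linarith
  have hδ4 : n * δ ^ 2 = (3 / 20000000) * (-δ) := by
    have : n * δ ^ 2 = (δ * n) * δ := by ring
    rw [this, hδn]; ring
  have hfin : 1 / 10 ^ 9 / n ≤ 42 / 1000 * (-δ) - 134740 * ((3 / 20000000) * (-δ)) := by
    have : -δ = 3 / 20000000 / n := by rw [hδ]; ring
    rw [this]
    rw [div_le_iff₀ (by linarith)]
    have e : (42 / 1000 * (3 / 20000000 / n) - 134740 * (3 / 20000000 * (3 / 20000000 / n))) * n =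
      42 / 1000 * (3 / 20000000) - 134740 * (3 / 20000000 * (3 / 20000000)) := by
      field_simp
    rw [e]
    norm_num
  linarith

end ZZ
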