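import Pool.Agent.Helper32.ZZ.Asm6
import Pool.Agent.Helper32.ZZ.J

open MeasureTheory Set Pointwise
open scoped ENNReal

namespace ZZ

theorem not_collinear (n : ℕ) (hn : Even n) (hn2 : 10 ^ 22 ≤ n) (D : Set (ℝ × ℝ))
    (hopt : IsOptimal K0 20 n D) (x : Fin n → ℝ × ℝ) (hcov : D ⊆ ⋃ i, (x i +ᵥ K0)) :
    ¬ Collinear ℝ (range x) := by
  intro hcol
  obtain ⟨N, rfl⟩ : ∃ N, n = N + 1 := ⟨n - 1, by omega⟩
  have hN8 : 10 ^ 8 ≤ N := by
    have : 10 ^ 8 + 1 ≤ 10 ^ 22 := by norm_num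
    omega
  have hN6 : 10 ^ 6 ≤ N := le_trans (by norm_num) hN8
  have hnr : (10 ^ 22 : ℝ) ≤ ((N + 1 : ℕ) : ℝ) := by exact_mod_cast hn2
  push_cast at hnr
  have hN21 : (10 ^ 21 * 9 : ℝ) ≤ N := by linarith
  clear hn2 hnr
  have hNr : (10 ^ 8 : ℝ) ≤ N := by exact_mod_cast hN8
  have hN0 : (0 : ℝ) < N := by linarith
  obtain ⟨x0, ω, r, mk, Fs, hω, hr, hcov', hused, hFs0, hFs, hlow, hmk, hsumF⟩ :=
    frame_data N hN6 D hopt x hcov hcol
  have hω2 : |ω| ≤ 1 / 2 := by linarith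
  have hWb := W_bounds ω hω
  set W := 10000 - ω with hW
  -- the mean level
  set m := (∑ k ∈ Finset.range N, mk k) / N with hm
  have hsum : ∑ k ∈ Finset.range N, mk k = N * m := by
    rw [hm]; field_simp
  have hm0 : 0 ≤ m := by
    rw [hm]
    apply div_nonneg _ hN0.le
    exact Finset.sum_nonneg fun k hk => (hmk k (Finset.mem_range.1 hk)).1
  have hm300 : m ≤ 300 := by
    rw [hm, div_le_iff₀ hN0]
    calc _ ≤ ∑ k ∈ Finset.range N, (300 : ℝ) :=
          Finset.sum_le_sum fun k hk => (hmk k (Finset.mem_range.1 hk)).2.1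
      _ = _ := by rw [Finset.sum_const, Finset.card_range, nsmul_eq_mul]; ring
  -- Jensen
  have hJ : Fs - 300 ≤ FR (Rw ω) W m := by
    have h1 := (FR_concave ω hω).le_map_sum (t := Finset.range N) (w := fun _ => 1 / (N : ℝ))
      (p := mk) (fun _ _ => by positivity) (by
        rw [Finset.sum_const, Finset.card_range, nsmul_eq_mul]; field_simp)
      (fun k hk => ⟨(hmk k (Finset.mem_range.1 hk)).1,
        (hmk k (Finset.mem_range.1 hk)).2.1.trans (by linarith [hWb.1])⟩)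
    simp only [smul_eq_mul] at h1
    rw [← Finset.mul_sum, ← Finset.mul_sum, hsum] at h1
    have h2 : 1 / (N : ℝ) * (N * m) = m := by field_simp
    rw [h2] at h1
    rw [Finset.sum_sub_distrib, Finset.sum_const, Finset.card_range, nsmul_eq_mul] at hsumF
    have h3 : Fs - 300 ≤ 1 / (N : ℝ) * ∑ k ∈ Finset.range N, FR (Rw ω) W (mk k) := by
      rw [one_div, inv_mul_eq_div, le_div_iff₀ hN0]
      have : (300 : ℝ) * N ≥ 2.03 * 10 ^ 8 := by linarith
      linarith
    linarith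
  have hgm : 0 < gR (Rw ω) m := by
    by_contra hcon
    push Not at hcon
    have : FR (Rw ω) W m ≤ 0 := by
      unfold FR
      apply mul_nonpos_of_nonpos_of_nonneg hcon
      linarith [hWb.1]
    linarith
  -- localisation at the mean level
  have hmem1 := pair_mem ω m hω2 hgm.le
  have hmem2 : (Rw ω (-m), -m + ω * Rw ω (-m)) ∈ K0 :=
    pair_mem ω (-m) hω2 (by rw [gR_neg]; exact hgm.le)
  have hFz := Fz_pair ω m hω2 hgm.le
  obtain ⟨ε, hε, a1, a2, a3, a4, a5, a6⟩ := Fz_loc _ _ hmem1 hmem2 (by rw [hFz]; linarith)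
  simp only at a1 a2 a3 a4 a5 a6
  have hε1 : ε = 1 := by
    rcases hε with rfl | rfl
    · rfl
    · exfalso
      unfold gR at hgm
      linarith
  subst hε1
  simp only [one_mul] at a1 a2 a3 a4 a5 a6
  have hlipm := Rw_lip ω hω m (-m)
  have habs : |m - -m| = 2 * m := by
    rw [sub_neg_eq_add, ← two_mul, abs_of_nonneg (by linarith)]
  rw [habs] at hlipm
  have hom : |ω * (Rw ω m - Rw ω (-m))| ≤ 1 / 1000 * m := by
    rw [abs_mul]
    calc |ω| * |Rw ω m - Rw ω (-m)| ≤ (3 / 100000) * (1.0001 * (2 * m)) := by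
          apply mul_le_mul hω hlipm (abs_nonneg _) (by norm_num)
      _ ≤ _ := by nlinarith
  obtain ⟨b1, b2⟩ := abs_le.1 hom
  have hm0' : 0 < m := by nlinarith
  have hm1 : m < 1 := by nlinarith
  obtain ⟨ν, c, α, β, hν, hyp⟩ := frame_hyp ω m hω hm0' hm1 a1 a2 (by linarith) (by linarith)
  -- the frame (ω, ν)
  set R : ℝ → ℝ := fun t => Rw ω t + ν * t with hR
  set M := Mlin ω ν with hM
  have hMK : M '' K0 = KR R := Mlin_K0 ω ν hω2
  have hMdir : M (1, ω) = (1, 0) := Mlin_dir ω ν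
  have hMvol : ∀ s : Set (ℝ × ℝ), volume (M '' s) = volume s := Mlin_vol ω ν
  have hD := hopt.1.1
  have hDc := hopt.1.2.1
  have hDi : (fun p => M (p - x0)) '' D = M '' ((-x0) +ᵥ D) := image_sub_eq M x0 D
  have hD' : IsCompact ((fun p => M (p - x0)) '' D) := by
    rw [hDi]; exact (hD.vadd (-x0)).image (M_continuous M)
  have hDc' : Convex ℝ ((fun p => M (p - x0)) '' D) := by
    rw [hDi]; exact (hDc.vadd (-x0)).linear_image (M : (ℝ × ℝ) →ₗ[ℝ] (ℝ × ℝ))
  have hVE : volume ((fun p => M (p - x0)) '' D + (20 : ℝ) • KR R) =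
      volume (D + (20 : ℝ) • K0) := by
    rw [← hMK]; exact vol_image_sub M hMvol x0 D K0 20
  have hVK : volume (KR R) = volume K0 := by rw [← hMK]; exact hMvol K0
  have hgRR : ∀ t, gR R t = gR (Rw ω) t := fun t => gR_congr ω ν t
  have hFRR : ∀ t, FR R W t = FR (Rw ω) W t := fun t => FR_congr ω ν W t
  have hFRle : ∀ k < N, FR R W (mk k) ≤ Fs := by
    intro k hk
    obtain ⟨c1, c2, c3, c4, c5⟩ := hmk k hk
    have hg0 : 0 ≤ gR (Rw ω) (mk k) := by rw [← c3]; linarith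
    rw [hFRR, ← Fz_pair ω (mk k) hω2 hg0]
    exact hFs _ (pair_mem ω (mk k) hω2 hg0) _
      (pair_mem ω (-mk k) hω2 (by rw [gR_neg]; exact hg0))
  have hFRm : FR R W m ≤ Fs := by
    rw [hFRR, ← hFz]
    exact hFs _ hmem1 _ hmem2
  have hP : ∑ k ∈ Finset.range N, min ((mk k - m) ^ 2) (5 * |mk k - m|) ≤ 6000 := by
    have h1 : ∑ k ∈ Finset.range N, FR R W (mk k) ≤ ∑ k ∈ Finset.range N,
        (FR R W m + (2 * gR R m - (α + β) * (2 * m + 40 * W)) * (mk k - m)
          - 39000 * min ((mk k - m) ^ 2) (5 * |mk k - m|)) := by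
      apply Finset.sum_le_sum
      intro k hk
      obtain ⟨c1, c2, _⟩ := hmk k (Finset.mem_range.1 hk)
      exact FR_tangent hyp (mk k) c1 c2
    rw [Finset.sum_sub_distrib, Finset.sum_add_distrib, ← Finset.mul_sum, ← Finset.mul_sum,
      Finset.sum_sub_distrib, hsum, Finset.sum_const, Finset.sum_const, Finset.card_range,
      nsmul_eq_mul, nsmul_eq_mul] at h1
    rw [Finset.sum_sub_distrib, Finset.sum_const, Finset.card_range, nsmul_eq_mul] at hsumF
    have h2 : ∑ k ∈ Finset.range N, FR R W (mk k) = ∑ k ∈ Finset.range N, FR (Rw ω) W (mk k) :=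
      Finset.sum_congr rfl fun k _ => hFRR (mk k)
    rw [h2] at h1
    have h3 : (N : ℝ) * FR R W m ≤ N * Fs := mul_le_mul_of_nonneg_left hFRm hN0.le
    linarith
  have hupper := collinear_upper hyp N hN8 r mk
    (fun k hk => by rw [hgRR]; exact (hmk k hk).2.2.1)
    (fun k hk => (hmk k hk).2.2.2.1) (fun k hk => ⟨(hmk k hk).1, (hmk k hk).2.1⟩)
    (fun k hk t ht => (hmk k hk).2.2.2.2 t (by rwa [hgRR] at ht)) hsum hP
    ((fun p => M (p - x0)) '' D) hD' hDc'
    (by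
      rintro _ ⟨p, hp, rfl⟩
      obtain ⟨i, hi, hpi⟩ := hcov' p hp
      refine ⟨i, hi, ?_⟩
      rw [← hMK]
      exact (mem_tr_image M x0 (1, ω) p hMdir (r i)).2 hpi)
    (fun k hk => by
      rw [← hMK]
      exact (used_iff M x0 (1, ω) hMdir r N D k).2 (hused k hk))
    Fs (by linarith) hFRle (by rw [hVK]; exact K0_vol)
    (by rw [hVE, hVK]; exact hlow)
  -- the zigzag
  obtain ⟨Z, hZ, hZV⟩ := zigzag hyp (N + 1) hn (by omega)
  rw [Nat.add_sub_cancel] at hZV
  have hZ' : Admissible K0 (N + 1) (M.symm '' Z) := by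
    have h1 := hZ.image M.symm
    rw [← hMK, ← image_comp] at h1
    have h2 : (M.symm : ℝ × ℝ → ℝ × ℝ) ∘ M = id := by ext p <;> simp
    rw [h2, image_id] at h1
    exact h1
  have hZV' : volume (Z + (20 : ℝ) • KR R) = volume (M.symm '' Z + (20 : ℝ) • K0) := by
    rw [← hMvol (M.symm '' Z + (20 : ℝ) • K0), image_add_smul, hMK, ← image_comp]
    have h2 : (M : ℝ × ℝ → ℝ × ℝ) ∘ M.symm = id := by ext p <;> simp
    rw [h2, image_id]
  have hfinal := hZV.trans ((hZV'.le.trans (hopt.2 _ hZ')).trans (hVE.symm.le.trans hupper))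
  -- compare
  have hlt : MM R W m N + 10 ^ 12 / (N : ℝ) ^ 2 < MM R W m N + 1 / 10 ^ 9 / ((N + 1 : ℕ) : ℝ) := by
    push_cast
    have h1 : 10 ^ 12 / (N : ℝ) ^ 2 < 1 / 10 ^ 9 / ((N : ℝ) + 1) := by
      rw [div_div, div_lt_div_iff₀ (by positivity) (by positivity)]
      have h2 : (10 ^ 12 : ℝ) * (10 ^ 9 * (N + 1)) ≤ 2 * 10 ^ 21 * N := by linarith
      have h3 : (2 * 10 ^ 21 : ℝ) * N < N * N := by
        apply mul_lt_mul_of_pos_right _ hN0
        linarith
      linarith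
    linarith
  have hpos : 0 < MM R W m N + 1 / 10 ^ 9 / ((N + 1 : ℕ) : ℝ) := by
    by_contra hcon
    push Not at hcon
    have h1 : MM R W m N + 10 ^ 12 / (N : ℝ) ^ 2 ≤ 0 := by linarith
    rw [ENNReal.ofReal_of_nonpos h1] at hupper
    rw [hVE] at hupper
    have h2 := hlow.trans hupper
    have h3 : ENNReal.ofReal (((N : ℝ) + 1) * Fs) ≤ 0 := le_trans le_self_add h2
    rw [nonpos_iff_eq_zero, ENNReal.ofReal_eq_zero] at h3
    have h4 : 0 < ((N : ℝ) + 1) * Fs := mul_pos (by linarith) (by linarith)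
    linarith
  have := (ENNReal.ofReal_lt_ofReal_iff hpos).2 hlt
  exact absurd hfinal (not_le.2 this)

end ZZ
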