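import Pool.Agent.Helper32.ZZ.Defs

/-!
MP_f8fc30_co, module C (helper96): existence of optimal sets.
-/

open MeasureTheory Set Pointwise

namespace ZZ

open TopologicalSpace Metric in
/-- the convex nonempty compact sets form a closed subset of `NonemptyCompacts` -/
theorem modC_isClosed_convex {E : Type*} [NormedAddCommGroup E] [NormedSpace ℝ E] :
    IsClosed {L : NonemptyCompacts E | Convex ℝ (L : Set E)} := by
  have key : {L : NonemptyCompacts E | Convex ℝ (L : Set E)} =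
      ⋂ (x : E) (y : E) (a : ℝ) (b : ℝ) (_ : 0 ≤ a ∧ 0 ≤ b ∧ a + b = 1),
        {L : NonemptyCompacts E | infDist (a • x + b • y) (L : Set E) ≤
          a * infDist x (L : Set E) + b * infDist y (L : Set E)} := by
    ext L
    simp only [mem_ofPred_eq, mem_iInter]
    constructor
    · rintro hL x y a b ⟨ha, hb, hab⟩
      obtain ⟨p, hp, hpx⟩ := L.isCompact.exists_infDist_eq_dist L.nonempty x
      obtain ⟨q, hq, hqy⟩ := L.isCompact.exists_infDist_eq_dist L.nonempty y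
      rw [hpx, hqy]
      refine (infDist_le_dist_of_mem (hL hp hq ha hb hab)).trans ?_
      rw [dist_eq_norm, dist_eq_norm, dist_eq_norm]
      have e : a • x + b • y - (a • p + b • q) = a • (x - p) + b • (y - q) := by
        rw [smul_sub, smul_sub]; abel
      rw [e]
      refine (norm_add_le _ _).trans ?_
      rw [norm_smul, norm_smul, Real.norm_of_nonneg ha, Real.norm_of_nonneg hb]
    · intro h x hx y hy a b ha hb hab
      have h1 := h x y a b ⟨ha, hb, hab⟩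
      rw [infDist_zero_of_mem hx, infDist_zero_of_mem hy] at h1
      rw [L.isCompact.isClosed.mem_iff_infDist_zero L.nonempty]
      exact le_antisymm (by linarith) infDist_nonneg
  rw [key]
  refine isClosed_iInter fun x => isClosed_iInter fun y => isClosed_iInter fun a =>
    isClosed_iInter fun b => isClosed_iInter fun _ => ?_
  refine isClosed_le (lipschitz_infDist_set _).continuous ?_
  exact (continuous_const.mul (lipschitz_infDist_set _).continuous).add
    (continuous_const.mul (lipschitz_infDist_set _).continuous)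

open TopologicalSpace Metric in
/-- the covering condition is closed -/
theorem modC_isClosed_cover {E : Type*} [NormedAddCommGroup E] [NormedSpace ℝ E]
    (K : Set E) (hK : IsCompact K) (hne : K.Nonempty) (n : ℕ) :
    IsClosed {p : NonemptyCompacts E × (Fin n → E) | (p.1 : Set E) ⊆ ⋃ i, (p.2 i +ᵥ K)} := by
  have key : {p : NonemptyCompacts E × (Fin n → E) | (p.1 : Set E) ⊆ ⋃ i, (p.2 i +ᵥ K)} =
      ⋂ (z : E), ⋃ (i : Fin n),
        {p : NonemptyCompacts E × (Fin n → E) | infDist (z - p.2 i) K ≤ infDist z (p.1 : Set E)} := by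
    ext p
    simp only [mem_ofPred_eq, mem_iInter, mem_iUnion]
    constructor
    · intro h z
      obtain ⟨w, hw, hwz⟩ := p.1.isCompact.exists_infDist_eq_dist p.1.nonempty z
      obtain ⟨i, hi⟩ := mem_iUnion.1 (h hw)
      refine ⟨i, ?_⟩
      rw [mem_vadd_set] at hi
      obtain ⟨k, hk, hkw⟩ := hi
      rw [hwz]
      refine (infDist_le_dist_of_mem hk).trans ?_
      rw [← hkw, vadd_eq_add, dist_eq_norm, dist_eq_norm]
      apply le_of_eq
      congr 1
      abel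
    · intro h z hz
      obtain ⟨i, hi⟩ := h z
      rw [infDist_zero_of_mem hz] at hi
      rw [mem_iUnion]
      refine ⟨i, ?_⟩
      have h0 : z - p.2 i ∈ K := by
        rw [hK.isClosed.mem_iff_infDist_zero hne]
        exact le_antisymm hi infDist_nonneg
      rw [mem_vadd_set]
      exact ⟨z - p.2 i, h0, by rw [vadd_eq_add]; abel⟩
  rw [key]
  refine isClosed_iInter fun z => isClosed_iUnion_of_finite fun i => ?_
  refine isClosed_le ?_ ?_
  · exact (continuous_infDist_pt K).comp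
      (continuous_const.sub ((continuous_apply i).comp continuous_snd))
  · exact (lipschitz_infDist_set z).continuous.comp continuous_fst

open TopologicalSpace Metric in
theorem modC_isClosed_mem {E : Type*} [NormedAddCommGroup E] (x : E) :
    IsClosed {L : NonemptyCompacts E | x ∈ (L : Set E)} := by
  have key : {L : NonemptyCompacts E | x ∈ (L : Set E)} =
      {L : NonemptyCompacts E | infDist x (L : Set E) = 0} := by
    ext L
    exact L.isCompact.isClosed.mem_iff_infDist_zero L.nonempty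
  rw [key]
  exact isClosed_eq (lipschitz_infDist_set x).continuous continuous_const

open TopologicalSpace Metric in
/-- upper semicontinuity of the volume of `L + C` -/
theorem modC_usc (C : Set (ℝ × ℝ)) (hC : IsCompact C) :
    UpperSemicontinuous fun L : NonemptyCompacts (ℝ × ℝ) =>
      volume ((L : Set (ℝ × ℝ)) + C) := by
  intro L c hc
  have hcpt : IsCompact ((L : Set (ℝ × ℝ)) + C) := L.isCompact.add hC
  have ht := tendsto_measure_cthickening_of_isCompact (μ := (volume : Measure (ℝ × ℝ))) hcpt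
  have hev := (ht.eventually (gt_mem_nhds hc))
  rw [Metric.eventually_nhds_iff] at hev
  obtain ⟨ε, hε, h⟩ := hev
  have h2 : volume (cthickening (ε / 2) ((L : Set (ℝ × ℝ)) + C)) < c := by
    apply h
    rw [Real.dist_eq, sub_zero, abs_of_pos (by linarith)]
    linarith
  filter_upwards [Metric.ball_mem_nhds L (by linarith : (0:ℝ) < ε / 2)] with L' hL'
  refine lt_of_le_of_lt (measure_mono ?_) h2
  rintro _ ⟨a, ha, b, hb, rfl⟩
  have h3 : infDist a (L : Set (ℝ × ℝ)) < ε / 2 := by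
    refine lt_of_le_of_lt ?_ hL'
    rw [NonemptyCompacts.dist_eq]
    exact infDist_le_hausdorffDist_of_mem ha (edist_ne_top L' L)
  obtain ⟨a', ha', haa'⟩ := (infDist_lt_iff L.nonempty).1 h3
  refine mem_cthickening_of_dist_le (a + b) (a' + b) (ε / 2) _ ⟨a', ha', b, hb, rfl⟩ ?_
  rw [dist_add_right]
  exact haa'.le

/-- pigeonhole: a segment from `0` to `d` covered by `n` translates of a set of radius `M`
has length at most `2 M n`. -/
theorem modC_bound {E : Type*} [NormedAddCommGroup E] [NormedSpace ℝ E] (K : Set E) (M : ℝ)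
    (hM : ∀ k ∈ K, ‖k‖ ≤ M) (n : ℕ) (hn : 1 ≤ n) (x : Fin n → E) (D : Set E)
    (hD : Convex ℝ D) (h0 : (0 : E) ∈ D) (hcov : D ⊆ ⋃ i, (x i +ᵥ K)) (d : E) (hd : d ∈ D) :
    ‖d‖ ≤ 2 * M * n := by
  have hn0 : (0 : ℝ) < n := by exact_mod_cast hn
  have hpt : ∀ k : Fin (n + 1), ((k : ℕ) / (n : ℝ)) • d ∈ D := by
    intro k
    have hk : ((k : ℕ) : ℝ) ≤ n := by exact_mod_cast Nat.lt_succ_iff.1 k.2
    have := hD h0 hd (a := 1 - (k : ℕ) / (n : ℝ)) (b := (k : ℕ) / (n : ℝ))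
      (by rw [sub_nonneg, div_le_one hn0]; exact hk) (by positivity) (by ring)
    simpa using this
  have hex : ∀ k : Fin (n + 1), ∃ i, ((k : ℕ) / (n : ℝ)) • d ∈ x i +ᵥ K := fun k =>
    mem_iUnion.1 (hcov (hpt k))
  choose g hg using hex
  obtain ⟨k, l, hkl, hgkl⟩ := Fintype.exists_ne_map_eq_of_card_lt g (by simp)
  have hlk : ((k : ℕ) / (n : ℝ)) • d - ((l : ℕ) / (n : ℝ)) • d = ((((k : ℕ) : ℝ) - ((l : ℕ) : ℝ)) / (n : ℝ)) • d := by
    rw [← sub_smul]; congr 1; ring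
  obtain ⟨u, hu, hu'⟩ := mem_vadd_set.1 (hg k)
  obtain ⟨v, hv, hv'⟩ := mem_vadd_set.1 (hg l)
  rw [hgkl] at hu'
  have huv : u - v = ((((k : ℕ) : ℝ) - ((l : ℕ) : ℝ)) / (n : ℝ)) • d := by
    rw [← hlk, ← hu', ← hv', vadd_eq_add, vadd_eq_add]; abel
  have h1 : ‖u - v‖ ≤ 2 * M := by
    refine (norm_sub_le _ _).trans ?_
    linarith [hM u hu, hM v hv]
  rw [huv, norm_smul, Real.norm_eq_abs, abs_div, abs_of_pos hn0] at h1
  have h2 : (1 : ℝ) ≤ |((k : ℕ) : ℝ) - ((l : ℕ) : ℝ)| := by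
    have h3 : ((k : ℕ) : ℤ) - ((l : ℕ) : ℤ) ≠ 0 := by
      intro h; apply hkl; apply Fin.ext; omega
    have h4 := Int.one_le_abs h3
    exact_mod_cast h4
  have h5 : (1 / n : ℝ) * ‖d‖ ≤ 2 * M := by
    refine le_trans ?_ h1
    apply mul_le_mul_of_nonneg_right _ (norm_nonneg _)
    gcongr
  rw [div_mul_eq_mul_div, one_mul, div_le_iff₀ hn0] at h5
  exact h5

open TopologicalSpace Metric in
theorem exists_opt (K : Set (ℝ × ℝ)) (hK : IsCompact K) (hKc : Convex ℝ K) (hne : K.Nonempty)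
    (θ : ℝ) (hθ : 0 ≤ θ) (n : ℕ) (hn : 1 ≤ n) : ∃ D, IsOptimal K θ n D := by
  obtain ⟨M, hM⟩ : ∃ M, ∀ k ∈ K, ‖k‖ ≤ M := hK.isBounded.exists_norm_le
  have hM0 : 0 ≤ M := by
    obtain ⟨k, hk⟩ := hne
    exact (norm_nonneg k).trans (hM k hk)
  set R : ℝ := 2 * M * n with hR
  set S : Set (NonemptyCompacts (ℝ × ℝ) × (Fin n → ℝ × ℝ)) :=
    {p | (p.1 : Set (ℝ × ℝ)) ⊆ closedBall 0 R ∧ (∀ i, p.2 i ∈ closedBall (0 : ℝ × ℝ) (R + M)) ∧
      Convex ℝ (p.1 : Set (ℝ × ℝ)) ∧ (p.1 : Set (ℝ × ℝ)) ⊆ ⋃ i, (p.2 i +ᵥ K)} with hS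
  have hScpt : IsCompact S := by
    have h1 : IsCompact ({L : NonemptyCompacts (ℝ × ℝ) | (L : Set (ℝ × ℝ)) ⊆ closedBall 0 R} ×ˢ
        (Set.pi univ fun _ : Fin n => closedBall (0 : ℝ × ℝ) (R + M))) :=
      (NonemptyCompacts.isCompact_subsets_of_isCompact (isCompact_closedBall _ _)).prod
        (isCompact_univ_pi fun _ => isCompact_closedBall _ _)
    have h2 : S = ({L : NonemptyCompacts (ℝ × ℝ) | (L : Set (ℝ × ℝ)) ⊆ closedBall 0 R} ×ˢ
        (Set.pi univ fun _ : Fin n => closedBall (0 : ℝ × ℝ) (R + M))) ∩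
        (Prod.fst ⁻¹' {L : NonemptyCompacts (ℝ × ℝ) | Convex ℝ (L : Set (ℝ × ℝ))} ∩
          {p : NonemptyCompacts (ℝ × ℝ) × (Fin n → ℝ × ℝ) |
            (p.1 : Set (ℝ × ℝ)) ⊆ ⋃ i, (p.2 i +ᵥ K)}) := by
      ext p
      simp only [hS, mem_ofPred_eq, mem_inter_iff, mem_prod, mem_pi, mem_univ, forall_const,
        mem_preimage]
      tauto
    rw [h2]
    exact h1.inter_right ((modC_isClosed_convex.preimage continuous_fst).inter
      (modC_isClosed_cover K hK hne n))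
  -- every nonempty admissible set has a translate in `S`
  have hred : ∀ D' : Set (ℝ × ℝ), Admissible K n D' → D'.Nonempty →
      ∃ p ∈ S, volume (D' + θ • K) ≤ volume ((p.1 : Set (ℝ × ℝ)) + θ • K) := by
    rintro D' ⟨hD'c, hD'v, x, hx⟩ ⟨d0, hd0⟩
    have hD2c : IsCompact (-d0 +ᵥ D') := hD'c.vadd (-d0)
    have hD2v : Convex ℝ (-d0 +ᵥ D') := hD'v.vadd (-d0)
    have h02 : (0 : ℝ × ℝ) ∈ (-d0 +ᵥ D') := mem_vadd_set.2 ⟨d0, hd0, by simp⟩
    have hcov2 : (-d0 +ᵥ D') ⊆ ⋃ i, ((x i - d0) +ᵥ K) := by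
      intro z hz
      obtain ⟨w, hw, rfl⟩ := mem_vadd_set.1 hz
      obtain ⟨i, hi⟩ := mem_iUnion.1 (hx hw)
      obtain ⟨k, hk, rfl⟩ := mem_vadd_set.1 hi
      refine mem_iUnion.2 ⟨i, mem_vadd_set.2 ⟨k, hk, ?_⟩⟩
      simp only [vadd_eq_add]; abel
    obtain ⟨i0, hi0⟩ := mem_iUnion.1 (hcov2 h02)
    classical
    set y : Fin n → ℝ × ℝ := fun i =>
      if (((x i - d0) +ᵥ K) ∩ (-d0 +ᵥ D')).Nonempty then x i - d0 else x i0 - d0 with hy
    have hymeet : ∀ i, ((y i +ᵥ K) ∩ (-d0 +ᵥ D')).Nonempty := by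
      intro i
      by_cases h : (((x i - d0) +ᵥ K) ∩ (-d0 +ᵥ D')).Nonempty
      · simp only [hy, if_pos h]; exact h
      · simp only [hy, if_neg h]; exact ⟨0, hi0, h02⟩
    have hcov3 : (-d0 +ᵥ D') ⊆ ⋃ i, (y i +ᵥ K) := by
      intro z hz
      obtain ⟨i, hi⟩ := mem_iUnion.1 (hcov2 hz)
      refine mem_iUnion.2 ⟨i, ?_⟩
      have h : (((x i - d0) +ᵥ K) ∩ (-d0 +ᵥ D')).Nonempty := ⟨z, hi, hz⟩
      simp only [hy, if_pos h]; exact hi
    have hbd : ∀ d ∈ (-d0 +ᵥ D'), ‖d‖ ≤ R := fun d hd =>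
      modC_bound K M hM n hn y _ hD2v h02 hcov3 d hd
    refine ⟨(⟨⟨-d0 +ᵥ D', hD2c⟩, ⟨0, h02⟩⟩, y), ⟨?_, ?_, hD2v, hcov3⟩, ?_⟩
    · intro d hd
      rw [mem_closedBall_zero_iff]
      exact hbd d hd
    · intro i
      rw [mem_closedBall_zero_iff]
      obtain ⟨z, hz1, hz2⟩ := hymeet i
      obtain ⟨k, hk, hkz⟩ := mem_vadd_set.1 hz1
      have e : y i = z - k := by rw [← hkz, vadd_eq_add]; abel
      show ‖y i‖ ≤ R + M
      rw [e]
      exact (norm_sub_le _ _).trans (add_le_add (hbd z hz2) (hM k hk))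
    · apply le_of_eq
      have e : ((-d0 +ᵥ D') + θ • K) = -d0 +ᵥ (D' + θ • K) := by
        rw [vadd_add_assoc]
      show _ = volume ((-d0 +ᵥ D') + θ • K)
      rw [e, measure_vadd]
  have hSne : S.Nonempty := by
    have hKadm : Admissible K n K := by
      refine ⟨hK, hKc, fun _ => 0, ?_⟩
      intro z hz
      exact mem_iUnion.2 ⟨⟨0, hn⟩, mem_vadd_set.2 ⟨z, hz, by simp⟩⟩
    obtain ⟨p, hp, -⟩ := hred K hKadm hne
    exact ⟨p, hp⟩
  have husc : UpperSemicontinuousOn (fun p : NonemptyCompacts (ℝ × ℝ) × (Fin n → ℝ × ℝ) =>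
      volume ((p.1 : Set (ℝ × ℝ)) + θ • K)) S := by
    have h := (modC_usc (θ • K) (hK.smul θ))
    have h2 : UpperSemicontinuous (fun p : NonemptyCompacts (ℝ × ℝ) × (Fin n → ℝ × ℝ) =>
      volume ((p.1 : Set (ℝ × ℝ)) + θ • K)) := h.comp continuous_fst
    exact h2.upperSemicontinuousOn S
  obtain ⟨p, hpS, hpmax⟩ := husc.exists_isMaxOn hSne hScpt
  refine ⟨(p.1 : Set (ℝ × ℝ)), ⟨p.1.isCompact, hpS.2.2.1, p.2, hpS.2.2.2⟩, ?_⟩
  intro D' hD'
  rcases D'.eq_empty_or_nonempty with rfl | hD'ne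
  · simp
  · obtain ⟨q, hqS, hq⟩ := hred D' hD' hD'ne
    exact hq.trans (hpmax hqS)

end ZZ
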