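import Pool.Agent.Helper32.ZZ.B
import Pool.Agent.Helper32.ZZ.E

open MeasureTheory Set Pointwise
open scoped ENNReal

namespace ZZ

theorem modD_disc_pos (r : ℝ) (hr : 0 < r) : 0 < volume (disc r) := by
  have ho : IsOpen {p : ℝ × ℝ | p.1 ^ 2 + p.2 ^ 2 < r ^ 2} :=
    isOpen_lt (by fun_prop) continuous_const
  have hne : ({p : ℝ × ℝ | p.1 ^ 2 + p.2 ^ 2 < r ^ 2}).Nonempty := ⟨(0, 0), by
    show (0:ℝ) ^ 2 + 0 ^ 2 < r ^ 2
    have : 0 < r ^ 2 := by positivity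
    simpa using this⟩
  exact lt_of_lt_of_le (ho.measure_pos volume hne) (measure_mono fun p (hp : p.1 ^ 2 + p.2 ^ 2 < r ^ 2) =>
    (le_of_lt hp : p.1 ^ 2 + p.2 ^ 2 ≤ r ^ 2))

theorem modD_disc_fin (r : ℝ) (hr : 0 < r) : volume (disc r) ≠ ⊤ := by
  have : disc r ⊆ Icc (-r) r ×ˢ Icc (-r) r := by
    rintro ⟨x, y⟩ h
    have h' : x ^ 2 + y ^ 2 ≤ r ^ 2 := h
    have hx : |x| ≤ r := abs_le_of_sq_le_sq (by nlinarith [sq_nonneg y]) hr.le
    have hy : |y| ≤ r := abs_le_of_sq_le_sq (by nlinarith [sq_nonneg x]) hr.le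
    exact ⟨abs_le.1 hx, abs_le.1 hy⟩
  refine ne_top_of_le_ne_top ?_ (measure_mono this)
  exact (isCompact_Icc.prod isCompact_Icc).measure_lt_top.ne

theorem modD_count (K X : Set (ℝ × ℝ)) (hX : IsCovering K X) (hK : 0 < volume K) (r : ℝ) :
    volume (disc r) ≤
      (({x | x ∈ X ∧ ((x +ᵥ K) ∩ disc r).Nonempty}.encard : ℕ∞) : ℝ≥0∞) * volume K := by
  set Y := {x | x ∈ X ∧ ((x +ᵥ K) ∩ disc r).Nonempty} with hY
  by_cases hf : Y.Finite
  · have hsub : disc r ⊆ ⋃ x ∈ hf.toFinset, (x +ᵥ K) := by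
      intro p hp
      have hpu : p ∈ (⋃ x ∈ X, (x +ᵥ K)) := by rw [hX]; trivial
      obtain ⟨x, hx, hpx⟩ := mem_iUnion₂.1 hpu
      refine mem_iUnion₂.2 ⟨x, ?_, hpx⟩
      rw [Finite.mem_toFinset]
      exact ⟨hx, ⟨p, hpx, hp⟩⟩
    calc volume (disc r) ≤ volume (⋃ x ∈ hf.toFinset, (x +ᵥ K)) := measure_mono hsub
      _ ≤ ∑ x ∈ hf.toFinset, volume (x +ᵥ K) := measure_biUnion_finset_le _ _
      _ = ∑ x ∈ hf.toFinset, volume K := by
          refine Finset.sum_congr rfl fun x _ => ?_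
          exact measure_vadd _ _ _
      _ = _ := by
          rw [Finset.sum_const, nsmul_eq_mul, hf.encard_eq_coe_toFinset_card]
          rfl
  · have : Y.encard = ⊤ := by rwa [encard_eq_top_iff]
    rw [this]
    simp only [ENat.toENNReal_top]
    rw [ENNReal.top_mul hK.ne']
    exact le_top

theorem modD_thetaT (K : Set (ℝ × ℝ)) (hK : 0 < volume K) : 1 ≤ thetaT K := by
  refine le_iInf₂ fun X hX => ?_
  refine Filter.le_liminf_of_le (by isBoundedDefault) ?_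
  filter_upwards [Filter.eventually_gt_atTop 0] with r hr
  rw [ENNReal.le_div_iff_mul_le (Or.inl (modD_disc_pos r hr).ne') (Or.inl (modD_disc_fin r hr)),
    one_mul]
  exact modD_count K X hX hK r

theorem modD_theta_not (hc : IsCompact K0) (hconv : Convex ℝ K0) (hs : ∀ p ∈ K0, -p ∈ K0)
    (hi : (interior K0).Nonempty) (hv : volume K0 ≤ ENNReal.ofReal (2 * 10 ^ 8))
    (ht : ((1 : ℝ), (10000 : ℝ)) ∈ K0) (hr : ((9997 : ℝ), (0 : ℝ)) ∈ K0) (θ : ℝ) (h : 1 ≤ θ) :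
    ¬ Filter.Tendsto (fun n : ℕ => optVal K0 θ n / n) Filter.atTop (nhds (ThetaT K0)) := by
  intro hlim
  have h0 : 0 ≤ θ := by linarith
  have hpos : 0 < volume K0 := MeasureTheory.Measure.measure_pos_of_nonempty_interior _ hi
  have hT : ThetaT K0 ≤ ENNReal.ofReal (2 * 10 ^ 8) := by
    refine le_trans ?_ hv
    unfold ThetaT
    calc volume K0 / thetaT K0 ≤ volume K0 / 1 := ENNReal.div_le_div_left (modD_thetaT K0 hpos) _
      _ = volume K0 := div_one _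
  have hlow : ENNReal.ofReal (3 * 10 ^ 8) ≤ ThetaT K0 := by
    refine ge_of_tendsto hlim ?_
    filter_upwards [Filter.eventually_ge_atTop 1] with n hn
    obtain ⟨D, hD, hvol⟩ := base K0 hc hconv hs θ h0 n hn (9997, 0) (9997, 0) (1, 10000) hr hr ht
      (by norm_num) (by norm_num [cross])
    have hn0 : (n : ℝ≥0∞) ≠ 0 := by
      have : n ≠ 0 := by omega
      exact_mod_cast this
    rw [ENNReal.le_div_iff_mul_le (Or.inl hn0) (Or.inl (ENNReal.natCast_ne_top n))]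
    refine le_trans ?_ (le_iSup₂_of_le D hD hvol)
    refine le_trans ?_ (le_add_right le_rfl)
    rw [← ENNReal.ofReal_natCast n, ← ENNReal.ofReal_mul (by norm_num)]
    apply ENNReal.ofReal_le_ofReal
    have hn1 : (0:ℝ) ≤ n := Nat.cast_nonneg n
    have : cross ((9997, 0) + (9997, 0)) (1, 10000) = 199940000 := by norm_num [cross]
    rw [this, show cross (9997, 0) (9997, 0) = 0 by norm_num [cross], abs_of_pos (by norm_num)]
    nlinarith
  have := hlow.trans hT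
  rw [ENNReal.ofReal_le_ofReal_iff (by norm_num)] at this
  norm_num at this

theorem modD_main (hc : IsCompact K0) (hconv : Convex ℝ K0) (hs : ∀ p ∈ K0, -p ∈ K0)
    (hi : (interior K0).Nonempty) (hv : volume K0 ≤ ENNReal.ofReal (2 * 10 ^ 8))
    (ht : ((1 : ℝ), (10000 : ℝ)) ∈ K0) (hr : ((9997 : ℝ), (0 : ℝ)) ∈ K0) : thetaC K0 ≤ 1 := by
  refine Real.sSup_le ?_ zero_le_one
  rintro θ ⟨h0, hlim⟩
  by_contra hθ
  exact modD_theta_not hc hconv hs hi hv ht hr θ (not_le.1 hθ).le hlim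

theorem thetaC_le : thetaC K0 ≤ 1 :=
  modD_main K0_compact K0_convex K0_symm K0_interior K0_vol K0_top K0_right

theorem theta_not (θ : ℝ) (h : 1 ≤ θ) :
    ¬ Filter.Tendsto (fun n : ℕ => optVal K0 θ n / n) Filter.atTop (nhds (ThetaT K0)) :=
  modD_theta_not K0_compact K0_convex K0_symm K0_interior K0_vol K0_top K0_right θ h

end ZZ
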