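import Mathlib

/-!
Shared definitions for MP_f8fc30_co (helper32): the conjecture on collinear centres is false
for even `n`.  Mathematics: see team-store file `MP_f8fc30-plan.md`.
-/

open MeasureTheory Set Pointwise
open scoped ENNReal

namespace ZZ

/-! ### general -/

/-- translate of `K` by `(ξ, 0)` -/
def tr (ξ : ℝ) (K : Set (ℝ × ℝ)) : Set (ℝ × ℝ) := {p | (p.1 - ξ, p.2) ∈ K}

/-- gap `k` (between centres `k` and `k+1`) is used by `D`: some point of `D` lies both in a translate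
with index `≤ k` and in a translate with index in `(k, N]`. -/
def Used (K : Set (ℝ × ℝ)) (ξ : ℕ → ℝ) (N : ℕ) (D : Set (ℝ × ℝ)) (k : ℕ) : Prop :=
  ∃ p ∈ D, (∃ i ≤ k, p ∈ tr (ξ i) K) ∧ (∃ j, k < j ∧ j ≤ N ∧ p ∈ tr (ξ j) K)

/-- 2D cross product -/
def cross (p q : ℝ × ℝ) : ℝ := p.1 * q.2 - p.2 * q.1

/-- `D` is coverable by `n` translates of `K`. -/
def CoveredBy (K : Set (ℝ × ℝ)) (n : ℕ) (D : Set (ℝ × ℝ)) : Prop :=
  ∃ x : Fin n → ℝ × ℝ, D ⊆ ⋃ i, (x i +ᵥ K)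

/-- compact convex sets coverable by `n` translates of `K` -/
def Admissible (K : Set (ℝ × ℝ)) (n : ℕ) (D : Set (ℝ × ℝ)) : Prop :=
  IsCompact D ∧ Convex ℝ D ∧ CoveredBy K n D

/-- `D` is optimal (for `K`, `θ`, `n`). -/
def IsOptimal (K : Set (ℝ × ℝ)) (θ : ℝ) (n : ℕ) (D : Set (ℝ × ℝ)) : Prop :=
  Admissible K n D ∧ ∀ D', Admissible K n D' → volume (D' + θ • K) ≤ volume (D + θ • K)

/-! ### profile bodies -/

/-- centrally symmetric body with right profile `R` -/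
def KR (R : ℝ → ℝ) : Set (ℝ × ℝ) := {p | p.1 ≤ R p.2 ∧ -p.1 ≤ R (-p.2)}

/-- length of the horizontal slice -/
def gR (R : ℝ → ℝ) (t : ℝ) : ℝ := R t + R (-t)

/-- bulk function `F(m) = g(m) (2 m + 2 θ W)`, `θ = 20` -/
def FR (R : ℝ → ℝ) (W m : ℝ) : ℝ := gR R m * (2 * m + 40 * W)

/-- `e⁺(t)`, `θ = 20` -/
noncomputable def eP (R : ℝ → ℝ) (W t : ℝ) : ℝ :=
  441 * (∫ y in (0:ℝ)..t, R y) + 20 * R t * (W - t) + 400 * (∫ y in t..W, R y)

/-- `e⁻(t)`, `θ = 20` -/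
noncomputable def eM (R : ℝ → ℝ) (W t : ℝ) : ℝ := eP (fun y => R (-y)) W t

/-- the uniform strip value -/
noncomputable def MM (R : ℝ → ℝ) (W m : ℝ) (N : ℕ) : ℝ := N * FR R W m + 2 * (eP R W m + eM R W m)

noncomputable def psi (a : ℝ) : ℝ := min (a ^ 2 / 20) (|a| / 4)

/-- Everything we need to know about a profile.  `m` is the (average) contact level. -/
structure Hyp (R : ℝ → ℝ) (W c m α β : ℝ) : Prop where
  conc : ConcaveOn ℝ univ R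
  lip : ∀ s t, |R s - R t| ≤ 1.001 * |s - t|
  W_lo : 9999 ≤ W
  W_hi : W ≤ 10001
  RW : R W = c
  RnW : R (-W) = -c
  c_abs : |c| ≤ 0.001
  bal : 20 * c + (R m - R (-m)) / 2 = 0
  m_lo : 0.1 ≤ m
  m_hi : m ≤ 0.5
  α_lo : 0.02 ≤ α
  α_hi : α ≤ 0.08
  β_lo : 0.02 ≤ β
  β_hi : β ≤ 0.08
  Rm_lo : 9996 ≤ R m
  Rm_hi : R m ≤ 9998
  Rn_lo : 9996 ≤ R (-m)
  Rn_hi : R (-m) ≤ 9998
  up1 : ∀ a, R (m + a) ≤ R m - α * a - psi a
  up2 : ∀ a, R (-m - a) ≤ R (-m) - β * a - psi a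
  lo1 : ∀ a, R m - α * a - a ^ 2 / 6 ≤ R (m + a)
  lo2 : ∀ a, R (-m) - β * a - a ^ 2 / 6 ≤ R (-m - a)
  gam : (α - β) * m + R m - R (-m) ≤ -(1 / 1000)

/-- slope of `e⁺` at `m` -/
def SP (R : ℝ → ℝ) (W m α : ℝ) : ℝ := 21 * R m - 20 * α * (W - m)

/-- slope of `e⁻` at `m` -/
def SM (R : ℝ → ℝ) (W m β : ℝ) : ℝ := 21 * R (-m) - 20 * β * (W - m)

/-! ### the concrete body -/

/-- the convex function `f` (Huber function with two different radii) -/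
noncomputable def f (y : ℝ) : ℝ :=
  if 8 ≤ y then y - 4 else if 0 ≤ y then y ^ 2 / 16 else if -4 ≤ y then y ^ 2 / 8 else -y - 2

/-- the body -/
def K0 : Set (ℝ × ℝ) := {p | p.1 + f p.2 ≤ 9997 ∧ -p.1 + f (-p.2) ≤ 9997}

/-- support-type function `max_{κ ∈ K0} v × κ` -/
noncomputable def NN (v : ℝ × ℝ) : ℝ := sSup ((fun κ => cross v κ) '' K0)

/-- `F(p,q) = 2 q × p + 2 θ N(p+q)`, `θ = 20` -/
noncomputable def Fz (p q : ℝ × ℝ) : ℝ := 2 * cross q p + 40 * NN (p + q)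

/-- profile of `K0` in the frame `t = y - ω x` -/
noncomputable def Rw (ω t : ℝ) : ℝ := sSup {x | x + f (t + ω * x) ≤ 9997}

/-- the linear map `(x, y) ↦ (x + ν (y - ω x), y - ω x)` (determinant 1) -/
def Mlin (ω ν : ℝ) : (ℝ × ℝ) ≃ₗ[ℝ] (ℝ × ℝ) where
  toFun p := (p.1 + ν * (p.2 - ω * p.1), p.2 - ω * p.1)
  invFun p := (p.1 - ν * p.2, p.2 + ω * (p.1 - ν * p.2))
  map_add' p q := by
    ext <;> simp <;> ring
  map_smul' a p := by
    ext <;> simp <;> ring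
  left_inv p := by
    ext <;> simp
  right_inv p := by
    ext <;> simp

/-! ### covering density and critical radius -/

/-- Euclidean disc of radius `r` about the origin. -/
def disc (r : ℝ) : Set (ℝ × ℝ) := {p | p.1 ^ 2 + p.2 ^ 2 ≤ r ^ 2}

/-- the translates `x + K`, `x ∈ X`, cover the plane -/
def IsCovering (K X : Set (ℝ × ℝ)) : Prop := (⋃ x ∈ X, (x +ᵥ K)) = univ

/-- (lower) density of the family of translates `x + K`, `x ∈ X` -/
noncomputable def density (K X : Set (ℝ × ℝ)) : ℝ≥0∞ :=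
  Filter.liminf (fun r : ℝ =>
    (({x | x ∈ X ∧ ((x +ᵥ K) ∩ disc r).Nonempty}.encard : ℕ∞) : ℝ≥0∞) * volume K / volume (disc r))
    Filter.atTop

/-- `ϑ_T(K)`, the minimal density of a covering of the plane by translates of `K` -/
noncomputable def thetaT (K : Set (ℝ × ℝ)) : ℝ≥0∞ :=
  ⨅ X : Set (ℝ × ℝ), ⨅ _ : IsCovering K X, density K X

/-- `Θ_T(K) = A(K) / ϑ_T(K)` -/
noncomputable def ThetaT (K : Set (ℝ × ℝ)) : ℝ≥0∞ := volume K / thetaT K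

/-- `max A(D + θ K)` over compact convex `D` coverable by `n` translates -/
noncomputable def optVal (K : Set (ℝ × ℝ)) (θ : ℝ) (n : ℕ) : ℝ≥0∞ :=
  ⨆ D : Set (ℝ × ℝ), ⨆ _ : Admissible K n D, volume (D + θ • K)

/-- `θ_c(K)`: the largest `θ ≥ 0` with `lim A(D_n + θ K)/n = Θ_T(K)` -/
noncomputable def thetaC (K : Set (ℝ × ℝ)) : ℝ :=
  sSup {θ : ℝ | 0 ≤ θ ∧
    Filter.Tendsto (fun n : ℕ => optVal K θ n / n) Filter.atTop (nhds (ThetaT K))}

end ZZ
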