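import Pool.Agent.Helper32.ZZ.A

open MeasureTheory Set Pointwise
open scoped ENNReal

namespace ZZ

section basics
variable {R : ℝ → ℝ} {W c m α β : ℝ}

theorem modG_psi_nonneg (a : ℝ) : 0 ≤ psi a := by
  unfold psi
  exact le_min (by positivity) (by positivity)

theorem modG_R_le (h : Hyp R W c m α β) (t : ℝ) : R t ≤ 9998.1 := by
  have h1 := h.up1 (t - m)
  rw [show m + (t - m) = t by ring] at h1
  have h2 := h.Rm_hi
  have h3 := h.α_lo
  have h4 := h.α_hi
  rcases le_total 0 (t - m) with ha | ha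
  · have := modG_psi_nonneg (t - m)
    have : 0 ≤ α * (t - m) := mul_nonneg (by linarith) ha
    linarith
  · have habs : |t - m| = -(t - m) := abs_of_nonpos ha
    unfold psi at h1
    rw [habs] at h1
    rcases min_choice ((t - m) ^ 2 / 20) (-(t - m) / 4) with hm | hm
    · rw [hm] at h1
      nlinarith [sq_nonneg ((t - m) + 0.8), mul_nonneg (sub_nonneg.2 h4) (neg_nonneg.2 ha)]
    · rw [hm] at h1
      nlinarith [mul_nonneg (sub_nonneg.2 h4) (neg_nonneg.2 ha)]

theorem modG_R_ge (h : Hyp R W c m α β) (t : ℝ) (ht : |t| ≤ 300) : 9695 ≤ R t := by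
  have h1 := h.lip m t
  have h2 := h.Rm_lo
  have h3 := h.m_lo
  have h4 := h.m_hi
  have h5 : |m - t| ≤ 300.5 := by
    rw [abs_le] at *
    constructor <;> linarith
  have h6 := (abs_le.1 h1).2
  nlinarith

theorem modG_R_zero (h : Hyp R W c m α β) : 9995 ≤ R 0 := by
  have h1 := h.lip m 0
  have h2 := h.Rm_lo
  have h3 := h.m_lo
  have h4 := h.m_hi
  have h5 : |m - 0| ≤ 0.5 := by
    rw [abs_le] at *
    constructor <;> linarith
  have h6 := (abs_le.1 h1).2
  nlinarith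

theorem modG_cont (h : Hyp R W c m α β) : Continuous R := by
  have : LipschitzWith (Real.toNNReal 1.001) R := by
    apply LipschitzWith.of_dist_le_mul
    intro x y
    rw [Real.dist_eq, Real.dist_eq, Real.coe_toNNReal _ (by norm_num)]
    exact h.lip x y
  exact this.continuous

theorem modG_conc (h : Hyp R W c m α β) (x y a b : ℝ) (ha : 0 ≤ a) (hb : 0 ≤ b) (hab : a + b = 1) :
    a * R x + b * R y ≤ R (a * x + b * y) := by
  have := h.conc.2 (mem_univ x) (mem_univ y) ha hb hab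
  simpa [smul_eq_mul] using this

theorem modG_KR_symm (p : ℝ × ℝ) (hp : p ∈ KR R) : -p ∈ KR R := by
  simp only [KR, mem_ofPred_eq, Prod.fst_neg, Prod.snd_neg, neg_neg] at *
  exact ⟨hp.2, hp.1⟩

theorem modG_KR_convex (h : Hyp R W c m α β) : Convex ℝ (KR R) := by
  intro p hp q hq a b ha hb hab
  simp only [KR, mem_ofPred_eq, Prod.fst_add, Prod.snd_add, Prod.smul_fst, Prod.smul_snd,
    smul_eq_mul] at *
  constructor
  · have := modG_conc h p.2 q.2 a b ha hb hab
    nlinarith [mul_le_mul_of_nonneg_left hp.1 ha, mul_le_mul_of_nonneg_left hq.1 hb]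
  · have := modG_conc h (-p.2) (-q.2) a b ha hb hab
    rw [show -(a * p.2 + b * q.2) = a * (-p.2) + b * (-q.2) by ring]
    nlinarith [mul_le_mul_of_nonneg_left hp.2 ha, mul_le_mul_of_nonneg_left hq.2 hb]

theorem modG_gR_neg (h : Hyp R W c m α β) (t : ℝ) (ht : W < |t|) : gR R t < 0 := by
  have hW : 0 < W := by linarith [h.W_lo]
  have hz := modG_R_zero h
  have key : ∀ t, W < t → gR R t < 0 := by
    intro t ht
    have ht0 : 0 < t := by linarith
    -- W = (1 - W/t) * 0 + (W/t) * t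
    have h1 : W / t < 1 := by rw [div_lt_one ht0]; exact ht
    have h0 : 0 < W / t := by positivity
    have e1 := modG_conc h 0 t (1 - W / t) (W / t) (by linarith) (by linarith) (by ring)
    have e2 := modG_conc h 0 (-t) (1 - W / t) (W / t) (by linarith) (by linarith) (by ring)
    have f1 : (1 - W / t) * 0 + W / t * t = W := by field_simp; ring
    have f2 : (1 - W / t) * 0 + W / t * (-t) = -W := by field_simp; ring
    rw [f1, h.RW] at e1
    rw [f2, h.RnW] at e2
    unfold gR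
    by_contra hcon
    push Not at hcon
    have : 0 ≤ W / t * (R t + R (-t)) := by positivity
    have h3 : 0 < (1 - W / t) * R 0 := mul_pos (by linarith) (by linarith)
    nlinarith
  rcases lt_or_ge 0 t with h0 | h0
  · exact key t (by rwa [abs_of_pos h0] at ht)
  · have := key (-t) (by rwa [abs_of_nonpos h0] at ht)
    unfold gR at *
    rw [neg_neg] at this
    linarith

theorem modG_lev (h : Hyp R W c m α β) (p : ℝ × ℝ) (hp : p ∈ KR R) : |p.2| ≤ W := by
  by_contra hcon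
  push Not at hcon
  have := modG_gR_neg h p.2 hcon
  simp only [KR, mem_ofPred_eq] at hp
  unfold gR at this
  linarith [hp.1, hp.2]

theorem modG_KR_closed (h : Hyp R W c m α β) : IsClosed (KR R) := by
  have hc := modG_cont h
  have h1 : IsClosed {p : ℝ × ℝ | p.1 ≤ R p.2} :=
    isClosed_le continuous_fst (hc.comp continuous_snd)
  have h2 : IsClosed {p : ℝ × ℝ | -p.1 ≤ R (-p.2)} :=
    isClosed_le continuous_fst.neg (hc.comp continuous_snd.neg)
  exact h1.inter h2

theorem modG_KR_compact (h : Hyp R W c m α β) : IsCompact (KR R) := by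
  apply IsCompact.of_isClosed_subset (isCompact_Icc (a := ((-9998.1 : ℝ), (-W : ℝ)))
    (b := ((9998.1 : ℝ), (W : ℝ)))) (modG_KR_closed h)
  intro p hp
  have h1 := abs_le.1 (modG_lev h p hp)
  simp only [KR, mem_ofPred_eq] at hp
  have h2 := modG_R_le h p.2
  have h3 := modG_R_le h (-p.2)
  simp only [mem_Icc, Prod.le_def]
  refine ⟨⟨?_, ?_⟩, ?_, ?_⟩ <;> linarith

end basics

theorem modG_tr_closed {K : Set (ℝ × ℝ)} (hK : IsClosed K) (ξ : ℝ) : IsClosed (tr ξ K) := by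
  have : Continuous (fun p : ℝ × ℝ => ((p.1 - ξ, p.2) : ℝ × ℝ)) := by fun_prop
  exact hK.preimage this

/-- connectedness along a segment -/
theorem modG_cross {K D : Set (ℝ × ℝ)} (hK : IsClosed K) (hDc : Convex ℝ D) {N : ℕ} {ξ : ℕ → ℝ}
    (hcov : ∀ p ∈ D, ∃ i ≤ N, p ∈ tr (ξ i) K) (k : ℕ) {d d' : ℝ × ℝ} (hd : d ∈ D) (hd' : d' ∈ D)
    (h1 : ∃ i ≤ k, d ∈ tr (ξ i) K) (h2 : ∃ j, k < j ∧ j ≤ N ∧ d' ∈ tr (ξ j) K) :
    ∃ l : ℝ, 0 ≤ l ∧ l ≤ 1 ∧ ∃ e ∈ D, e.1 = d.1 + l * (d'.1 - d.1) ∧ e.2 = d.2 + l * (d'.2 - d.2) ∧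
      (∃ i ≤ k, e ∈ tr (ξ i) K) ∧ (∃ j, k < j ∧ j ≤ N ∧ e ∈ tr (ξ j) K) := by
  have hA : IsClosed (⋃ i ∈ Finset.range (k + 1), tr (ξ i) K) :=
    isClosed_biUnion_finset (fun i _ => modG_tr_closed hK _)
  have hB : IsClosed (⋃ j ∈ Finset.Ioc k N, tr (ξ j) K) :=
    isClosed_biUnion_finset (fun i _ => modG_tr_closed hK _)
  have hconn : IsPreconnected (segment ℝ d d') := (convex_segment d d').isPreconnected
  rw [isPreconnected_closed_iff] at hconn
  have hsub : segment ℝ d d' ⊆ D := hDc.segment_subset hd hd'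
  obtain ⟨e, he, heA, heB⟩ := hconn _ _ hA hB (by
      intro e he
      obtain ⟨i, hi, hei⟩ := hcov e (hsub he)
      rcases le_or_gt i k with hik | hik
      · left; simp only [mem_iUnion, Finset.mem_range]; exact ⟨i, by omega, hei⟩
      · right; simp only [mem_iUnion, Finset.mem_Ioc]; exact ⟨i, ⟨hik, hi⟩, hei⟩)
    (by
      obtain ⟨i, hi, hdi⟩ := h1
      refine ⟨d, left_mem_segment ℝ d d', ?_⟩
      simp only [mem_iUnion, Finset.mem_range]; exact ⟨i, by omega, hdi⟩)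
    (by
      obtain ⟨j, hj, hjN, hdj⟩ := h2
      refine ⟨d', right_mem_segment ℝ d d', ?_⟩
      simp only [mem_iUnion, Finset.mem_Ioc]; exact ⟨j, ⟨hj, hjN⟩, hdj⟩)
  have heD := hsub he
  rw [segment_eq_image'] at he
  obtain ⟨l, hl, rfl⟩ := he
  refine ⟨l, hl.1, hl.2, _, heD, ?_, ?_, ?_, ?_⟩
  · simp
  · simp
  · simp only [mem_iUnion, Finset.mem_range] at heA
    obtain ⟨i, hi, hh⟩ := heA
    exact ⟨i, by omega, hh⟩
  · simp only [mem_iUnion, Finset.mem_Ioc] at heB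
    obtain ⟨j, hj, hh⟩ := heB
    exact ⟨j, hj.1, hj.2, hh⟩

/-- data of module G -/
structure modGD (R : ℝ → ℝ) (W c m α β : ℝ) (N : ℕ) (ξ mk : ℕ → ℝ) (D : Set (ℝ × ℝ)) : Prop where
  h : Hyp R W c m α β
  hN : 10 ≤ N
  hs : ∀ k < N, ξ (k + 1) - ξ k = gR R (mk k)
  hslo : ∀ k < N, 19400 ≤ ξ (k + 1) - ξ k
  hmk : ∀ k < N, 0 ≤ mk k ∧ mk k ≤ 300
  hmax : ∀ k < N, ∀ t, ξ (k + 1) - ξ k ≤ gR R t → |t| ≤ mk k
  hD : IsCompact D
  hDc : Convex ℝ D
  hcov : ∀ p ∈ D, ∃ i ≤ N, p ∈ tr (ξ i) (KR R)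
  hused : ∀ k < N, Used (KR R) ξ N D k

namespace modGD
variable {R : ℝ → ℝ} {W c m α β : ℝ} {N : ℕ} {ξ mk : ℕ → ℝ} {D : Set (ℝ × ℝ)}

theorem mono (G : modGD R W c m α β N ξ mk D) {i j : ℕ} (hij : i ≤ j) (hj : j ≤ N) : ξ i ≤ ξ j := by
  induction j, hij using Nat.le_induction with
  | base => exact le_rfl
  | succ j hij ih =>
    have := G.hslo j (by omega)
    have := ih (by omega)
    linarith

theorem mono' (G : modGD R W c m α β N ξ mk D) {i j : ℕ} (hij : i < j) (hj : j ≤ N) :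
    ξ i + 19400 ≤ ξ j := by
  have h1 := G.mono (show i + 1 ≤ j by omega) hj
  have h2 := G.hslo i (by omega)
  linarith

theorem shi (G : modGD R W c m α β N ξ mk D) {k : ℕ} (hk : k < N) : ξ (k + 1) - ξ k ≤ 19996.2 := by
  rw [G.hs k hk]
  unfold gR
  linarith [modG_R_le G.h (mk k), modG_R_le G.h (-mk k)]

theorem gap (G : modGD R W c m α β N ξ mk D) {k : ℕ} (hk : k < N) {e : ℝ × ℝ}
    (h1 : ∃ i ≤ k, e ∈ tr (ξ i) (KR R)) (h2 : ∃ j, k < j ∧ j ≤ N ∧ e ∈ tr (ξ j) (KR R)) :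
    |e.2| ≤ mk k ∧ e.1 ≤ ξ k + R e.2 ∧ ξ (k + 1) - R (-e.2) ≤ e.1 := by
  obtain ⟨i, hi, hei⟩ := h1
  obtain ⟨j, hj, hjN, hej⟩ := h2
  simp only [tr, KR, mem_ofPred_eq] at hei hej
  have m1 := G.mono hi (by omega)
  have m2 := G.mono (show k + 1 ≤ j by omega) hjN
  have a1 : e.1 ≤ ξ k + R e.2 := by linarith [hei.1]
  have a2 : ξ (k + 1) - R (-e.2) ≤ e.1 := by linarith [hej.2]
  refine ⟨G.hmax k hk _ ?_, a1, a2⟩
  unfold gR
  linarith

/-- the notch point of gap `k` -/
theorem notch (G : modGD R W c m α β N ξ mk D) {k : ℕ} (hk : k < N) :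
    ∃ p ∈ D, (∃ i ≤ k, p ∈ tr (ξ i) (KR R)) ∧ (∃ j, k < j ∧ j ≤ N ∧ p ∈ tr (ξ j) (KR R)) ∧
      |p.2| ≤ 300 ∧ ξ (k + 1) - 9998.1 ≤ p.1 ∧ p.1 ≤ ξ k + 9998.1 := by
  obtain ⟨p, hp, h1, h2⟩ := G.hused k hk
  obtain ⟨g1, g2, g3⟩ := G.gap hk h1 h2
  refine ⟨p, hp, h1, h2, g1.trans (G.hmk k hk).2, ?_, ?_⟩
  · linarith [modG_R_le G.h (-p.2)]
  · linarith [modG_R_le G.h p.2]

theorem in_tr_bounds (G : modGD R W c m α β N ξ mk D) {e : ℝ × ℝ} {j : ℕ}
    (he : e ∈ tr (ξ j) (KR R)) : ξ j - 9998.1 ≤ e.1 ∧ e.1 ≤ ξ j + 9998.1 ∧ |e.2| ≤ W := by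
  have := modG_lev G.h _ he
  simp only [tr, KR, mem_ofPred_eq] at he this
  have h1 := modG_R_le G.h e.2
  have h2 := modG_R_le G.h (-e.2)
  exact ⟨by linarith, by linarith, this⟩

theorem Xk (G : modGD R W c m α β N ξ mk D) {k : ℕ} (hk : k < N) :
    ξ k + R (mk k) = ξ (k + 1) - R (-mk k) ∧ ξ k + 9695 ≤ ξ k + R (mk k) ∧
      ξ k + R (mk k) ≤ ξ k + 9998.1 ∧ ξ k + R (mk k) ≤ ξ (k + 1) - 9695 := by
  have h1 := G.hs k hk
  unfold gR at h1
  have h2 := G.hmk k hk
  have h3 := modG_R_ge G.h (mk k) (by rw [abs_of_nonneg h2.1]; exact h2.2)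
  have h4 := modG_R_ge G.h (-mk k) (by rw [abs_neg, abs_of_nonneg h2.1]; exact h2.2)
  have h5 := modG_R_le G.h (mk k)
  refine ⟨by linarith, by linarith, by linarith, by linarith⟩

/-- contact, other point on the left -/
theorem contact_left (G : modGD R W c m α β N ξ mk D) {k : ℕ} (hk : k < N) {y : ℝ}
    (hd : (ξ k + R (mk k), y) ∈ D) (hy : mk k < y)
    (hj : ∃ j, k < j ∧ j ≤ N ∧ (ξ k + R (mk k), y) ∈ tr (ξ j) (KR R))
    {d' : ℝ × ℝ} (hd' : d' ∈ D) (hi : ∃ i ≤ k, d' ∈ tr (ξ i) (KR R))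
    (hfar : 1.001 * (y - d'.2) < ξ k + R (mk k) - d'.1) (_hdy : d'.2 < y) : False := by
  obtain ⟨l, l0, l1, e, heD, e1, e2, hA, hB⟩ := modG_cross (modG_KR_closed G.h) G.hDc G.hcov k hd' hd hi hj
  obtain ⟨g1, g2, g3⟩ := G.gap hk hA hB
  obtain ⟨x1, -, -, -⟩ := G.Xk hk
  have hlip := G.h.lip (-e.2) (-mk k)
  simp only at e1 e2
  have g1' := abs_le.1 g1
  have habs : |-e.2 - -mk k| = mk k - e.2 := by
    rw [show -e.2 - -mk k = mk k - e.2 by ring]
    exact abs_of_nonneg (by linarith [g1'.2])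
  rw [habs] at hlip
  have hl2 := (abs_le.1 hlip).2
  -- X - e.1 ≤ 1.001 (mk - e.2) < 1.001 (y - e.2)
  have h1 : ξ k + R (mk k) - e.1 ≤ 1.001 * (mk k - e.2) := by linarith
  have h2 : ξ k + R (mk k) - e.1 = (1 - l) * (ξ k + R (mk k) - d'.1) := by rw [e1]; ring
  have h3 : y - e.2 = (1 - l) * (y - d'.2) := by rw [e2]; ring
  have h4 : (1 - l) * (1.001 * (y - d'.2)) ≤ (1 - l) * (ξ k + R (mk k) - d'.1) :=
    mul_le_mul_of_nonneg_left hfar.le (by linarith)
  nlinarith

/-- contact, other point on the right -/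
theorem contact_right (G : modGD R W c m α β N ξ mk D) {k : ℕ} (hk : k < N) {y : ℝ}
    (hd : (ξ k + R (mk k), y) ∈ D) (hy : mk k < y)
    (hi : ∃ i ≤ k, (ξ k + R (mk k), y) ∈ tr (ξ i) (KR R))
    {d' : ℝ × ℝ} (hd' : d' ∈ D) (hj : ∃ j, k < j ∧ j ≤ N ∧ d' ∈ tr (ξ j) (KR R))
    (hfar : 1.001 * (y - d'.2) < d'.1 - (ξ k + R (mk k))) (_hdy : d'.2 < y) : False := by
  obtain ⟨l, l0, l1, e, heD, e1, e2, hA, hB⟩ := modG_cross (modG_KR_closed G.h) G.hDc G.hcov k hd hd' hi hj
  obtain ⟨g1, g2, g3⟩ := G.gap hk hA hB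
  have hlip := G.h.lip e.2 (mk k)
  simp only at e1 e2
  have g1' := abs_le.1 g1
  have habs : |e.2 - mk k| = mk k - e.2 := by
    rw [abs_sub_comm]
    exact abs_of_nonneg (by linarith [g1'.2])
  rw [habs] at hlip
  have hl2 := (abs_le.1 hlip).2
  have h1 : e.1 - (ξ k + R (mk k)) ≤ 1.001 * (mk k - e.2) := by linarith
  have h2 : e.1 - (ξ k + R (mk k)) = l * (d'.1 - (ξ k + R (mk k))) := by rw [e1]; ring
  have h3 : y - e.2 = l * (y - d'.2) := by rw [e2]; ring
  have h4 : l * (1.001 * (y - d'.2)) ≤ l * (d'.1 - (ξ k + R (mk k))) :=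
    mul_le_mul_of_nonneg_left hfar.le l0
  nlinarith

/-- (a): strong contact for the interior gaps -/
theorem top_mid (G : modGD R W c m α β N ξ mk D) {k : ℕ} (hk1 : 1 ≤ k) (hk : k + 2 ≤ N) {y : ℝ}
    (hd : (ξ k + R (mk k), y) ∈ D) : y ≤ mk k := by
  by_contra hcon
  push Not at hcon
  have hWhi := G.h.W_hi
  have hkN : k < N := by omega
  obtain ⟨j, hjN, hdj⟩ := G.hcov _ hd
  have hyW := (abs_le.1 (G.in_tr_bounds hdj).2.2).2
  simp only at hyW
  obtain ⟨x1, x2, x3, x4⟩ := G.Xk hkN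
  have m0 := (G.hmk k hkN).1
  rcases le_or_gt j k with hjk | hjk
  · -- use the notch point on the right
    obtain ⟨p, hp, -, ⟨b, hb1, hb2, hpb⟩, hp3, hp4, hp5⟩ := G.notch (show k + 1 < N by omega)
    have hp3' := abs_le.1 hp3
    have s0 := G.hslo k hkN
    have s1 := G.hslo (k + 1) (by omega)
    by_cases hpy : p.2 < y
    · exact G.contact_right hkN hd hcon ⟨j, hjk, hdj⟩ hp ⟨b, by omega, hb2, hpb⟩ (by
        linarith) hpy
    · -- p.2 ≥ y > mk: then still fine, choose: the difference is nonpositive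
      push Not at hpy
      obtain ⟨l, l0, l1, e, heD, e1, e2, hA, hB⟩ := modG_cross (modG_KR_closed G.h) G.hDc G.hcov k
        hd hp ⟨j, hjk, hdj⟩ ⟨b, by omega, hb2, hpb⟩
      obtain ⟨g1, g2, g3⟩ := G.gap hkN hA hB
      simp only at e1 e2
      have g1' := (abs_le.1 g1).2
      have : y ≤ e.2 := by rw [e2]; nlinarith
      linarith
  · obtain ⟨p, hp, ⟨b, hb1, hpb⟩, -, hp3, hp4, hp5⟩ := G.notch (show k - 1 < N by omega)
    have hp3' := abs_le.1 hp3
    have s0 := G.hslo (k - 1) (by omega)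
    rw [show k - 1 + 1 = k by omega] at s0 hp4
    by_cases hpy : p.2 < y
    · exact G.contact_left hkN hd hcon ⟨j, hjk, hjN, hdj⟩ hp ⟨b, by omega, hpb⟩ (by
        linarith) hpy
    · push Not at hpy
      obtain ⟨l, l0, l1, e, heD, e1, e2, hA, hB⟩ := modG_cross (modG_KR_closed G.h) G.hDc G.hcov k
        hp hd ⟨b, by omega, hpb⟩ ⟨j, hjk, hjN, hdj⟩
      obtain ⟨g1, g2, g3⟩ := G.gap hkN hA hB
      simp only at e1 e2
      have g1' := (abs_le.1 g1).2
      have : y ≤ e.2 := by rw [e2]; nlinarith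
      linarith

/-- point of `D` on the vertical line through `X` between two points of `D` -/
theorem between (G : modGD R W c m α β N ξ mk D) {d d' : ℝ × ℝ} (hd : d ∈ D) (hd' : d' ∈ D)
    (X : ℝ) (h1 : d.1 < X) (h2 : X < d'.1) :
    (X, (d.2 * (d'.1 - X) + d'.2 * (X - d.1)) / (d'.1 - d.1)) ∈ D := by
  have hpos : 0 < d'.1 - d.1 := by linarith
  have := G.hDc hd hd' (a := (d'.1 - X) / (d'.1 - d.1)) (b := (X - d.1) / (d'.1 - d.1))
    (div_nonneg (by linarith) hpos.le) (div_nonneg (by linarith) hpos.le) (by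
      field_simp; ring)
  convert this using 1
  ext
  · simp only [Prod.fst_add, Prod.smul_fst, smul_eq_mul]
    field_simp
    ring
  · simp only [Prod.snd_add, Prod.smul_snd, smul_eq_mul]
    field_simp

/-- (b): upper bound of the levels -/
theorem lev_upper (G : modGD R W c m α β N ξ mk D) {d : ℝ × ℝ} (hd : d ∈ D) : d.2 ≤ 1600 := by
  by_contra hcon
  push Not at hcon
  obtain ⟨j, hjN, hdj⟩ := G.hcov _ hd
  obtain ⟨b1, b2, b3⟩ := G.in_tr_bounds hdj
  have hNN := G.hN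
  rcases le_or_gt (j + 3) N with hj | hj
  · obtain ⟨p, hp, -, -, hp3, hp4, hp5⟩ := G.notch (show j + 2 < N by omega)
    have hp3' := abs_le.1 hp3
    have s0 := G.hslo j (by omega)
    have s1 := G.hslo (j + 1) (by omega)
    have s2 := G.hslo (j + 2) (by omega)
    have t0 := G.shi (show j < N by omega)
    have t1 := G.shi (show j + 1 < N by omega)
    obtain ⟨x1, x2, x3, x4⟩ := G.Xk (show j + 1 < N by omega)
    simp only [show j + 1 + 1 = j + 2 from rfl, show j + 2 + 1 = j + 3 from rfl] at *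
    have hX := G.between hd hp (ξ (j + 1) + R (mk (j + 1))) (by linarith) (by linarith)
    have hc := G.top_mid (show 1 ≤ j + 1 by omega) (by omega) hX
    have hmk := (G.hmk (j + 1) (by omega)).2
    have hpos : 0 < p.1 - d.1 := by linarith
    have hc2 : (d.2 * (p.1 - (ξ (j + 1) + R (mk (j + 1)))) +
      p.2 * (ξ (j + 1) + R (mk (j + 1)) - d.1)) / (p.1 - d.1) ≤ 300 := hc.trans hmk
    rw [div_le_iff₀ hpos] at hc2
    set X := ξ (j + 1) + R (mk (j + 1)) with hXdef
    have u1 : 18803 ≤ p.1 - X := by linarith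
    have u2 : X - d.1 ≤ 39993 := by linarith
    have u3 : 0 ≤ X - d.1 := by linarith
    nlinarith
  · obtain ⟨p, hp, -, -, hp3, hp4, hp5⟩ := G.notch (show j - 3 < N by omega)
    have hp3' := abs_le.1 hp3
    obtain ⟨q, rfl⟩ : ∃ q, j = q + 3 := ⟨j - 3, by omega⟩
    rw [show q + 3 - 3 = q by omega] at *
    have s0 := G.hslo q (by omega)
    have s1 := G.hslo (q + 1) (by omega)
    have s2 := G.hslo (q + 2) (by omega)
    have t0 := G.shi (show q + 1 < N by omega)
    have t1 := G.shi (show q + 2 < N by omega)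
    obtain ⟨x1, x2, x3, x4⟩ := G.Xk (show q + 1 < N by omega)
    simp only [show q + 1 + 1 = q + 2 from rfl, show q + 2 + 1 = q + 3 from rfl] at *
    have hX := G.between hp hd (ξ (q + 1) + R (mk (q + 1))) (by linarith) (by linarith)
    have hc := G.top_mid (show 1 ≤ q + 1 by omega) (by omega) hX
    have hmk := (G.hmk (q + 1) (by omega)).2
    have hpos : 0 < d.1 - p.1 := by linarith
    have hc2 := hc.trans hmk
    rw [div_le_iff₀ hpos] at hc2
    set X := ξ (q + 1) + R (mk (q + 1)) with hXdef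
    have u1 : 18803 ≤ X - p.1 := by linarith
    have u4 := modG_R_le G.h (-mk (q + 1))
    have u2 : d.1 - X ≤ 39993 := by linarith
    have u3 : 0 ≤ d.1 - X := by linarith
    nlinarith

/-- reflection in the origin -/
theorem reflect (G : modGD R W c m α β N ξ mk D) :
    modGD R W c m α β N (fun k => -ξ (N - k)) (fun k => mk (N - 1 - k)) (-D) := by
  have hN := G.hN
  refine ⟨G.h, G.hN, ?_, ?_, ?_, ?_, G.hD.neg, G.hDc.neg, ?_, ?_⟩
  · intro k hk
    have := G.hs (N - 1 - k) (by omega)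
    rw [show N - 1 - k + 1 = N - k by omega] at this
    show -ξ (N - (k + 1)) - -ξ (N - k) = _
    rw [show N - (k + 1) = N - 1 - k by omega]
    linarith
  · intro k hk
    have := G.hslo (N - 1 - k) (by omega)
    rw [show N - 1 - k + 1 = N - k by omega] at this
    show _ ≤ -ξ (N - (k + 1)) - -ξ (N - k)
    rw [show N - (k + 1) = N - 1 - k by omega]
    linarith
  · intro k hk
    exact G.hmk _ (by omega)
  · intro k hk t ht
    apply G.hmax (N - 1 - k) (by omega)
    rw [show N - 1 - k + 1 = N - k by omega]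
    change -ξ (N - (k + 1)) - -ξ (N - k) ≤ _ at ht
    rw [show N - (k + 1) = N - 1 - k by omega] at ht
    linarith
  · intro p hp
    obtain ⟨i, hi, hpi⟩ := G.hcov (-p) hp
    refine ⟨N - i, by omega, ?_⟩
    have := modG_KR_symm _ hpi
    simp only [tr, mem_ofPred_eq] at this ⊢
    rw [show N - (N - i) = i by omega]
    convert this using 2
    · simp [add_comm]
    · simp
  · intro k hk
    obtain ⟨p, hp, ⟨i, hi, hpi⟩, j, hj, hjN, hpj⟩ := G.hused (N - 1 - k) (by omega)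
    refine ⟨-p, by simpa using hp, ⟨N - j, by omega, ?_⟩, N - i, by omega, by omega, ?_⟩
    · have := modG_KR_symm _ hpj
      simp only [tr, mem_ofPred_eq] at this ⊢
      rw [show N - (N - j) = j by omega]
      convert this using 2
      · simp only [Prod.fst_neg]; ring
      · simp
    · have := modG_KR_symm _ hpi
      simp only [tr, mem_ofPred_eq] at this ⊢
      rw [show N - (N - i) = i by omega]
      convert this using 2
      · simp only [Prod.fst_neg]; ring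
      · simp

theorem lev (G : modGD R W c m α β N ξ mk D) {d : ℝ × ℝ} (hd : d ∈ D) : |d.2| ≤ 1600 := by
  rw [abs_le]
  refine ⟨?_, G.lev_upper hd⟩
  have := G.reflect.lev_upper (d := -d) (by simpa using hd)
  simp only [Prod.snd_neg] at this
  linarith

/-- (d), first gap -/
theorem top_first (G : modGD R W c m α β N ξ mk D) (hleft : ∃ p ∈ D, p.1 ≤ ξ 0 - 5000) {y : ℝ}
    (hd : (ξ 0 + R (mk 0), y) ∈ D) : y ≤ mk 0 := by
  by_contra hcon
  push Not at hcon
  have hNN := G.hN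
  have hkN : 0 < N := by omega
  obtain ⟨j, hjN, hdj⟩ := G.hcov _ hd
  have hyW := (abs_le.1 (G.lev hd)).2
  simp only at hyW
  obtain ⟨x1, x2, x3, x4⟩ := G.Xk hkN
  have m0 := (G.hmk 0 hkN).1
  rcases Nat.eq_zero_or_pos j with hj | hj
  · subst hj
    obtain ⟨p, hp, -, ⟨b, hb1, hb2, hpb⟩, hp3, hp4, hp5⟩ := G.notch (show 1 < N by omega)
    have hp3' := abs_le.1 hp3
    have s0 := G.hslo 0 hkN
    have s1 := G.hslo 1 (by omega)
    simp only [zero_add, show 1 + 1 = 2 from rfl] at *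
    by_cases hpy : p.2 < y
    · exact G.contact_right hkN hd hcon ⟨0, le_rfl, hdj⟩ hp ⟨b, by omega, hb2, hpb⟩ (by
        linarith) hpy
    · push Not at hpy
      obtain ⟨l, l0, l1, e, heD, e1, e2, hA, hB⟩ := modG_cross (modG_KR_closed G.h) G.hDc G.hcov 0
        hd hp ⟨0, le_rfl, hdj⟩ ⟨b, by omega, hb2, hpb⟩
      obtain ⟨g1, g2, g3⟩ := G.gap hkN hA hB
      simp only at e1 e2
      have g1' := (abs_le.1 g1).2
      have : y ≤ e.2 := by rw [e2]; nlinarith
      linarith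
  · obtain ⟨p, hp, hp1⟩ := hleft
    have hp3' := abs_le.1 (G.lev hp)
    obtain ⟨i, hi, hpi⟩ := G.hcov p hp
    have hi0 : i = 0 := by
      by_contra hne
      have := G.mono' (show 0 < i by omega) hi
      have := (G.in_tr_bounds hpi).1
      linarith
    subst hi0
    by_cases hpy : p.2 < y
    · exact G.contact_left hkN hd hcon ⟨j, hj, hjN, hdj⟩ hp ⟨0, le_rfl, hpi⟩ (by
        linarith) hpy
    · push Not at hpy
      obtain ⟨l, l0, l1, e, heD, e1, e2, hA, hB⟩ := modG_cross (modG_KR_closed G.h) G.hDc G.hcov 0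
        hp hd ⟨0, le_rfl, hpi⟩ ⟨j, hj, hjN, hdj⟩
      obtain ⟨g1, g2, g3⟩ := G.gap hkN hA hB
      simp only at e1 e2
      have g1' := (abs_le.1 g1).2
      have : y ≤ e.2 := by rw [e2]; nlinarith
      linarith

/-- (d), last gap -/
theorem top_last (G : modGD R W c m α β N ξ mk D) (hright : ∃ p ∈ D, ξ N + 5000 ≤ p.1) {k : ℕ}
    (hk : k + 1 = N) {y : ℝ} (hd : (ξ k + R (mk k), y) ∈ D) : y ≤ mk k := by
  by_contra hcon
  push Not at hcon
  have hNN := G.hN
  have hkN : k < N := by omega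
  obtain ⟨j, hjN, hdj⟩ := G.hcov _ hd
  have hyW := (abs_le.1 (G.lev hd)).2
  simp only at hyW
  obtain ⟨x1, x2, x3, x4⟩ := G.Xk hkN
  have m0 := (G.hmk k hkN).1
  have s0 := G.hslo k hkN
  rcases le_or_gt j k with hj | hj
  · obtain ⟨p, hp, hp1⟩ := hright
    have hp3' := abs_le.1 (G.lev hp)
    obtain ⟨i, hi, hpi⟩ := G.hcov p hp
    have hiN : i = N := by
      by_contra hne
      have := G.mono' (show i < N by omega) le_rfl
      have := (G.in_tr_bounds hpi).2.1
      linarith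
    subst hiN
    rw [hk] at x1 x4 s0
    by_cases hpy : p.2 < y
    · exact G.contact_right hkN hd hcon ⟨j, hj, hdj⟩ hp ⟨i, by omega, le_rfl, hpi⟩ (by
        linarith) hpy
    · push Not at hpy
      obtain ⟨l, l0, l1, e, heD, e1, e2, hA, hB⟩ := modG_cross (modG_KR_closed G.h) G.hDc G.hcov k
        hd hp ⟨j, hj, hdj⟩ ⟨i, by omega, le_rfl, hpi⟩
      obtain ⟨g1, g2, g3⟩ := G.gap hkN hA hB
      simp only at e1 e2
      have g1' := (abs_le.1 g1).2
      have : y ≤ e.2 := by rw [e2]; nlinarith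
      linarith
  · obtain ⟨q, rfl⟩ : ∃ q, k = q + 1 := ⟨k - 1, by omega⟩
    obtain ⟨p, hp, ⟨b, hb1, hpb⟩, -, hp3, hp4, hp5⟩ := G.notch (show q < N by omega)
    have hp3' := abs_le.1 hp3
    have s1 := G.hslo q (by omega)
    by_cases hpy : p.2 < y
    · exact G.contact_left hkN hd hcon ⟨j, hj, hjN, hdj⟩ hp ⟨b, by omega, hpb⟩ (by
        linarith) hpy
    · push Not at hpy
      obtain ⟨l, l0, l1, e, heD, e1, e2, hA, hB⟩ := modG_cross (modG_KR_closed G.h) G.hDc G.hcov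
        (q + 1) hp hd ⟨b, by omega, hpb⟩ ⟨j, hj, hjN, hdj⟩
      obtain ⟨g1, g2, g3⟩ := G.gap hkN hA hB
      simp only at e1 e2
      have g1' := (abs_le.1 g1).2
      have : y ≤ e.2 := by rw [e2]; nlinarith
      linarith

theorem top_all (G : modGD R W c m α β N ξ mk D) (hright : ∃ p ∈ D, ξ N + 5000 ≤ p.1)
    (hleft : ∃ p ∈ D, p.1 ≤ ξ 0 - 5000) (k : ℕ) (hk : k < N) (y : ℝ)
    (hd : (ξ k + R (mk k), y) ∈ D) : y ≤ mk k := by
  rcases Nat.eq_zero_or_pos k with h0 | h0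
  · subst h0; exact G.top_first hleft hd
  · rcases Nat.lt_or_ge (k + 1) N with h1 | h1
    · exact G.top_mid h0 (by omega) hd
    · exact G.top_last hright (by omega) hd

theorem sum_s (ξ : ℕ → ℝ) (N : ℕ) : ∑ k ∈ Finset.range N, (ξ (k + 1) - ξ k) = ξ N - ξ 0 :=
  Finset.sum_range_sub ξ N

end modGD

section basics2
variable {R : ℝ → ℝ} {W c m α β : ℝ}

theorem modG_gR_nonneg (h : Hyp R W c m α β) (t : ℝ) (ht : |t| ≤ W) : 0 ≤ R t + R (-t) := by
  have hW : 0 < W := by linarith [h.W_lo]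
  have ht' := abs_le.1 ht
  -- t = a * W + b * (-W)
  have h1 := modG_conc h W (-W) ((W + t) / (2 * W)) ((W - t) / (2 * W))
    (div_nonneg (by linarith) (by linarith)) (div_nonneg (by linarith) (by linarith)) (by
      field_simp; ring)
  have h2 := modG_conc h W (-W) ((W - t) / (2 * W)) ((W + t) / (2 * W))
    (div_nonneg (by linarith) (by linarith)) (div_nonneg (by linarith) (by linarith)) (by
      field_simp; ring)
  have e1 : (W + t) / (2 * W) * W + (W - t) / (2 * W) * (-W) = t := by field_simp; ring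
  have e2 : (W - t) / (2 * W) * W + (W + t) / (2 * W) * (-W) = -t := by field_simp; ring
  rw [e1, h.RW, h.RnW] at h1
  rw [e2, h.RW, h.RnW] at h2
  linarith

end basics2

namespace modGD
variable {R : ℝ → ℝ} {W c m α β : ℝ} {N : ℕ} {ξ mk : ℕ → ℝ} {D : Set (ℝ × ℝ)}

/-- (c) -/
theorem far_right (G : modGD R W c m α β N ξ mk D)
    (Fs : ℝ) (hFs : 7.99 * 10 ^ 9 ≤ Fs) (hF : ∀ k < N, FR R W (mk k) ≤ Fs)
    (hvolK : volume (KR R) ≤ ENNReal.ofReal (2 * 10 ^ 8))
    (hvol : ENNReal.ofReal ((N + 1) * Fs) + ENNReal.ofReal 400 * volume (KR R)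
      ≤ volume (D + (20 : ℝ) • KR R)) : ∃ p ∈ D, ξ N + 5000 ≤ p.1 := by
  by_contra hcon
  push Not at hcon
  have hW := G.h.W_lo
  have hN := G.hN
  have hK := modG_KR_compact G.h
  have hE : IsCompact (D + (20 : ℝ) • KR R) := G.hD.add (hK.smul 20)
  have hsum : (3290 : ℝ) ≤ ∑ k ∈ Finset.range N, (ξ (k + 1) - ξ k) := by
    rw [sum_s]
    have := G.mono' (show 0 < N by omega) le_rfl
    linarith
  have key := vol_le_slices (KR R) (D + (20 : ℝ) • KR R) hK (modG_KR_convex G.h) hE 20 W 3290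
    (by norm_num) (by linarith) (by norm_num) N (fun k => ξ (k + 1) - ξ k) mk
    (fun k hk => by have := G.hslo k hk; show 0 ≤ ξ (k + 1) - ξ k; linarith)
    (fun k hk => (G.hmk k hk).1) hsum (by
      intro y x₁ x₂ h1 h2
      by_cases hy : |y| ≤ 20 * W
      · refine ⟨-(21 * R (-(y / 21))), 21 * R (y / 21), ?_, ?_, ?_⟩
        · refine ⟨(-R (-(y / 21)), y / 21), ?_, ?_⟩
          · have := modG_gR_nonneg G.h (y / 21) (by
              rw [abs_div, abs_of_pos (show (0:ℝ) < 21 by norm_num), div_le_iff₀ (by norm_num)]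
              linarith)
            simp only [KR, mem_ofPred_eq, neg_neg]
            exact ⟨by linarith, le_rfl⟩
          · ext
            · simp only [Prod.smul_mk, smul_eq_mul]; ring
            · simp only [Prod.smul_mk, smul_eq_mul]; ring
        · refine ⟨(R (y / 21), y / 21), ?_, ?_⟩
          · have := modG_gR_nonneg G.h (y / 21) (by
              rw [abs_div, abs_of_pos (show (0:ℝ) < 21 by norm_num), div_le_iff₀ (by norm_num)]
              linarith)
            simp only [KR, mem_ofPred_eq]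
            exact ⟨le_rfl, by linarith⟩
          · ext
            · simp only [Prod.smul_mk, smul_eq_mul]; ring
            · simp only [Prod.smul_mk, smul_eq_mul]; ring
        · rw [if_pos hy]
          have hs : (∑ k ∈ Finset.range N, if |y| ≤ 20 * W + mk k then ξ (k + 1) - ξ k else 0) =
              ξ N - ξ 0 := by
            rw [← sum_s]
            apply Finset.sum_congr rfl
            intro k hk
            rw [if_pos]
            have := (G.hmk k (Finset.mem_range.1 hk)).1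
            linarith
          rw [hs]
          obtain ⟨d, hd, k, ⟨κ, hκ, rfl⟩, hdk⟩ := h2
          obtain ⟨d', hd', k', ⟨κ', hκ', rfl⟩, hdk'⟩ := h1
          simp only [Prod.ext_iff, Prod.fst_add, Prod.snd_add, Prod.smul_fst, Prod.smul_snd,
            smul_eq_mul] at hdk hdk'
          have c1 := hcon d hd
          have l1 := G.lev hd
          -- right end
          have r1 : κ.1 ≤ R κ.2 := hκ.1
          have r2 := G.h.lip κ.2 (y / 20)
          have r3 : |κ.2 - y / 20| ≤ 80 := by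
            have : κ.2 - y / 20 = -(d.2 / 20) := by linarith [hdk.2]
            rw [this, abs_neg, abs_div, abs_of_pos (show (0:ℝ) < 20 by norm_num)]
            linarith
          have r4 := (abs_le.1 r2).2
          have r5 := modG_conc G.h (y / 20) 0 (20 / 21) (1 / 21) (by norm_num) (by norm_num)
            (by norm_num)
          rw [show (20 / 21 : ℝ) * (y / 20) + 1 / 21 * 0 = y / 21 by ring] at r5
          have r6 := modG_R_zero G.h
          -- left end
          obtain ⟨i, hi, hdi⟩ := G.hcov d' hd'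
          have q1 : -(d'.1 - ξ i) ≤ R (-d'.2) := hdi.2
          have q2 := G.mono (Nat.zero_le i) hi
          have q3 : -κ'.1 ≤ R (-κ'.2) := hκ'.2
          have q4 := modG_conc G.h (-κ'.2) (-d'.2) (20 / 21) (1 / 21) (by norm_num) (by norm_num)
            (by norm_num)
          rw [show (20 / 21 : ℝ) * (-κ'.2) + 1 / 21 * (-d'.2) = -(y / 21) by linarith [hdk'.2]] at q4
          linarith [hdk.1, hdk'.1]
      · rw [if_neg hy]
        obtain ⟨z₁, z₂, hz1, hz2, hz⟩ := slice_HS (KR R) D hK (modG_KR_convex G.h) G.hD G.hDc N ξ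
          (fun k hk => by have := G.hslo k hk; linarith) G.hcov 20 W (by norm_num)
          (fun p hp => modG_lev G.h p hp) mk (fun k hk p _ h1 h2 => (G.gap hk h1 h2).1) y x₁ x₂ h1 h2
        refine ⟨z₁, z₂, hz1, hz2, ?_⟩
        have hs : (∑ k ∈ Finset.range N, open Classical in
            if Used (KR R) ξ N D k ∧ |y| ≤ 20 * W + mk k then ξ (k + 1) - ξ k else 0) =
            ∑ k ∈ Finset.range N, if |y| ≤ 20 * W + mk k then ξ (k + 1) - ξ k else 0 := by
          apply Finset.sum_congr rfl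
          intro k hk
          have hu := G.hused k (Finset.mem_range.1 hk)
          by_cases hyk : |y| ≤ 20 * W + mk k
          · rw [if_pos ⟨hu, hyk⟩, if_pos hyk]
          · rw [if_neg (fun hh => hyk hh.2), if_neg hyk]
        rw [hs] at hz
        linarith)
  have hsumF : ∑ k ∈ Finset.range N, (ξ (k + 1) - ξ k) * (2 * 20 * W + 2 * mk k) ≤ N * Fs := by
    calc _ ≤ ∑ k ∈ Finset.range N, Fs := by
          apply Finset.sum_le_sum
          intro k hk
          have hk' := Finset.mem_range.1 hk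
          have := hF k hk'
          unfold FR at this
          rw [G.hs k hk']
          linarith
      _ = N * Fs := by simp
  have hfin : volume (KR R) ≠ ⊤ := hK.measure_lt_top.ne
  obtain ⟨v, hv0, hv⟩ : ∃ v : ℝ, 0 ≤ v ∧ volume (KR R) = ENNReal.ofReal v :=
    ⟨(volume (KR R)).toReal, ENNReal.toReal_nonneg, (ENNReal.ofReal_toReal hfin).symm⟩
  rw [hv] at hvolK hvol key
  have hv2 : v ≤ 2 * 10 ^ 8 := (ENNReal.ofReal_le_ofReal_iff (by norm_num)).1 hvolK
  have hNF : 0 ≤ (N : ℝ) * Fs := by positivity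
  have c1 : ENNReal.ofReal ((N + 1) * Fs) + ENNReal.ofReal 400 * ENNReal.ofReal v +
      ENNReal.ofReal (2 * 20 * W * 3290) ≤
      ENNReal.ofReal (N * Fs) + ENNReal.ofReal ((1 + 20) ^ 2) * ENNReal.ofReal v := by
    calc _ ≤ volume (D + (20 : ℝ) • KR R) + ENNReal.ofReal (2 * 20 * W * 3290) :=
          add_le_add hvol le_rfl
      _ ≤ _ := key
      _ ≤ _ := add_le_add (ENNReal.ofReal_le_ofReal hsumF) le_rfl
  rw [← ENNReal.ofReal_mul (by norm_num), ← ENNReal.ofReal_mul (by norm_num),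
    ← ENNReal.ofReal_add (by positivity) (by positivity),
    ← ENNReal.ofReal_add (by positivity) (by nlinarith),
    ← ENNReal.ofReal_add (by positivity) (by positivity),
    ENNReal.ofReal_le_ofReal_iff (by positivity)] at c1
  nlinarith

theorem vol_reflect (R : ℝ → ℝ) (D : Set (ℝ × ℝ)) :
    volume (-D + (20 : ℝ) • KR R) = volume (D + (20 : ℝ) • KR R) := by
  have hs : -((20 : ℝ) • KR R) = (20 : ℝ) • KR R := by
    ext p
    constructor
    · rintro ⟨q, hq, hqp⟩
      refine ⟨-q, modG_KR_symm _ hq, ?_⟩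
      simp only [smul_neg]
      change (20 : ℝ) • q = -p at hqp
      rw [hqp, neg_neg]
    · rintro ⟨q, hq, rfl⟩
      refine ⟨-q, modG_KR_symm _ hq, ?_⟩
      simp
  have : -D + (20 : ℝ) • KR R = -(D + (20 : ℝ) • KR R) := by
    rw [neg_add, hs]
  rw [this, Measure.measure_neg]

end modGD

theorem rough {R : ℝ → ℝ} {W c m α β : ℝ} (h : Hyp R W c m α β) (N : ℕ) (hN : 10 ≤ N)
    (ξ mk : ℕ → ℝ) (hs : ∀ k < N, ξ (k + 1) - ξ k = gR R (mk k))
    (hslo : ∀ k < N, 19400 ≤ ξ (k + 1) - ξ k) (hmk : ∀ k < N, 0 ≤ mk k ∧ mk k ≤ 300)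
    (hmax : ∀ k < N, ∀ t, ξ (k + 1) - ξ k ≤ gR R t → |t| ≤ mk k)
    (D : Set (ℝ × ℝ)) (hD : IsCompact D) (hDc : Convex ℝ D)
    (hcov : ∀ p ∈ D, ∃ i ≤ N, p ∈ tr (ξ i) (KR R))
    (hused : ∀ k < N, Used (KR R) ξ N D k)
    (Fs : ℝ) (hFs : 7.99 * 10 ^ 9 ≤ Fs) (hF : ∀ k < N, FR R W (mk k) ≤ Fs)
    (hvolK : volume (KR R) ≤ ENNReal.ofReal (2 * 10 ^ 8))
    (hvol : ENNReal.ofReal ((N + 1) * Fs) + ENNReal.ofReal 400 * volume (KR R)
      ≤ volume (D + (20 : ℝ) • KR R)) :
    (∀ p ∈ D, |p.2| ≤ 1700) ∧ (∃ p ∈ D, ξ N + 5000 ≤ p.1) ∧ (∃ p ∈ D, p.1 ≤ ξ 0 - 5000) ∧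
    (∀ k < N, ∀ y, (ξ k + R (mk k), y) ∈ D → y ≤ mk k) ∧
    (∀ k < N, ∀ y, (ξ k + R (-mk k), y) ∈ D → -mk k ≤ y) := by
  have G : modGD R W c m α β N ξ mk D := ⟨h, hN, hs, hslo, hmk, hmax, hD, hDc, hcov, hused⟩
  have hright := G.far_right Fs hFs hF hvolK hvol
  have G' := G.reflect
  have hright' := G'.far_right Fs hFs (fun k hk => hF _ (by omega)) hvolK (by
    rw [modGD.vol_reflect]; exact hvol)
  simp only [Nat.sub_self] at hright'
  have hleft : ∃ p ∈ D, p.1 ≤ ξ 0 - 5000 := by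
    obtain ⟨p, hp, hp1⟩ := hright'
    exact ⟨-p, hp, by simp only [Prod.fst_neg]; linarith⟩
  have hleft' : ∃ p ∈ -D, p.1 ≤ (fun k => -ξ (N - k)) 0 - 5000 := by
    obtain ⟨p, hp, hp1⟩ := hright
    exact ⟨-p, by simpa using hp, by simp only [Prod.fst_neg, Nat.sub_zero]; linarith⟩
  refine ⟨fun p hp => (G.lev hp).trans (by norm_num), hright, hleft,
    G.top_all hright hleft, ?_⟩
  intro k hk y hy
  have hs' := hs k hk
  unfold gR at hs'
  have := G'.top_all (by simpa only [Nat.sub_self] using hright') hleft' (N - 1 - k) (by omega) (-y) (by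
    show (-ξ (N - (N - 1 - k)) + R (mk (N - 1 - (N - 1 - k))), -y) ∈ -D
    rw [show N - (N - 1 - k) = k + 1 by omega, show N - 1 - (N - 1 - k) = k by omega]
    show -(-ξ (k + 1) + R (mk k), -y) ∈ D
    convert hy using 1
    ext
    · simp only [Prod.fst_neg]; linarith
    · simp)
  rw [show N - 1 - (N - 1 - k) = k by omega] at this
  linarith

end ZZ
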